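import Mathlib
import Pool.Agent.GR.Flow

set_option autoImplicit false
set_option linter.unusedVariables false

open Set Metric Filter Topology
open scoped ContDiff InnerProductSpace NNReal Manifold

namespace Pool.Agent.H864R3

/-- a compact surface in a Euclidean space together with a smooth neighbourhood retraction
whose derivative along the surface is the orthogonal projection to the tangent plane -/
structure RS (E : Type) [NormedAddCommGroup E] [InnerProductSpace ℝ E]
    [FiniteDimensional ℝ E] where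
  S : Set E
  U : Set E
  π : E → E
  cpt : IsCompact S
  hU : IsOpen U
  hSU : S ⊆ U
  smooth : ContDiff ℝ ∞ π
  hπU : ∀ y ∈ U, π y ∈ S
  hπS : ∀ x ∈ S, π x = x
  symm : ∀ x ∈ S, ∀ a b, ⟪fderiv ℝ π x a, b⟫_ℝ = ⟪a, fderiv ℝ π x b⟫_ℝ
  rank : ∀ x ∈ S, Module.finrank ℝ (LinearMap.range (fderiv ℝ π x).toLinearMap) = 2

variable {E : Type} [NormedAddCommGroup E] [InnerProductSpace ℝ E] [FiniteDimensional ℝ E]

namespace RS

variable (S : RS E)

/-- derivative of the retraction; the orthogonal projection onto the tangent plane on `S` -/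
noncomputable def P (x : E) : E →L[ℝ] E := fderiv ℝ S.π x

/-- second derivative of the retraction; the second fundamental form -/
noncomputable def B (x : E) : E →L[ℝ] E →L[ℝ] E := fderiv ℝ S.P x

lemma P_smooth : ContDiff ℝ ∞ S.P := by
  unfold P
  exact S.smooth.fderiv_right (by simp)

lemma B_smooth : ContDiff ℝ ∞ S.B := by
  unfold B
  exact S.P_smooth.fderiv_right (by simp)

lemma π_cont : Continuous S.π := S.smooth.continuous
lemma P_cont : Continuous S.P := S.P_smooth.continuous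
lemma B_cont : Continuous S.B := S.B_smooth.continuous

lemma hasFDerivAt_π (x : E) : HasFDerivAt S.π (S.P x) x :=
  (S.smooth.differentiable (by simp) x).hasFDerivAt

lemma hasFDerivAt_P (x : E) : HasFDerivAt S.P (S.B x) x :=
  (S.P_smooth.differentiable (by simp) x).hasFDerivAt

lemma B_symm (x h k : E) : S.B x h k = S.B x k h := by
  have h1 : IsSymmSndFDerivAt ℝ S.π x := by
    apply S.smooth.contDiffAt.isSymmSndFDerivAt
    simp only [minSmoothness_of_isRCLikeNormedField]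
    exact WithTop.coe_le_coe.2 (le_top : (2:ℕ∞) ≤ ⊤)
  exact h1 h k

lemma PP_of_U {y : E} (hy : y ∈ S.U) (k : E) : S.P (S.π y) (S.P y k) = S.P y k := by
  have h1 : HasFDerivAt (fun z => S.π (S.π z)) ((S.P (S.π y)).comp (S.P y)) y :=
    (S.hasFDerivAt_π (S.π y)).comp y (S.hasFDerivAt_π y)
  have h2 : (fun z => S.π (S.π z)) =ᶠ[𝓝 y] S.π := by
    filter_upwards [S.hU.mem_nhds hy] with z hz
    exact S.hπS _ (S.hπU z hz)
  have h3 : HasFDerivAt (fun z => S.π (S.π z)) (S.P y) y :=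
    (S.hasFDerivAt_π y).congr_of_eventuallyEq h2
  have h4 := h1.unique h3
  have := congrArg (fun L : E →L[ℝ] E => L k) h4
  simpa using this

lemma PP {x : E} (hx : x ∈ S.S) (k : E) : S.P x (S.P x k) = S.P x k := by
  have := S.PP_of_U (S.hSU hx) k
  rwa [S.hπS x hx] at this

lemma B_identity {x : E} (hx : x ∈ S.S) (h k : E) :
    S.B x (S.P x h) (S.P x k) + S.P x (S.B x h k) = S.B x h k := by
  have h1 : HasFDerivAt (fun y => S.P (S.π y) (S.P y k))
      (((S.P (S.π x)).comp ((S.B x).flip k)) +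
        (((S.B (S.π x)).comp (S.P x)).flip (S.P x k))) x := by
    have a1 : HasFDerivAt (fun y => S.P (S.π y)) ((S.B (S.π x)).comp (S.P x)) x :=
      (S.hasFDerivAt_P (S.π x)).comp x (S.hasFDerivAt_π x)
    have a2 : HasFDerivAt (fun y => S.P y k) ((S.B x).flip k) x := by
      have := (S.hasFDerivAt_P x).clm_apply (hasFDerivAt_const k x)
      refine this.congr_fderiv ?_
      ext v; simp
    have := a1.clm_apply a2
    exact this
  have h2 : (fun y => S.P (S.π y) (S.P y k)) =ᶠ[𝓝 x] fun y => S.P y k := by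
    filter_upwards [S.hU.mem_nhds (S.hSU hx)] with z hz
    exact S.PP_of_U hz k
  have h3 : HasFDerivAt (fun y => S.P y k) ((S.B x).flip k) x := by
    have := (S.hasFDerivAt_P x).clm_apply (hasFDerivAt_const k x)
    refine this.congr_fderiv ?_
    ext v; simp
  have h4 := h1.unique (h3.congr_of_eventuallyEq h2)
  have := congrArg (fun L : E →L[ℝ] E => L h) h4
  simp only [add_apply, ContinuousLinearMap.comp_apply,
    ContinuousLinearMap.flip_apply] at this
  rw [S.hπS x hx] at this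
  rw [add_comm]
  exact this

/-- the second fundamental form is normal -/
lemma P_B {x : E} (hx : x ∈ S.S) {h k : E} (hh : S.P x h = h) (hk : S.P x k = k) :
    S.P x (S.B x h k) = 0 := by
  have := S.B_identity hx h k
  rw [hh, hk] at this
  simpa using this

lemma inner_P {x : E} (hx : x ∈ S.S) (a b : E) : ⟪S.P x a, b⟫_ℝ = ⟪a, S.P x b⟫_ℝ :=
  S.symm x hx a b

lemma inner_B {x : E} (hx : x ∈ S.S) {h k v : E} (hh : S.P x h = h) (hk : S.P x k = k)
    (hv : S.P x v = v) : ⟪S.B x h k, v⟫_ℝ = 0 := by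
  rw [← hv, ← S.inner_P hx, S.P_B hx hh hk, inner_zero_left]

lemma inner_B' {x : E} (hx : x ∈ S.S) {h k v : E} (hh : S.P x h = h) (hk : S.P x k = k)
    (hv : S.P x v = v) : ⟪v, S.B x h k⟫_ℝ = 0 := by
  rw [real_inner_comm]; exact S.inner_B hx hh hk hv

/-- orthonormal frames of the surface -/
def FB : Set (E × E × E) :=
  {f | f.1 ∈ S.S ∧ S.P f.1 f.2.1 = f.2.1 ∧ S.P f.1 f.2.2 = f.2.2 ∧ ‖f.2.1‖ = 1 ∧ ‖f.2.2‖ = 1 ∧
    ⟪f.2.1, f.2.2⟫_ℝ = 0}

/-- pairs of tangent vectors with the norm bound -/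
def M (R : ℝ) : Set (E × E × E) :=
  {f | f.1 ∈ S.S ∧ S.P f.1 f.2.1 = f.2.1 ∧ S.P f.1 f.2.2 = f.2.2 ∧ ‖f.2.1‖ ≤ R ∧ ‖f.2.2‖ ≤ R}

lemma FB_sub_M {f : E × E × E} (hf : f ∈ S.FB) {R : ℝ} (hR : 1 ≤ R) : f ∈ S.M R :=
  ⟨hf.1, hf.2.1, hf.2.2.1, hf.2.2.2.1.le.trans hR, hf.2.2.2.2.1.le.trans hR⟩

lemma M_compact (R : ℝ) : IsCompact (S.M R) := by
  have h2 : IsCompact (S.S ×ˢ (closedBall (0:E) R ×ˢ closedBall (0:E) R)) :=
    S.cpt.prod ((isCompact_closedBall _ _).prod (isCompact_closedBall _ _))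
  have h3 : S.M R = (S.S ×ˢ (closedBall (0:E) R ×ˢ closedBall (0:E) R)) ∩
      ({f | S.P f.1 f.2.1 = f.2.1} ∩ {f | S.P f.1 f.2.2 = f.2.2}) := by
    ext f
    simp only [M, mem_ofPred_eq, mem_inter_iff, mem_prod, mem_closedBall_zero_iff]
    tauto
  rw [h3]
  refine h2.inter_right (IsClosed.inter ?_ ?_)
  · exact isClosed_eq ((S.P_cont.comp continuous_fst).clm_apply (continuous_fst.comp continuous_snd))
      (continuous_fst.comp continuous_snd)
  · exact isClosed_eq ((S.P_cont.comp continuous_fst).clm_apply (continuous_snd.comp continuous_snd))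
      (continuous_snd.comp continuous_snd)

lemma FB_compact : IsCompact S.FB := by
  have h3 : S.FB = S.M 1 ∩ ({f | ‖f.2.1‖ = 1} ∩ ({f | ‖f.2.2‖ = 1} ∩ {f | ⟪f.2.1, f.2.2⟫_ℝ = 0})) := by
    ext f
    simp only [FB, M, mem_ofPred_eq, mem_inter_iff]
    constructor
    · rintro ⟨a, b, c, d, e, g⟩; exact ⟨⟨a, b, c, d.le, e.le⟩, d, e, g⟩
    · rintro ⟨⟨a, b, c, _, _⟩, d, e, g⟩; exact ⟨a, b, c, d, e, g⟩
  rw [h3]
  refine (S.M_compact 1).inter_right (IsClosed.inter ?_ (IsClosed.inter ?_ ?_))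
  · exact isClosed_eq (continuous_norm.comp (continuous_fst.comp continuous_snd)) continuous_const
  · exact isClosed_eq (continuous_norm.comp (continuous_snd.comp continuous_snd)) continuous_const
  · exact isClosed_eq ((continuous_fst.comp continuous_snd).inner (continuous_snd.comp continuous_snd))
      continuous_const

/-- the geodesic frame field -/
noncomputable def X0 (f : E × E × E) : E × E × E :=
  (f.2.1, S.B f.1 f.2.1 f.2.1, S.B f.1 f.2.1 f.2.2)

lemma X0_smooth : ContDiff ℝ ∞ S.X0 := by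
  unfold X0
  have h1 : ContDiff ℝ ∞ (fun f : E × E × E => S.B f.1) := S.B_smooth.comp contDiff_fst
  have h2 : ContDiff ℝ ∞ (fun f : E × E × E => f.2.1) := contDiff_fst.comp contDiff_snd
  have h3 : ContDiff ℝ ∞ (fun f : E × E × E => f.2.2) := contDiff_snd.comp contDiff_snd
  exact h2.prodMk (((h1.clm_apply h2).clm_apply h2).prodMk ((h1.clm_apply h2).clm_apply h3))

/-- spanning by a frame -/
lemma frame_expand {f : E × E × E} (hf : f ∈ S.FB) {ξ : E} (hξ : S.P f.1 ξ = ξ) :
    ξ = ⟪ξ, f.2.1⟫_ℝ • f.2.1 + ⟪ξ, f.2.2⟫_ℝ • f.2.2 := by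
  obtain ⟨h1, h2, h3, h4, h5, h6⟩ := hf
  set R := LinearMap.range (S.P f.1).toLinearMap with hR
  have hrank : Module.finrank ℝ R = 2 := S.rank f.1 h1
  have m1 : f.2.1 ∈ R := ⟨f.2.1, h2⟩
  have m2 : f.2.2 ∈ R := ⟨f.2.2, h3⟩
  have m3 : ξ ∈ R := ⟨ξ, hξ⟩
  have hle : Submodule.span ℝ {f.2.1, f.2.2} ≤ R := by
    rw [Submodule.span_le]
    intro z hz
    rcases hz with rfl | rfl
    · exact m1
    · exact m2
  have hli : LinearIndependent ℝ ![f.2.1, f.2.2] := by
    rw [LinearIndependent.pair_iff]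
    intro s t hst
    have a1 := congrArg (fun z => ⟪z, f.2.1⟫_ℝ) hst
    have a2 := congrArg (fun z => ⟪z, f.2.2⟫_ℝ) hst
    simp only [inner_add_left, real_inner_smul_left, inner_zero_left] at a1 a2
    rw [real_inner_self_eq_norm_sq, real_inner_comm, h6, h4] at a1
    rw [real_inner_self_eq_norm_sq, h6, h5] at a2
    constructor <;> linarith
  have hfr : Module.finrank ℝ (Submodule.span ℝ {f.2.1, f.2.2}) = 2 := by
    have h8 := finrank_span_eq_card hli
    have h9 : Set.range ![f.2.1, f.2.2] = {f.2.1, f.2.2} := by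
      simp [Matrix.range_cons, Set.pair_comm]
    rw [← h9]
    simpa using h8
  have heq : Submodule.span ℝ {f.2.1, f.2.2} = R :=
    Submodule.eq_of_le_of_finrank_eq hle (by rw [hfr, hrank])
  rw [← heq, Submodule.mem_span_pair] at m3
  obtain ⟨a, b, hab⟩ := m3
  have a1 : ⟪ξ, f.2.1⟫_ℝ = a := by
    rw [← hab, inner_add_left, real_inner_smul_left, real_inner_smul_left,
      real_inner_self_eq_norm_sq, real_inner_comm, h6, h4]; ring
  have a2 : ⟪ξ, f.2.2⟫_ℝ = b := by
    rw [← hab, inner_add_left, real_inner_smul_left, real_inner_smul_left,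
      real_inner_self_eq_norm_sq, h6, h5]; ring
  rw [a1, a2, hab]

/-- existence of a frame with given unit first vector -/
lemma exists_frame {x w : E} (hx : x ∈ S.S) (hw : S.P x w = w) (hw1 : ‖w‖ = 1) :
    ∃ n, (x, w, n) ∈ S.FB := by
  set R := LinearMap.range (S.P x).toLinearMap with hR
  have hrank : Module.finrank ℝ R = 2 := S.rank x hx
  have hlt : ¬ (R ≤ Submodule.span ℝ {w}) := by
    intro hle
    have h1 := Submodule.finrank_mono hle
    have h2 : Module.finrank ℝ (Submodule.span ℝ {w}) ≤ 1 := by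
      have := finrank_span_le_card (R := ℝ) ({w} : Set E)
      simpa using this
    omega
  obtain ⟨z, hz, hz2⟩ := Set.not_subset.1 hlt
  have hzP : S.P x z = z := by
    obtain ⟨y, rfl⟩ := hz
    exact S.PP hx y
  set n' := z - ⟪z, w⟫_ℝ • w with hn'
  have hn0 : n' ≠ 0 := by
    intro h
    apply hz2
    have : z = ⟪z, w⟫_ℝ • w := by rw [← sub_eq_zero]; exact h
    rw [this]
    exact Submodule.smul_mem _ _ (Submodule.mem_span_singleton_self w)
  have hnP : S.P x n' = n' := by rw [hn', map_sub, map_smul, hw, hzP]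
  have hnw : ⟪w, n'⟫_ℝ = 0 := by
    rw [hn', inner_sub_right, real_inner_smul_right, real_inner_self_eq_norm_sq, hw1,
      real_inner_comm]; ring
  refine ⟨‖n'‖⁻¹ • n', hx, hw, ?_, hw1, ?_, ?_⟩
  · show S.P x (‖n'‖⁻¹ • n') = ‖n'‖⁻¹ • n'
    rw [map_smul, hnP]
  · show ‖‖n'‖⁻¹ • n'‖ = 1
    rw [norm_smul, norm_inv, norm_norm, inv_mul_cancel₀ (norm_ne_zero_iff.2 hn0)]
  · show ⟪w, ‖n'‖⁻¹ • n'⟫_ℝ = 0
    rw [real_inner_smul_right, hnw, mul_zero]

lemma exists_frame' {x : E} (hx : x ∈ S.S) : ∃ w n, (x, w, n) ∈ S.FB := by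
  set R := LinearMap.range (S.P x).toLinearMap with hR
  have hrank : Module.finrank ℝ R = 2 := S.rank x hx
  have hne : R ≠ ⊥ := by
    intro h
    rw [h, finrank_bot] at hrank
    omega
  obtain ⟨z, hz, hz2⟩ := Submodule.exists_mem_ne_zero_of_ne_bot hne
  have hzP : S.P x z = z := by
    obtain ⟨y, rfl⟩ := hz
    exact S.PP hx y
  obtain ⟨n, hn⟩ := S.exists_frame (x := x) (w := ‖z‖⁻¹ • z) hx (by rw [map_smul, hzP])
    (by rw [norm_smul, norm_inv, norm_norm, inv_mul_cancel₀ (norm_ne_zero_iff.2 hz2)])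
  exact ⟨_, n, hn⟩

end RS

end Pool.Agent.H864R3
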