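import Pool.Agent.H864R3.Jac

set_option autoImplicit false
set_option linter.unusedVariables false
set_option linter.unusedSectionVars false

open Set Metric Filter Topology
open scoped ContDiff InnerProductSpace NNReal

namespace Pool.Agent.H864R3

variable {E : Type} [NormedAddCommGroup E] [InnerProductSpace ℝ E] [FiniteDimensional ℝ E]

/-- local inverse `W` of the exponential map: for `x, y ∈ S` with `‖x - y‖ < ρ` the vector
`W (x, y)` is the initial velocity of the short geodesic from `x` to `y` (time 1). -/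
structure LE (S : RS E) where
  W : E × E → E
  ρ : ℝ
  r : ℝ
  O : Set (E × E)
  r_pos : 0 < r
  r_lt : r < ρ
  r_le : r ≤ 1 / 2
  O_open : IsOpen O
  O_mem : ∀ x ∈ S.S, ∀ y ∈ S.S, ‖x - y‖ < ρ → (x, y) ∈ O
  smooth : ContDiffOn ℝ ∞ W O
  tan : ∀ x ∈ S.S, ∀ y ∈ S.S, ‖x - y‖ < ρ → S.P x (W (x, y)) = W (x, y)
  small : ∀ x ∈ S.S, ∀ y ∈ S.S, ‖x - y‖ < ρ → ‖W (x, y)‖ ≤ 1
  exp : ∀ x ∈ S.S, ∀ y ∈ S.S, ‖x - y‖ < ρ → (S.Φ 1 (x, W (x, y), 0)).1 = y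
  geo : ∀ f ∈ S.FB, ∀ t : ℝ, 0 ≤ t → t < r → W (f.1, (S.Φ t f).1) = t • f.2.1
  short : ∀ f ∈ S.FB, ∀ t : ℝ, |t| ≤ r → |S.sj' f t - 1| ≤ 1/2 ∧ |S.cj f t - 1| ≤ 1/2

namespace RS

variable (S : RS E)

/-- arclength bound for the frame flow -/
lemma norm_pos_sub_le {f : E × E × E} (hf : f ∈ S.M 2) {R : ℝ} (hR : ‖f.2.1‖ ≤ R) (t : ℝ) :
    ‖(S.Φ t f).1 - f.1‖ ≤ R * |t| := by
  have h1 : ∀ s ∈ (univ : Set ℝ), HasDerivWithinAt (fun t => (S.Φ t f).1) (S.Φ s f).2.1 univ s :=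
    fun s _ => (S.pos_deriv hf s).hasDerivWithinAt
  have h2 : ∀ s ∈ (univ : Set ℝ), ‖(S.Φ s f).2.1‖ ≤ R := fun s _ => by
    rw [norm_eq_of_inner (S.Φ_inv_all hf s).2.1]; exact hR
  have := convex_univ.norm_image_sub_le_of_norm_hasDerivWithin_le h1 h2 (mem_univ (0:ℝ)) (mem_univ t)
  simpa using this

/-- the equation of second order for the end values of the pair of fields -/
def eqn (f : E × E × E) (t : ℝ) (v0 a0 v1 a1 : E) : Prop :=
  S.sj' f t * ⟪v1, (S.Φ t f).2.2⟫_ℝ ^ 2 - 2 * ⟪v0, f.2.2⟫_ℝ * ⟪v1, (S.Φ t f).2.2⟫_ℝ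
    + S.cj f t * ⟪v0, f.2.2⟫_ℝ ^ 2 = S.sj f t * (⟪a0, f.2.1⟫_ℝ - ⟪a1, (S.Φ t f).2.1⟫_ℝ)

end RS

namespace LE

variable {S : RS E} (L : LE S)

/-- length of the short geodesic from `p.1` to `p.2` -/
noncomputable def len (p : E × E) : ℝ := ‖L.W p‖
/-- unit tangent vector at the start of the short geodesic from `p.1` to `p.2` -/
noncomputable def u (p : E × E) : E := ‖L.W p‖⁻¹ • L.W p
/-- end velocity of the short geodesic -/
noncomputable def om (p : E × E) : E := (S.Φ 1 (p.1, L.W p, 0)).2.1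
/-- unit tangent vector at the end of the short geodesic from `p.1` to `p.2` -/
noncomputable def w (p : E × E) : E := ‖L.W p‖⁻¹ • L.om p

/-- pairs of different points joined by a short geodesic of length less than `r` -/
def Edge (x y : E) : Prop := x ∈ S.S ∧ y ∈ S.S ∧ x ≠ y ∧ ‖x - y‖ < L.ρ ∧ ‖L.W (x, y)‖ < L.r

/-- weak Killing fields -/
def KF : Set (E → E) :=
  {κ | ContinuousOn κ S.S ∧ (∀ x ∈ S.S, S.P x (κ x) = κ x) ∧
    ∀ f ∈ S.FB, ∀ t : ℝ, 0 < t → t < L.r →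
      ⟪κ (S.Φ t f).1, (S.Φ t f).2.1⟫_ℝ = ⟪κ f.1, f.2.1⟫_ℝ}

/-- a chosen frame along the short geodesic from `p.1` to `p.2` (junk if there is none) -/
noncomputable def fr (p : E × E) : E × E × E :=
  open Classical in if h : ∃ n, (p.1, L.u p, n) ∈ S.FB then (p.1, L.u p, h.choose) else (p.1, 0, 0)

/-- the second variation of length as a bilinear form in `(ξ, η)`, `(ξ', η')` -/
noncomputable def bil (p : E × E) (ξ η ξ' η' : E) : ℝ :=
  (S.sj' (L.fr p) (L.len p) * ⟪η, (S.Φ (L.len p) (L.fr p)).2.2⟫_ℝ *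
      ⟪η', (S.Φ (L.len p) (L.fr p)).2.2⟫_ℝ
    - ⟪ξ, (L.fr p).2.2⟫_ℝ * ⟪η', (S.Φ (L.len p) (L.fr p)).2.2⟫_ℝ
    - ⟪η, (S.Φ (L.len p) (L.fr p)).2.2⟫_ℝ * ⟪ξ', (L.fr p).2.2⟫_ℝ
    + S.cj (L.fr p) (L.len p) * ⟪ξ, (L.fr p).2.2⟫_ℝ * ⟪ξ', (L.fr p).2.2⟫_ℝ) /
    S.sj (L.fr p) (L.len p)

/-- equilibrium stresses of a configuration -/
def Bal {N : ℕ} (X : Fin N → E) (s : Fin N → Fin N → ℝ) : Prop :=
  (∀ i j, ¬ L.Edge (X i) (X j) → s i j = 0) ∧
    ∀ i, ∑ j, s i j • L.u (X i, X j) = ∑ j, s j i • L.w (X j, X i)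

/-- the quadratic form of a stress -/
noncomputable def bs {N : ℕ} (X : Fin N → E) (s : Fin N → Fin N → ℝ) (v v' : Fin N → E) : ℝ :=
  ∑ i, ∑ j, s i j * L.bil (X i, X j) (v i) (v j) (v' i) (v' j)

variable {L}

lemma fr_spec {x y : E} (h : L.Edge x y) : L.fr (x, y) ∈ S.FB ∧ (L.fr (x, y)).1 = x ∧
    (L.fr (x, y)).2.1 = L.u (x, y) := by
  classical
  have hE : ∃ n, ((x, y).1, L.u (x, y), n) ∈ S.FB := by
    obtain ⟨hx, hy, hne, hd, hr⟩ := h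
    have h1 : S.P x (L.u (x, y)) = L.u (x, y) := by
      unfold u; rw [map_smul, L.tan x hx y hy hd]
    have hM : ((x, L.W (x, y), 0) : E × E × E) ∈ S.M 2 :=
      ⟨hx, L.tan x hx y hy hd, by simp, (L.small x hx y hy hd).trans one_le_two, by simp⟩
    have h2 := S.norm_pos_sub_le hM (R := ‖L.W (x, y)‖) le_rfl 1
    rw [L.exp x hx y hy hd] at h2
    simp only [abs_one, mul_one] at h2
    have h3 : 0 < ‖L.W (x, y)‖ :=
      lt_of_lt_of_le (norm_pos_iff.2 (sub_ne_zero.2 hne.symm)) h2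
    refine S.exists_frame hx h1 ?_
    unfold u
    rw [norm_smul, norm_inv, norm_norm, inv_mul_cancel₀ h3.ne']
  unfold fr
  rw [dif_pos hE]
  exact ⟨hE.choose_spec, rfl, rfl⟩

lemma ρ_pos : 0 < L.ρ := L.r_pos.trans L.r_lt

lemma mem_M {x y : E} (hx : x ∈ S.S) (hy : y ∈ S.S) (h : ‖x - y‖ < L.ρ) :
    ((x, L.W (x, y), 0) : E × E × E) ∈ S.M 2 :=
  ⟨hx, L.tan x hx y hy h, by simp, (L.small x hx y hy h).trans one_le_two, by simp⟩

lemma norm_sub_le {x y : E} (hx : x ∈ S.S) (hy : y ∈ S.S) (h : ‖x - y‖ < L.ρ) :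
    ‖x - y‖ ≤ ‖L.W (x, y)‖ := by
  have := S.norm_pos_sub_le (L.mem_M hx hy h) (R := ‖L.W (x, y)‖) le_rfl 1
  rw [L.exp x hx y hy h] at this
  simp only [abs_one, mul_one] at this
  rw [norm_sub_rev]; exact this

lemma W_ne {x y : E} (hx : x ∈ S.S) (hy : y ∈ S.S) (h : ‖x - y‖ < L.ρ) (hne : x ≠ y) :
    0 < ‖L.W (x, y)‖ :=
  lt_of_lt_of_le (norm_pos_iff.2 (sub_ne_zero.2 hne)) (L.norm_sub_le hx hy h)

lemma W_self {x : E} (hx : x ∈ S.S) : L.W (x, x) = 0 := by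
  obtain ⟨w, n, hf⟩ := S.exists_frame' hx
  have := L.geo _ hf 0 le_rfl L.r_pos
  simpa using this

lemma u_tan {x y : E} (hx : x ∈ S.S) (hy : y ∈ S.S) (h : ‖x - y‖ < L.ρ) :
    S.P x (L.u (x, y)) = L.u (x, y) := by
  unfold u; rw [map_smul, L.tan x hx y hy h]

lemma u_norm {x y : E} (hx : x ∈ S.S) (hy : y ∈ S.S) (h : ‖x - y‖ < L.ρ) (hne : x ≠ y) :
    ‖L.u (x, y)‖ = 1 := by
  unfold u
  rw [norm_smul, norm_inv, norm_norm, inv_mul_cancel₀ (L.W_ne hx hy h hne).ne']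

/-- existence of a frame along the short geodesic -/
lemma exists_frame {x y : E} (hx : x ∈ S.S) (hy : y ∈ S.S) (h : ‖x - y‖ < L.ρ) (hne : x ≠ y) :
    ∃ n, (x, L.u (x, y), n) ∈ S.FB :=
  S.exists_frame hx (L.u_tan hx hy h) (L.u_norm hx hy h hne)

/-- the short geodesic in terms of frames -/
lemma Φ_frame {x y : E} (hx : x ∈ S.S) (hy : y ∈ S.S) (h : ‖x - y‖ < L.ρ) (hne : x ≠ y) {n : E}
    (hf : (x, L.u (x, y), n) ∈ S.FB) :
    (S.Φ (L.len (x, y)) (x, L.u (x, y), n)).1 = y ∧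
      (S.Φ (L.len (x, y)) (x, L.u (x, y), n)).2.1 = L.w (x, y) := by
  have hpos := L.W_ne hx hy h hne
  have h1 := S.Φ_scale (S.FB_sub_M hf one_le_two) (l := ‖L.W (x, y)‖) (m := 0)
    (by rw [abs_norm]; exact L.small x hx y hy h) (by simp) 1
  have h2 : ((x, ‖L.W (x, y)‖ • L.u (x, y), (0:ℝ) • n) : E × E × E) = (x, L.W (x, y), 0) := by
    unfold u
    rw [smul_smul, mul_inv_cancel₀ hpos.ne', one_smul, zero_smul]
  have h3 : S.Φ 1 (x, L.W (x, y), 0) = ((S.Φ (‖L.W (x, y)‖ * 1) (x, L.u (x, y), n)).1,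
      ‖L.W (x, y)‖ • (S.Φ (‖L.W (x, y)‖ * 1) (x, L.u (x, y), n)).2.1,
      (0:ℝ) • (S.Φ (‖L.W (x, y)‖ * 1) (x, L.u (x, y), n)).2.2) := by
    rw [← h2]; exact h1
  rw [mul_one] at h3
  constructor
  · have := congrArg (fun q : E × E × E => q.1) h3
    simp only at this
    rw [L.exp x hx y hy h] at this
    exact this.symm
  · have := congrArg (fun q : E × E × E => q.2.1) h3
    simp only at this
    unfold w om len
    simp only
    rw [this, smul_smul, inv_mul_cancel₀ hpos.ne', one_smul]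

/-- a frame and a short time give an edge -/
lemma edge_of_frame {f : E × E × E} (hf : f ∈ S.FB) {t : ℝ} (h0 : 0 < t) (h1 : t < L.r) :
    L.Edge f.1 (S.Φ t f).1 ∧ L.len (f.1, (S.Φ t f).1) = t ∧ L.u (f.1, (S.Φ t f).1) = f.2.1 ∧
      L.w (f.1, (S.Φ t f).1) = (S.Φ t f).2.1 := by
  have hy := (S.Φ_FB hf t).1
  have hW := L.geo f hf t h0.le h1
  have hn : ‖L.W (f.1, (S.Φ t f).1)‖ = t := by
    rw [hW, norm_smul, hf.2.2.2.1, mul_one, Real.norm_eq_abs, abs_of_pos h0]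
  have hd : ‖f.1 - (S.Φ t f).1‖ < L.ρ := by
    have := S.norm_pos_sub_le (S.FB_sub_M hf one_le_two) (R := 1) hf.2.2.2.1.le t
    rw [norm_sub_rev]
    rw [abs_of_pos h0, one_mul] at this
    linarith [L.r_lt]
  have hne : f.1 ≠ (S.Φ t f).1 := by
    intro he
    rw [← he, L.W_self hf.1, norm_zero] at hn
    exact h0.ne hn
  have hu : L.u (f.1, (S.Φ t f).1) = f.2.1 := by
    unfold u
    rw [hn, hW, smul_smul, inv_mul_cancel₀ h0.ne', one_smul]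
  refine ⟨⟨hf.1, hy, hne, hd, by rw [hn]; exact h1⟩, hn, hu, ?_⟩
  have hf' : (f.1, L.u (f.1, (S.Φ t f).1), f.2.2) ∈ S.FB := by rw [hu]; exact hf
  have := (L.Φ_frame hf.1 hy hd hne hf').2
  rw [← this]
  unfold len
  rw [hn, hu]

/-- an edge comes from a frame -/
lemma Edge.frame {x y : E} (h : L.Edge x y) : ∃ n, (x, L.u (x, y), n) ∈ S.FB ∧
    0 < L.len (x, y) ∧ L.len (x, y) < L.r ∧
    (S.Φ (L.len (x, y)) (x, L.u (x, y), n)).1 = y ∧
    (S.Φ (L.len (x, y)) (x, L.u (x, y), n)).2.1 = L.w (x, y) := by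
  obtain ⟨hx, hy, hne, hd, hr⟩ := h
  obtain ⟨n, hn⟩ := L.exists_frame hx hy hd hne
  exact ⟨n, hn, L.W_ne hx hy hd hne, hr, L.Φ_frame hx hy hd hne hn⟩

lemma sj_pos {f : E × E × E} (hf : f ∈ S.FB) {t : ℝ} (h0 : 0 < t) (h1 : t ≤ L.r) :
    0 < S.sj f t := by
  have hc : ContinuousOn (S.sj f) (Icc 0 t) := fun s _ => (S.sj_deriv hf s).continuousAt.continuousWithinAt
  obtain ⟨c, hc1, hc2⟩ := exists_hasDerivAt_eq_slope (S.sj f) (S.sj' f) h0 hc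
    (fun s _ => S.sj_deriv hf s)
  have h2 := (L.short f hf c (by rw [abs_of_pos hc1.1]; linarith [hc1.2])).1
  rw [abs_le] at h2
  have h3 : S.sj f t = t * S.sj' f c := by
    rw [hc2, S.sj_zero, sub_zero, sub_zero, mul_div_cancel₀ _ h0.ne']
  rw [h3]
  apply mul_pos h0
  linarith [h2.1]

end LE

/-- a configuration of different points with a positive equilibrium stress on all short pairs -/
structure StressConf {S : RS E} (L : LE S) (N : ℕ) (X : Fin N → E) (s : Fin N → Fin N → ℝ) :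
    Prop where
  mem : ∀ i, X i ∈ S.S
  inj : Function.Injective X
  nonneg : ∀ i j, 0 ≤ s i j
  pos : ∀ i j, 0 < s i j ↔ L.Edge (X i) (X j)
  bal : ∀ i, ∑ j, s i j • L.u (X i, X j) = ∑ j, s j i • L.w (X j, X i)

end Pool.Agent.H864R3
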