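import Pool.Agent.H864R3.Base

set_option autoImplicit false
set_option linter.unusedVariables false

open Set Metric Filter Topology
open scoped ContDiff InnerProductSpace NNReal Manifold

namespace Pool.Agent.H864R3

/-- flow of a smooth compactly supported vector field -/
theorem flow_cpt {E : Type} [NormedAddCommGroup E] [NormedSpace ℝ E] [CompleteSpace E]
    (X : E → E) (hX : ContDiff ℝ ∞ X) (hc : HasCompactSupport X) :
    ∃ G : ℝ → E → E, ContDiff ℝ ∞ (fun q : ℝ × E => G q.1 q.2) ∧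
      (∀ p, G 0 p = p) ∧ (∀ s t p, G (s + t) p = G s (G t p)) ∧
      (∀ p t, HasDerivAt (fun t => G t p) (X (G t p)) t) := by
  obtain ⟨K, hK⟩ := hX.lipschitzWith_of_hasCompactSupport hc (by simp)
  obtain ⟨M, hM⟩ := hc.exists_bound_of_continuous hX.continuous
  have hM' : ∀ x, ‖X x‖ ≤ (Real.toNNReal M : NNReal) := fun x => (hM x).trans (Real.le_coe_toNNReal M)
  choose g h0 h1 using fun p => Pool.Agent.GR.Flow.exists_solution hK hM' p
  have hfl : Pool.Agent.GR.Flow.IsFlowOf X (fun t p => g p t) := ⟨h0, h1⟩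
  refine ⟨fun t p => g p t, ?_, h0, fun s t p => hfl.add hK s t p, h1⟩
  rw [contDiff_infty]
  intro m
  have key : ∀ m : ℕ, m ≠ 0 → ContDiff ℝ m (fun q : ℝ × E => g q.2 q.1) := by
    intro m hm
    exact Pool.Agent.GR.Flow.contDiff_flow (X := ⟨X, hX.continuous⟩) hm
      (hX.of_le (by exact_mod_cast le_top)) hK hfl
  exact (key (m + 1) (by omega)).of_le (by exact_mod_cast Nat.le_succ m)

lemma zero_fwd {F : Type} [NormedAddCommGroup F] [NormedSpace ℝ F] {D D' : ℝ → F} {a b L : ℝ}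
    (h : ∀ t ∈ Icc a b, HasDerivAt D (D' t) t) (hb : ∀ t ∈ Icc a b, ‖D' t‖ ≤ L * ‖D t‖)
    (h0 : D a = 0) : ∀ t ∈ Icc a b, D t = 0 := by
  intro t ht
  have := norm_le_gronwallBound_of_norm_deriv_right_le (f := D) (f' := D') (δ := 0) (K := L)
    (ε := 0) (a := a) (b := b) (fun t ht => (h t ht).continuousAt.continuousWithinAt)
    (fun t ht => (h t ⟨ht.1, ht.2.le⟩).hasDerivWithinAt) (by simp [h0])
    (fun t ht => by simpa using hb t ⟨ht.1, ht.2.le⟩) t ht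
  rw [gronwallBound_ε0_δ0] at this
  exact norm_le_zero_iff.1 this

/-- a function with `‖D'‖ ≤ L ‖D‖` vanishing at a point vanishes nearby -/
lemma zero_of_deriv_le {F : Type} [NormedAddCommGroup F] [NormedSpace ℝ F] {D D' : ℝ → F}
    {t₀ ε L : ℝ} (h : ∀ t ∈ ball t₀ ε, HasDerivAt D (D' t) t)
    (hb : ∀ t ∈ ball t₀ ε, ‖D' t‖ ≤ L * ‖D t‖) (h0 : D t₀ = 0) : ∀ t ∈ ball t₀ ε, D t = 0 := by
  intro t ht
  rw [Real.ball_eq_Ioo] at ht h hb
  have hε : 0 < ε := by linarith [ht.1, ht.2]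
  rcases le_total t₀ t with hle | hle
  · exact zero_fwd (a := t₀) (b := t) (fun s hs => h s ⟨by linarith [hs.1, ht.1], by linarith [hs.2, ht.2]⟩)
      (fun s hs => hb s ⟨by linarith [hs.1, ht.1], by linarith [hs.2, ht.2]⟩) h0 t ⟨hle, le_rfl⟩
  · have key := zero_fwd (D := fun s => D (t₀ - s)) (D' := fun s => - D' (t₀ - s)) (a := 0)
      (b := t₀ - t) (L := L) (fun s hs => ?_) (fun s hs => ?_) (by simpa using h0) (t₀ - t)
      ⟨by linarith, le_rfl⟩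
    · simpa using key
    · have h1 := h (t₀ - s) ⟨by linarith [hs.2, ht.1], by linarith [hs.1, ht.2]⟩
      have h2 : HasDerivAt (fun s : ℝ => t₀ - s) (-1) s := by
        simpa using (hasDerivAt_id s).const_sub t₀
      have h3 := h1.scomp s h2
      rw [neg_one_smul] at h3
      exact h3
    · rw [norm_neg]
      exact hb (t₀ - s) ⟨by linarith [hs.2, ht.1], by linarith [hs.1, ht.2]⟩

namespace RS

variable {E : Type} [NormedAddCommGroup E] [InnerProductSpace ℝ E] [FiniteDimensional ℝ E]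

variable (S : RS E)

lemma exists_beta : ∃ β : E × E × E → ℝ, ContDiff ℝ ∞ β ∧ HasCompactSupport β ∧
    (∀ f ∈ S.M 2, ∀ᶠ g in 𝓝 f, β g = 1) := by
  obtain ⟨K, hK, h1, h2⟩ := exists_compact_between (S.M_compact 2) isOpen_univ (subset_univ _)
  obtain ⟨β, b1, b2, b3⟩ := exists_contMDiffMap_one_nhds_of_subset_interior
    (I := 𝓘(ℝ, E × E × E)) (n := ⊤) (S.M_compact 2).isClosed h1
  have hs : tsupport β ⊆ K := by
    apply closure_minimal _ hK.isClosed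
    intro w hw
    by_contra hn
    exact hw (b2 w hn)
  refine ⟨β, β.contMDiff.contDiff, ?_, ?_⟩
  · exact hK.of_isClosed_subset (isClosed_tsupport _) hs
  · intro w hw
    exact (mem_nhdsSet_iff_forall.1 b1) w hw

noncomputable def β : E × E × E → ℝ := S.exists_beta.choose
lemma β_smooth : ContDiff ℝ ∞ S.β := S.exists_beta.choose_spec.1
lemma β_cpt : HasCompactSupport S.β := S.exists_beta.choose_spec.2.1
lemma β_one {f : E × E × E} (hf : f ∈ S.M 2) : ∀ᶠ g in 𝓝 f, S.β g = 1 :=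
  S.exists_beta.choose_spec.2.2 f hf

/-- the cut off frame field -/
noncomputable def X (f : E × E × E) : E × E × E := S.β f • S.X0 f

lemma X_smooth : ContDiff ℝ ∞ S.X := S.β_smooth.smul S.X0_smooth

lemma X_cpt : HasCompactSupport S.X := by
  apply S.β_cpt.mono
  intro w hw
  simp only [Function.mem_support] at hw ⊢
  intro h
  apply hw
  unfold X
  rw [h, zero_smul]

lemma X_eq_ev {f : E × E × E} (hf : f ∈ S.M 2) : ∀ᶠ g in 𝓝 f, S.X g = S.X0 g := by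
  filter_upwards [S.β_one hf] with g hg
  unfold X; rw [hg, one_smul]

lemma X_eq {f : E × E × E} (hf : f ∈ S.M 2) : S.X f = S.X0 f := (S.X_eq_ev hf).self_of_nhds

/-- frame flow -/
noncomputable def Φ : ℝ → E × E × E → E × E × E := (flow_cpt S.X S.X_smooth S.X_cpt).choose

lemma Φ_smooth : ContDiff ℝ ∞ (fun q : ℝ × (E × E × E) => S.Φ q.1 q.2) :=
  (flow_cpt S.X S.X_smooth S.X_cpt).choose_spec.1
@[simp] lemma Φ_zero (w : E × E × E) : S.Φ 0 w = w :=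
  (flow_cpt S.X S.X_smooth S.X_cpt).choose_spec.2.1 w
lemma Φ_add (s t : ℝ) (w : E × E × E) : S.Φ (s + t) w = S.Φ s (S.Φ t w) :=
  (flow_cpt S.X S.X_smooth S.X_cpt).choose_spec.2.2.1 s t w
lemma Φ_deriv (w : E × E × E) (t : ℝ) : HasDerivAt (fun t => S.Φ t w) (S.X (S.Φ t w)) t :=
  (flow_cpt S.X S.X_smooth S.X_cpt).choose_spec.2.2.2 w t

lemma Φ_cont : Continuous (fun q : ℝ × (E × E × E) => S.Φ q.1 q.2) := S.Φ_smooth.continuous

lemma Φ_contt (w : E × E × E) : Continuous (fun t => S.Φ t w) :=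
  S.Φ_cont.comp (continuous_id.prodMk continuous_const)

lemma Φ_inv (t : ℝ) (w : E × E × E) : S.Φ (-t) (S.Φ t w) = w := by
  rw [← S.Φ_add, neg_add_cancel, S.Φ_zero]

/-- retraction onto the tangent frames -/
noncomputable def ret (f : E × E × E) : E × E × E :=
  (S.π f.1, S.P (S.π f.1) f.2.1, S.P (S.π f.1) f.2.2)

lemma ret_smooth : ContDiff ℝ ∞ S.ret := by
  unfold ret
  have h0 : ContDiff ℝ ∞ (fun f : E × E × E => S.π f.1) := S.smooth.comp contDiff_fst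
  have h1 : ContDiff ℝ ∞ (fun f : E × E × E => S.P (S.π f.1)) := S.P_smooth.comp h0
  have h2 : ContDiff ℝ ∞ (fun f : E × E × E => f.2.1) := contDiff_fst.comp contDiff_snd
  have h3 : ContDiff ℝ ∞ (fun f : E × E × E => f.2.2) := contDiff_snd.comp contDiff_snd
  exact h0.prodMk ((h1.clm_apply h2).prodMk (h1.clm_apply h3))

/-- tangent frames without norm bounds -/
def MT : Set (E × E × E) := {f | f.1 ∈ S.S ∧ S.P f.1 f.2.1 = f.2.1 ∧ S.P f.1 f.2.2 = f.2.2}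

lemma ret_mem {f : E × E × E} (hf : f.1 ∈ S.U) : S.ret f ∈ S.MT :=
  ⟨S.hπU _ hf, S.PP (S.hπU _ hf) _, S.PP (S.hπU _ hf) _⟩

lemma ret_eq {f : E × E × E} (hf : f ∈ S.MT) : S.ret f = f := by
  unfold ret
  rw [S.hπS _ hf.1, hf.2.1, hf.2.2]

lemma mem_MT_of_ret {f : E × E × E} (hf : f.1 ∈ S.U) (h : f - S.ret f = 0) : f ∈ S.MT := by
  have : f = S.ret f := sub_eq_zero.1 h
  rw [this]
  exact S.ret_mem hf

lemma fderiv_ret_X0 {f : E × E × E} (hf : f ∈ S.MT) : fderiv ℝ S.ret f (S.X0 f) = S.X0 f := by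
  obtain ⟨hx, hw, hn⟩ := hf
  have hs : S.π f.1 = f.1 := S.hπS _ hx
  -- derivative along a curve
  have h0 : HasFDerivAt (fun f : E × E × E => S.π f.1)
      ((S.P f.1).comp (ContinuousLinearMap.fst ℝ E (E × E))) f :=
    (S.hasFDerivAt_π f.1).comp f hasFDerivAt_fst
  have h1 : HasFDerivAt (fun f : E × E × E => S.P (S.π f.1))
      ((S.B (S.π f.1)).comp ((S.P f.1).comp (ContinuousLinearMap.fst ℝ E (E × E)))) f :=
    (S.hasFDerivAt_P (S.π f.1)).comp f h0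
  have h2 : HasFDerivAt (fun f : E × E × E => f.2.1)
      ((ContinuousLinearMap.fst ℝ E E).comp (ContinuousLinearMap.snd ℝ E (E × E))) f :=
    hasFDerivAt_fst.comp f hasFDerivAt_snd
  have h3 : HasFDerivAt (fun f : E × E × E => f.2.2)
      ((ContinuousLinearMap.snd ℝ E E).comp (ContinuousLinearMap.snd ℝ E (E × E))) f :=
    hasFDerivAt_snd.comp f hasFDerivAt_snd
  have h4 := h0.prodMk ((h1.clm_apply h2).prodMk (h1.clm_apply h3))
  have h5 : HasFDerivAt S.ret _ f := h4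
  rw [h5.fderiv]
  have e1 : (S.X0 f).1 = f.2.1 := rfl
  have e2 : (S.X0 f).2.1 = S.B f.1 f.2.1 f.2.1 := rfl
  have e3 : (S.X0 f).2.2 = S.B f.1 f.2.1 f.2.2 := rfl
  refine Prod.ext ?_ (Prod.ext ?_ ?_)
  · show S.P f.1 (S.X0 f).1 = (S.X0 f).1
    rw [e1, hw]
  · show S.P (S.π f.1) (S.X0 f).2.1 + S.B (S.π f.1) (S.P f.1 (S.X0 f).1) f.2.1 = (S.X0 f).2.1
    rw [hs, e1, e2, hw, S.P_B hx hw hw, zero_add]
  · show S.P (S.π f.1) (S.X0 f).2.2 + S.B (S.π f.1) (S.P f.1 (S.X0 f).1) f.2.2 = (S.X0 f).2.2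
    rw [hs, e1, e3, hw, S.P_B hx hw hn, zero_add]

/-- the frame flow preserves tangent frames and all inner products -/
lemma Φ_inv_all {f : E × E × E} (hf : f ∈ S.M 2) (t : ℝ) :
    S.Φ t f ∈ S.MT ∧ ⟪(S.Φ t f).2.1, (S.Φ t f).2.1⟫_ℝ = ⟪f.2.1, f.2.1⟫_ℝ ∧
      ⟪(S.Φ t f).2.2, (S.Φ t f).2.2⟫_ℝ = ⟪f.2.2, f.2.2⟫_ℝ ∧
      ⟪(S.Φ t f).2.1, (S.Φ t f).2.2⟫_ℝ = ⟪f.2.1, f.2.2⟫_ℝ := by
  set T : Set ℝ := {t | S.Φ t f ∈ S.MT ∧ ⟪(S.Φ t f).2.1, (S.Φ t f).2.1⟫_ℝ = ⟪f.2.1, f.2.1⟫_ℝ ∧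
      ⟪(S.Φ t f).2.2, (S.Φ t f).2.2⟫_ℝ = ⟪f.2.2, f.2.2⟫_ℝ ∧
      ⟪(S.Φ t f).2.1, (S.Φ t f).2.2⟫_ℝ = ⟪f.2.1, f.2.2⟫_ℝ} with hT
  have hM2 : ∀ g : E × E × E, g ∈ S.MT → ⟪g.2.1, g.2.1⟫_ℝ = ⟪f.2.1, f.2.1⟫_ℝ →
      ⟪g.2.2, g.2.2⟫_ℝ = ⟪f.2.2, f.2.2⟫_ℝ → g ∈ S.M 2 := by
    intro g hg h1 h2
    refine ⟨hg.1, hg.2.1, hg.2.2, ?_, ?_⟩
    · rw [real_inner_self_eq_norm_sq, real_inner_self_eq_norm_sq] at h1
      have : ‖g.2.1‖ = ‖f.2.1‖ := by
        rwa [sq_eq_sq₀ (norm_nonneg _) (norm_nonneg _)] at h1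
      rw [this]; exact hf.2.2.2.1
    · rw [real_inner_self_eq_norm_sq, real_inner_self_eq_norm_sq] at h2
      have : ‖g.2.2‖ = ‖f.2.2‖ := by
        rwa [sq_eq_sq₀ (norm_nonneg _) (norm_nonneg _)] at h2
      rw [this]; exact hf.2.2.2.2
  have c1 : Continuous fun t => (S.Φ t f).1 := continuous_fst.comp (S.Φ_contt f)
  have c2 : Continuous fun t => (S.Φ t f).2.1 := (continuous_fst.comp continuous_snd).comp (S.Φ_contt f)
  have c3 : Continuous fun t => (S.Φ t f).2.2 := (continuous_snd.comp continuous_snd).comp (S.Φ_contt f)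
  have hcl : IsClosed T := by
    have d1 : IsClosed {t | S.Φ t f ∈ S.MT} := by
      have : {t | S.Φ t f ∈ S.MT} = (fun t => (S.Φ t f).1) ⁻¹' S.S ∩
          ({t | S.P (S.Φ t f).1 (S.Φ t f).2.1 = (S.Φ t f).2.1} ∩
          {t | S.P (S.Φ t f).1 (S.Φ t f).2.2 = (S.Φ t f).2.2}) := by
        ext t; rfl
      rw [this]
      refine (S.cpt.isClosed.preimage c1).inter (IsClosed.inter ?_ ?_)
      · exact isClosed_eq ((S.P_cont.comp c1).clm_apply c2) c2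
      · exact isClosed_eq ((S.P_cont.comp c1).clm_apply c3) c3
    exact d1.inter ((isClosed_eq (c2.inner c2) continuous_const).inter
      ((isClosed_eq (c3.inner c3) continuous_const).inter
        (isClosed_eq (c2.inner c3) continuous_const)))
  have hop : IsOpen T := by
    rw [Metric.isOpen_iff]
    intro t₀ ht₀
    obtain ⟨m1, m2, m3, m4⟩ := ht₀
    set z₀ := S.Φ t₀ f with hz₀
    have hzM : z₀ ∈ S.M 2 := hM2 _ m1 m2 m3
    set H : E × E × E → E × E × E := fun g => S.X0 g - fderiv ℝ S.ret g (S.X0 g) with hH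
    have hHs : ContDiff ℝ ∞ H := by
      have : ContDiff ℝ ∞ (fderiv ℝ S.ret) := S.ret_smooth.fderiv_right (by simp)
      exact S.X0_smooth.sub (this.clm_apply S.X0_smooth)
    obtain ⟨L, W, hW, hL⟩ := ((hHs.of_le (by simp) : ContDiff ℝ 1 H).contDiffAt
      (x := z₀)).exists_lipschitzOnWith
    have e1 : ∀ᶠ g in 𝓝 z₀, g ∈ W := hW
    have e2 : ∀ᶠ g in 𝓝 z₀, S.ret g ∈ W := by
      have : Tendsto S.ret (𝓝 z₀) (𝓝 z₀) := by
        have := S.ret_smooth.continuous.tendsto z₀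
        rwa [S.ret_eq m1] at this
      exact this hW
    have e3 : ∀ᶠ g in 𝓝 z₀, g.1 ∈ S.U :=
      continuous_fst.continuousAt.preimage_mem_nhds (S.hU.mem_nhds (S.hSU m1.1))
    have e4 := S.X_eq_ev hzM
    have e5 : ∀ᶠ t in 𝓝 t₀, (S.Φ t f ∈ W ∧ S.ret (S.Φ t f) ∈ W ∧ (S.Φ t f).1 ∈ S.U ∧
        S.X (S.Φ t f) = S.X0 (S.Φ t f)) :=
      ((S.Φ_contt f).tendsto t₀).eventually (e1.and (e2.and (e3.and e4)))
    obtain ⟨ε, hε, hball⟩ := Metric.eventually_nhds_iff_ball.1 e5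
    have hzero := zero_of_deriv_le (D := fun t => S.Φ t f - S.ret (S.Φ t f))
      (D' := fun t => H (S.Φ t f)) (t₀ := t₀) (ε := ε) (L := L) (fun t ht => ?_) (fun t ht => ?_)
      (by show z₀ - S.ret z₀ = 0; rw [S.ret_eq m1, sub_self])
    rotate_left
    · obtain ⟨b1, b2, b3, b4⟩ := hball t ht
      have k1 := S.Φ_deriv f t
      rw [b4] at k1
      have k2 := ((S.ret_smooth.differentiable (by simp) (S.Φ t f)).hasFDerivAt).comp_hasDerivAt t k1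
      exact k1.sub k2
    · obtain ⟨b1, b2, b3, b4⟩ := hball t ht
      have k1 : H (S.ret (S.Φ t f)) = 0 := by
        rw [hH]
        simp only
        rw [S.fderiv_ret_X0 (S.ret_mem b3), sub_self]
      have k2 := hL.dist_le_mul _ b1 _ b2
      rw [k1, dist_zero_right, dist_eq_norm] at k2
      exact k2
    have hMTt : ∀ t ∈ ball t₀ ε, S.Φ t f ∈ S.MT := fun t ht =>
      S.mem_MT_of_ret (hball t ht).2.2.1 (hzero t ht)
    have hw' : ∀ t ∈ ball t₀ ε, HasDerivAt (fun t => (S.Φ t f).2.1)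
        (S.B (S.Φ t f).1 (S.Φ t f).2.1 (S.Φ t f).2.1) t := by
      intro t ht
      have k1 := S.Φ_deriv f t
      rw [(hball t ht).2.2.2] at k1
      exact ((ContinuousLinearMap.fst ℝ E E).comp
        (ContinuousLinearMap.snd ℝ E (E × E))).hasFDerivAt.comp_hasDerivAt t k1
    have hn' : ∀ t ∈ ball t₀ ε, HasDerivAt (fun t => (S.Φ t f).2.2)
        (S.B (S.Φ t f).1 (S.Φ t f).2.1 (S.Φ t f).2.2) t := by
      intro t ht
      have k1 := S.Φ_deriv f t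
      rw [(hball t ht).2.2.2] at k1
      exact ((ContinuousLinearMap.snd ℝ E E).comp
        (ContinuousLinearMap.snd ℝ E (E × E))).hasFDerivAt.comp_hasDerivAt t k1
    have hconst : ∀ (g : ℝ → ℝ), (∀ t ∈ ball t₀ ε, HasDerivAt g 0 t) → ∀ t ∈ ball t₀ ε,
        g t = g t₀ := by
      intro g hg t ht
      exact isOpen_ball.is_const_of_deriv_eq_zero (f := g)
        (convex_ball t₀ ε).isPreconnected (fun s hs => (hg s hs).differentiableAt.differentiableWithinAt)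
        (fun s hs => (hg s hs).deriv) ht (mem_ball_self hε)
    refine ⟨ε, hε, fun t ht => ⟨hMTt t ht, ?_, ?_, ?_⟩⟩
    · rw [← m2]
      refine hconst (fun t => ⟪(S.Φ t f).2.1, (S.Φ t f).2.1⟫_ℝ) (fun s hs => ?_) t ht
      obtain ⟨q1, q2, q3⟩ := hMTt s hs
      have := (hw' s hs).inner ℝ (hw' s hs)
      rwa [S.inner_B q1 q2 q2 q2, S.inner_B' q1 q2 q2 q2, add_zero] at this
    · rw [← m3]
      refine hconst (fun t => ⟪(S.Φ t f).2.2, (S.Φ t f).2.2⟫_ℝ) (fun s hs => ?_) t ht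
      obtain ⟨q1, q2, q3⟩ := hMTt s hs
      have := (hn' s hs).inner ℝ (hn' s hs)
      rwa [S.inner_B q1 q2 q3 q3, S.inner_B' q1 q2 q3 q3, add_zero] at this
    · rw [← m4]
      refine hconst (fun t => ⟪(S.Φ t f).2.1, (S.Φ t f).2.2⟫_ℝ) (fun s hs => ?_) t ht
      obtain ⟨q1, q2, q3⟩ := hMTt s hs
      have := (hw' s hs).inner ℝ (hn' s hs)
      rwa [S.inner_B q1 q2 q2 q3, S.inner_B' q1 q2 q3 q2, add_zero] at this
  have hne : T.Nonempty := ⟨0, by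
    show S.Φ 0 f ∈ S.MT ∧ _
    rw [S.Φ_zero]
    exact ⟨⟨hf.1, hf.2.1, hf.2.2.1⟩, rfl, rfl, rfl⟩⟩
  have := IsClopen.eq_univ ⟨hcl, hop⟩ hne
  have ht : t ∈ T := by rw [this]; trivial
  exact ht

lemma norm_eq_of_inner {a b : E} (h : ⟪a, a⟫_ℝ = ⟪b, b⟫_ℝ) : ‖a‖ = ‖b‖ := by
  rw [real_inner_self_eq_norm_sq, real_inner_self_eq_norm_sq] at h
  rwa [sq_eq_sq₀ (norm_nonneg _) (norm_nonneg _)] at h

lemma Φ_M {f : E × E × E} {R : ℝ} (hR : R ≤ 2) (hf : f ∈ S.M R) (t : ℝ) : S.Φ t f ∈ S.M R := by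
  have hf2 : f ∈ S.M 2 := ⟨hf.1, hf.2.1, hf.2.2.1, hf.2.2.2.1.trans hR, hf.2.2.2.2.trans hR⟩
  obtain ⟨h1, h2, h3, h4⟩ := S.Φ_inv_all hf2 t
  exact ⟨h1.1, h1.2.1, h1.2.2, (norm_eq_of_inner h2).le.trans hf.2.2.2.1,
    (norm_eq_of_inner h3).le.trans hf.2.2.2.2⟩

lemma Φ_FB {f : E × E × E} (hf : f ∈ S.FB) (t : ℝ) : S.Φ t f ∈ S.FB := by
  obtain ⟨h1, h2, h3, h4⟩ := S.Φ_inv_all (S.FB_sub_M hf one_le_two) t
  exact ⟨h1.1, h1.2.1, h1.2.2, (norm_eq_of_inner h2).trans hf.2.2.2.1,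
    (norm_eq_of_inner h3).trans hf.2.2.2.2.1, h4.trans hf.2.2.2.2.2⟩

lemma Φ_deriv0 {f : E × E × E} (hf : f ∈ S.M 2) (t : ℝ) :
    HasDerivAt (fun t => S.Φ t f) (S.X0 (S.Φ t f)) t := by
  have := S.Φ_deriv f t
  rwa [S.X_eq (S.Φ_M le_rfl hf t)] at this

lemma pos_deriv {f : E × E × E} (hf : f ∈ S.M 2) (t : ℝ) :
    HasDerivAt (fun t => (S.Φ t f).1) (S.Φ t f).2.1 t :=
  (ContinuousLinearMap.fst ℝ E (E × E)).hasFDerivAt.comp_hasDerivAt t (S.Φ_deriv0 hf t)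

lemma vel_deriv {f : E × E × E} (hf : f ∈ S.M 2) (t : ℝ) :
    HasDerivAt (fun t => (S.Φ t f).2.1) (S.B (S.Φ t f).1 (S.Φ t f).2.1 (S.Φ t f).2.1) t :=
  ((ContinuousLinearMap.fst ℝ E E).comp
    (ContinuousLinearMap.snd ℝ E (E × E))).hasFDerivAt.comp_hasDerivAt t (S.Φ_deriv0 hf t)

lemma nor_deriv {f : E × E × E} (hf : f ∈ S.M 2) (t : ℝ) :
    HasDerivAt (fun t => (S.Φ t f).2.2) (S.B (S.Φ t f).1 (S.Φ t f).2.1 (S.Φ t f).2.2) t :=
  ((ContinuousLinearMap.snd ℝ E E).comp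
    (ContinuousLinearMap.snd ℝ E (E × E))).hasFDerivAt.comp_hasDerivAt t (S.Φ_deriv0 hf t)

/-- scaling of geodesics -/
lemma Φ_scale {f : E × E × E} (hf : f ∈ S.M 2) {l m : ℝ} (hl : |l| ≤ 1) (hm : |m| ≤ 1) (t : ℝ) :
    S.Φ t (f.1, l • f.2.1, m • f.2.2) =
      ((S.Φ (l * t) f).1, l • (S.Φ (l * t) f).2.1, m • (S.Φ (l * t) f).2.2) := by
  obtain ⟨K, hK⟩ := S.X_smooth.lipschitzWith_of_hasCompactSupport S.X_cpt (by simp)
  have hmem : ∀ g ∈ S.M 2, ((g.1, l • g.2.1, m • g.2.2) : E × E × E) ∈ S.M 2 := by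
    intro g hg
    refine ⟨hg.1, ?_, ?_, ?_, ?_⟩
    · show S.P g.1 (l • g.2.1) = l • g.2.1
      rw [map_smul, hg.2.1]
    · show S.P g.1 (m • g.2.2) = m • g.2.2
      rw [map_smul, hg.2.2.1]
    · show ‖l • g.2.1‖ ≤ 2
      rw [norm_smul, Real.norm_eq_abs]
      nlinarith [hg.2.2.2.1, norm_nonneg g.2.1, abs_nonneg l]
    · show ‖m • g.2.2‖ ≤ 2
      rw [norm_smul, Real.norm_eq_abs]
      nlinarith [hg.2.2.2.2, norm_nonneg g.2.2, abs_nonneg m]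
  have h1 : ∀ t, HasDerivAt (fun t => S.Φ t (f.1, l • f.2.1, m • f.2.2))
      (S.X (S.Φ t (f.1, l • f.2.1, m • f.2.2))) t := fun t => S.Φ_deriv _ t
  have h2 : ∀ t, HasDerivAt (fun t => (((S.Φ (l * t) f).1, l • (S.Φ (l * t) f).2.1,
      m • (S.Φ (l * t) f).2.2) : E × E × E))
      (S.X ((S.Φ (l * t) f).1, l • (S.Φ (l * t) f).2.1, m • (S.Φ (l * t) f).2.2)) t := by
    intro t
    have hg := S.Φ_M le_rfl hf (l * t)
    rw [S.X_eq (hmem _ hg)]
    have a0 : HasDerivAt (fun t : ℝ => l * t) l t := by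
      simpa using (hasDerivAt_id t).const_mul l
    have a1 := (S.pos_deriv hf (l * t)).scomp t a0
    have a2 := ((S.vel_deriv hf (l * t)).scomp t a0).const_smul l
    have a3 := ((S.nor_deriv hf (l * t)).scomp t a0).const_smul m
    have a4 := a1.prodMk (a2.prodMk a3)
    refine a4.congr_deriv ?_
    unfold X0
    refine Prod.ext rfl (Prod.ext ?_ ?_)
    · simp [smul_smul]
    · simp only [map_smul]
      rw [smul_apply, smul_smul]
  have h3 := ODE_solution_unique_univ (v := fun _ => S.X) (s := fun _ => univ) (K := K) (t₀ := 0)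
    (f := fun t => S.Φ t (f.1, l • f.2.1, m • f.2.2))
    (g := fun t => (((S.Φ (l * t) f).1, l • (S.Φ (l * t) f).2.1,
      m • (S.Φ (l * t) f).2.2) : E × E × E))
    (fun t => hK.lipschitzOnWith) (fun t => ⟨h1 t, trivial⟩) (fun t => ⟨h2 t, trivial⟩)
    (by simp)
  exact congrFun h3 t

end RS

end Pool.Agent.H864R3
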