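import Pool.Agent.H864R3.Flow

set_option autoImplicit false
set_option linter.unusedVariables false
set_option linter.unusedSectionVars false

open Set Metric Filter Topology
open scoped ContDiff InnerProductSpace NNReal Manifold

namespace Pool.Agent.H864R3

lemma zero_of_deriv_le_all {F : Type} [NormedAddCommGroup F] [NormedSpace ℝ F] {D D' : ℝ → F}
    {t₀ L : ℝ} (h : ∀ t, HasDerivAt D (D' t) t)
    (hb : ∀ t, ‖D' t‖ ≤ L * ‖D t‖) (h0 : D t₀ = 0) : ∀ t, D t = 0 := by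
  intro t
  refine zero_of_deriv_le (t₀ := t₀) (ε := dist t t₀ + 1) (L := L) (fun t _ => h t)
    (fun t _ => hb t) h0 t ?_
  rw [mem_ball]; linarith

lemma lin2_zero {j ψ k : ℝ → ℝ} {κ : ℝ} (hj : ∀ t, HasDerivAt j (ψ t) t)
    (hψ : ∀ t, HasDerivAt ψ (-(k t * j t)) t) (hk : ∀ t, |k t| ≤ κ) (h0 : j 0 = 0)
    (h1 : ψ 0 = 0) : ∀ t, j t = 0 ∧ ψ t = 0 := by
  have hκ : 0 ≤ κ := (abs_nonneg _).trans (hk 0)
  have key := zero_of_deriv_le_all (D := fun t => (j t, ψ t)) (D' := fun t => (ψ t, -(k t * j t)))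
    (t₀ := 0) (L := 1 + κ) (fun t => (hj t).prodMk (hψ t)) (fun t => ?_) (by simp [h0, h1])
  · intro t
    have := key t
    simp only [Prod.mk_eq_zero] at this
    exact this
  · rw [Prod.norm_def, Prod.norm_def]
    simp only [Real.norm_eq_abs, abs_neg, abs_mul]
    set m := max |j t| |ψ t| with hm
    have m1 : |j t| ≤ m := le_max_left _ _
    have m2 : |ψ t| ≤ m := le_max_right _ _
    have m0 : 0 ≤ m := (abs_nonneg _).trans m1
    refine max_le ?_ ?_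
    · nlinarith
    · have := mul_le_mul (hk t) m1 (abs_nonneg _) hκ
      nlinarith

namespace RS

variable {E : Type} [NormedAddCommGroup E] [InnerProductSpace ℝ E] [FiniteDimensional ℝ E]

variable (S : RS E)

/-- the flow as a function of all variables -/
noncomputable def Φu (q : ℝ × (E × E × E)) : E × E × E := S.Φ q.1 q.2

lemma Φu_smooth : ContDiff ℝ ∞ S.Φu := S.Φ_smooth

lemma Φu_hasFDerivAt (q : ℝ × (E × E × E)) : HasFDerivAt S.Φu (fderiv ℝ S.Φu q) q :=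
  (S.Φu_smooth.differentiable (by simp) q).hasFDerivAt

/-- variation field -/
noncomputable def J (t : ℝ) (f V : E × E × E) : E × E × E := fderiv ℝ S.Φu (t, f) (0, V)

lemma fderivΦu_cont : Continuous (fderiv ℝ S.Φu) :=
  (S.Φu_smooth.fderiv_right (m := ∞) (by simp)).continuous

lemma J_cont : Continuous (fun q : ℝ × ((E × E × E) × (E × E × E)) => S.J q.1 q.2.1 q.2.2) := by
  unfold J
  exact (S.fderivΦu_cont.comp (continuous_fst.prodMk (continuous_fst.comp continuous_snd))).clm_apply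
    (continuous_const.prodMk (continuous_snd.comp continuous_snd))

lemma J_smooth : ContDiff ℝ ∞ (fun q : ℝ × ((E × E × E) × (E × E × E)) => S.J q.1 q.2.1 q.2.2) := by
  unfold J
  have h1 : ContDiff ℝ ∞ (fderiv ℝ S.Φu) := S.Φu_smooth.fderiv_right (by simp)
  exact (h1.comp (contDiff_fst.prodMk (contDiff_fst.comp contDiff_snd))).clm_apply
    (contDiff_const.prodMk (contDiff_snd.comp contDiff_snd))

lemma fderivΦu_time (q : ℝ × (E × E × E)) : fderiv ℝ S.Φu q (1, 0) = S.X (S.Φu q) := by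
  have h1 : HasDerivAt (fun t : ℝ => S.Φu (t, q.2)) (fderiv ℝ S.Φu q (1, 0)) q.1 := by
    have a1 : HasDerivAt (fun t : ℝ => (t, q.2)) ((1, 0) : ℝ × (E × E × E)) q.1 :=
      (hasDerivAt_id q.1).prodMk (hasDerivAt_const q.1 q.2)
    exact (S.Φu_hasFDerivAt q).comp_hasDerivAt q.1 a1
  exact h1.unique (S.Φ_deriv q.2 q.1)

/-- chain rule for the flow along a curve of frames with a moving time -/
lemma Φ_comp_deriv {g : ℝ → E × E × E} {r : ℝ → ℝ} {V : E × E × E} {r' τ : ℝ}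
    (hg : HasDerivAt g V τ) (hr : HasDerivAt r r' τ) :
    HasDerivAt (fun τ => S.Φ (r τ) (g τ)) (r' • S.X (S.Φ (r τ) (g τ)) + S.J (r τ) (g τ) V) τ := by
  have h1 := (S.Φu_hasFDerivAt (r τ, g τ)).comp_hasDerivAt τ (hr.prodMk hg)
  refine h1.congr_deriv ?_
  have h2 : ((r', V) : ℝ × (E × E × E)) = r' • (1, 0) + (0, V) := by
    ext <;> simp
  rw [h2, map_add, map_smul, S.fderivΦu_time]
  rfl

lemma J_zero (f V : E × E × E) : S.J 0 f V = V := by
  have h1 : HasDerivAt (fun τ : ℝ => f + τ • V) V 0 := by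
    have := ((hasDerivAt_id (0:ℝ)).smul_const V).const_add f
    simpa using this
  have h2 := S.Φ_comp_deriv (g := fun τ : ℝ => f + τ • V) (r := fun _ => 0) h1
    (hasDerivAt_const 0 (0:ℝ))
  simp only [zero_smul, add_zero, zero_add] at h2
  have h3 : (fun τ : ℝ => S.Φ 0 (f + τ • V)) = fun τ : ℝ => f + τ • V := by
    ext1 τ; rw [S.Φ_zero]
  rw [h3] at h2
  exact h2.unique h1

/-- the linearised equation -/
lemma J_deriv (f V : E × E × E) (t : ℝ) :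
    HasDerivAt (fun t => S.J t f V) (fderiv ℝ S.X (S.Φ t f) (S.J t f V)) t := by
  set D := fderiv ℝ S.Φu with hD
  have hDs : ContDiff ℝ ∞ D := S.Φu_smooth.fderiv_right (by simp)
  have hDd : HasFDerivAt D (fderiv ℝ D (t, f)) (t, f) :=
    (hDs.differentiable (by simp) (t, f)).hasFDerivAt
  have hsym : fderiv ℝ D (t, f) (1, 0) (0, V) = fderiv ℝ D (t, f) (0, V) (1, 0) := by
    have h1 : IsSymmSndFDerivAt ℝ S.Φu (t, f) := by
      apply S.Φu_smooth.contDiffAt.isSymmSndFDerivAt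
      simp only [minSmoothness_of_isRCLikeNormedField]
      exact WithTop.coe_le_coe.2 (le_top : (2:ℕ∞) ≤ ⊤)
    exact h1 _ _
  have h2 : HasDerivAt (fun t => S.J t f V) (fderiv ℝ D (t, f) (1, 0) (0, V)) t := by
    have a1 : HasDerivAt (fun t : ℝ => (t, f)) ((1, 0) : ℝ × (E × E × E)) t :=
      (hasDerivAt_id t).prodMk (hasDerivAt_const t f)
    have a2 : HasDerivAt (fun t => D (t, f)) (fderiv ℝ D (t, f) (1, 0)) t :=
      HasFDerivAt.comp_hasDerivAt (l := D) (f := fun t : ℝ => (t, f)) t hDd a1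
    have a3 := a2.clm_apply (hasDerivAt_const t ((0, V) : ℝ × (E × E × E)))
    simp only [map_zero, add_zero] at a3
    exact a3
  have h3 : fderiv ℝ D (t, f) (0, V) (1, 0) = fderiv ℝ S.X (S.Φ t f) (S.J t f V) := by
    have b1 : HasFDerivAt (fun q => D q (1, 0)) ((fderiv ℝ D (t, f)).flip (1, 0)) (t, f) := by
      have := hDd.clm_apply (hasFDerivAt_const ((1, 0) : ℝ × (E × E × E)) (t, f))
      refine this.congr_fderiv ?_
      ext v <;> simp
    have b2 : HasFDerivAt (fun q => S.X (S.Φu q))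
        ((fderiv ℝ S.X (S.Φu (t, f))).comp (D (t, f))) (t, f) := by
      have c1 : HasFDerivAt S.X (fderiv ℝ S.X (S.Φu (t, f))) (S.Φu (t, f)) :=
        (S.X_smooth.differentiable (by simp) _).hasFDerivAt
      exact c1.comp (t, f) (S.Φu_hasFDerivAt (t, f))
    have b3 : (fun q => D q (1, 0)) = fun q => S.X (S.Φu q) := by
      ext1 q; exact S.fderivΦu_time q
    rw [b3] at b1
    have b4 := b1.unique b2
    have := congrArg (fun L : (ℝ × (E × E × E)) →L[ℝ] (E × E × E) => L (0, V)) b4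
    exact this
  rw [hsym, h3] at h2
  exact h2

/-- velocities of curves of frames -/
def Adm (f V : E × E × E) : Prop :=
  ∃ g : ℝ → E × E × E, HasDerivAt g V 0 ∧ g 0 = f ∧ ∀ᶠ τ in 𝓝 (0:ℝ), g τ ∈ S.FB

variable {S}

lemma Adm.flow {f V : E × E × E} (h : S.Adm f V) (t : ℝ) : S.Adm (S.Φ t f) (S.J t f V) := by
  obtain ⟨g, h1, h2, h3⟩ := h
  refine ⟨fun τ => S.Φ t (g τ), ?_, by show S.Φ t (g 0) = _; rw [h2], ?_⟩
  · have := S.Φ_comp_deriv (r := fun _ => t) h1 (hasDerivAt_const 0 t)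
    rw [zero_smul, zero_add, h2] at this
    exact this
  · filter_upwards [h3] with τ hτ
    exact S.Φ_FB hτ t

lemma J_add (f V : E × E × E) (s t : ℝ) : S.J (s + t) f V = S.J s (S.Φ t f) (S.J t f V) := by
  have h1 : HasDerivAt (fun τ : ℝ => f + τ • V) V 0 := by
    have := ((hasDerivAt_id (0:ℝ)).smul_const V).const_add f
    simpa using this
  have h2 := S.Φ_comp_deriv (g := fun τ : ℝ => f + τ • V) (r := fun _ => s + t) h1
    (hasDerivAt_const 0 (s + t))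
  have h3 := S.Φ_comp_deriv (g := fun τ : ℝ => f + τ • V) (r := fun _ => t) h1
    (hasDerivAt_const 0 t)
  simp only [zero_smul, add_zero, zero_add] at h2 h3
  have h4 := S.Φ_comp_deriv (g := fun τ : ℝ => S.Φ t (f + τ • V)) (r := fun _ => s) h3
    (hasDerivAt_const 0 s)
  simp only [zero_smul, add_zero, zero_add] at h4
  have h5 : (fun τ : ℝ => S.Φ (s + t) (f + τ • V)) = fun τ : ℝ => S.Φ s (S.Φ t (f + τ • V)) := by
    ext1 τ; rw [S.Φ_add]
  rw [h5] at h2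
  exact h2.unique h4

lemma Adm.mem {f V : E × E × E} (h : S.Adm f V) : f ∈ S.FB := by
  obtain ⟨g, h1, h2, h3⟩ := h
  have := h3.self_of_nhds
  rwa [h2] at this

lemma Adm.constr {f V : E × E × E} (h : S.Adm f V) {F : Type} [NormedAddCommGroup F]
    [NormedSpace ℝ F] {G : E × E × E → F} {G' : E × E × E →L[ℝ] F} (hG : HasFDerivAt G G' f)
    (h0 : ∀ g ∈ S.FB, G g = 0) : G' V = 0 := by
  obtain ⟨g, h1, h2, h3⟩ := h
  have hG2 : HasFDerivAt G G' (g 0) := by rw [h2]; exact hG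
  have h4 : HasDerivAt (fun τ => G (g τ)) (G' V) 0 := hG2.comp_hasDerivAt 0 h1
  have h5 : (fun τ => G (g τ)) =ᶠ[𝓝 0] fun _ => 0 := by
    filter_upwards [h3] with τ hτ
    exact h0 _ hτ
  exact h4.unique ((hasDerivAt_const 0 (0:F)).congr_of_eventuallyEq h5)

/-- projections -/
lemma hd1 (f : E × E × E) : HasFDerivAt (fun g : E × E × E => g.1)
    (ContinuousLinearMap.fst ℝ E (E × E)) f := hasFDerivAt_fst
lemma hd2 (f : E × E × E) : HasFDerivAt (fun g : E × E × E => g.2.1)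
    ((ContinuousLinearMap.fst ℝ E E).comp (ContinuousLinearMap.snd ℝ E (E × E))) f :=
  hasFDerivAt_fst.comp f hasFDerivAt_snd
lemma hd3 (f : E × E × E) : HasFDerivAt (fun g : E × E × E => g.2.2)
    ((ContinuousLinearMap.snd ℝ E E).comp (ContinuousLinearMap.snd ℝ E (E × E))) f :=
  hasFDerivAt_snd.comp f hasFDerivAt_snd

lemma Adm.c1 {f V : E × E × E} (h : S.Adm f V) : S.P f.1 V.1 = V.1 := by
  have hf := h.mem
  have k := h.constr (G := fun g => S.π g.1 - g.1) (((S.hasFDerivAt_π f.1).comp f (hd1 f)).sub (hd1 f))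
    (fun g hg => by rw [S.hπS _ hg.1, sub_self])
  have : S.P f.1 V.1 - V.1 = 0 := k
  exact sub_eq_zero.1 this

lemma Adm.c2 {f V : E × E × E} (h : S.Adm f V) :
    V.2.1 = S.B f.1 V.1 f.2.1 + S.P f.1 V.2.1 := by
  have hf := h.mem
  have a1 := (((S.hasFDerivAt_P f.1).comp f (hd1 f)).clm_apply (hd2 f)).sub (hd2 f)
  have k := h.constr (G := fun g => S.P g.1 g.2.1 - g.2.1) a1
    (fun g hg => by rw [hg.2.1, sub_self])
  have : S.P f.1 V.2.1 + S.B f.1 V.1 f.2.1 - V.2.1 = 0 := k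
  rw [add_comm]; exact (sub_eq_zero.1 this).symm

lemma Adm.c3 {f V : E × E × E} (h : S.Adm f V) :
    V.2.2 = S.B f.1 V.1 f.2.2 + S.P f.1 V.2.2 := by
  have hf := h.mem
  have a1 := (((S.hasFDerivAt_P f.1).comp f (hd1 f)).clm_apply (hd3 f)).sub (hd3 f)
  have k := h.constr (G := fun g => S.P g.1 g.2.2 - g.2.2) a1
    (fun g hg => by rw [hg.2.2.1, sub_self])
  have : S.P f.1 V.2.2 + S.B f.1 V.1 f.2.2 - V.2.2 = 0 := k
  rw [add_comm]; exact (sub_eq_zero.1 this).symm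

lemma Adm.c4 {f V : E × E × E} (h : S.Adm f V) : ⟪V.2.1, f.2.1⟫_ℝ = 0 := by
  have k := h.constr (G := fun g => ⟪g.2.1, g.2.1⟫_ℝ - 1) (((hd2 f).inner ℝ (hd2 f)).sub_const 1)
    (fun g hg => by rw [real_inner_self_eq_norm_sq, hg.2.2.2.1]; norm_num)
  have : ⟪f.2.1, V.2.1⟫_ℝ + ⟪V.2.1, f.2.1⟫_ℝ = 0 := k
  rw [real_inner_comm f.2.1 V.2.1] at *
  linarith

lemma Adm.c5 {f V : E × E × E} (h : S.Adm f V) : ⟪V.2.2, f.2.2⟫_ℝ = 0 := by
  have k := h.constr (G := fun g => ⟪g.2.2, g.2.2⟫_ℝ - 1) (((hd3 f).inner ℝ (hd3 f)).sub_const 1)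
    (fun g hg => by rw [real_inner_self_eq_norm_sq, hg.2.2.2.2.1]; norm_num)
  have : ⟪f.2.2, V.2.2⟫_ℝ + ⟪V.2.2, f.2.2⟫_ℝ = 0 := k
  rw [real_inner_comm f.2.2 V.2.2] at *
  linarith

lemma Adm.c6 {f V : E × E × E} (h : S.Adm f V) : ⟪V.2.1, f.2.2⟫_ℝ + ⟪f.2.1, V.2.2⟫_ℝ = 0 := by
  have k := h.constr (G := fun g => ⟪g.2.1, g.2.2⟫_ℝ) ((hd2 f).inner ℝ (hd3 f))
    (fun g hg => hg.2.2.2.2.2)
  have : ⟪f.2.1, V.2.2⟫_ℝ + ⟪V.2.1, f.2.2⟫_ℝ = 0 := k
  linarith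

variable (S)

/-- the acceleration field `B w w` -/
noncomputable def A2 (g : E × E × E) : E := S.B g.1 g.2.1 g.2.1

lemma A2_smooth : ContDiff ℝ ∞ S.A2 := by
  unfold A2
  have h1 : ContDiff ℝ ∞ (fun f : E × E × E => S.B f.1) := S.B_smooth.comp contDiff_fst
  have h2 : ContDiff ℝ ∞ (fun f : E × E × E => f.2.1) := contDiff_fst.comp contDiff_snd
  exact (h1.clm_apply h2).clm_apply h2

variable {S}

lemma Adm.c7 {f V : E × E × E} (h : S.Adm f V) :
    ⟪fderiv ℝ S.A2 f V, f.2.2⟫_ℝ = - ⟪S.B f.1 f.2.1 f.2.1, V.2.2⟫_ℝ := by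
  have h1 : HasFDerivAt S.A2 (fderiv ℝ S.A2 f) f := (S.A2_smooth.differentiable (by simp) f).hasFDerivAt
  have k := h.constr (G := fun g => ⟪S.A2 g, g.2.2⟫_ℝ) (h1.inner ℝ (hd3 f))
    (fun g hg => S.inner_B hg.1 hg.2.1 hg.2.1 hg.2.2.1)
  have : ⟪S.A2 f, V.2.2⟫_ℝ + ⟪fderiv ℝ S.A2 f V, f.2.2⟫_ℝ = 0 := k
  have e : S.A2 f = S.B f.1 f.2.1 f.2.1 := rfl
  rw [e] at this
  linarith

variable (S)

lemma fderiv_X_eq {f : E × E × E} (hf : f ∈ S.M 2) (V : E × E × E) :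
    (fderiv ℝ S.X f V).1 = V.2.1 ∧ (fderiv ℝ S.X f V).2.1 = fderiv ℝ S.A2 f V := by
  have h1 : fderiv ℝ S.X f = fderiv ℝ S.X0 f := Filter.EventuallyEq.fderiv_eq (S.X_eq_ev hf)
  rw [h1]
  have h2 : HasFDerivAt S.X0 (fderiv ℝ S.X0 f) f := (S.X0_smooth.differentiable (by simp) f).hasFDerivAt
  constructor
  · have h3 : HasFDerivAt (fun g => (S.X0 g).1) ((ContinuousLinearMap.fst ℝ E (E × E)).comp (fderiv ℝ S.X0 f)) f :=
      hasFDerivAt_fst.comp f h2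
    have h4 : (fun g => (S.X0 g).1) = fun g : E × E × E => g.2.1 := rfl
    rw [h4] at h3
    have := congrArg (fun L : (E × E × E) →L[ℝ] E => L V) (h3.unique (hd2 f))
    exact this
  · have h3 : HasFDerivAt (fun g => (S.X0 g).2.1) (((ContinuousLinearMap.fst ℝ E E).comp
        (ContinuousLinearMap.snd ℝ E (E × E))).comp (fderiv ℝ S.X0 f)) f :=
      ((ContinuousLinearMap.fst ℝ E E).comp
        (ContinuousLinearMap.snd ℝ E (E × E))).hasFDerivAt.comp f h2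
    have h4 : (fun g => (S.X0 g).2.1) = S.A2 := rfl
    rw [h4] at h3
    have h5 : HasFDerivAt S.A2 (fderiv ℝ S.A2 f) f := (S.A2_smooth.differentiable (by simp) f).hasFDerivAt
    have := congrArg (fun L : (E × E × E) →L[ℝ] E => L V) (h3.unique h5)
    exact this

/-- Gauss curvature in terms of a frame -/
noncomputable def K (f : E × E × E) : ℝ :=
  ⟪S.B f.1 f.2.1 f.2.1, S.B f.1 f.2.2 f.2.2⟫_ℝ - ⟪S.B f.1 f.2.1 f.2.2, S.B f.1 f.2.1 f.2.2⟫_ℝ

lemma K_smooth : ContDiff ℝ ∞ S.K := by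
  unfold K
  have h1 : ContDiff ℝ ∞ (fun f : E × E × E => S.B f.1) := S.B_smooth.comp contDiff_fst
  have h2 : ContDiff ℝ ∞ (fun f : E × E × E => f.2.1) := contDiff_fst.comp contDiff_snd
  have h3 : ContDiff ℝ ∞ (fun f : E × E × E => f.2.2) := contDiff_snd.comp contDiff_snd
  have h11 := (h1.clm_apply h2).clm_apply h2
  have h12 := (h1.clm_apply h2).clm_apply h3
  have h22 := (h1.clm_apply h3).clm_apply h3
  exact (h11.inner ℝ h22).sub (h12.inner ℝ h12)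

lemma K_cont : Continuous S.K := S.K_smooth.continuous

lemma K_bound : ∃ κ : ℝ, 0 ≤ κ ∧ ∀ f ∈ S.FB, |S.K f| ≤ κ := by
  obtain ⟨κ, hκ⟩ := S.FB_compact.exists_bound_of_continuousOn S.K_cont.continuousOn
  exact ⟨|κ|, abs_nonneg _, fun f hf => (hκ f hf).trans (le_abs_self κ)⟩

/-- rotation of frames -/
noncomputable def rot (θ : ℝ) (f : E × E × E) : E × E × E :=
  (f.1, Real.cos θ • f.2.1 + Real.sin θ • f.2.2, -Real.sin θ • f.2.1 + Real.cos θ • f.2.2)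

lemma rot_FB {f : E × E × E} (hf : f ∈ S.FB) (θ : ℝ) : rot θ f ∈ S.FB := by
  obtain ⟨h1, h2, h3, h4, h5, h6⟩ := hf
  have i1 : ⟪f.2.1, f.2.1⟫_ℝ = 1 := by rw [real_inner_self_eq_norm_sq, h4]; norm_num
  have i2 : ⟪f.2.2, f.2.2⟫_ℝ = 1 := by rw [real_inner_self_eq_norm_sq, h5]; norm_num
  have i3 : ⟪f.2.2, f.2.1⟫_ℝ = 0 := by rw [real_inner_comm]; exact h6
  have cs := Real.sin_sq_add_cos_sq θ
  refine ⟨h1, ?_, ?_, ?_, ?_, ?_⟩
  · show S.P f.1 (Real.cos θ • f.2.1 + Real.sin θ • f.2.2) = _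
    rw [map_add, map_smul, map_smul, h2, h3]; rfl
  · show S.P f.1 (-Real.sin θ • f.2.1 + Real.cos θ • f.2.2) = _
    rw [map_add, map_smul, map_smul, h2, h3]; rfl
  · have : ‖Real.cos θ • f.2.1 + Real.sin θ • f.2.2‖ ^ 2 = 1 := by
      rw [← real_inner_self_eq_norm_sq]
      simp only [inner_add_left, inner_add_right, real_inner_smul_left, real_inner_smul_right, i1,
        i2, i3, h6]
      linarith
    have h0 := norm_nonneg (Real.cos θ • f.2.1 + Real.sin θ • f.2.2)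
    show ‖Real.cos θ • f.2.1 + Real.sin θ • f.2.2‖ = 1
    nlinarith
  · have : ‖-Real.sin θ • f.2.1 + Real.cos θ • f.2.2‖ ^ 2 = 1 := by
      rw [← real_inner_self_eq_norm_sq]
      simp only [inner_add_left, inner_add_right, real_inner_smul_left, real_inner_smul_right, i1,
        i2, i3, h6]
      linarith
    have h0 := norm_nonneg (-Real.sin θ • f.2.1 + Real.cos θ • f.2.2)
    show ‖-Real.sin θ • f.2.1 + Real.cos θ • f.2.2‖ = 1
    nlinarith
  · show ⟪Real.cos θ • f.2.1 + Real.sin θ • f.2.2, -Real.sin θ • f.2.1 + Real.cos θ • f.2.2⟫_ℝ = 0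
    simp only [inner_add_left, inner_add_right, real_inner_smul_left, real_inner_smul_right, i1,
        i2, i3, h6]
    ring

@[simp] lemma rot_zero (f : E × E × E) : rot 0 f = f := by
  unfold rot; simp

lemma rot_deriv (f : E × E × E) (θ : ℝ) :
    HasDerivAt (fun θ => rot θ f) ((0 : E), (rot θ f).2.2, -(rot θ f).2.1) θ := by
  have a1 := ((Real.hasDerivAt_cos θ).smul_const f.2.1).add ((Real.hasDerivAt_sin θ).smul_const f.2.2)
  have a2 := ((Real.hasDerivAt_sin θ).neg.smul_const f.2.1).add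
    ((Real.hasDerivAt_cos θ).smul_const f.2.2)
  have a3 := (hasDerivAt_const θ f.1).prodMk (a1.prodMk a2)
  refine a3.congr_deriv ?_
  unfold rot
  refine Prod.ext rfl (Prod.ext rfl ?_)
  simp only
  module

lemma rot_cont : Continuous (fun q : ℝ × (E × E × E) => rot q.1 q.2) := by
  unfold rot
  fun_prop

lemma rot_add (a b : ℝ) (f : E × E × E) : rot a (rot b f) = rot (a + b) f := by
  unfold rot
  refine Prod.ext rfl (Prod.ext ?_ ?_)
  · simp only [Real.cos_add, Real.sin_add]; module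
  · simp only [Real.cos_add, Real.sin_add]; module

/-- the curvature does not depend on the frame -/
lemma K_rot {f : E × E × E} (θ : ℝ) : S.K (rot θ f) = S.K f := by
  have cs := Real.sin_sq_add_cos_sq θ
  unfold K rot
  simp only [map_add, map_smul, add_apply, smul_apply]
  rw [S.B_symm f.1 f.2.2 f.2.1]
  set a := S.B f.1 f.2.1 f.2.1
  set b := S.B f.1 f.2.1 f.2.2
  set d := S.B f.1 f.2.2 f.2.2
  set c := Real.cos θ
  set s := Real.sin θ
  have e1 : ⟪b, a⟫_ℝ = ⟪a, b⟫_ℝ := real_inner_comm _ _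
  have e2 : ⟪d, a⟫_ℝ = ⟪a, d⟫_ℝ := real_inner_comm _ _
  have e3 : ⟪d, b⟫_ℝ = ⟪b, d⟫_ℝ := real_inner_comm _ _
  simp only [inner_add_left, inner_add_right, real_inner_smul_left, real_inner_smul_right, e1, e2, e3]
  have h2 : (s^2 + c^2)^2 = 1 := by rw [cs]; norm_num
  linear_combination (⟪a, d⟫_ℝ - ⟪b, b⟫_ℝ) * h2

variable {S}

lemma Adm.hasDeriv {f V : E × E × E} (h : S.Adm f V) (t : ℝ) :
    HasDerivAt (fun t => ⟪(S.J t f V).1, (S.Φ t f).2.2⟫_ℝ) ⟪(S.J t f V).2.1, (S.Φ t f).2.2⟫_ℝ t ∧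
    HasDerivAt (fun t => ⟪(S.J t f V).1, (S.Φ t f).2.1⟫_ℝ) 0 t ∧
    HasDerivAt (fun t => ⟪(S.J t f V).2.1, (S.Φ t f).2.2⟫_ℝ)
      (-(S.K (S.Φ t f) * ⟪(S.J t f V).1, (S.Φ t f).2.2⟫_ℝ)) t := by
  have hf := h.mem
  have hM : f ∈ S.M 2 := S.FB_sub_M hf one_le_two
  have hMt := S.Φ_M le_rfl hM t
  have hFt := S.Φ_FB hf t
  have hA := h.flow t
  have hJ := S.J_deriv f V t
  obtain ⟨x1, x2⟩ := S.fderiv_X_eq hMt (S.J t f V)
  have dξ : HasDerivAt (fun t => (S.J t f V).1) (S.J t f V).2.1 t := by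
    have := (ContinuousLinearMap.fst ℝ E (E × E)).hasFDerivAt.comp_hasDerivAt t hJ
    rw [← x1]; exact this
  have dη : HasDerivAt (fun t => (S.J t f V).2.1) (fderiv ℝ S.A2 (S.Φ t f) (S.J t f V)) t := by
    have := ((ContinuousLinearMap.fst ℝ E E).comp
      (ContinuousLinearMap.snd ℝ E (E × E))).hasFDerivAt.comp_hasDerivAt t hJ
    rw [← x2]; exact this
  have dw := S.vel_deriv hM t
  have dn := S.nor_deriv hM t
  obtain ⟨g1, g2, g3, g4, g5, g6⟩ := hFt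
  refine ⟨?_, ?_, ?_⟩
  · have := dξ.inner ℝ dn
    rwa [S.inner_B' g1 g2 g3 hA.c1, zero_add] at this
  · have := dξ.inner ℝ dw
    rwa [S.inner_B' g1 g2 g2 hA.c1, zero_add, hA.c4] at this
  · have k := dη.inner ℝ dn
    refine k.congr_deriv ?_
    rw [hA.c7]
    set ξ := (S.J t f V).1 with hξ
    set η := (S.J t f V).2.1 with hη
    set ζ := (S.J t f V).2.2 with hζ
    set x := (S.Φ t f).1 with hx
    set w := (S.Φ t f).2.1 with hw
    set n := (S.Φ t f).2.2 with hn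
    have e1 : ⟪S.B x w w, ζ⟫_ℝ = ⟪S.B x w w, S.B x ξ n⟫_ℝ := by
      have : ζ = S.B x ξ n + S.P x ζ := hA.c3
      rw [this, inner_add_right, ← S.inner_P g1, S.P_B g1 g2 g2, inner_zero_left, add_zero]
    have e2 : ⟪η, S.B x w n⟫_ℝ = ⟪S.B x ξ w, S.B x w n⟫_ℝ := by
      have : η = S.B x ξ w + S.P x η := hA.c2
      rw [this, inner_add_left, S.inner_P g1, S.P_B g1 g2 g3, inner_zero_right, add_zero]
    have e3 : ξ = ⟪ξ, w⟫_ℝ • w + ⟪ξ, n⟫_ℝ • n := S.frame_expand (S.Φ_FB hf t) hA.c1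
    rw [e1, e2]
    have hK : S.K (S.Φ t f) = ⟪S.B x w w, S.B x n n⟫_ℝ - ⟪S.B x w n, S.B x w n⟫_ℝ := rfl
    rw [hK]
    set e := ⟪ξ, w⟫_ℝ
    set j := ⟪ξ, n⟫_ℝ
    have e4 : S.B x ξ n = e • S.B x w n + j • S.B x n n := by
      conv_lhs => rw [e3]
      simp
    have e5 : S.B x ξ w = e • S.B x w w + j • S.B x w n := by
      conv_lhs => rw [e3]
      simp [S.B_symm x n w]
    rw [e4, e5]
    simp only [inner_add_left, inner_add_right, real_inner_smul_left, real_inner_smul_right]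
    ring

variable (S)

lemma Adm_rot {f : E × E × E} (hf : f ∈ S.FB) : S.Adm f ((0 : E), f.2.2, -f.2.1) := by
  refine ⟨fun τ => rot τ f, ?_, by simp, Eventually.of_forall fun τ => S.rot_FB hf τ⟩
  have := rot_deriv f 0
  simpa using this

lemma quarter (f : E × E × E) (hf : f ∈ S.FB) : ((f.1, f.2.2, -f.2.1) : E × E × E) ∈ S.FB := by
  have := S.rot_FB hf (Real.pi / 2)
  unfold rot at this
  simpa using this

lemma quarter' (f : E × E × E) (hf : f ∈ S.FB) : ((f.1, -f.2.2, f.2.1) : E × E × E) ∈ S.FB := by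
  have := S.rot_FB hf (-(Real.pi / 2))
  unfold rot at this
  simpa using this

/-- parallel displacement in the normal direction -/
noncomputable def nshift (τ : ℝ) (f : E × E × E) : E × E × E :=
  ((S.Φ τ (f.1, f.2.2, -f.2.1)).1, -(S.Φ τ (f.1, f.2.2, -f.2.1)).2.2,
    (S.Φ τ (f.1, f.2.2, -f.2.1)).2.1)

lemma nshift_FB {f : E × E × E} (hf : f ∈ S.FB) (τ : ℝ) : S.nshift τ f ∈ S.FB :=
  S.quarter' _ (S.Φ_FB (S.quarter f hf) τ)

lemma nshift_zero (f : E × E × E) : S.nshift 0 f = f := by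
  unfold nshift; simp

/-- velocity of the normal shift -/
noncomputable def V2 (f : E × E × E) : E × E × E :=
  (f.2.2, S.B f.1 f.2.2 f.2.1, S.B f.1 f.2.2 f.2.2)

lemma nshift_deriv {f : E × E × E} (hf : f ∈ S.FB) :
    HasDerivAt (fun τ => S.nshift τ f) (S.V2 f) 0 := by
  have hq := S.FB_sub_M (S.quarter f hf) one_le_two
  have a1 := S.pos_deriv hq 0
  have a2 := (S.nor_deriv hq 0).neg
  have a3 := S.vel_deriv hq 0
  have a4 := a1.prodMk (a2.prodMk a3)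
  refine a4.congr_deriv ?_
  rw [S.Φ_zero]
  unfold V2
  refine Prod.ext rfl (Prod.ext ?_ rfl)
  simp

lemma Adm_V2 {f : E × E × E} (hf : f ∈ S.FB) : S.Adm f (S.V2 f) :=
  ⟨fun τ => S.nshift τ f, S.nshift_deriv hf, S.nshift_zero f,
    Eventually.of_forall fun τ => S.nshift_FB hf τ⟩

/-- the Jacobi field with `j(0)=0, j'(0)=1` and its derivative -/
noncomputable def sj (f : E × E × E) (t : ℝ) : ℝ :=
  ⟪(S.J t f ((0 : E), f.2.2, -f.2.1)).1, (S.Φ t f).2.2⟫_ℝ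
noncomputable def sj' (f : E × E × E) (t : ℝ) : ℝ :=
  ⟪(S.J t f ((0 : E), f.2.2, -f.2.1)).2.1, (S.Φ t f).2.2⟫_ℝ
/-- the Jacobi field with `j(0)=1, j'(0)=0` and its derivative -/
noncomputable def cj (f : E × E × E) (t : ℝ) : ℝ :=
  ⟪(S.J t f (S.V2 f)).1, (S.Φ t f).2.2⟫_ℝ
noncomputable def cj' (f : E × E × E) (t : ℝ) : ℝ :=
  ⟪(S.J t f (S.V2 f)).2.1, (S.Φ t f).2.2⟫_ℝ

lemma V2_smooth : ContDiff ℝ ∞ S.V2 := by
  unfold V2
  have h1 : ContDiff ℝ ∞ (fun f : E × E × E => S.B f.1) := S.B_smooth.comp contDiff_fst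
  have h2 : ContDiff ℝ ∞ (fun f : E × E × E => f.2.1) := contDiff_fst.comp contDiff_snd
  have h3 : ContDiff ℝ ∞ (fun f : E × E × E => f.2.2) := contDiff_snd.comp contDiff_snd
  exact h3.prodMk (((h1.clm_apply h3).clm_apply h2).prodMk ((h1.clm_apply h3).clm_apply h3))

lemma Φn_smooth : ContDiff ℝ ∞ (fun q : (E × E × E) × ℝ => (S.Φ q.2 q.1).2.2) := by
  have h1 : ContDiff ℝ ∞ (fun q : (E × E × E) × ℝ => S.Φ q.2 q.1) :=
    S.Φ_smooth.comp (contDiff_snd.prodMk contDiff_fst)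
  exact contDiff_snd.comp (contDiff_snd.comp h1)

lemma Js_smooth : ContDiff ℝ ∞ (fun q : (E × E × E) × ℝ => S.J q.2 q.1 ((0 : E), q.1.2.2, -q.1.2.1)) := by
  have h2 : ContDiff ℝ ∞ (fun q : (E × E × E) × ℝ => q.1.2.1) :=
    contDiff_fst.comp (contDiff_snd.comp contDiff_fst)
  have h3 : ContDiff ℝ ∞ (fun q : (E × E × E) × ℝ => q.1.2.2) :=
    contDiff_snd.comp (contDiff_snd.comp contDiff_fst)
  exact S.J_smooth.comp (contDiff_snd.prodMk (contDiff_fst.prodMk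
    (contDiff_const.prodMk (h3.prodMk h2.neg))))

lemma Jc_smooth : ContDiff ℝ ∞ (fun q : (E × E × E) × ℝ => S.J q.2 q.1 (S.V2 q.1)) :=
  S.J_smooth.comp (contDiff_snd.prodMk (contDiff_fst.prodMk (S.V2_smooth.comp contDiff_fst)))

lemma sj_smooth : ContDiff ℝ ∞ (fun q : (E × E × E) × ℝ => S.sj q.1 q.2) :=
  (contDiff_fst.comp S.Js_smooth).inner ℝ S.Φn_smooth
lemma sj'_smooth : ContDiff ℝ ∞ (fun q : (E × E × E) × ℝ => S.sj' q.1 q.2) :=
  (contDiff_fst.comp (contDiff_snd.comp S.Js_smooth)).inner ℝ S.Φn_smooth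
lemma cj_smooth : ContDiff ℝ ∞ (fun q : (E × E × E) × ℝ => S.cj q.1 q.2) :=
  (contDiff_fst.comp S.Jc_smooth).inner ℝ S.Φn_smooth
lemma cj'_smooth : ContDiff ℝ ∞ (fun q : (E × E × E) × ℝ => S.cj' q.1 q.2) :=
  (contDiff_fst.comp (contDiff_snd.comp S.Jc_smooth)).inner ℝ S.Φn_smooth

lemma sj_cont : Continuous (fun q : (E × E × E) × ℝ => S.sj q.1 q.2) := S.sj_smooth.continuous
lemma sj'_cont : Continuous (fun q : (E × E × E) × ℝ => S.sj' q.1 q.2) := S.sj'_smooth.continuous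
lemma cj_cont : Continuous (fun q : (E × E × E) × ℝ => S.cj q.1 q.2) := S.cj_smooth.continuous
lemma cj'_cont : Continuous (fun q : (E × E × E) × ℝ => S.cj' q.1 q.2) := S.cj'_smooth.continuous

lemma sj_deriv {f : E × E × E} (hf : f ∈ S.FB) (t : ℝ) :
    HasDerivAt (S.sj f) (S.sj' f t) t := ((S.Adm_rot hf).hasDeriv t).1
lemma sj'_deriv {f : E × E × E} (hf : f ∈ S.FB) (t : ℝ) :
    HasDerivAt (S.sj' f) (-(S.K (S.Φ t f) * S.sj f t)) t := ((S.Adm_rot hf).hasDeriv t).2.2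
lemma cj_deriv {f : E × E × E} (hf : f ∈ S.FB) (t : ℝ) :
    HasDerivAt (S.cj f) (S.cj' f t) t := ((S.Adm_V2 hf).hasDeriv t).1
lemma cj'_deriv {f : E × E × E} (hf : f ∈ S.FB) (t : ℝ) :
    HasDerivAt (S.cj' f) (-(S.K (S.Φ t f) * S.cj f t)) t := ((S.Adm_V2 hf).hasDeriv t).2.2

lemma sj_zero {f : E × E × E} : S.sj f 0 = 0 := by
  unfold sj; rw [S.J_zero, S.Φ_zero]; simp
lemma sj'_zero {f : E × E × E} (hf : f ∈ S.FB) : S.sj' f 0 = 1 := by
  unfold sj'; rw [S.J_zero, S.Φ_zero]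
  show ⟪f.2.2, f.2.2⟫_ℝ = 1
  rw [real_inner_self_eq_norm_sq, hf.2.2.2.2.1]; norm_num
lemma cj_zero {f : E × E × E} (hf : f ∈ S.FB) : S.cj f 0 = 1 := by
  unfold cj; rw [S.J_zero, S.Φ_zero]
  show ⟪f.2.2, f.2.2⟫_ℝ = 1
  rw [real_inner_self_eq_norm_sq, hf.2.2.2.2.1]; norm_num
lemma cj'_zero {f : E × E × E} (hf : f ∈ S.FB) : S.cj' f 0 = 0 := by
  unfold cj'; rw [S.J_zero, S.Φ_zero]
  show ⟪S.B f.1 f.2.2 f.2.1, f.2.2⟫_ℝ = 0
  exact S.inner_B hf.1 hf.2.2.1 hf.2.1 hf.2.2.1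

variable {S}

/-- every variation is a combination of the two fundamental ones -/
lemma Adm.formula {f V : E × E × E} (h : S.Adm f V) (t : ℝ) :
    ⟪(S.J t f V).1, (S.Φ t f).2.2⟫_ℝ = ⟪V.1, f.2.2⟫_ℝ * S.cj f t + ⟪V.2.1, f.2.2⟫_ℝ * S.sj f t ∧
    ⟪(S.J t f V).2.1, (S.Φ t f).2.2⟫_ℝ =
      ⟪V.1, f.2.2⟫_ℝ * S.cj' f t + ⟪V.2.1, f.2.2⟫_ℝ * S.sj' f t := by
  have hf := h.mem
  obtain ⟨κ, hκ0, hκ⟩ := S.K_bound
  set a := ⟪V.1, f.2.2⟫_ℝ with ha
  set b := ⟪V.2.1, f.2.2⟫_ℝ with hb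
  have key := lin2_zero
    (j := fun t => ⟪(S.J t f V).1, (S.Φ t f).2.2⟫_ℝ - (a * S.cj f t + b * S.sj f t))
    (ψ := fun t => ⟪(S.J t f V).2.1, (S.Φ t f).2.2⟫_ℝ - (a * S.cj' f t + b * S.sj' f t))
    (k := fun t => S.K (S.Φ t f)) (κ := κ) (fun t => ?_) (fun t => ?_)
    (fun t => hκ _ (S.Φ_FB hf t)) ?_ ?_ t
  · obtain ⟨k1, k2⟩ := key
    constructor <;> linarith
  · exact (h.hasDeriv t).1.sub (((S.cj_deriv hf t).const_mul a).add ((S.sj_deriv hf t).const_mul b))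
  · have := (h.hasDeriv t).2.2.sub
      (((S.cj'_deriv hf t).const_mul a).add ((S.sj'_deriv hf t).const_mul b))
    refine this.congr_deriv ?_
    ring
  · rw [S.J_zero, S.Φ_zero, S.cj_zero hf, S.sj_zero]; ring
  · rw [S.J_zero, S.Φ_zero, S.cj'_zero hf, S.sj'_zero hf]; ring

lemma Adm.tang {f V : E × E × E} (h : S.Adm f V) (t : ℝ) :
    ⟪(S.J t f V).1, (S.Φ t f).2.1⟫_ℝ = ⟪V.1, f.2.1⟫_ℝ := by
  have h1 : ∀ t, HasDerivAt (fun t => ⟪(S.J t f V).1, (S.Φ t f).2.1⟫_ℝ) 0 t := fun t =>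
    (h.hasDeriv t).2.1
  have h2 := is_const_of_deriv_eq_zero (f := fun t => ⟪(S.J t f V).1, (S.Φ t f).2.1⟫_ℝ)
    (fun t => (h1 t).differentiableAt) (fun t => (h1 t).deriv) t 0
  rw [h2, S.J_zero, S.Φ_zero]

variable (S)

/-- Wronskian -/
lemma wronsk {f : E × E × E} (hf : f ∈ S.FB) (t : ℝ) :
    S.cj f t * S.sj' f t - S.cj' f t * S.sj f t = 1 := by
  have h1 : ∀ t, HasDerivAt (fun t => S.cj f t * S.sj' f t - S.cj' f t * S.sj f t) 0 t := by
    intro t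
    have a1 : HasDerivAt (fun t => S.cj f t * S.sj' f t) _ t := (S.cj_deriv hf t).mul (S.sj'_deriv hf t)
    have a2 : HasDerivAt (fun t => S.cj' f t * S.sj f t) _ t := (S.cj'_deriv hf t).mul (S.sj_deriv hf t)
    refine (a1.sub a2).congr_deriv ?_
    ring
  have h2 := is_const_of_deriv_eq_zero (f := fun t => S.cj f t * S.sj' f t - S.cj' f t * S.sj f t)
    (fun t => (h1 t).differentiableAt) (fun t => (h1 t).deriv) t 0
  rw [h2, S.cj_zero hf, S.sj'_zero hf, S.sj_zero]; ring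

/-- cocycle property -/
lemma cocycle {f : E × E × E} (hf : f ∈ S.FB) (s t : ℝ) :
    S.sj f (s + t) = S.sj f t * S.cj (S.Φ t f) s + S.sj' f t * S.sj (S.Φ t f) s ∧
    S.cj f (s + t) = S.cj f t * S.cj (S.Φ t f) s + S.cj' f t * S.sj (S.Φ t f) s ∧
    S.sj' f (s + t) = S.sj f t * S.cj' (S.Φ t f) s + S.sj' f t * S.sj' (S.Φ t f) s ∧
    S.cj' f (s + t) = S.cj f t * S.cj' (S.Φ t f) s + S.cj' f t * S.sj' (S.Φ t f) s := by
  have h1 := ((S.Adm_rot hf).flow t).formula s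
  have h2 := ((S.Adm_V2 hf).flow t).formula s
  rw [← J_add, ← S.Φ_add] at h1 h2
  exact ⟨h1.1, h2.1, h1.2, h2.2⟩

/-- uniform positivity for short times -/
lemma exists_short : ∃ r : ℝ, 0 < r ∧ ∀ f ∈ S.FB, ∀ t : ℝ, |t| ≤ r →
    |S.sj' f t - 1| ≤ 1/2 ∧ |S.cj f t - 1| ≤ 1/2 := by
  have h1 : ∀ f ∈ S.FB, ∀ᶠ q : (E × E × E) × ℝ in 𝓝 (f, (0:ℝ)),
      |S.sj' q.1 q.2 - 1| < 1/2 ∧ |S.cj q.1 q.2 - 1| < 1/2 := by
    intro f hf
    have c1 : Continuous (fun q : (E × E × E) × ℝ => |S.sj' q.1 q.2 - 1|) :=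
      continuous_abs.comp (S.sj'_cont.sub continuous_const)
    have c2 : Continuous (fun q : (E × E × E) × ℝ => |S.cj q.1 q.2 - 1|) :=
      continuous_abs.comp (S.cj_cont.sub continuous_const)
    have a1 : Tendsto (fun q : (E × E × E) × ℝ => |S.sj' q.1 q.2 - 1|) (𝓝 (f, 0)) (𝓝 0) := by
      have := c1.tendsto (f, 0)
      simpa only [S.sj'_zero hf, sub_self, abs_zero] using this
    have a2 : Tendsto (fun q : (E × E × E) × ℝ => |S.cj q.1 q.2 - 1|) (𝓝 (f, 0)) (𝓝 0) := by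
      have := c2.tendsto (f, 0)
      simpa only [S.cj_zero hf, sub_self, abs_zero] using this
    exact (a1.eventually (gt_mem_nhds (by norm_num))).and (a2.eventually (gt_mem_nhds (by norm_num)))
  set O : Set ((E × E × E) × ℝ) :=
    {q | |S.sj' q.1 q.2 - 1| < 1/2 ∧ |S.cj q.1 q.2 - 1| < 1/2} with hO
  have hOo : IsOpen O := by
    have c1 : Continuous (fun q : (E × E × E) × ℝ => |S.sj' q.1 q.2 - 1|) :=
      continuous_abs.comp (S.sj'_cont.sub continuous_const)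
    have c2 : Continuous (fun q : (E × E × E) × ℝ => |S.cj q.1 q.2 - 1|) :=
      continuous_abs.comp (S.cj_cont.sub continuous_const)
    exact (isOpen_lt c1 continuous_const).inter (isOpen_lt c2 continuous_const)
  have hc : IsCompact (S.FB ×ˢ ({0} : Set ℝ)) := S.FB_compact.prod isCompact_singleton
  have hsub : S.FB ×ˢ ({0} : Set ℝ) ⊆ O := by
    rintro ⟨f, t⟩ ⟨hf, ht⟩
    rw [mem_singleton_iff] at ht
    simp only at ht hf
    subst ht
    exact (h1 f hf).self_of_nhds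
  obtain ⟨δ, hδ, h2⟩ := hc.exists_thickening_subset_open hOo hsub
  refine ⟨δ / 2, by positivity, fun f hf t ht => ?_⟩
  have h3 : (f, t) ∈ O := by
    apply h2
    rw [mem_thickening_iff]
    refine ⟨(f, 0), ⟨hf, rfl⟩, ?_⟩
    rw [Prod.dist_eq]
    simp only [dist_self, Real.dist_eq, sub_zero]
    rw [max_lt_iff]
    exact ⟨hδ, by linarith⟩
  exact ⟨h3.1.le, h3.2.le⟩

end RS

end Pool.Agent.H864R3
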