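import Pool.Agent.H864R3.Defs

set_option autoImplicit false
set_option linter.unusedVariables false
set_option linter.unusedSectionVars false

open Set Metric Filter Topology
open scoped ContDiff InnerProductSpace NNReal

namespace Pool.Agent.H864R3

lemma triple_alg {c1 d1 s1 e1 c2 d2 s2 e2 c3 s3 e3 j0 j1 j3 α0 α1 α3 : ℝ}
    (hw1 : c1 * e1 - d1 * s1 = 1) (hw2 : c2 * e2 - d2 * s2 = 1)
    (h3c : c3 = c1 * c2 + d1 * s2) (h3s : s3 = s1 * c2 + e1 * s2) (h3e : e3 = s1 * d2 + e1 * e2)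
    (A : e1 * j1 ^ 2 - 2 * j0 * j1 + c1 * j0 ^ 2 = s1 * (α0 - α1))
    (B : e2 * j3 ^ 2 - 2 * j1 * j3 + c2 * j1 ^ 2 = s2 * (α1 - α3))
    (C : e3 * j3 ^ 2 - 2 * j0 * j3 + c3 * j0 ^ 2 = s3 * (α0 - α3)) :
    s3 * j1 = s2 * j0 + s1 * j3 := by
  have key : (s3 * j1 - s2 * j0 - s1 * j3) ^ 2 = 0 := by
    have e1' : s2 * s3 * (e1 * j1 ^ 2 - 2 * j0 * j1 + c1 * j0 ^ 2) +
        s1 * s3 * (e2 * j3 ^ 2 - 2 * j1 * j3 + c2 * j1 ^ 2) -
        s1 * s2 * (e3 * j3 ^ 2 - 2 * j0 * j3 + c3 * j0 ^ 2) = 0 := by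
      rw [A, B, C]; ring
    have e2' : s2 * s3 * (e1 * j1 ^ 2 - 2 * j0 * j1 + c1 * j0 ^ 2) +
        s1 * s3 * (e2 * j3 ^ 2 - 2 * j1 * j3 + c2 * j1 ^ 2) -
        s1 * s2 * (e3 * j3 ^ 2 - 2 * j0 * j3 + c3 * j0 ^ 2) =
        (s3 * j1 - s2 * j0 - s1 * j3) ^ 2 := by
      subst h3c h3s h3e
      linear_combination (s2 ^ 2 * j0 ^ 2) * hw1 + (s1 ^ 2 * j3 ^ 2) * hw2
    rw [← e2', e1']
  have := pow_eq_zero_iff (two_ne_zero) |>.1 key
  linarith

/-- a pair of tangent bounded fields satisfying the equation on all short geodesics -/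
structure Fld {E : Type} [NormedAddCommGroup E] [InnerProductSpace ℝ E] [FiniteDimensional ℝ E]
    {S : RS E} (L : LE S) (v a : E → E) : Prop where
  tv : ∀ x ∈ S.S, S.P x (v x) = v x
  ta : ∀ x ∈ S.S, S.P x (a x) = a x
  bd : ∃ C, ∀ x ∈ S.S, ‖v x‖ ≤ C ∧ ‖a x‖ ≤ C
  eq : ∀ f ∈ S.FB, ∀ t : ℝ, 0 < t → t < L.r →
    S.eqn f t (v f.1) (a f.1) (v (S.Φ t f).1) (a (S.Φ t f).1)

/-- normal component -/
noncomputable def jf {E : Type} [NormedAddCommGroup E] [InnerProductSpace ℝ E] (v : E → E)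
    (f : E × E × E) : ℝ := ⟪v f.1, f.2.2⟫_ℝ
/-- tangential component -/
noncomputable def ef {E : Type} [NormedAddCommGroup E] [InnerProductSpace ℝ E] (v : E → E)
    (f : E × E × E) : ℝ := ⟪v f.1, f.2.1⟫_ℝ

/-- the derivative of the normal component along the geodesic -/
noncomputable def bf {E : Type} [NormedAddCommGroup E] [InnerProductSpace ℝ E]
    [FiniteDimensional ℝ E] {S : RS E} (L : LE S) (v : E → E) (f : E × E × E) : ℝ :=
  (jf v (S.Φ (L.r / 2) f) - S.cj f (L.r / 2) * jf v f) / S.sj f (L.r / 2)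

namespace Fld

variable {E : Type} [NormedAddCommGroup E] [InnerProductSpace ℝ E] [FiniteDimensional ℝ E]
variable {S : RS E} {L : LE S} {v a : E → E} (F : Fld L v a)

include F

lemma eq' {f : E × E × E} (hf : f ∈ S.FB) {t : ℝ} (h0 : 0 < t) (h1 : t < L.r) :
    S.sj' f t * jf v (S.Φ t f) ^ 2 - 2 * jf v f * jf v (S.Φ t f) + S.cj f t * jf v f ^ 2 =
      S.sj f t * (ef a f - ef a (S.Φ t f)) := Fld.eq F f hf t h0 h1

lemma triple {f : E × E × E} (hf : f ∈ S.FB) {τ σ : ℝ} (h0 : 0 < τ) (h1 : 0 < σ)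
    (h2 : σ + τ < L.r) :
    S.sj f (σ + τ) * jf v (S.Φ τ f) = S.sj (S.Φ τ f) σ * jf v f + S.sj f τ * jf v (S.Φ (σ + τ) f) := by
  have hf1 := S.Φ_FB hf τ
  obtain ⟨k1, k2, k3, k4⟩ := S.cocycle hf σ τ
  have A := Fld.eq' F hf h0 (by linarith)
  have B := Fld.eq' F hf1 h1 (by linarith)
  have C := Fld.eq' F hf (t := σ + τ) (by linarith) h2
  rw [← S.Φ_add] at B
  exact triple_alg (S.wronsk hf τ) (S.wronsk hf1 σ) k2 k1 k3 A B C

lemma jac {f : E × E × E} (hf : f ∈ S.FB) {t : ℝ} (h0 : 0 ≤ t) (h1 : t < L.r) :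
    jf v (S.Φ t f) = S.cj f t * jf v f + S.sj f t * bf L v f := by
  have hr := L.r_pos
  have hs := LE.sj_pos (L := L) hf (t := L.r / 2) (by linarith) (by linarith)
  have hb : S.sj f (L.r / 2) * bf L v f = jf v (S.Φ (L.r / 2) f) - S.cj f (L.r / 2) * jf v f := by
    unfold bf; field_simp
  rcases h0.eq_or_lt with h0 | h0
  · rw [← h0, S.Φ_zero, S.cj_zero hf, S.sj_zero]; ring
  rcases lt_trichotomy t (L.r / 2) with h | h | h
  · have k := Fld.triple F hf (τ := t) (σ := L.r / 2 - t) h0 (by linarith) (by linarith)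
    have hc := (S.cocycle hf (L.r / 2 - t) t)
    have hw := S.wronsk hf t
    rw [sub_add_cancel] at k hc
    obtain ⟨c1, c2, c3, c4⟩ := hc
    have : S.sj f (L.r / 2) * (jf v (S.Φ t f) - (S.cj f t * jf v f + S.sj f t * bf L v f)) = 0 := by
      have e : S.sj f (L.r / 2) * (S.sj f t * bf L v f) = S.sj f t *
          (jf v (S.Φ (L.r / 2) f) - S.cj f (L.r / 2) * jf v f) := by rw [← hb]; ring
      have e2 : S.sj (S.Φ t f) (L.r / 2 - t) = S.cj f t * S.sj f (L.r / 2) -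
          S.sj f t * S.cj f (L.r / 2) := by
        rw [c1, c2]
        linear_combination (- S.sj (S.Φ t f) (L.r / 2 - t)) * hw
      rw [e2] at k
      linear_combination k - e
    rcases mul_eq_zero.1 this with h | h
    · exact absurd h hs.ne'
    · linarith
  · rw [h, hb]; ring
  · have k := Fld.triple F hf (τ := L.r / 2) (σ := t - L.r / 2) (by linarith) (by linarith) (by linarith)
    have hc := (S.cocycle hf (t - L.r / 2) (L.r / 2))
    have hw := S.wronsk hf (L.r / 2)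
    rw [sub_add_cancel] at k hc
    obtain ⟨c1, c2, c3, c4⟩ := hc
    have : S.sj f (L.r / 2) * (jf v (S.Φ t f) - (S.cj f t * jf v f + S.sj f t * bf L v f)) = 0 := by
      have e : S.sj f (L.r / 2) * (S.sj f t * bf L v f) = S.sj f t *
          (jf v (S.Φ (L.r / 2) f) - S.cj f (L.r / 2) * jf v f) := by rw [← hb]; ring
      have e2 : S.sj (S.Φ (L.r / 2) f) (t - L.r / 2) = S.cj f (L.r / 2) * S.sj f t -
          S.sj f (L.r / 2) * S.cj f t := by
        rw [c1, c2]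
        linear_combination (- S.sj (S.Φ (L.r / 2) f) (t - L.r / 2)) * hw
      rw [e2] at k
      linear_combination - k - e
    rcases mul_eq_zero.1 this with h | h
    · exact absurd h hs.ne'
    · linarith

lemma jac' {f : E × E × E} (hf : f ∈ S.FB) {t : ℝ} (h0 : 0 ≤ t) (h1 : t < L.r) :
    bf L v (S.Φ t f) = S.cj' f t * jf v f + S.sj' f t * bf L v f := by
  set σ := (L.r - t) / 2 with hσ
  have hσ0 : 0 < σ := by rw [hσ]; linarith
  have k1 := Fld.jac F (S.Φ_FB hf t) (t := σ) hσ0.le (by rw [hσ]; linarith [L.r_pos])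
  have k2 := Fld.jac F hf (t := σ + t) (by linarith) (by rw [hσ]; linarith)
  have k3 := Fld.jac F hf h0 h1
  have hs := LE.sj_pos (L := L) (S.Φ_FB hf t) (t := σ) hσ0 (by rw [hσ]; linarith [L.r_pos])
  obtain ⟨c1, c2, c3, c4⟩ := S.cocycle hf σ t
  rw [← S.Φ_add, k2, c1, c2, k3] at k1
  have : S.sj (S.Φ t f) σ * (bf L v (S.Φ t f) - (S.cj' f t * jf v f + S.sj' f t * bf L v f)) = 0 := by
    linear_combination -k1
  rcases mul_eq_zero.1 this with h | h
  · exact absurd h hs.ne'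
  · linarith

lemma alpha {f : E × E × E} (hf : f ∈ S.FB) {t : ℝ} (h0 : 0 ≤ t) (h1 : t < L.r) :
    ef a f - ef a (S.Φ t f) = jf v (S.Φ t f) * bf L v (S.Φ t f) - jf v f * bf L v f := by
  rcases h0.eq_or_lt with h0 | h0
  · rw [← h0, S.Φ_zero]; ring
  have k1 := Fld.jac F hf h0.le h1
  have k2 := Fld.jac' F hf h0.le h1
  have k3 := Fld.eq' F hf h0 h1
  have hs := LE.sj_pos (L := L) hf h0 h1.le
  have hw := S.wronsk hf t
  have : S.sj f t * ((ef a f - ef a (S.Φ t f)) - (jf v (S.Φ t f) * bf L v (S.Φ t f) -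
      jf v f * bf L v f)) = 0 := by
    rw [k2]
    rw [mul_sub, ← k3, k1]
    linear_combination (jf v f * (S.cj f t * jf v f + S.sj f t * bf L v f)) * hw
  rcases mul_eq_zero.1 this with h | h
  · exact absurd h hs.ne'
  · linarith

end Fld

end Pool.Agent.H864R3
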