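import Pool.Agent.H864R3.K1

set_option autoImplicit false
set_option linter.unusedVariables false
set_option linter.unusedSectionVars false

open Set Metric Filter Topology
open scoped ContDiff InnerProductSpace NNReal

namespace Pool.Agent.H864R3

variable {E : Type} [NormedAddCommGroup E] [InnerProductSpace ℝ E] [FiniteDimensional ℝ E]

namespace RS

variable (S : RS E)

/-- normalised normal vector -/
noncomputable def nrm (y u n : E) : E :=
  ‖S.P y n - ⟪S.P y n, u⟫_ℝ • u‖⁻¹ • (S.P y n - ⟪S.P y n, u⟫_ℝ • u)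

lemma nrm_FB {y u n : E} (hy : y ∈ S.S) (hu : S.P y u = u) (hu1 : ‖u‖ = 1)
    (hz : S.P y n - ⟪S.P y n, u⟫_ℝ • u ≠ 0) : (y, u, S.nrm y u n) ∈ S.FB := by
  have hz' := norm_ne_zero_iff.2 hz
  refine ⟨hy, hu, ?_, hu1, ?_, ?_⟩
  · show S.P y (S.nrm y u n) = S.nrm y u n
    unfold nrm
    rw [map_smul, map_sub, map_smul, S.PP hy, hu]
  · show ‖S.nrm y u n‖ = 1
    unfold nrm
    rw [norm_smul, norm_inv, norm_norm, inv_mul_cancel₀ hz']
  · show ⟪u, S.nrm y u n⟫_ℝ = 0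
    unfold nrm
    rw [real_inner_smul_right, inner_sub_right, real_inner_smul_right, real_inner_self_eq_norm_sq,
      hu1, real_inner_comm]
    ring

lemma nrm_eq {f : E × E × E} (hf : f ∈ S.FB) : S.nrm f.1 f.2.1 f.2.2 = f.2.2 := by
  obtain ⟨h1, h2, h3, h4, h5, h6⟩ := hf
  unfold nrm
  rw [h3, real_inner_comm, h6, zero_smul, sub_zero, h5, inv_one, one_smul]

lemma nrm_z {f : E × E × E} (hf : f ∈ S.FB) :
    S.P f.1 f.2.2 - ⟪S.P f.1 f.2.2, f.2.1⟫_ℝ • f.2.1 ≠ 0 := by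
  obtain ⟨h1, h2, h3, h4, h5, h6⟩ := hf
  rw [h3, real_inner_comm, h6, zero_smul, sub_zero]
  intro h
  rw [h, norm_zero] at h5
  norm_num at h5

lemma zf_smooth (n : E) : ContDiff ℝ ∞ (fun q : E × E => S.P q.1 n - ⟪S.P q.1 n, q.2⟫_ℝ • q.2) := by
  have h1 : ContDiff ℝ ∞ (fun q : E × E => S.P q.1 n) :=
    (S.P_smooth.comp contDiff_fst).clm_apply contDiff_const
  exact h1.sub ((h1.inner ℝ contDiff_snd).smul contDiff_snd)

lemma nrm_smooth {f : E × E × E} (hf : f ∈ S.FB) :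
    ContDiffAt ℝ ∞ (fun q : E × E => S.nrm q.1 q.2 f.2.2) (f.1, f.2.1) := by
  unfold nrm
  have h1 := (S.zf_smooth f.2.2).contDiffAt (x := (f.1, f.2.1))
  have h2 := S.nrm_z hf
  exact ((h1.norm ℝ h2).inv (norm_ne_zero_iff.2 h2)).smul h1

/-- the equation is a closed condition -/
lemma eqn_closed : IsClosed {q : (E × E × E) × ℝ × E × E × E × E |
    S.eqn q.1 q.2.1 q.2.2.1 q.2.2.2.1 q.2.2.2.2.1 q.2.2.2.2.2} := by
  unfold eqn
  have hΦ : Continuous (fun q : (E × E × E) × ℝ × E × E × E × E => S.Φ q.2.1 q.1) :=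
    S.Φ_cont.comp ((continuous_fst.comp continuous_snd).prodMk continuous_fst)
  have hp : Continuous (fun q : (E × E × E) × ℝ × E × E × E × E => (q.1, q.2.1)) := by fun_prop
  have h1 : Continuous (fun q : (E × E × E) × ℝ × E × E × E × E => S.sj' q.1 q.2.1) :=
    S.sj'_cont.comp hp
  have h2 : Continuous (fun q : (E × E × E) × ℝ × E × E × E × E => S.sj q.1 q.2.1) :=
    S.sj_cont.comp hp
  have h3 : Continuous (fun q : (E × E × E) × ℝ × E × E × E × E => S.cj q.1 q.2.1) :=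
    S.cj_cont.comp hp
  exact isClosed_eq (by fun_prop) (by fun_prop)

lemma eqn_lim {ι : Type} {l : Filter ι} [NeBot l] {g : ι → E × E × E} {s : ι → ℝ}
    {v0 a0 v1 a1 : ι → E} {f : E × E × E} {t : ℝ} {V0 A0 V1 A1 : E}
    (hg : Tendsto g l (𝓝 f)) (hs : Tendsto s l (𝓝 t)) (h1 : Tendsto v0 l (𝓝 V0))
    (h2 : Tendsto a0 l (𝓝 A0)) (h3 : Tendsto v1 l (𝓝 V1)) (h4 : Tendsto a1 l (𝓝 A1))
    (h : ∀ᶠ i in l, S.eqn (g i) (s i) (v0 i) (a0 i) (v1 i) (a1 i)) :
    S.eqn f t V0 A0 V1 A1 := by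
  have := S.eqn_closed.mem_of_tendsto
    (hg.prodMk_nhds (hs.prodMk_nhds (h1.prodMk_nhds (h2.prodMk_nhds (h3.prodMk_nhds h4))))) h
  exact this

end RS

namespace LE

variable {S : RS E} (L : LE S)

lemma W_contAt {x y : E} (hx : x ∈ S.S) (hy : y ∈ S.S) (h : ‖x - y‖ < L.ρ) :
    ContinuousAt L.W (x, y) :=
  (L.smooth.continuousOn).continuousAt (L.O_open.mem_nhds (L.O_mem x hx y hy h))

lemma W_smoothAt {x y : E} (hx : x ∈ S.S) (hy : y ∈ S.S) (h : ‖x - y‖ < L.ρ) :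
    ContDiffAt ℝ ∞ L.W (x, y) :=
  L.smooth.contDiffAt (L.O_open.mem_nhds (L.O_mem x hx y hy h))

/-- frames between nearby points converge -/
lemma approx {ι : Type} {l : Filter ι} {f : E × E × E} (hf : f ∈ S.FB) {t : ℝ}
    (h0 : 0 < t) (h1 : t < L.r) {y y' : ι → E} (hy : ∀ᶠ i in l, y i ∈ S.S)
    (hy' : ∀ᶠ i in l, y' i ∈ S.S) (hyt : Tendsto y l (𝓝 f.1))
    (hyt' : Tendsto y' l (𝓝 (S.Φ t f).1)) :
    ∃ g : ι → E × E × E, (∀ᶠ i in l, g i ∈ S.FB ∧ (g i).1 = y i ∧ 0 < L.len (y i, y' i) ∧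
      L.len (y i, y' i) < L.r ∧ (S.Φ (L.len (y i, y' i)) (g i)).1 = y' i) ∧
      Tendsto g l (𝓝 f) ∧ Tendsto (fun i => L.len (y i, y' i)) l (𝓝 t) := by
  obtain ⟨⟨hx, hxt, hne, hd, hr⟩, hlen, hu, hw⟩ := L.edge_of_frame hf h0 h1
  have hpair : Tendsto (fun i => (y i, y' i)) l (𝓝 (f.1, (S.Φ t f).1)) := hyt.prodMk_nhds hyt'
  have hW : Tendsto (fun i => L.W (y i, y' i)) l (𝓝 (L.W (f.1, (S.Φ t f).1))) :=
    (L.W_contAt hx hxt hd).tendsto.comp hpair
  have hl : Tendsto (fun i => L.len (y i, y' i)) l (𝓝 t) := by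
    have := hW.norm
    unfold len at hlen ⊢
    rwa [hlen] at this
  have hut : Tendsto (fun i => L.u (y i, y' i)) l (𝓝 f.2.1) := by
    rw [← hu]
    unfold u
    refine (hW.norm.inv₀ ?_).smul hW
    unfold len at hlen
    rw [hlen]; exact h0.ne'
  have hn : Tendsto (fun i => S.nrm (y i) (L.u (y i, y' i)) f.2.2) l (𝓝 f.2.2) := by
    have := (S.nrm_smooth hf).continuousAt.tendsto.comp (hyt.prodMk_nhds hut)
    simp only [S.nrm_eq hf] at this
    exact this
  have hz : Tendsto (fun i => S.P (y i) f.2.2 - ⟪S.P (y i) f.2.2, L.u (y i, y' i)⟫_ℝ •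
      L.u (y i, y' i)) l (𝓝 (S.P f.1 f.2.2 - ⟪S.P f.1 f.2.2, f.2.1⟫_ℝ • f.2.1)) :=
    (S.zf_smooth f.2.2).continuous.continuousAt.tendsto.comp (hyt.prodMk_nhds hut)
  refine ⟨fun i => (y i, L.u (y i, y' i), S.nrm (y i) (L.u (y i, y' i)) f.2.2), ?_,
    hyt.prodMk_nhds (hut.prodMk_nhds hn), hl⟩
  have e1 : ∀ᶠ i in l, ‖y i - y' i‖ < L.ρ :=
    (hyt.sub hyt').norm.eventually (gt_mem_nhds hd)
  have e2 : ∀ᶠ i in l, 0 < ‖y i - y' i‖ :=
    (hyt.sub hyt').norm.eventually (lt_mem_nhds (norm_pos_iff.2 (sub_ne_zero.2 hne)))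
  have e3 := hz.eventually_ne (S.nrm_z hf)
  have e4 : ∀ᶠ i in l, L.len (y i, y' i) < L.r := hl.eventually (gt_mem_nhds h1)
  filter_upwards [e1, e2, e3, e4, hy, hy'] with i i1 i2 i3 i4 i5 i6
  have hne' : y i ≠ y' i := fun h => by rw [h, sub_self, norm_zero] at i2; exact lt_irrefl _ i2
  have hFB : (y i, L.u (y i, y' i), S.nrm (y i) (L.u (y i, y' i)) f.2.2) ∈ S.FB :=
    S.nrm_FB i5 (L.u_tan i5 i6 i1) (L.u_norm i5 i6 i1 hne') i3
  exact ⟨hFB, rfl, L.W_ne i5 i6 i1 hne', i4, (L.Φ_frame i5 i6 i1 hne' hFB).1⟩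

end LE

namespace Fld

variable {S : RS E} {L : LE S} {v a : E → E} (F : Fld L v a)

include F

/-- uniqueness of the values at a point -/
lemma uniq {z : E} (hz : z ∈ S.S) {v' a' : E} (hv' : S.P z v' = v') (ha' : S.P z a' = a')
    (h : ∀ f ∈ S.FB, f.1 = z → ∀ t : ℝ, 0 < t → t < L.r →
      S.eqn f t v' a' (v (S.Φ t f).1) (a (S.Φ t f).1)) : v' = v z ∧ a' = a z := by
  have hr := L.r_pos
  have key : ∀ f ∈ S.FB, f.1 = z → ⟪v' - v z, f.2.2⟫_ℝ = 0 := by
    intro f hf hfz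
    set j' := ⟪v', f.2.2⟫_ℝ with hj'
    set j := jf v f with hj
    set b := bf L v f with hb
    set α' := ⟪a', f.2.1⟫_ℝ with hα'
    set α := ef a f with hα
    set G : ℝ → ℝ := fun t => -2 * (j' - j) * (S.cj f t * j + S.sj f t * b) +
      S.cj f t * (j' ^ 2 - j ^ 2) - S.sj f t * (α' - α) with hG
    have c1 : Continuous (S.cj f) := S.cj_cont.comp (continuous_const.prodMk continuous_id)
    have c2 : Continuous (S.sj f) := S.sj_cont.comp (continuous_const.prodMk continuous_id)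
    have hGc : Continuous G := by rw [hG]; fun_prop
    have hG0 : ∀ᶠ t in 𝓝[>] (0:ℝ), G t = 0 := by
      filter_upwards [Ioo_mem_nhdsGT hr] with t ht
      have k1 := h f hf hfz t ht.1 ht.2
      have k2 := Fld.eq' F hf ht.1 ht.2
      have k3 := Fld.jac F hf ht.1.le ht.2
      unfold RS.eqn at k1
      have k4 : jf v (S.Φ t f) = ⟪v (S.Φ t f).1, (S.Φ t f).2.2⟫_ℝ := rfl
      have k5 : ef a (S.Φ t f) = ⟪a (S.Φ t f).1, (S.Φ t f).2.1⟫_ℝ := rfl
      rw [← k4, ← k5] at k1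
      rw [hG]
      simp only
      rw [← k3]
      linear_combination k1 - k2
    have t1 : Tendsto G (𝓝[>] 0) (𝓝 (G 0)) := hGc.continuousAt.mono_left nhdsWithin_le_nhds
    have t2 : Tendsto G (𝓝[>] 0) (𝓝 0) :=
      tendsto_const_nhds.congr' (hG0.mono fun t ht => ht.symm)
    have t3 := tendsto_nhds_unique t1 t2
    rw [hG] at t3
    simp only [S.cj_zero hf, S.sj_zero] at t3
    have t4 : (j' - j) ^ 2 = 0 := by linear_combination t3
    have t5 := pow_eq_zero_iff (two_ne_zero) |>.1 t4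
    rw [inner_sub_left, ← hfz]
    exact t5
  obtain ⟨w, n, hf⟩ := S.exists_frame' hz
  have hvz := Fld.tv F z hz
  have haz := Fld.ta F z hz
  have e1 : v' - v z = 0 := by
    have k1 := key _ hf rfl
    have k2 := key _ (S.quarter' _ hf) rfl
    simp only at k1 k2
    rw [S.frame_expand hf (ξ := v' - v z) (by rw [map_sub, hv', hvz])]
    simp only
    rw [k1, k2]; simp
  have e1' : v' = v z := sub_eq_zero.1 e1
  refine ⟨e1', ?_⟩
  have key2 : ∀ f ∈ S.FB, f.1 = z → ⟪a' - a z, f.2.1⟫_ℝ = 0 := by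
    intro f hf hfz
    have k1 := h f hf hfz (L.r / 2) (by linarith) (by linarith)
    have k2 := Fld.eq F f hf (L.r / 2) (by linarith) (by linarith)
    have hs := LE.sj_pos (L := L) hf (t := L.r / 2) (by linarith) (by linarith)
    unfold RS.eqn at k1 k2
    rw [e1'] at k1
    rw [hfz] at k2
    have : S.sj f (L.r / 2) * (⟪a', f.2.1⟫_ℝ - ⟪a z, f.2.1⟫_ℝ) = 0 := by linear_combination k2 - k1
    rw [inner_sub_left]
    exact (mul_eq_zero.1 this).resolve_left hs.ne'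
  have k1 := key2 _ hf rfl
  have k2 := key2 _ (S.quarter _ hf) rfl
  simp only at k1 k2
  have e2 : a' - a z = 0 := by
    rw [S.frame_expand hf (ξ := a' - a z) (by rw [map_sub, ha', haz])]
    simp only
    rw [k1, k2]; simp
  exact sub_eq_zero.1 e2

lemma exists_lim {ι : Type} (g : Ultrafilter ι) {y : ι → E} (hy : ∀ᶠ i in (g : Filter ι), y i ∈ S.S)
    {x : E} (hx : Tendsto y g (𝓝 x)) (hxS : x ∈ S.S) :
    Tendsto (fun i => v (y i)) g (𝓝 (v x)) ∧ Tendsto (fun i => a (y i)) g (𝓝 (a x)) := by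
  obtain ⟨C, hC⟩ := F.bd
  have e1 : ∃ v', Tendsto (fun i => v (y i)) g (𝓝 v') := by
    have : ((g.map fun i => v (y i)) : Filter E) ≤ 𝓟 (closedBall (0:E) C) := by
      rw [le_principal_iff]
      show ∀ᶠ i in (g : Filter ι), v (y i) ∈ closedBall (0:E) C
      filter_upwards [hy] with i hi
      rw [mem_closedBall_zero_iff]; exact (hC _ hi).1
    obtain ⟨v', _, h⟩ := (isCompact_closedBall (0:E) C).ultrafilter_le_nhds _ this
    exact ⟨v', h⟩
  have e2 : ∃ a', Tendsto (fun i => a (y i)) g (𝓝 a') := by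
    have : ((g.map fun i => a (y i)) : Filter E) ≤ 𝓟 (closedBall (0:E) C) := by
      rw [le_principal_iff]
      show ∀ᶠ i in (g : Filter ι), a (y i) ∈ closedBall (0:E) C
      filter_upwards [hy] with i hi
      rw [mem_closedBall_zero_iff]; exact (hC _ hi).2
    obtain ⟨v', _, h⟩ := (isCompact_closedBall (0:E) C).ultrafilter_le_nhds _ this
    exact ⟨v', h⟩
  obtain ⟨v', hv'⟩ := e1
  obtain ⟨a', ha'⟩ := e2
  have hP : ∀ {b : E → E} {b' : E}, (∀ x ∈ S.S, S.P x (b x) = b x) →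
      Tendsto (fun i => b (y i)) g (𝓝 b') → S.P x b' = b' := by
    intro b b' hb hb'
    have h0 : Tendsto (fun i => S.P (y i)) g (𝓝 (S.P x)) := S.P_cont.continuousAt.tendsto.comp hx
    have hcc : Continuous (fun q : (E →L[ℝ] E) × E => q.1 q.2) :=
      continuous_fst.clm_apply continuous_snd
    have h1 : Tendsto (fun i => S.P (y i) (b (y i))) g (𝓝 (S.P x b')) :=
      (hcc.tendsto (S.P x, b')).comp (h0.prodMk_nhds hb')
    have h2 : (fun i => S.P (y i) (b (y i))) =ᶠ[(g : Filter ι)] fun i => b (y i) := by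
      filter_upwards [hy] with i hi
      exact hb _ hi
    exact tendsto_nhds_unique (h1.congr' h2) hb'
  have hU := Fld.uniq F hxS (hP (Fld.tv F) hv') (hP (Fld.ta F) ha') (fun f hf hfx t h0 h1 => by
    subst hfx
    obtain ⟨G, hG1, hG2, hG3⟩ := L.approx hf h0 h1 hy
      (y' := fun _ => (S.Φ t f).1) (Eventually.of_forall fun _ => (S.Φ_FB hf t).1) hx
      tendsto_const_nhds
    refine S.eqn_lim hG2 hG3 hv' ha' tendsto_const_nhds tendsto_const_nhds ?_
    filter_upwards [hG1] with i hi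
    obtain ⟨i1, i2, i3, i4, i5⟩ := hi
    have := Fld.eq F (G i) i1 _ i3 i4
    rw [i5, i2] at this
    exact this)
  rw [← hU.1, ← hU.2]
  exact ⟨hv', ha'⟩

lemma cont : ContinuousOn v S.S ∧ ContinuousOn a S.S := by
  constructor
  · intro x hx
    show Tendsto v (𝓝[S.S] x) (𝓝 (v x))
    rw [tendsto_iff_ultrafilter]
    intro g hg
    have hy : ∀ᶠ i in (g : Filter E), i ∈ S.S := hg self_mem_nhdsWithin
    exact (Fld.exists_lim F g (y := id) hy (hg.trans nhdsWithin_le_nhds) hx).1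
  · intro x hx
    show Tendsto a (𝓝[S.S] x) (𝓝 (a x))
    rw [tendsto_iff_ultrafilter]
    intro g hg
    have hy : ∀ᶠ i in (g : Filter E), i ∈ S.S := hg self_mem_nhdsWithin
    exact (Fld.exists_lim F g (y := id) hy (hg.trans nhdsWithin_le_nhds) hx).2

lemma jf_cont : ContinuousOn (jf v) S.FB := by
  unfold jf
  have h1 : ContinuousOn (fun f : E × E × E => v f.1) S.FB :=
    (Fld.cont F).1.comp continuousOn_fst (fun f hf => hf.1)
  exact h1.inner (continuous_snd.comp continuous_snd).continuousOn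

lemma bf_cont : ContinuousOn (bf L v) S.FB := by
  unfold bf
  have hr := L.r_pos
  have h1 : ContinuousOn (fun f : E × E × E => jf v (S.Φ (L.r / 2) f)) S.FB :=
    (Fld.jf_cont F).comp (S.Φ_cont.comp (continuous_const.prodMk continuous_id)).continuousOn
      (fun f hf => S.Φ_FB hf _)
  have h2 : Continuous (fun f : E × E × E => S.cj f (L.r / 2)) :=
    S.cj_cont.comp (continuous_id.prodMk continuous_const)
  have h3 : Continuous (fun f : E × E × E => S.sj f (L.r / 2)) :=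
    S.sj_cont.comp (continuous_id.prodMk continuous_const)
  exact (h1.sub (h2.continuousOn.mul (Fld.jf_cont F))).div h3.continuousOn
    (fun f hf => (LE.sj_pos (L := L) hf (by linarith) (by linarith)).ne')

end Fld

end Pool.Agent.H864R3
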