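import Pool.Agent.H864R3.K2

set_option autoImplicit false
set_option linter.unusedVariables false
set_option linter.unusedSectionVars false

open Set Metric Filter Topology Asymptotics
open scoped ContDiff InnerProductSpace NNReal

namespace Pool.Agent.H864R3

section gen

variable {E : Type} [NormedAddCommGroup E] [InnerProductSpace ℝ E]

lemma unit_rate {a b : E} (hb : b ≠ 0) : ‖‖a‖⁻¹ • a - ‖b‖⁻¹ • b‖ ≤ 2 * ‖a - b‖ / ‖b‖ := by
  have hb' : 0 < ‖b‖ := norm_pos_iff.2 hb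
  rcases eq_or_ne a 0 with ha | ha
  · subst ha
    simp only [norm_zero, inv_zero, zero_smul, zero_sub, norm_neg, norm_smul, norm_inv, norm_norm]
    rw [inv_mul_cancel₀ hb'.ne', mul_div_assoc, div_self hb'.ne']
    norm_num
  · have ha' : 0 < ‖a‖ := norm_pos_iff.2 ha
    have e : ‖a‖⁻¹ • a - ‖b‖⁻¹ • b = ‖b‖⁻¹ • (a - b) + (‖a‖⁻¹ - ‖b‖⁻¹) • a := by module
    have e2 : ‖(‖a‖⁻¹ - ‖b‖⁻¹) • a‖ ≤ ‖a - b‖ / ‖b‖ := by
      rw [norm_smul, Real.norm_eq_abs]
      have : (‖a‖⁻¹ - ‖b‖⁻¹) = (‖b‖ - ‖a‖) / (‖a‖ * ‖b‖) := by field_simp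
      rw [this, abs_div, abs_of_pos (mul_pos ha' hb')]
      have h3 : |‖b‖ - ‖a‖| ≤ ‖a - b‖ := by
        rw [norm_sub_rev a b]; exact abs_norm_sub_norm_le b a
      rw [div_mul_eq_mul_div, div_le_div_iff₀ (mul_pos ha' hb') hb']
      have : |‖b‖ - ‖a‖| * ‖a‖ * ‖b‖ ≤ ‖a - b‖ * ‖a‖ * ‖b‖ := by gcongr
      linarith
    calc ‖‖a‖⁻¹ • a - ‖b‖⁻¹ • b‖ ≤ ‖‖b‖⁻¹ • (a - b)‖ + ‖(‖a‖⁻¹ - ‖b‖⁻¹) • a‖ := by
          rw [e]; exact norm_add_le _ _
      _ ≤ ‖a - b‖ / ‖b‖ + ‖a - b‖ / ‖b‖ := by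
          gcongr
          rw [norm_smul, norm_inv, norm_norm, div_eq_inv_mul]
      _ = 2 * ‖a - b‖ / ‖b‖ := by ring

lemma quad_rate {om : ℝ → E} {k : E} (h : ContDiffAt ℝ 2 om 0) (h0 : om 0 = 0)
    (hk : HasDerivAt om k 0) : (fun δ => om δ - δ • k) =O[𝓝 0] fun δ => δ ^ 2 := by
  have h1 : ContDiffAt ℝ 1 (deriv om) 0 := by
    have := h.fderiv_right (m := 1) (by norm_num)
    have h2 : ContDiffAt ℝ 1 (fun t => fderiv ℝ om t 1) 0 := this.clm_apply contDiffAt_const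
    exact h2
  have h2 : (fun δ => deriv om δ - deriv om 0) =O[𝓝 0] fun δ => δ - 0 :=
    (h1.differentiableAt (by norm_num)).isBigO_sub
  obtain ⟨C, hC⟩ := h2.bound
  have h3 : ∀ᶠ δ in 𝓝 (0:ℝ), DifferentiableAt ℝ om δ := by
    have := h.eventually (by simp)
    filter_upwards [this] with δ hδ
    exact hδ.differentiableAt (by norm_num)
  obtain ⟨ε, hε, hball⟩ := Metric.eventually_nhds_iff_ball.1 (hC.and h3)
  apply IsBigO.of_bound |C|
  filter_upwards [ball_mem_nhds (0:ℝ) hε] with δ hδ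
  have h4 : ∀ s ∈ closedBall (0:ℝ) |δ|, HasDerivWithinAt (fun s => om s - s • k) (deriv om s - k)
      (closedBall (0:ℝ) |δ|) s := by
    intro s hs
    have hs' : s ∈ ball (0:ℝ) ε := by
      rw [mem_ball_zero_iff, Real.norm_eq_abs] at *
      rw [mem_closedBall_zero_iff, Real.norm_eq_abs] at hs
      linarith
    have e1 := (hball s hs').2.hasDerivAt
    have e2 : HasDerivAt (fun s : ℝ => s • k) k s := by
      simpa using (hasDerivAt_id s).smul_const k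
    exact (e1.sub e2).hasDerivWithinAt
  have h5 : ∀ s ∈ closedBall (0:ℝ) |δ|, ‖deriv om s - k‖ ≤ |C| * |δ| := by
    intro s hs
    have hs' : s ∈ ball (0:ℝ) ε := by
      rw [mem_ball_zero_iff, Real.norm_eq_abs] at *
      rw [mem_closedBall_zero_iff, Real.norm_eq_abs] at hs
      linarith
    have := (hball s hs').1
    rw [hk.deriv, sub_zero, Real.norm_eq_abs] at this
    rw [mem_closedBall_zero_iff, Real.norm_eq_abs] at hs
    calc ‖deriv om s - k‖ ≤ C * |s| := this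
      _ ≤ |C| * |s| := by gcongr; exact le_abs_self C
      _ ≤ |C| * |δ| := by gcongr
  have h6 := (convex_closedBall (0:ℝ) |δ|).norm_image_sub_le_of_norm_hasDerivWithin_le h4 h5
    (x := 0) (y := δ) (by simp) (by rw [mem_closedBall_zero_iff, Real.norm_eq_abs])
  simp only [h0, zero_smul, sub_zero, Real.norm_eq_abs] at h6
  rw [norm_pow, Real.norm_eq_abs]
  calc ‖om δ - δ • k‖ ≤ |C| * |δ| * |δ| := h6
    _ = |C| * |δ| ^ 2 := by ring

lemma slope_lim {X H : Type} [NormedAddCommGroup X] [NormedSpace ℝ X] [NormedAddCommGroup H]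
    [NormedSpace ℝ H] {G : X × ℝ → H} {f : X}
    (hG : ContDiffAt ℝ 1 G (f, 0)) {G' : H} (hd : HasDerivAt (fun t => G (f, t)) G' 0)
    {ι : Type} {l : Filter ι} {g : ι → X} {t : ι → ℝ}
    (hg : Tendsto g l (𝓝 f)) (ht : Tendsto t l (𝓝 0)) (hne : ∀ᶠ i in l, t i ≠ 0) :
    Tendsto (fun i => (t i)⁻¹ • (G (g i, t i) - G (g i, 0))) l (𝓝 G') := by
  have hs := hG.hasStrictFDerivAt (by norm_num)
  have h1 : HasDerivAt (fun t => G (f, t)) (fderiv ℝ G (f, 0) (0, 1)) 0 := by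
    have e1 : HasDerivAt (fun t : ℝ => (f, t)) ((0, 1) : X × ℝ) 0 :=
      (hasDerivAt_const 0 f).prodMk (hasDerivAt_id 0)
    exact HasFDerivAt.comp_hasDerivAt (l := G) (f := fun t : ℝ => (f, t)) 0 hs.hasFDerivAt e1
  have h2 := h1.unique hd
  have hp : Tendsto (fun i => ((g i, t i), (g i, (0:ℝ)))) l (𝓝 ((f, 0), (f, 0))) :=
    (hg.prodMk_nhds ht).prodMk_nhds (hg.prodMk_nhds tendsto_const_nhds)
  have h3 := hs.isLittleO.comp_tendsto hp
  have h4 : (fun i => G (g i, t i) - G (g i, 0) - t i • G') =o[l] t := by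
    have e1 : (fun i => G (g i, t i) - G (g i, 0) - t i • G') =
        (fun p : (X × ℝ) × X × ℝ => G p.1 - G p.2 - fderiv ℝ G (f, 0) (p.1 - p.2)) ∘
          fun i => ((g i, t i), (g i, (0:ℝ))) := by
      ext1 i
      simp only [Function.comp_apply, Prod.mk_sub_mk, sub_self, sub_zero]
      have : ((0, t i) : X × ℝ) = t i • (0, 1) := by ext <;> simp
      rw [this, map_smul, h2]
    rw [e1]
    refine h3.trans_isBigO (IsBigO.of_bound 1 (Eventually.of_forall fun i => ?_))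
    simp only [Function.comp_apply, Prod.mk_sub_mk, sub_self, sub_zero, Prod.norm_mk, norm_zero]
    rw [max_eq_right (norm_nonneg _), one_mul]
  have h5 : Tendsto (fun i => (t i)⁻¹ • (G (g i, t i) - G (g i, 0) - t i • G')) l (𝓝 0) := by
    rw [tendsto_zero_iff_norm_tendsto_zero]
    have h6 := h4.norm_norm
    rw [isLittleO_iff_tendsto' (by
      filter_upwards [hne] with i hi h
      exact absurd (norm_eq_zero.1 h) hi)] at h6
    refine h6.congr fun i => ?_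
    rw [norm_smul, norm_inv, div_eq_inv_mul]
  have h7 := h5.add (tendsto_const_nhds (x := G'))
  rw [zero_add] at h7
  refine h7.congr' ?_
  filter_upwards [hne] with i hi
  rw [smul_sub _ (G (g i, t i) - G (g i, 0)), smul_smul, inv_mul_cancel₀ hi, one_smul,
    sub_add_cancel]

lemma slope_aux {b1 b0 : ℝ → E} {b : E} (h1 : Tendsto b1 (𝓝[>] 0) (𝓝 b))
    (h0 : Tendsto b0 (𝓝[>] 0) (𝓝 b)) {z1 z0 : ℝ → E} {z N : E}
    (hz : (fun δ => z0 δ - z) =O[𝓝[>] (0:ℝ)] fun δ => δ)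
    (hN : Tendsto (fun δ => δ⁻¹ • (z1 δ - z0 δ)) (𝓝[>] 0) (𝓝 N)) (hbN : ⟪b, N⟫_ℝ = 0) {c : ℝ}
    (hΔ : Tendsto (fun δ => δ⁻¹ * (⟪b1 δ, z1 δ⟫_ℝ - ⟪b0 δ, z0 δ⟫_ℝ)) (𝓝[>] 0) (𝓝 c)) :
    Tendsto (fun δ => δ⁻¹ * ⟪b1 δ - b0 δ, z⟫_ℝ) (𝓝[>] 0) (𝓝 c) := by
  have hd : Tendsto (fun δ => b1 δ - b0 δ) (𝓝[>] 0) (𝓝 0) := by
    have := h1.sub h0
    rwa [sub_self] at this
  have t1 : Tendsto (fun δ => ⟪b1 δ - b0 δ, δ⁻¹ • (z1 δ - z0 δ)⟫_ℝ) (𝓝[>] 0) (𝓝 0) := by
    have := Filter.Tendsto.inner (𝕜 := ℝ) hd hN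
    rwa [inner_zero_left] at this
  have t2 : Tendsto (fun δ => ⟪b1 δ - b0 δ, δ⁻¹ • (z0 δ - z)⟫_ℝ) (𝓝[>] 0) (𝓝 0) := by
    obtain ⟨C, hC⟩ := hz.bound
    have hd' := hd.norm.mul_const C
    rw [norm_zero, zero_mul] at hd'
    apply squeeze_zero_norm' _ hd'
    filter_upwards [hC, self_mem_nhdsWithin] with δ hδ hpos
    have hpos' : (0:ℝ) < δ := hpos
    calc ‖⟪b1 δ - b0 δ, δ⁻¹ • (z0 δ - z)⟫_ℝ‖ ≤ ‖b1 δ - b0 δ‖ * ‖δ⁻¹ • (z0 δ - z)‖ :=
          norm_inner_le_norm _ _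
      _ ≤ ‖b1 δ - b0 δ‖ * C := by
          gcongr
          rw [norm_smul, norm_inv, Real.norm_eq_abs, abs_of_pos hpos', inv_mul_le_iff₀ hpos']
          rw [Real.norm_eq_abs, abs_of_pos hpos'] at hδ
          linarith
  have t3 : Tendsto (fun δ => ⟪b0 δ, δ⁻¹ • (z1 δ - z0 δ)⟫_ℝ) (𝓝[>] 0) (𝓝 0) := by
    have := Filter.Tendsto.inner (𝕜 := ℝ) h0 hN
    rwa [hbN] at this
  have t4 := ((hΔ.sub t1).sub t2).sub t3
  simp only [sub_zero] at t4
  refine t4.congr fun δ => ?_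
  simp only [inner_sub_left, inner_sub_right, real_inner_smul_right]
  ring

end gen

variable {E : Type} [NormedAddCommGroup E] [InnerProductSpace ℝ E] [FiniteDimensional ℝ E]

namespace LE

variable {S : RS E} (L : LE S)

/-- derivative of `W` at the diagonal -/
lemma fderiv_W {x : E} (hx : x ∈ S.S) {h k : E} (hh : S.P x h = h) (hk : S.P x k = k) :
    fderiv ℝ L.W (x, x) (h, k) = k - h := by
  have hρ : ‖x - x‖ < L.ρ := by rw [sub_self, norm_zero]; exact L.ρ_pos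
  have hWd : HasFDerivAt L.W (fderiv ℝ L.W (x, x)) (x, x) :=
    ((L.W_smoothAt hx hx hρ).differentiableAt (by simp)).hasFDerivAt
  -- diagonal
  have d1 : ∀ h, S.P x h = h → fderiv ℝ L.W (x, x) (h, h) = 0 := by
    intro h hh
    have c1 : HasDerivAt (fun δ : ℝ => S.π (x + δ • h)) h 0 := by
      have e1 : HasDerivAt (fun δ : ℝ => x + δ • h) h 0 := by
        have := ((hasDerivAt_id (0:ℝ)).smul_const h).const_add x
        simpa using this
      have e2 : HasFDerivAt S.π (S.P x) (x + (0:ℝ) • h) := by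
        rw [zero_smul, add_zero]; exact S.hasFDerivAt_π x
      have := HasFDerivAt.comp_hasDerivAt (l := S.π) (f := fun δ : ℝ => x + δ • h) 0 e2 e1
      rw [hh] at this
      exact this
    have c0 : S.π (x + (0:ℝ) • h) = x := by rw [zero_smul, add_zero, S.hπS x hx]
    have hWd' : HasFDerivAt L.W (fderiv ℝ L.W (x, x))
        (S.π (x + (0:ℝ) • h), S.π (x + (0:ℝ) • h)) := by rw [c0]; exact hWd
    have c2 : HasDerivAt (fun δ : ℝ => L.W (S.π (x + δ • h), S.π (x + δ • h)))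
        (fderiv ℝ L.W (x, x) (h, h)) 0 :=
      HasFDerivAt.comp_hasDerivAt (l := L.W)
        (f := fun δ : ℝ => (S.π (x + δ • h), S.π (x + δ • h))) 0 hWd' (c1.prodMk c1)
    have c3 : (fun δ : ℝ => L.W (S.π (x + δ • h), S.π (x + δ • h))) =ᶠ[𝓝 0] fun _ => 0 := by
      have : ∀ᶠ δ in 𝓝 (0:ℝ), x + δ • h ∈ S.U := by
        have hc : ContinuousAt (fun δ : ℝ => x + δ • h) 0 := by fun_prop
        exact hc.preimage_mem_nhds (by
          rw [zero_smul, add_zero]; exact S.hU.mem_nhds (S.hSU hx))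
      filter_upwards [this] with δ hδ
      exact L.W_self (S.hπU _ hδ)
    exact c2.unique ((hasDerivAt_const 0 (0:E)).congr_of_eventuallyEq c3)
  -- unit vectors in the second argument
  have d2 : ∀ w, S.P x w = w → ‖w‖ = 1 → fderiv ℝ L.W (x, x) (0, w) = w := by
    intro w hw hw1
    obtain ⟨n, hf⟩ := S.exists_frame hx hw hw1
    have c1 : HasDerivAt (fun t : ℝ => (x, (S.Φ t (x, w, n)).1)) ((0:E), w) 0 := by
      have := S.pos_deriv (S.FB_sub_M hf one_le_two) 0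
      rw [S.Φ_zero] at this
      exact (hasDerivAt_const 0 x).prodMk this
    have hWd' : HasFDerivAt L.W (fderiv ℝ L.W (x, x)) (x, (S.Φ 0 (x, w, n)).1) := by
      rw [S.Φ_zero]; exact hWd
    have c2 : HasDerivAt (fun t : ℝ => L.W (x, (S.Φ t (x, w, n)).1))
        (fderiv ℝ L.W (x, x) (0, w)) 0 :=
      HasFDerivAt.comp_hasDerivAt (l := L.W) (f := fun t : ℝ => (x, (S.Φ t (x, w, n)).1)) 0 hWd' c1
    have c3 : HasDerivWithinAt (fun t : ℝ => L.W (x, (S.Φ t (x, w, n)).1))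
        (fderiv ℝ L.W (x, x) (0, w)) (Ici 0) 0 := c2.hasDerivWithinAt
    have c4 : HasDerivWithinAt (fun t : ℝ => L.W (x, (S.Φ t (x, w, n)).1)) w (Ici 0) 0 := by
      have e1 : HasDerivWithinAt (fun t : ℝ => t • w) w (Ici 0) 0 := by
        have : HasDerivAt (fun t : ℝ => t • w) w 0 := by
          simpa using (hasDerivAt_id (0:ℝ)).smul_const w
        exact this.hasDerivWithinAt
      refine e1.congr_of_eventuallyEq ?_ ?_
      · filter_upwards [Ico_mem_nhdsGE L.r_pos] with t ht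
        exact L.geo _ hf t ht.1 ht.2
      · exact L.geo _ hf 0 le_rfl L.r_pos
    exact (uniqueDiffWithinAt_Ici (0:ℝ)).eq_deriv _ c3 c4
  have e1 : ((h, k) : E × E) = (h, h) + (0, k - h) := by ext <;> simp
  rw [e1, map_add, d1 h hh, zero_add]
  rcases eq_or_ne (k - h) 0 with h0 | h0
  · rw [h0]; exact map_zero _
  · have hn := norm_ne_zero_iff.2 h0
    have := d2 (‖k - h‖⁻¹ • (k - h)) (by rw [map_smul, map_sub, hk, hh])
      (by rw [norm_smul, norm_inv, norm_norm, inv_mul_cancel₀ hn])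
    have e2 : ((0, k - h) : E × E) = ‖k - h‖ • (0, ‖k - h‖⁻¹ • (k - h)) := by
      rw [Prod.smul_mk, smul_zero, smul_smul, mul_inv_cancel₀ hn, one_smul]
    rw [e2, map_smul, this, smul_smul, mul_inv_cancel₀ hn, one_smul]

end LE

end Pool.Agent.H864R3
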