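import Pool.Agent.H864R3.K3

set_option autoImplicit false
set_option linter.unusedVariables false
set_option linter.unusedSectionVars false

open Set Metric Filter Topology Asymptotics
open scoped ContDiff InnerProductSpace NNReal

namespace Pool.Agent.H864R3

variable {E : Type} [NormedAddCommGroup E] [InnerProductSpace ℝ E] [FiniteDimensional ℝ E]

namespace RS

variable (S : RS E)

/-- point of the surface near `x` in the direction `h` -/
noncomputable def pt (x h : E) (δ : ℝ) : E := S.π (x + δ • h)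

lemma pt_zero {x : E} (hx : x ∈ S.S) (h : E) : S.pt x h 0 = x := by
  unfold pt; rw [zero_smul, add_zero, S.hπS x hx]

lemma pt_smooth (x h : E) : ContDiff ℝ ∞ (S.pt x h) := by
  unfold pt
  exact S.smooth.comp (contDiff_const.add (contDiff_id.smul contDiff_const))

lemma pt_deriv {x : E} (hx : x ∈ S.S) {h : E} (hh : S.P x h = h) :
    HasDerivAt (S.pt x h) h 0 := by
  have e1 : HasDerivAt (fun δ : ℝ => x + δ • h) h 0 := by
    have := ((hasDerivAt_id (0:ℝ)).smul_const h).const_add x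
    simpa using this
  have e2 : HasFDerivAt S.π (S.P x) (x + (0:ℝ) • h) := by
    rw [zero_smul, add_zero]; exact S.hasFDerivAt_π x
  have := HasFDerivAt.comp_hasDerivAt (l := S.π) (f := fun δ : ℝ => x + δ • h) 0 e2 e1
  rw [hh] at this
  exact this

lemma pt_mem {x : E} (hx : x ∈ S.S) (h : E) : ∀ᶠ δ in 𝓝 (0:ℝ), S.pt x h δ ∈ S.S := by
  have : ∀ᶠ δ in 𝓝 (0:ℝ), x + δ • h ∈ S.U := by
    have hc : ContinuousAt (fun δ : ℝ => x + δ • h) 0 := by fun_prop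
    exact hc.preimage_mem_nhds (by
      rw [zero_smul, add_zero]; exact S.hU.mem_nhds (S.hSU hx))
  filter_upwards [this] with δ hδ
  exact S.hπU _ hδ

end RS

namespace LE

variable {S : RS E} (L : LE S)

/-- the frames along the short geodesics between two nearby points `x + δ h`, `x + δ h'` -/
lemma frames {f : E × E × E} (hf : f ∈ S.FB) {h h' : E} (hh : S.P f.1 h = h)
    (hh' : S.P f.1 h' = h') {lam : ℝ} (hlam : 0 < lam) (hk : h' - h = lam • f.2.1) :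
    ∃ (g : ℝ → E × E × E) (t : ℝ → ℝ),
      (∀ᶠ δ in 𝓝[>] (0:ℝ), g δ ∈ S.FB ∧ (g δ).1 = S.pt f.1 h δ ∧ 0 < t δ ∧ t δ < L.r ∧
        (S.Φ (t δ) (g δ)).1 = S.pt f.1 h' δ) ∧
      Tendsto g (𝓝[>] 0) (𝓝 f) ∧ Tendsto t (𝓝[>] 0) (𝓝 0) ∧
      Tendsto (fun δ => δ⁻¹ * t δ) (𝓝[>] 0) (𝓝 lam) ∧
      ((fun δ => g δ - f) =O[𝓝[>] (0:ℝ)] fun δ => δ) := by
  have hx := hf.1
  have hw := hf.2.1
  set x := f.1 with hxd
  set w := f.2.1 with hwd
  set n := f.2.2 with hnd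
  have hρ : ‖x - x‖ < L.ρ := by rw [sub_self, norm_zero]; exact L.ρ_pos
  have hw1 : ‖w‖ = 1 := hf.2.2.2.1
  -- the curve of vectors
  set q : ℝ → E := fun δ => L.W (S.pt x h δ, S.pt x h' δ) with hq
  have hq0 : q 0 = 0 := by
    rw [hq]; simp only [S.pt_zero hx]; exact L.W_self hx
  have hWs : ContDiffAt ℝ ∞ L.W (S.pt x h 0, S.pt x h' 0) := by
    rw [S.pt_zero hx, S.pt_zero hx]; exact L.W_smoothAt hx hx hρ
  have hqs : ContDiffAt ℝ ∞ q 0 := by
    have := ContDiffAt.comp (g := L.W) (f := fun δ : ℝ => (S.pt x h δ, S.pt x h' δ)) 0 hWs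
      ((S.pt_smooth x h).prodMk (S.pt_smooth x h')).contDiffAt
    exact this
  have hqd : HasDerivAt q (lam • w) 0 := by
    have h1 : HasFDerivAt L.W (fderiv ℝ L.W (x, x)) (S.pt x h 0, S.pt x h' 0) := by
      rw [S.pt_zero hx, S.pt_zero hx]
      exact ((L.W_smoothAt hx hx hρ).differentiableAt (by simp)).hasFDerivAt
    have h2 := HasFDerivAt.comp_hasDerivAt (l := L.W)
      (f := fun δ : ℝ => (S.pt x h δ, S.pt x h' δ)) 0 h1
      ((S.pt_deriv hx hh).prodMk (S.pt_deriv hx hh'))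
    rw [L.fderiv_W hx hh hh', hk] at h2
    exact h2
  have hq2 : (fun δ => q δ - δ • (lam • w)) =O[𝓝 0] fun δ : ℝ => δ ^ 2 :=
    quad_rate (hqs.of_le (WithTop.coe_le_coe.2 (le_top : (2:ℕ∞) ≤ ⊤))) hq0 hqd
  set t : ℝ → ℝ := fun δ => ‖q δ‖ with ht
  set u : ℝ → E := fun δ => ‖q δ‖⁻¹ • q δ with hu
  have hlamw : lam • w ≠ 0 := by
    intro h0
    have := congrArg norm h0
    rw [norm_smul, hw1, norm_zero, Real.norm_eq_abs, abs_of_pos hlam] at this
    linarith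
  have hnlamw : ‖lam • w‖ = lam := by
    rw [norm_smul, hw1, Real.norm_eq_abs, abs_of_pos hlam, mul_one]
  have hslope : Tendsto (fun δ => δ⁻¹ • q δ) (𝓝[>] 0) (𝓝 (lam • w)) := by
    have := hqd.tendsto_slope_zero_right
    simpa [hq0] using this
  have htl : Tendsto (fun δ => δ⁻¹ * t δ) (𝓝[>] 0) (𝓝 lam) := by
    have := hslope.norm
    rw [hnlamw] at this
    refine this.congr' ?_
    filter_upwards [self_mem_nhdsWithin] with δ hδ
    have hδ' : (0:ℝ) < δ := hδ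
    rw [norm_smul, norm_inv, Real.norm_eq_abs, abs_of_pos hδ']
  have ht0 : Tendsto t (𝓝[>] 0) (𝓝 0) := by
    have : Tendsto q (𝓝 0) (𝓝 0) := by
      have := hqs.continuousAt.tendsto
      rwa [hq0] at this
    have := (this.mono_left (nhdsWithin_le_nhds (s := Ioi (0:ℝ)))).norm
    rwa [norm_zero] at this
  have huO : (fun δ => u δ - w) =O[𝓝[>] (0:ℝ)] fun δ => δ := by
    have h1 := hq2.mono (nhdsWithin_le_nhds (s := Ioi (0:ℝ)))
    obtain ⟨C, hC⟩ := h1.bound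
    apply IsBigO.of_bound (2 * C / lam)
    filter_upwards [hC, self_mem_nhdsWithin] with δ hδ hpos
    have hpos' : (0:ℝ) < δ := hpos
    have hb : δ • (lam • w) ≠ 0 := smul_ne_zero hpos'.ne' hlamw
    have hbn : ‖δ • (lam • w)‖ = δ * lam := by
      rw [norm_smul, hnlamw, Real.norm_eq_abs, abs_of_pos hpos']
    have h2 := unit_rate (a := q δ) hb
    have h3 : ‖δ • (lam • w)‖⁻¹ • (δ • (lam • w)) = w := by
      rw [hbn, smul_smul, smul_smul]
      have : (δ * lam)⁻¹ * δ * lam = 1 := by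
        field_simp
      rw [this, one_smul]
    rw [h3, hbn] at h2
    rw [norm_pow, Real.norm_eq_abs, abs_of_pos hpos'] at hδ
    rw [Real.norm_eq_abs, abs_of_pos hpos']
    calc ‖u δ - w‖ ≤ 2 * ‖q δ - δ • (lam • w)‖ / (δ * lam) := h2
      _ ≤ 2 * (C * δ ^ 2) / (δ * lam) := by gcongr
      _ = 2 * C / lam * δ := by field_simp
  have hut : Tendsto u (𝓝[>] 0) (𝓝 w) := by
    have h1 : Tendsto (fun δ => u δ - w) (𝓝[>] 0) (𝓝 0) :=
      huO.trans_tendsto (tendsto_id.mono_left nhdsWithin_le_nhds)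
    have := h1.add_const w
    simpa using this
  have hpO : (fun δ => S.pt x h δ - x) =O[𝓝[>] (0:ℝ)] fun δ => δ := by
    have h1 := (S.pt_deriv hx hh).differentiableAt.isBigO_sub.mono
      (nhdsWithin_le_nhds (s := Ioi (0:ℝ)))
    simp only [S.pt_zero hx, sub_zero] at h1
    exact h1
  have hpt : ∀ k, Tendsto (S.pt x k) (𝓝[>] 0) (𝓝 x) := by
    intro k
    have := ((S.pt_smooth x k).continuous.tendsto 0).mono_left (nhdsWithin_le_nhds (s := Ioi (0:ℝ)))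
    rwa [S.pt_zero hx] at this
  have hpair : Tendsto (fun δ => (S.pt x h δ, u δ)) (𝓝[>] 0) (𝓝 (x, w)) := (hpt h).prodMk_nhds hut
  have hpairO : (fun δ => (S.pt x h δ, u δ) - (x, w)) =O[𝓝[>] (0:ℝ)] fun δ => δ := by
    have := hpO.prod_left huO
    exact this
  have hnO : (fun δ => S.nrm (S.pt x h δ) (u δ) n - n) =O[𝓝[>] (0:ℝ)] fun δ => δ := by
    have h1 := ((S.nrm_smooth hf).differentiableAt (by simp)).isBigO_sub.comp_tendsto hpair
    simp only [Function.comp_def, S.nrm_eq hf] at h1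
    exact h1.trans hpairO
  have hnt : Tendsto (fun δ => S.nrm (S.pt x h δ) (u δ) n) (𝓝[>] 0) (𝓝 n) := by
    have h1 : Tendsto (fun δ => S.nrm (S.pt x h δ) (u δ) n - n) (𝓝[>] 0) (𝓝 0) :=
      hnO.trans_tendsto (tendsto_id.mono_left nhdsWithin_le_nhds)
    have := h1.add_const n
    simpa using this
  refine ⟨fun δ => (S.pt x h δ, u δ, S.nrm (S.pt x h δ) (u δ) n), t, ?_,
    (hpt h).prodMk_nhds (hut.prodMk_nhds hnt), ht0, htl, ?_⟩
  · have e1 := (S.pt_mem hx h).filter_mono (nhdsWithin_le_nhds (s := Ioi (0:ℝ)))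
    have e2 := (S.pt_mem hx h').filter_mono (nhdsWithin_le_nhds (s := Ioi (0:ℝ)))
    have e3 : ∀ᶠ δ in 𝓝[>] (0:ℝ), ‖S.pt x h δ - S.pt x h' δ‖ < L.ρ := by
      have := ((hpt h).sub (hpt h')).norm
      exact this.eventually (gt_mem_nhds hρ)
    have e4 : ∀ᶠ δ in 𝓝[>] (0:ℝ), t δ < L.r := ht0.eventually (gt_mem_nhds L.r_pos)
    have e5 : ∀ᶠ δ in 𝓝[>] (0:ℝ), 0 < t δ := by
      have := htl.eventually (lt_mem_nhds hlam)
      filter_upwards [this, self_mem_nhdsWithin] with δ hδ hpos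
      have hpos' : (0:ℝ) < δ := hpos
      exact (pos_iff_pos_of_mul_pos hδ).1 (inv_pos.2 hpos')
    have e6 : ∀ᶠ δ in 𝓝[>] (0:ℝ), S.P (S.pt x h δ) n - ⟪S.P (S.pt x h δ) n, u δ⟫_ℝ • u δ ≠ 0 := by
      have h1 : Tendsto (fun δ => S.P (S.pt x h δ) n - ⟪S.P (S.pt x h δ) n, u δ⟫_ℝ • u δ)
          (𝓝[>] 0) (𝓝 (S.P x n - ⟪S.P x n, w⟫_ℝ • w)) :=
        (S.zf_smooth n).continuous.continuousAt.tendsto.comp hpair
      exact h1.eventually_ne (S.nrm_z hf)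
    filter_upwards [e1, e2, e3, e4, e5, e6] with δ i1 i2 i3 i4 i5 i6
    have hne : S.pt x h δ ≠ S.pt x h' δ := by
      intro he
      have : q δ = 0 := by rw [hq]; simp only; rw [he]; exact L.W_self i2
      have h0 : t δ = 0 := by rw [ht]; simp only; rw [this, norm_zero]
      linarith
    have hFB : (S.pt x h δ, L.u (S.pt x h δ, S.pt x h' δ), S.nrm (S.pt x h δ) (u δ) n) ∈ S.FB :=
      S.nrm_FB i1 (L.u_tan i1 i2 i3) (L.u_norm i1 i2 i3 hne) i6
    exact ⟨hFB, rfl, i5, i4, (L.Φ_frame i1 i2 i3 hne hFB).1⟩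
  · exact hpO.prod_left (huO.prod_left hnO)

end LE

namespace Fld

variable {S : RS E} {L : LE S} {v a : E → E} (F : Fld L v a)

include F

/-- first order relations between the values of the fields near a point -/
lemma slopes {f : E × E × E} (hf : f ∈ S.FB) {h h' : E} (hh : S.P f.1 h = h)
    (hh' : S.P f.1 h' = h') {lam : ℝ} (hlam : 0 < lam) (hk : h' - h = lam • f.2.1) :
    Tendsto (fun δ => δ⁻¹ * ⟪v (S.pt f.1 h' δ) - v (S.pt f.1 h δ), f.2.2⟫_ℝ) (𝓝[>] 0)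
      (𝓝 (lam * bf L v f)) ∧
    Tendsto (fun δ => δ⁻¹ * ⟪a (S.pt f.1 h' δ) - a (S.pt f.1 h δ), f.2.1⟫_ℝ) (𝓝[>] 0)
      (𝓝 (lam * -(bf L v f ^ 2 - S.K f * jf v f ^ 2))) := by
  obtain ⟨g, t, H1, H2, H3, H4, H5⟩ := L.frames hf hh hh' hlam hk
  have hx := hf.1
  have hgW : Tendsto g (𝓝[>] 0) (𝓝[S.FB] f) :=
    tendsto_nhdsWithin_iff.2 ⟨H2, H1.mono fun δ hδ => hδ.1⟩
  have tne : ∀ᶠ δ in 𝓝[>] (0:ℝ), t δ ≠ 0 := H1.mono fun δ hδ => hδ.2.2.1.ne'
  have hjt : Tendsto (fun δ => jf v (g δ)) (𝓝[>] 0) (𝓝 (jf v f)) :=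
    ((Fld.jf_cont F) f hf).tendsto.comp hgW
  have hbt : Tendsto (fun δ => bf L v (g δ)) (𝓝[>] 0) (𝓝 (bf L v f)) :=
    ((Fld.bf_cont F) f hf).tendsto.comp hgW
  -- convergence of the values
  have hpt : ∀ k, Tendsto (S.pt f.1 k) (𝓝[>] 0) (𝓝[S.S] f.1) := by
    intro k
    refine tendsto_nhdsWithin_iff.2 ⟨?_, (S.pt_mem hx k).filter_mono nhdsWithin_le_nhds⟩
    have := ((S.pt_smooth f.1 k).continuous.tendsto 0).mono_left
      (nhdsWithin_le_nhds (s := Ioi (0:ℝ)))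
    rwa [S.pt_zero hx] at this
  have hv : ∀ k, Tendsto (fun δ => v (S.pt f.1 k δ)) (𝓝[>] 0) (𝓝 (v f.1)) := fun k =>
    ((Fld.cont F).1 f.1 hx).tendsto.comp (hpt k)
  have ha : ∀ k, Tendsto (fun δ => a (S.pt f.1 k δ)) (𝓝[>] 0) (𝓝 (a f.1)) := fun k =>
    ((Fld.cont F).2 f.1 hx).tendsto.comp (hpt k)
  -- slopes in time
  have sl : ∀ {H : Type} [NormedAddCommGroup H] [NormedSpace ℝ H] (G : (E × E × E) × ℝ → H)
      (hG : ContDiff ℝ ∞ G) (G' : H) (hd : HasDerivAt (fun t => G (f, t)) G' 0),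
      Tendsto (fun δ => (t δ)⁻¹ • (G (g δ, t δ) - G (g δ, 0))) (𝓝[>] 0) (𝓝 G') := by
    intro H _ _ G hG G' hd
    exact slope_lim ((hG.of_le (by simp)).contDiffAt) hd H2 H3 tne
  have sΦ : Tendsto (fun δ => (t δ)⁻¹ • (S.Φ (t δ) (g δ) - g δ)) (𝓝[>] 0) (𝓝 (S.X0 f)) := by
    have h1 : ContDiff ℝ ∞ (fun q : (E × E × E) × ℝ => S.Φ q.2 q.1) :=
      S.Φ_smooth.comp (contDiff_snd.prodMk contDiff_fst)
    have h2 := S.Φ_deriv0 (S.FB_sub_M hf one_le_two) 0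
    rw [S.Φ_zero] at h2
    have := sl (fun q : (E × E × E) × ℝ => S.Φ q.2 q.1) h1 (S.X0 f) h2
    simpa only [S.Φ_zero] using this
  have sc : Tendsto (fun δ => (t δ)⁻¹ * (S.cj (g δ) (t δ) - 1)) (𝓝[>] 0) (𝓝 0) := by
    have h2 := S.cj_deriv hf 0
    rw [S.cj'_zero hf] at h2
    have := sl _ S.cj_smooth 0 h2
    refine this.congr' ?_
    filter_upwards [H1] with δ hδ
    simp only [S.cj_zero hδ.1, smul_eq_mul]
  have ss : Tendsto (fun δ => (t δ)⁻¹ * S.sj (g δ) (t δ)) (𝓝[>] 0) (𝓝 1) := by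
    have h2 := S.sj_deriv hf 0
    rw [S.sj'_zero hf] at h2
    have := sl _ S.sj_smooth 1 h2
    refine this.congr' ?_
    filter_upwards [H1] with δ hδ
    simp only [S.sj_zero, smul_eq_mul, sub_zero]
  have sc' : Tendsto (fun δ => (t δ)⁻¹ * S.cj' (g δ) (t δ)) (𝓝[>] 0) (𝓝 (-S.K f)) := by
    have h2 := S.cj'_deriv hf 0
    rw [S.cj_zero hf, S.Φ_zero, mul_one] at h2
    have := sl _ S.cj'_smooth _ h2
    refine this.congr' ?_
    filter_upwards [H1] with δ hδ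
    simp only [S.cj'_zero hδ.1, smul_eq_mul, sub_zero]
  have ss' : Tendsto (fun δ => (t δ)⁻¹ * (S.sj' (g δ) (t δ) - 1)) (𝓝[>] 0) (𝓝 0) := by
    have h2 := S.sj'_deriv hf 0
    rw [S.sj_zero, mul_zero, neg_zero] at h2
    have := sl _ S.sj'_smooth _ h2
    refine this.congr' ?_
    filter_upwards [H1] with δ hδ
    simp only [S.sj'_zero hδ.1, smul_eq_mul]
  have hΦt : Tendsto (fun δ => S.Φ (t δ) (g δ)) (𝓝[>] 0) (𝓝[S.FB] f) := by
    refine tendsto_nhdsWithin_iff.2 ⟨?_, H1.mono fun δ hδ => S.Φ_FB hδ.1 _⟩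
    have := (S.Φ_cont.tendsto (0, f)).comp (H3.prodMk_nhds H2)
    rw [S.Φ_zero] at this
    exact this
  have hbt' : Tendsto (fun δ => bf L v (S.Φ (t δ) (g δ))) (𝓝[>] 0) (𝓝 (bf L v f)) :=
    ((Fld.bf_cont F) f hf).tendsto.comp hΦt
  -- increments
  have inc1 : Tendsto (fun δ => δ⁻¹ * (jf v (S.Φ (t δ) (g δ)) - jf v (g δ))) (𝓝[>] 0)
      (𝓝 (lam * bf L v f)) := by
    have h1 := H4.mul ((sc.mul hjt).add (ss.mul hbt))
    simp only [zero_mul, zero_add, one_mul] at h1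
    refine h1.congr' ?_
    filter_upwards [H1, tne] with δ hδ hne
    rw [Fld.jac F hδ.1 hδ.2.2.1.le hδ.2.2.2.1]
    field_simp
    ring
  have inc2 : Tendsto (fun δ => δ⁻¹ * (bf L v (S.Φ (t δ) (g δ)) - bf L v (g δ))) (𝓝[>] 0)
      (𝓝 (lam * (-S.K f * jf v f))) := by
    have h1 := H4.mul ((sc'.mul hjt).add (ss'.mul hbt))
    simp only [zero_mul, add_zero] at h1
    refine h1.congr' ?_
    filter_upwards [H1, tne] with δ hδ hne
    rw [Fld.jac' F hδ.1 hδ.2.2.1.le hδ.2.2.2.1]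
    field_simp
    ring
  have inc3 : Tendsto (fun δ => δ⁻¹ * (ef a (S.Φ (t δ) (g δ)) - ef a (g δ))) (𝓝[>] 0)
      (𝓝 (lam * -(bf L v f ^ 2 - S.K f * jf v f ^ 2))) := by
    have h1 := ((inc1.mul hbt').add (hjt.mul inc2)).neg
    have h2 : -(lam * bf L v f * bf L v f + jf v f * (lam * (-S.K f * jf v f))) =
        lam * -(bf L v f ^ 2 - S.K f * jf v f ^ 2) := by ring
    rw [h2] at h1
    refine h1.congr' ?_
    filter_upwards [H1] with δ hδ
    have := Fld.alpha F hδ.1 hδ.2.2.1.le hδ.2.2.2.1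
    linear_combination δ⁻¹ * this
  -- differences of the frames
  have hN : Tendsto (fun δ => δ⁻¹ • (S.Φ (t δ) (g δ) - g δ)) (𝓝[>] 0) (𝓝 (lam • S.X0 f)) := by
    have h1 := H4.smul sΦ
    refine h1.congr' ?_
    filter_upwards [tne] with δ hne
    rw [smul_smul, mul_assoc, mul_inv_cancel₀ hne, mul_one]
  have hN3 : Tendsto (fun δ => δ⁻¹ • ((S.Φ (t δ) (g δ)).2.2 - (g δ).2.2)) (𝓝[>] 0)
      (𝓝 (lam • S.B f.1 f.2.1 f.2.2)) :=
    ((continuous_snd.comp continuous_snd).tendsto _).comp hN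
  have hN2 : Tendsto (fun δ => δ⁻¹ • ((S.Φ (t δ) (g δ)).2.1 - (g δ).2.1)) (𝓝[>] 0)
      (𝓝 (lam • S.B f.1 f.2.1 f.2.1)) :=
    ((continuous_fst.comp continuous_snd).tendsto _).comp hN
  have hO3 : (fun δ => (g δ).2.2 - f.2.2) =O[𝓝[>] (0:ℝ)] fun δ => δ := by
    refine IsBigO.trans (IsBigO.of_bound 1 (Eventually.of_forall fun δ => ?_)) H5
    rw [one_mul]
    calc ‖(g δ).2.2 - f.2.2‖ = ‖(g δ - f).2.2‖ := rfl
      _ ≤ ‖(g δ - f).2‖ := norm_snd_le _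
      _ ≤ ‖g δ - f‖ := norm_snd_le _
  have hO2 : (fun δ => (g δ).2.1 - f.2.1) =O[𝓝[>] (0:ℝ)] fun δ => δ := by
    refine IsBigO.trans (IsBigO.of_bound 1 (Eventually.of_forall fun δ => ?_)) H5
    rw [one_mul]
    calc ‖(g δ).2.1 - f.2.1‖ = ‖(g δ - f).2.1‖ := rfl
      _ ≤ ‖(g δ - f).2‖ := norm_fst_le _
      _ ≤ ‖g δ - f‖ := norm_snd_le _
  constructor
  · refine slope_aux (hv h') (hv h) hO3 hN3 ?_ ?_
    · rw [real_inner_smul_right, S.inner_B' hx hf.2.1 hf.2.2.1 (Fld.tv F _ hx), mul_zero]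
    · refine inc1.congr' ?_
      filter_upwards [H1] with δ hδ
      unfold jf
      rw [hδ.2.2.2.2, hδ.2.1]
  · refine slope_aux (ha h') (ha h) hO2 hN2 ?_ ?_
    · rw [real_inner_smul_right, S.inner_B' hx hf.2.1 hf.2.1 (Fld.ta F _ hx), mul_zero]
    · refine inc3.congr' ?_
      filter_upwards [H1] with δ hδ
      unfold ef
      rw [hδ.2.2.2.2, hδ.2.1]

end Fld

end Pool.Agent.H864R3
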