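import Mathlib

set_option autoImplicit false

namespace Pool.Agent.H864R3.T10

/-- TASK T10 (real analysis: the only functions). -/
theorem trig_const (β : ℝ → ℝ) (hc : Continuous β)
    (h1 : ∀ θ φ, β (θ + φ) + β (θ - φ) = 2 * Real.cos φ ^ 2 * β θ +
      2 * Real.sin φ ^ 2 * β (θ + Real.pi / 2))
    (h2 : ∀ θ φ, β (θ + φ) ^ 2 + β (θ - φ) ^ 2 = 2 * Real.cos φ ^ 2 * β θ ^ 2 +
      2 * Real.sin φ ^ 2 * β (θ + Real.pi / 2) ^ 2)
    (hper : ∀ θ, β (θ + Real.pi) = β θ) : ∀ θ θ', β θ = β θ' := by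
  have hP : Function.Periodic β Real.pi := hper
  obtain ⟨θ0, _, hmax⟩ := isCompact_Icc.exists_isMaxOn
    (Set.nonempty_Icc.2 Real.pi_pos.le) hc.continuousOn
  have hM : ∀ x, β x ≤ β θ0 := by
    intro x
    obtain ⟨y, hy, hxy⟩ := hP.exists_mem_Ico₀ Real.pi_pos x
    rw [hxy]
    exact hmax ⟨hy.1, hy.2.le⟩
  have key : β (θ0 + Real.pi / 2) = β θ0 := by
    have h3 := h1 θ0 (Real.pi / 6)
    have h4 := h2 θ0 (Real.pi / 6)
    rw [Real.cos_pi_div_six, Real.sin_pi_div_six] at h3 h4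
    have hs : (Real.sqrt 3 / 2) ^ 2 = 3 / 4 := by
      rw [div_pow, Real.sq_sqrt (by norm_num)]; norm_num
    rw [hs] at h3 h4
    have ha := hM (θ0 + Real.pi / 6)
    have hb := hM (θ0 - Real.pi / 6)
    have hab := mul_nonneg (sub_nonneg.2 ha) (sub_nonneg.2 hb)
    set M := β θ0
    set m := β (θ0 + Real.pi / 2)
    set a := β (θ0 + Real.pi / 6)
    set b := β (θ0 - Real.pi / 6)
    have hid : (M - a) * (M - b) = -(1 / 8) * (M - m) ^ 2 := by
      have e1 : a + b = 3 / 2 * M + 1 / 2 * m := by linarith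
      have e2 : a ^ 2 + b ^ 2 = 3 / 2 * M ^ 2 + 1 / 2 * m ^ 2 := by linarith
      have e3 : 2 * (a * b) = (a + b) ^ 2 - (a ^ 2 + b ^ 2) := by ring
      rw [e1, e2] at e3
      have e4 : (M - a) * (M - b) = M ^ 2 - M * (a + b) + a * b := by ring
      rw [e4, e1]
      linarith
    have hz : (M - m) ^ 2 = 0 := by
      have := sq_nonneg (M - m)
      linarith
    have := pow_eq_zero_iff (two_ne_zero) |>.1 hz
    linarith
  have hall : ∀ x, β x = β θ0 := by
    intro x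
    have h3 := h1 θ0 (x - θ0)
    rw [key] at h3
    have hcs := Real.cos_sq_add_sin_sq (x - θ0)
    have e : θ0 + (x - θ0) = x := by ring
    rw [e] at h3
    have h4 : β x + β (θ0 - (x - θ0)) = 2 * β θ0 := by
      rw [h3]
      linear_combination (2 * β θ0) * hcs
    have := hM x
    have := hM (θ0 - (x - θ0))
    linarith
  intro θ θ'
  rw [hall θ, hall θ']

end Pool.Agent.H864R3.T10
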