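import Pool.Agent.H864R3.K3b
import Pool.Agent.H864R3.T10

set_option autoImplicit false
set_option linter.unusedVariables false
set_option linter.unusedSectionVars false

open Set Metric Filter Topology Asymptotics
open scoped ContDiff InnerProductSpace NNReal

namespace Pool.Agent.H864R3

variable {E : Type} [NormedAddCommGroup E] [InnerProductSpace ℝ E] [FiniteDimensional ℝ E]

open RS in
/-- first vector of the rotated frame -/
noncomputable def wv (f : E × E × E) (θ : ℝ) : E := (rot θ f).2.1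
open RS in
/-- second vector of the rotated frame -/
noncomputable def nv (f : E × E × E) (θ : ℝ) : E := (rot θ f).2.2

lemma wv_eq (f : E × E × E) (θ : ℝ) : wv f θ = Real.cos θ • f.2.1 + Real.sin θ • f.2.2 := rfl
lemma nv_eq (f : E × E × E) (θ : ℝ) : nv f θ = -Real.sin θ • f.2.1 + Real.cos θ • f.2.2 := rfl

lemma wv_add (f : E × E × E) (θ γ : ℝ) :
    wv f (θ + γ) = Real.cos γ • wv f θ + Real.sin γ • wv f (θ + Real.pi / 2) := by
  simp only [wv_eq, Real.cos_add, Real.sin_add, Real.cos_pi_div_two, Real.sin_pi_div_two]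
  module

lemma nv_add (f : E × E × E) (θ γ : ℝ) :
    nv f (θ + γ) = Real.cos γ • nv f θ + Real.sin γ • nv f (θ + Real.pi / 2) := by
  simp only [nv_eq, Real.cos_add, Real.sin_add, Real.cos_pi_div_two, Real.sin_pi_div_two]
  module

/-- the parallelogram law from the first order relations -/
lemma para {S : RS E} {f : E × E × E} (hf : f ∈ S.FB) {b : E → E} {Nf : ℝ → E} {β : ℝ → ℝ}
    (hN : ∀ θ γ, Nf (θ + γ) = Real.cos γ • Nf θ + Real.sin γ • Nf (θ + Real.pi / 2))
    (hlim : ∀ h h' : E, S.P f.1 h = h → S.P f.1 h' = h' → ∀ lam : ℝ, 0 < lam → ∀ α : ℝ,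
      h' - h = lam • wv f α → Tendsto (fun δ => δ⁻¹ * ⟪b (S.pt f.1 h' δ) - b (S.pt f.1 h δ), Nf α⟫_ℝ)
        (𝓝[>] 0) (𝓝 (lam * β α))) :
    (∀ θ, β (θ + Real.pi) = β θ) ∧ ∀ θ φ, 0 < φ → φ < Real.pi / 2 →
      β (θ + φ) + β (θ - φ) = 2 * Real.cos φ ^ 2 * β θ + 2 * Real.sin φ ^ 2 * β (θ + Real.pi / 2) := by
  have hx := hf.1
  have hwP : ∀ θ, S.P f.1 (wv f θ) = wv f θ := fun θ => (S.rot_FB hf θ).2.1
  have hcP : ∀ (c : ℝ) θ, S.P f.1 (c • wv f θ) = c • wv f θ := fun c θ => by rw [map_smul, hwP]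
  have h0P : S.P f.1 (0:E) = 0 := map_zero _
  have Npi : ∀ θ, Nf (θ + Real.pi) = - Nf θ := by
    intro θ
    rw [hN]; simp
  have wpi : ∀ θ, wv f (θ + Real.pi) = - wv f θ := by
    intro θ
    rw [wv_add]; simp
  have heven : ∀ θ, β (θ + Real.pi) = β θ := by
    intro θ
    have k1 := hlim 0 (wv f θ) h0P (hwP θ) 1 one_pos θ (by rw [sub_zero, one_smul])
    have k2 := hlim (wv f θ) 0 (hwP θ) h0P 1 one_pos (θ + Real.pi) (by
      rw [wpi, one_smul, zero_sub])
    rw [one_mul] at k1 k2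
    have k3 : (fun δ => δ⁻¹ * ⟪b (S.pt f.1 0 δ) - b (S.pt f.1 (wv f θ) δ), Nf (θ + Real.pi)⟫_ℝ) =
        fun δ => δ⁻¹ * ⟪b (S.pt f.1 (wv f θ) δ) - b (S.pt f.1 0 δ), Nf θ⟫_ℝ := by
      ext1 δ
      rw [Npi, inner_neg_right, ← inner_neg_left, neg_sub]
    rw [k3] at k2
    exact tendsto_nhds_unique k2 k1
  refine ⟨heven, fun θ φ h0 h1 => ?_⟩
  have hc : 0 < Real.cos φ := Real.cos_pos_of_mem_Ioo ⟨by linarith, h1⟩
  have hs : 0 < Real.sin φ := Real.sin_pos_of_pos_of_lt_pi h0 (by linarith [Real.pi_pos])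
  set c := Real.cos φ with hcd
  set s := Real.sin φ with hsd
  set w := wv f θ with hw
  set w' := wv f (θ + Real.pi / 2) with hw'
  have e1 : ∀ γ, wv f (θ + γ) = Real.cos γ • w + Real.sin γ • w' := fun γ => wv_add f θ γ
  have e2 : ∀ γ, Nf (θ + γ) = Real.cos γ • Nf θ + Real.sin γ • Nf (θ + Real.pi / 2) :=
    fun γ => hN θ γ
  have hwp : S.P f.1 w = w := hwP θ
  have hwp' : S.P f.1 w' = w' := hwP _
  have p1 : S.P f.1 (c • w) = c • w := by rw [map_smul, hwp]
  have p2 : S.P f.1 (-(c • w)) = -(c • w) := by rw [map_neg, p1]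
  have p3 : S.P f.1 (s • w') = s • w' := by rw [map_smul, hwp']
  have p4 : S.P f.1 (-(s • w')) = -(s • w') := by rw [map_neg, p3]
  -- angles
  have a1 : wv f (θ + (Real.pi - φ)) = -(c • w) + s • w' := by
    rw [e1, Real.cos_pi_sub, Real.sin_pi_sub]; module
  have a2 : wv f (θ + (φ + Real.pi)) = -(c • w) - s • w' := by
    rw [e1, Real.cos_add_pi, Real.sin_add_pi]; module
  have a3 : wv f (θ + φ) = c • w + s • w' := by rw [e1]
  have a4 : wv f (θ + (-φ)) = c • w - s • w' := by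
    rw [e1, Real.cos_neg, Real.sin_neg]; module
  have a5 : wv f (θ + (-(Real.pi / 2))) = - w' := by
    rw [e1, Real.cos_neg, Real.sin_neg, Real.cos_pi_div_two, Real.sin_pi_div_two]; module
  have a6 : wv f (θ + Real.pi) = - w := wpi θ
  have b1 : Nf (θ + (Real.pi - φ)) = -(c • Nf θ) + s • Nf (θ + Real.pi / 2) := by
    rw [e2, Real.cos_pi_sub, Real.sin_pi_sub]; module
  have b2 : Nf (θ + (φ + Real.pi)) = -(c • Nf θ) - s • Nf (θ + Real.pi / 2) := by
    rw [e2, Real.cos_add_pi, Real.sin_add_pi]; module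
  have b3 : Nf (θ + φ) = c • Nf θ + s • Nf (θ + Real.pi / 2) := by rw [e2]
  have b4 : Nf (θ + (-φ)) = c • Nf θ - s • Nf (θ + Real.pi / 2) := by
    rw [e2, Real.cos_neg, Real.sin_neg]; module
  have b5 : Nf (θ + (-(Real.pi / 2))) = - Nf (θ + Real.pi / 2) := by
    rw [e2, Real.cos_neg, Real.sin_neg, Real.cos_pi_div_two, Real.sin_pi_div_two]; module
  have b6 : Nf (θ + Real.pi) = - Nf θ := Npi θ
  have L1 := hlim (c • w) (s • w') p1 p3 1 one_pos (θ + (Real.pi - φ)) (by rw [a1]; module)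
  have L2 := hlim (c • w) (-(s • w')) p1 p4 1 one_pos (θ + (φ + Real.pi)) (by rw [a2]; module)
  have L3 := hlim (-(c • w)) (s • w') p2 p3 1 one_pos (θ + φ) (by rw [a3]; module)
  have L4 := hlim (-(c • w)) (-(s • w')) p2 p4 1 one_pos (θ + (-φ)) (by rw [a4]; module)
  have L5 := hlim 0 (s • w') h0P p3 s hs (θ + Real.pi / 2) (by rw [← hw']; module)
  have L6 := hlim 0 (-(s • w')) h0P p4 s hs (θ + (-(Real.pi / 2))) (by rw [a5]; module)
  have L7 := hlim 0 (c • w) h0P p1 c hc θ (by rw [← hw]; module)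
  have L8 := hlim 0 (-(c • w)) h0P p2 c hc (θ + Real.pi) (by rw [a6]; module)
  rw [b1] at L1
  rw [b2] at L2
  rw [b3] at L3
  rw [b4] at L4
  rw [b5] at L6
  rw [b6] at L8
  have LL := ((L1.add L2).add L3).add L4
  have LR := ((((L5.const_mul (2 * s)).add (L6.const_mul (2 * s))).add (L7.const_mul (2 * c))).add
    (L8.const_mul (2 * c)))
  have heq := tendsto_nhds_unique_of_eventuallyEq LL LR (Eventually.of_forall fun δ => by
    simp only [inner_sub_left, inner_sub_right, inner_add_right, inner_neg_right,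
      real_inner_smul_right]
    ring)
  have q1 : β (θ + (Real.pi - φ)) = β (θ - φ) := by
    rw [← heven (θ - φ)]; congr 1; ring
  have q2 : β (θ + (φ + Real.pi)) = β (θ + φ) := by
    rw [← heven (θ + φ)]; congr 1; ring
  have q4 : β (θ + (-φ)) = β (θ - φ) := by congr 1
  have q5 : β (θ + (-(Real.pi / 2))) = β (θ + Real.pi / 2) := by
    rw [← heven (θ + (-(Real.pi / 2)))]; congr 1; ring
  have q6 := heven θ
  rw [q1, q2, q4, q5, q6] at heq
  linarith

/-- extension of the relation to all angles -/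
lemma para_all {β : ℝ → ℝ} (hc : Continuous β) (hper : ∀ θ, β (θ + Real.pi) = β θ)
    (h : ∀ θ φ, 0 < φ → φ < Real.pi / 2 →
      β (θ + φ) + β (θ - φ) = 2 * Real.cos φ ^ 2 * β θ + 2 * Real.sin φ ^ 2 * β (θ + Real.pi / 2)) :
    ∀ θ φ, β (θ + φ) + β (θ - φ) =
      2 * Real.cos φ ^ 2 * β θ + 2 * Real.sin φ ^ 2 * β (θ + Real.pi / 2) := by
  intro θ
  set D : ℝ → ℝ := fun φ => β (θ + φ) + β (θ - φ) -
    (2 * Real.cos φ ^ 2 * β θ + 2 * Real.sin φ ^ 2 * β (θ + Real.pi / 2)) with hD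
  have hDper : Function.Periodic D Real.pi := by
    intro φ
    rw [hD]
    simp only
    have e1 : β (θ + (φ + Real.pi)) = β (θ + φ) := by rw [← add_assoc, hper]
    have e2 : β (θ - (φ + Real.pi)) = β (θ - φ) := by
      rw [← hper (θ - (φ + Real.pi))]; congr 1; ring
    rw [e1, e2, Real.cos_add_pi, Real.sin_add_pi]
    ring
  have hDeven : ∀ φ, D (-φ) = D φ := by
    intro φ
    rw [hD]
    simp only
    rw [Real.cos_neg, Real.sin_neg, sub_neg_eq_add, ← sub_eq_add_neg]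
    ring
  have hDc : Continuous D := by
    rw [hD]
    fun_prop
  have hD0 : ∀ φ ∈ Ioo (0:ℝ) (Real.pi / 2), D φ = 0 := by
    intro φ hφ
    rw [hD]; simp only
    rw [h θ φ hφ.1 hφ.2, sub_self]
  have hD1 : ∀ φ ∈ Icc (0:ℝ) (Real.pi / 2), D φ = 0 := by
    have hcl : closure (Ioo (0:ℝ) (Real.pi / 2)) = Icc 0 (Real.pi / 2) :=
      closure_Ioo (by have := Real.pi_pos; positivity)
    intro φ hφ
    rw [← hcl] at hφ
    have hclosed : IsClosed {φ | D φ = 0} := isClosed_eq hDc continuous_const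
    exact closure_minimal hD0 hclosed hφ
  intro φ
  have hπ := Real.pi_pos
  obtain ⟨y, hy, hyD⟩ := hDper.exists_mem_Ico (by linarith : 0 < Real.pi) φ (-(Real.pi / 2))
  have hy2 : y ≤ Real.pi / 2 := by have := hy.2; linarith
  have : D y = 0 := by
    rcases le_total 0 y with h0 | h0
    · exact hD1 y ⟨h0, hy2⟩
    · rw [← hDeven]
      exact hD1 (-y) ⟨by linarith, by linarith [hy.1]⟩
  rw [← hyD] at this
  rw [hD] at this
  simp only at this
  linarith

namespace Fld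

variable {S : RS E} {L : LE S} {v a : E → E} (F : Fld L v a)

include F

/-- isotropy -/
theorem iso {f : E × E × E} (hf : f ∈ S.FB) (θ : ℝ) : bf L v (RS.rot θ f) = bf L v f := by
  set β : ℝ → ℝ := fun θ => bf L v (RS.rot θ f) with hβ
  have hβc : Continuous β := by
    have h1 : Continuous fun θ : ℝ => RS.rot θ f :=
      RS.rot_cont.comp (continuous_id.prodMk continuous_const)
    exact (Fld.bf_cont F).comp_continuous h1 (fun θ => S.rot_FB hf θ)
  obtain ⟨hper, hrel⟩ := para (S := S) (b := v) (Nf := nv f) (β := β) hf (nv_add f)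
    (fun h h' hh hh' lam hlam α hk =>
      (Fld.slopes F (S.rot_FB hf α) (f := RS.rot α f) hh hh' hlam hk).1)
  obtain ⟨hper2, hrel2⟩ := para (S := S) (b := a) (Nf := wv f)
    (β := fun θ => -(bf L v (RS.rot θ f) ^ 2 - S.K (RS.rot θ f) * jf v (RS.rot θ f) ^ 2)) hf
    (wv_add f) (fun h h' hh hh' lam hlam α hk =>
      (Fld.slopes F (S.rot_FB hf α) (f := RS.rot α f) hh hh' hlam hk).2)
  have hj : ∀ α, jf v (RS.rot α f) = -Real.sin α * ef v f + Real.cos α * jf v f := by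
    intro α
    unfold jf ef
    show ⟪v f.1, -Real.sin α • f.2.1 + Real.cos α • f.2.2⟫_ℝ = _
    rw [inner_add_right, real_inner_smul_right, real_inner_smul_right]
  have hrelsq : ∀ θ φ, 0 < φ → φ < Real.pi / 2 → β (θ + φ) ^ 2 + β (θ - φ) ^ 2 =
      2 * Real.cos φ ^ 2 * β θ ^ 2 + 2 * Real.sin φ ^ 2 * β (θ + Real.pi / 2) ^ 2 := by
    intro θ φ h0 h1
    have := hrel2 θ φ h0 h1
    simp only [S.K_rot] at this
    have hjj : jf v (RS.rot (θ + φ) f) ^ 2 + jf v (RS.rot (θ - φ) f) ^ 2 =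
        2 * Real.cos φ ^ 2 * jf v (RS.rot θ f) ^ 2 +
        2 * Real.sin φ ^ 2 * jf v (RS.rot (θ + Real.pi / 2) f) ^ 2 := by
      simp only [hj, Real.cos_add, Real.sin_add, Real.cos_sub, Real.sin_sub,
        Real.cos_pi_div_two, Real.sin_pi_div_two]
      ring
    rw [hβ]
    simp only
    linear_combination S.K f * hjj - this
  have hsq := para_all (β := fun θ => β θ ^ 2) (hβc.pow 2) (fun θ => by simp only [hper]) hrelsq
  have hall := para_all hβc hper hrel
  have := T10.trig_const β hβc hall hsq hper θ 0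
  rw [hβ] at this
  simpa using this

end Fld

end Pool.Agent.H864R3
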