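import Pool.Agent.H864R3.K2

set_option autoImplicit false
set_option linter.unusedVariables false
set_option linter.unusedSectionVars false

open Set Metric Filter Topology
open scoped ContDiff InnerProductSpace NNReal

namespace Pool.Agent.H864R3.K4a

variable {E : Type} [NormedAddCommGroup E] [InnerProductSpace ℝ E] [FiniteDimensional ℝ E]

/-- quarter turn in the plane of the frame `f` -/
noncomputable def JJ (f : E × E × E) (k : E) : E := -⟪k, f.2.2⟫_ℝ • f.2.1 + ⟪k, f.2.1⟫_ℝ • f.2.2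

lemma JJ_smooth (f : E × E × E) : ContDiff ℝ ∞ (JJ f) := by
  unfold JJ
  exact (((contDiff_id.inner ℝ contDiff_const).neg).smul contDiff_const).add
    ((contDiff_id.inner ℝ contDiff_const).smul contDiff_const)

lemma JJ_self {S : RS E} {f : E × E × E} (hf : f ∈ S.FB) : JJ f f.2.1 = f.2.2 := by
  obtain ⟨h1, h2, h3, h4, h5, h6⟩ := hf
  unfold JJ
  rw [h6, real_inner_self_eq_norm_sq, h4]
  simp

/-- a unit tangent vector is a rotation of the first vector of the frame -/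
lemma exists_rot {S : RS E} {f : E × E × E} (hf : f ∈ S.FB) {u : E} (hu : S.P f.1 u = u)
    (hu1 : ‖u‖ = 1) : ∃ θ : ℝ, RS.rot θ f = (f.1, u, JJ f u) := by
  have he := S.frame_expand hf hu
  obtain ⟨h1, h2, h3, h4, h5, h6⟩ := hf
  set c := ⟪u, f.2.1⟫_ℝ with hc
  set s := ⟪u, f.2.2⟫_ℝ with hs
  have i1 : ⟪f.2.1, f.2.1⟫_ℝ = 1 := by rw [real_inner_self_eq_norm_sq, h4]; norm_num
  have i2 : ⟪f.2.2, f.2.2⟫_ℝ = 1 := by rw [real_inner_self_eq_norm_sq, h5]; norm_num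
  have i3 : ⟪f.2.2, f.2.1⟫_ℝ = 0 := by rw [real_inner_comm]; exact h6
  have hcs : c ^ 2 + s ^ 2 = 1 := by
    have : ⟪u, u⟫_ℝ = 1 := by rw [real_inner_self_eq_norm_sq, hu1]; norm_num
    rw [he] at this
    simp only [inner_add_left, inner_add_right, real_inner_smul_left, real_inner_smul_right, i1,
        i2, i3, h6] at this
    linarith
  have hn : ‖(⟨c, s⟩ : ℂ)‖ = 1 := by
    rw [Complex.norm_def, Complex.normSq_mk]
    rw [show c * c + s * s = 1 by linarith, Real.sqrt_one]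
  have hne : (⟨c, s⟩ : ℂ) ≠ 0 := by
    intro h; rw [h, norm_zero] at hn; exact zero_ne_one hn
  refine ⟨Complex.arg ⟨c, s⟩, ?_⟩
  have e1 : Real.cos (Complex.arg ⟨c, s⟩) = c := by
    rw [Complex.cos_arg hne, hn, div_one]
  have e2 : Real.sin (Complex.arg ⟨c, s⟩) = s := by
    rw [Complex.sin_arg, hn, div_one]
  unfold RS.rot JJ
  rw [e1, e2]
  refine Prod.ext rfl (Prod.ext ?_ rfl)
  exact he.symm

lemma one_side {S : RS E} {L : LE S} {v a : E → E} (F : Fld L v a)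
    (hiso : ∀ f ∈ S.FB, ∀ θ : ℝ, bf L v (RS.rot θ f) = bf L v f) {f : E × E × E} (hf : f ∈ S.FB)
    {y0 : E} (hy0 : (S.Φ (L.r / 2) f).1 = y0) :
    ∃ (m : E → E) (γ : E → ℝ), ContDiffAt ℝ ∞ m y0 ∧ ContDiffAt ℝ ∞ γ y0 ∧
      m y0 = (S.Φ (L.r / 2) f).2.2 ∧
      ∀ᶠ y in 𝓝 y0, y ∈ S.S → (∃ w' : E, (y, w', m y) ∈ S.FB) ∧ ⟪v y, m y⟫_ℝ = γ y := by
  have hr := L.r_pos
  obtain ⟨⟨hx, hyS, hne, hd, hlr⟩, hlen, hu, hw⟩ :=
    L.edge_of_frame hf (t := L.r / 2) (by linarith) (by linarith)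
  rw [hy0] at hyS hne hd hlr hlen hu hw
  set x := f.1 with hxdef
  have hpair : ContDiffAt ℝ ∞ (fun y : E => (x, y)) y0 :=
    (contDiff_const.prodMk contDiff_id).contDiffAt
  have hW : ContDiffAt ℝ ∞ (fun y => L.W (x, y)) y0 :=
    ContDiffAt.comp y0 (L.W_smoothAt hx hyS hd) hpair
  have hWne : L.W (x, y0) ≠ 0 := norm_pos_iff.1 (L.W_ne hx hyS hd hne)
  have hlenS : ContDiffAt ℝ ∞ (fun y => L.len (x, y)) y0 := by
    unfold LE.len
    exact hW.norm ℝ hWne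
  have huS : ContDiffAt ℝ ∞ (fun y => L.u (x, y)) y0 := by
    unfold LE.u
    exact ((hW.norm ℝ hWne).inv (norm_ne_zero_iff.2 hWne)).smul hW
  set g : E → E × E × E := fun y => (x, L.u (x, y), JJ f (L.u (x, y))) with hg
  have hgS : ContDiffAt ℝ ∞ g y0 :=
    contDiffAt_const.prodMk (huS.prodMk ((JJ_smooth f).contDiffAt.comp y0 huS))
  have hΦ : ContDiffAt ℝ ∞ (fun y => S.Φ (L.len (x, y)) (g y)) y0 :=
    ContDiffAt.comp (g := fun q : ℝ × (E × E × E) => S.Φ q.1 q.2)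
      (f := fun y => (L.len (x, y), g y)) y0 S.Φ_smooth.contDiffAt (hlenS.prodMk hgS)
  refine ⟨fun y => (S.Φ (L.len (x, y)) (g y)).2.2,
    fun y => S.cj (g y) (L.len (x, y)) * ⟪v x, JJ f (L.u (x, y))⟫_ℝ +
      S.sj (g y) (L.len (x, y)) * bf L v f, ?_, ?_, ?_, ?_⟩
  · exact hΦ.snd.snd
  · have h1 : ContDiffAt ℝ ∞ (fun y => S.cj (g y) (L.len (x, y))) y0 :=
      ContDiffAt.comp (g := fun q : (E × E × E) × ℝ => S.cj q.1 q.2)
        (f := fun y => (g y, L.len (x, y))) y0 S.cj_smooth.contDiffAt (hgS.prodMk hlenS)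
    have h2 : ContDiffAt ℝ ∞ (fun y => S.sj (g y) (L.len (x, y))) y0 :=
      ContDiffAt.comp (g := fun q : (E × E × E) × ℝ => S.sj q.1 q.2)
        (f := fun y => (g y, L.len (x, y))) y0 S.sj_smooth.contDiffAt (hgS.prodMk hlenS)
    have h3 : ContDiffAt ℝ ∞ (fun y => ⟪v x, JJ f (L.u (x, y))⟫_ℝ) y0 :=
      contDiffAt_const.inner ℝ ((JJ_smooth f).contDiffAt.comp y0 huS)
    exact (h1.mul h3).add (h2.mul contDiffAt_const)
  · have h1 : g y0 = f := by
      rw [hg]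
      simp only
      rw [hu, JJ_self hf]
    simp only
    rw [h1, hlen]
  · have e1 : ∀ᶠ y in 𝓝 y0, ‖x - y‖ < L.ρ := by
      have : ContinuousAt (fun y : E => ‖x - y‖) y0 := by fun_prop
      exact this.eventually (gt_mem_nhds hd)
    have e2 : ∀ᶠ y in 𝓝 y0, y ≠ x := by
      exact isOpen_ne.mem_nhds hne.symm
    have e3 : ∀ᶠ y in 𝓝 y0, L.len (x, y) < L.r := by
      refine hlenS.continuousAt.eventually (gt_mem_nhds ?_)
      exact hlr
    filter_upwards [e1, e2, e3] with y h1 h2 h3 hy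
    have hut := L.u_tan hx hy h1
    have hu1 := L.u_norm hx hy h1 h2.symm
    obtain ⟨θ, hθ⟩ := exists_rot hf hut hu1
    have hgF : g y ∈ S.FB := by
      have := S.rot_FB hf θ
      rw [hθ] at this
      exact this
    have hgF' : (x, L.u (x, y), JJ f (L.u (x, y))) ∈ S.FB := hgF
    have hfr := (L.Φ_frame hx hy h1 h2.symm hgF').1
    have hFB := S.Φ_FB hgF (L.len (x, y))
    refine ⟨⟨(S.Φ (L.len (x, y)) (g y)).2.1, ?_⟩, ?_⟩
    · have h4 : ((y, (S.Φ (L.len (x, y)) (g y)).2.1, (S.Φ (L.len (x, y)) (g y)).2.2) : E × E × E) =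
        S.Φ (L.len (x, y)) (g y) := by
        refine Prod.ext ?_ rfl
        exact hfr.symm
      rw [h4]
      exact hFB
    · have hj := Fld.jac F hgF (t := L.len (x, y)) (norm_nonneg _) h3
      unfold jf at hj
      have h5 : (S.Φ (L.len (x, y)) (g y)).1 = y := hfr
      rw [h5] at hj
      rw [hj]
      have h6 : bf L v (g y) = bf L v f := by
        have := hiso f hf θ
        rw [hθ] at this
        exact this
      rw [h6]

/-- TASK K4a: isotropic solutions are smooth. -/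
theorem loc_smooth {S : RS E} {L : LE S} {v a : E → E} (F : Fld L v a)
    (hiso : ∀ f ∈ S.FB, ∀ θ : ℝ, bf L v (RS.rot θ f) = bf L v f) (y0 : E) (hy0 : y0 ∈ S.S) :
    ∃ V : E → E, ContDiffAt ℝ ∞ V y0 ∧ ∀ᶠ y in 𝓝 y0, y ∈ S.S → V y = v y := by
  obtain ⟨w, n, hf⟩ := S.exists_frame' hy0
  have hf2 := S.quarter _ hf
  simp only at hf2
  have k1 : S.Φ (L.r / 2) (S.Φ (-(L.r / 2)) (y0, w, n)) = (y0, w, n) := by
    rw [← S.Φ_add, add_neg_cancel, S.Φ_zero]
  have k2 : S.Φ (L.r / 2) (S.Φ (-(L.r / 2)) (y0, n, -w)) = (y0, n, -w) := by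
    rw [← S.Φ_add, add_neg_cancel, S.Φ_zero]
  obtain ⟨m1, γ1, a1, b1, c1, d1⟩ := one_side F hiso (S.Φ_FB hf (-(L.r / 2))) (y0 := y0)
    (by rw [k1])
  obtain ⟨m2, γ2, a2, b2, c2, d2⟩ := one_side F hiso (S.Φ_FB hf2 (-(L.r / 2))) (y0 := y0)
    (by rw [k2])
  rw [k1] at c1
  rw [k2] at c2
  simp only at c1 c2
  set G : E → ℝ := fun y => ⟪m1 y, m2 y⟫_ℝ with hG
  have hGS : ContDiffAt ℝ ∞ G y0 := a1.inner ℝ a2
  have hG0 : G y0 = 0 := by
    rw [hG]
    simp only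
    rw [c1, c2, inner_neg_right, real_inner_comm]
    have : ⟪w, n⟫_ℝ = 0 := hf.2.2.2.2.2
    rw [this, neg_zero]
  have hD : ContDiffAt ℝ ∞ (fun y => 1 - G y ^ 2) y0 := contDiffAt_const.sub (hGS.pow 2)
  have hD0 : 1 - G y0 ^ 2 ≠ 0 := by rw [hG0]; norm_num
  refine ⟨fun y => ((γ1 y - G y * γ2 y) / (1 - G y ^ 2)) • m1 y +
    ((γ2 y - G y * γ1 y) / (1 - G y ^ 2)) • m2 y, ?_, ?_⟩
  · exact (((b1.sub (hGS.mul b2)).div hD hD0).smul a1).add
      (((b2.sub (hGS.mul b1)).div hD hD0).smul a2)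
  · have e1 : ∀ᶠ y in 𝓝 y0, G y < 1 / 2 := hGS.continuousAt.eventually
      (gt_mem_nhds (by rw [hG0]; norm_num))
    have e2 : ∀ᶠ y in 𝓝 y0, -(1 / 2) < G y := hGS.continuousAt.eventually
      (lt_mem_nhds (by rw [hG0]; norm_num))
    filter_upwards [e1, e2, d1, d2] with y h1 h2 h3 h4 hy
    obtain ⟨⟨w', hw'⟩, hγ1⟩ := h3 hy
    obtain ⟨⟨w2, hw2⟩, hγ2⟩ := h4 hy
    have hG1 : G y ^ 2 < 1 := by nlinarith
    have hDy : 1 - G y ^ 2 ≠ 0 := by linarith
    have n1 : ⟪m1 y, m1 y⟫_ℝ = 1 := by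
      rw [real_inner_self_eq_norm_sq, hw'.2.2.2.2.1]; norm_num
    have n2 : ⟪m2 y, m2 y⟫_ℝ = 1 := by
      rw [real_inner_self_eq_norm_sq, hw2.2.2.2.2.1]; norm_num
    have n3 : ⟪m1 y, m2 y⟫_ℝ = G y := rfl
    have n4 : ⟪m2 y, m1 y⟫_ℝ = G y := by rw [real_inner_comm]
    set ξ := v y - (((γ1 y - G y * γ2 y) / (1 - G y ^ 2)) • m1 y +
      ((γ2 y - G y * γ1 y) / (1 - G y ^ 2)) • m2 y) with hξ
    have p1 : S.P y (m1 y) = m1 y := hw'.2.2.1
    have p2 : S.P y (m2 y) = m2 y := hw2.2.2.1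
    have hξP : S.P y ξ = ξ := by
      rw [hξ, map_sub, map_add, map_smul, map_smul, F.tv y hy, p1, p2]
    have q1 : ⟪ξ, m1 y⟫_ℝ = 0 := by
      rw [hξ, inner_sub_left, inner_add_left, real_inner_smul_left, real_inner_smul_left, n1, n4,
        hγ1]
      field_simp
      ring
    have q2 : ⟪ξ, m2 y⟫_ℝ = 0 := by
      rw [hξ, inner_sub_left, inner_add_left, real_inner_smul_left, real_inner_smul_left, n3, n2,
        hγ2]
      field_simp
      ring
    have x1 := S.frame_expand hw' (ξ := ξ) hξP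
    have x2 := S.frame_expand hw' (ξ := m2 y) p2
    simp only at x1 x2
    rw [q1, zero_smul, add_zero] at x1
    rw [n4] at x2
    have x3 : ⟪m2 y, w'⟫_ℝ ≠ 0 := by
      intro h
      rw [h, zero_smul, zero_add] at x2
      have : ⟪m2 y, m2 y⟫_ℝ = G y ^ 2 := by
        conv_lhs => rw [x2]
        rw [real_inner_smul_left, real_inner_smul_right, n1]; ring
      rw [n2] at this
      linarith
    have x4 : ⟪ξ, m2 y⟫_ℝ = ⟪ξ, w'⟫_ℝ * ⟪m2 y, w'⟫_ℝ := by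
      conv_lhs => rw [x1]
      rw [real_inner_smul_left, real_inner_comm (m2 y) w']
    rw [q2] at x4
    have x5 : ⟪ξ, w'⟫_ℝ = 0 := by
      rcases mul_eq_zero.1 x4.symm with h | h
      · exact h
      · exact absurd h x3
    rw [x5, zero_smul] at x1
    exact (sub_eq_zero.1 (hξ ▸ x1)).symm

end Pool.Agent.H864R3.K4a
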