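import Pool.Agent.H864R3.K2

set_option autoImplicit false
set_option linter.unusedVariables false
set_option linter.unusedSectionVars false

open Set Metric Filter Topology
open scoped ContDiff InnerProductSpace NNReal

namespace Pool.Agent.H864R3.K4b

variable {E : Type} [NormedAddCommGroup E] [InnerProductSpace ℝ E] [FiniteDimensional ℝ E]

/-- `V` is a smooth extension of `v` near `y` -/
def Ext (S : RS E) (v V : E → E) (y : E) : Prop :=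
  ContDiffAt ℝ 3 V y ∧ ∀ᶠ z in 𝓝 y, z ∈ S.S → V z = v z

lemma Ext.ev {S : RS E} {v V : E → E} {y : E} (h : Ext S v V y) : ∀ᶠ z in 𝓝 y, Ext S v V z := by
  filter_upwards [h.1.eventually (by simp), h.2.eventually_nhds] with z h1 h2
  exact ⟨h1, h2⟩

variable {S : RS E} {L : LE S} {v a : E → E}

lemma Ext.eq {V : E → E} {y : E} (h : Ext S v V y) (hy : y ∈ S.S) : V y = v y :=
  h.2.self_of_nhds hy

lemma Ext.diff {V : E → E} {y : E} (h : Ext S v V y) : HasFDerivAt V (fderiv ℝ V y) y :=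
  (h.1.differentiableAt (by simp)).hasFDerivAt

lemma Ext.diff2 {V : E → E} {y : E} (h : Ext S v V y) :
    HasFDerivAt (fderiv ℝ V) (fderiv ℝ (fderiv ℝ V) y) y :=
  ((h.1.fderiv_right (m := 2) (by norm_num)).differentiableAt (by simp)).hasFDerivAt

lemma Ext.symm {V : E → E} {y : E} (h : Ext S v V y) (a b : E) :
    fderiv ℝ (fderiv ℝ V) y a b = fderiv ℝ (fderiv ℝ V) y b a := by
  have h1 : IsSymmSndFDerivAt ℝ V y := by
    apply h.1.isSymmSndFDerivAt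
    simp only [minSmoothness_of_isRCLikeNormedField]
    norm_num
  exact h1 a b

lemma pos0 {f : E × E × E} (hf : f ∈ S.FB) : HasDerivAt (fun t => (S.Φ t f).1) f.2.1 0 := by
  have := S.pos_deriv (S.FB_sub_M hf one_le_two) 0
  rwa [S.Φ_zero] at this

lemma vel0 {f : E × E × E} (hf : f ∈ S.FB) :
    HasDerivAt (fun t => (S.Φ t f).2.1) (S.B f.1 f.2.1 f.2.1) 0 := by
  have := S.vel_deriv (S.FB_sub_M hf one_le_two) 0
  rwa [S.Φ_zero] at this

lemma nor0 {f : E × E × E} (hf : f ∈ S.FB) :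
    HasDerivAt (fun t => (S.Φ t f).2.2) (S.B f.1 f.2.1 f.2.2) 0 := by
  have := S.nor_deriv (S.FB_sub_M hf one_le_two) 0
  rwa [S.Φ_zero] at this

lemma tendsto_pos {f : E × E × E} (hf : f ∈ S.FB) :
    Tendsto (fun t => (S.Φ t f).1) (𝓝 0) (𝓝 f.1) := by
  have := (pos0 hf).continuousAt.tendsto
  rwa [S.Φ_zero] at this

/-- derivative of the field along a geodesic -/
lemma v_curve {V : E → E} {f : E × E × E} (hf : f ∈ S.FB) (h : Ext S v V f.1) :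
    HasDerivAt (fun t => v (S.Φ t f).1) (fderiv ℝ V f.1 f.2.1) 0 := by
  have h1 : HasFDerivAt V (fderiv ℝ V f.1) ((fun t => (S.Φ t f).1) 0) := by
    simp only [S.Φ_zero]; exact h.diff
  have h2 := h1.comp_hasDerivAt (0 : ℝ) (pos0 hf)
  refine h2.congr_of_eventuallyEq ?_
  filter_upwards [(tendsto_pos hf).eventually h.2] with t ht
  exact (ht (S.Φ_FB hf t).1).symm

/-- normal derivative of a tangent field -/
lemma normal_part (F : Fld L v a) {V : E → E} {f : E × E × E} (hf : f ∈ S.FB) (h : Ext S v V f.1)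
    {ν : E} (hν : S.P f.1 ν = 0) :
    ⟪fderiv ℝ V f.1 f.2.1, ν⟫_ℝ = ⟪S.B f.1 f.2.1 (v f.1), ν⟫_ℝ := by
  have h1 := v_curve hf h
  have h2 : HasFDerivAt S.P (S.B f.1) ((fun t => (S.Φ t f).1) 0) := by
    simp only [S.Φ_zero]; exact S.hasFDerivAt_P f.1
  have h3 : HasDerivAt (fun t => S.P (S.Φ t f).1) (S.B f.1 f.2.1) 0 :=
    h2.comp_hasDerivAt (0 : ℝ) (pos0 hf)
  have h4 : HasDerivAt (fun t => S.P (S.Φ t f).1 (v (S.Φ t f).1)) _ 0 := h3.clm_apply h1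
  have h5 : (fun t => S.P (S.Φ t f).1 (v (S.Φ t f).1)) = fun t => v (S.Φ t f).1 := by
    funext t
    exact F.tv _ (S.Φ_FB hf t).1
  rw [h5] at h4
  have h6 := h4.unique h1
  simp only [S.Φ_zero] at h6
  rw [← h6, inner_add_left, S.inner_P hf.1, hν, inner_zero_right, add_zero]

lemma jf_deriv (F : Fld L v a) {V : E → E} {f : E × E × E} (hf : f ∈ S.FB) (h : Ext S v V f.1) :
    HasDerivAt (fun t => jf v (S.Φ t f)) ⟪fderiv ℝ V f.1 f.2.1, f.2.2⟫_ℝ 0 := by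
  have h1 : HasDerivAt (fun t => ⟪v (S.Φ t f).1, (S.Φ t f).2.2⟫_ℝ) _ 0 :=
    (v_curve hf h).inner ℝ (nor0 hf)
  refine h1.congr_deriv ?_
  simp only [S.Φ_zero]
  rw [S.inner_B' hf.1 hf.2.1 hf.2.2.1 (F.tv _ hf.1), zero_add]

lemma ef_deriv (F : Fld L v a) {V : E → E} {f : E × E × E} (hf : f ∈ S.FB) (h : Ext S v V f.1) :
    HasDerivAt (fun t => ef v (S.Φ t f)) ⟪fderiv ℝ V f.1 f.2.1, f.2.1⟫_ℝ 0 := by
  have h1 : HasDerivAt (fun t => ⟪v (S.Φ t f).1, (S.Φ t f).2.1⟫_ℝ) _ 0 :=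
    (v_curve hf h).inner ℝ (vel0 hf)
  refine h1.congr_deriv ?_
  simp only [S.Φ_zero]
  rw [S.inner_B' hf.1 hf.2.1 hf.2.1 (F.tv _ hf.1), zero_add]

lemma right_unique {g h : ℝ → ℝ} {A B : ℝ} {r : ℝ} (hr : 0 < r) (hg : HasDerivAt g A 0)
    (hh : HasDerivAt h B 0) (e : ∀ t, 0 ≤ t → t < r → g t = h t) : A = B := by
  have h1 : HasDerivWithinAt g B (Ici 0) 0 := by
    refine hh.hasDerivWithinAt.congr_of_eventuallyEq ?_ (e 0 le_rfl hr)
    have : Ico (0 : ℝ) r ∈ 𝓝[≥] (0 : ℝ) := Ico_mem_nhdsGE hr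
    filter_upwards [this] with t ht
    exact e t ht.1 ht.2
  exact (uniqueDiffWithinAt_Ici (0 : ℝ)).eq_deriv _ hg.hasDerivWithinAt h1

/-- (1) -/
lemma bf_eq (F : Fld L v a) {V : E → E} {f : E × E × E} (hf : f ∈ S.FB) (h : Ext S v V f.1) :
    ⟪fderiv ℝ V f.1 f.2.1, f.2.2⟫_ℝ = bf L v f := by
  have h2 : HasDerivAt (fun t => S.cj f t * jf v f + S.sj f t * bf L v f)
      (S.cj' f 0 * jf v f + S.sj' f 0 * bf L v f) 0 :=
    ((S.cj_deriv hf 0).mul_const _).add ((S.sj_deriv hf 0).mul_const _)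
  have h3 := right_unique L.r_pos (jf_deriv F hf h) h2 (fun t h0 h1 => Fld.jac F hf h0 h1)
  rw [h3, S.cj'_zero hf, S.sj'_zero hf]
  ring

/-- (2) -/
lemma D_struct (F : Fld L v a)
    (hiso : ∀ f ∈ S.FB, ∀ θ : ℝ, bf L v (RS.rot θ f) = bf L v f) {V : E → E} {f : E × E × E}
    (hf : f ∈ S.FB) (h : Ext S v V f.1) :
    ⟪fderiv ℝ V f.1 f.2.2, f.2.2⟫_ℝ = ⟪fderiv ℝ V f.1 f.2.1, f.2.1⟫_ℝ := by
  have key : ∀ θ : ℝ, ⟪fderiv ℝ V f.1 (Real.cos θ • f.2.1 + Real.sin θ • f.2.2),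
      -Real.sin θ • f.2.1 + Real.cos θ • f.2.2⟫_ℝ = bf L v f := by
    intro θ
    have := bf_eq F (S.rot_FB hf θ) (V := V) h
    rw [hiso f hf θ] at this
    exact this
  have k0 := key 0
  have k1 := key (Real.pi / 2)
  have k2 := key (Real.pi / 4)
  simp only [Real.cos_zero, Real.sin_zero, Real.cos_pi_div_two, Real.sin_pi_div_two,
    Real.cos_pi_div_four, Real.sin_pi_div_four] at k0 k1 k2
  simp only [map_add, map_smul, inner_add_left, inner_add_right, real_inner_smul_left,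
    real_inner_smul_right] at k0 k1 k2
  have hs : (√2 / 2) * (√2 / 2) = 1 / 2 := by
    have := Real.mul_self_sqrt (show (0:ℝ) ≤ 2 by norm_num)
    linarith
  set Dww := ⟪fderiv ℝ V f.1 f.2.1, f.2.1⟫_ℝ
  set Dwn := ⟪fderiv ℝ V f.1 f.2.1, f.2.2⟫_ℝ
  set Dnw := ⟪fderiv ℝ V f.1 f.2.2, f.2.1⟫_ℝ
  set Dnn := ⟪fderiv ℝ V f.1 f.2.2, f.2.2⟫_ℝ
  linear_combination 2 * k2 - k0 - k1 - 2 * (-Dww - Dnw + Dwn + Dnn) * hs

/-- derivative of the tangential component along the geodesic -/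
noncomputable def mdef (S : RS E) (v : E → E) (f : E × E × E) : ℝ :=
  deriv (fun t => ef v (S.Φ t f)) 0

lemma m_eq (F : Fld L v a) {V : E → E} {f : E × E × E} (hf : f ∈ S.FB) (h : Ext S v V f.1) :
    mdef S v f = ⟪fderiv ℝ V f.1 f.2.1, f.2.1⟫_ℝ := (ef_deriv F hf h).deriv

/-- equation from the normal displacement -/
lemma eq_n (F : Fld L v a)
    (hiso : ∀ f ∈ S.FB, ∀ θ : ℝ, bf L v (RS.rot θ f) = bf L v f) {V : E → E} {f : E × E × E}
    (hf : f ∈ S.FB) (h : Ext S v V f.1) :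
    ⟪fderiv ℝ (fderiv ℝ V) f.1 f.2.2 f.2.1 + fderiv ℝ V f.1 (S.B f.1 f.2.2 f.2.1), f.2.2⟫_ℝ +
      ⟪fderiv ℝ V f.1 f.2.1, S.B f.1 f.2.2 f.2.2⟫_ℝ = S.K f * ⟪v f.1, f.2.1⟫_ℝ := by
  have hq := S.quarter f hf
  have hn := S.nshift_deriv hf
  have p1 : HasDerivAt (fun τ => (S.nshift τ f).1) f.2.2 0 :=
    (ContinuousLinearMap.fst ℝ E (E × E)).hasFDerivAt.comp_hasDerivAt 0 hn
  have p2 : HasDerivAt (fun τ => (S.nshift τ f).2.1) (S.B f.1 f.2.2 f.2.1) 0 :=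
    ((ContinuousLinearMap.fst ℝ E E).comp
      (ContinuousLinearMap.snd ℝ E (E × E))).hasFDerivAt.comp_hasDerivAt 0 hn
  have p3 : HasDerivAt (fun τ => (S.nshift τ f).2.2) (S.B f.1 f.2.2 f.2.2) 0 :=
    ((ContinuousLinearMap.snd ℝ E E).comp
      (ContinuousLinearMap.snd ℝ E (E × E))).hasFDerivAt.comp_hasDerivAt 0 hn
  have d0 : HasFDerivAt (fderiv ℝ V) (fderiv ℝ (fderiv ℝ V) f.1) ((fun τ => (S.nshift τ f).1) 0) := by
    simp only [S.nshift_zero]; exact h.diff2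
  have d1 : HasDerivAt (fun τ => fderiv ℝ V (S.nshift τ f).1)
      (fderiv ℝ (fderiv ℝ V) f.1 f.2.2) 0 := d0.comp_hasDerivAt (0 : ℝ) p1
  have d2 : HasDerivAt (fun τ => ⟪fderiv ℝ V (S.nshift τ f).1 (S.nshift τ f).2.1,
      (S.nshift τ f).2.2⟫_ℝ) _ 0 := (d1.clm_apply p2).inner ℝ p3
  have e1 : HasDerivAt (fun τ => S.cj' (f.1, f.2.2, -f.2.1) τ * jf v (f.1, f.2.2, -f.2.1) +
      S.sj' (f.1, f.2.2, -f.2.1) τ * bf L v (f.1, f.2.2, -f.2.1)) _ 0 :=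
    ((S.cj'_deriv hq 0).mul_const _).add ((S.sj'_deriv hq 0).mul_const _)
  have htend : Tendsto (fun τ => (S.nshift τ f).1) (𝓝 0) (𝓝 f.1) := by
    have := p1.continuousAt.tendsto
    rwa [S.nshift_zero] at this
  obtain ⟨r', hr', hball⟩ := Metric.eventually_nhds_iff_ball.1 (htend.eventually h.ev)
  have e2 := right_unique (r := min r' L.r) (lt_min hr' L.r_pos) d2 e1 (fun t h0 h1 => by
    have hE : Ext S v V (S.nshift t f).1 := hball t (by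
      rw [mem_ball_zero_iff, Real.norm_eq_abs, abs_of_nonneg h0]
      exact h1.trans_le (min_le_left _ _))
    rw [bf_eq F (S.nshift_FB hf t) hE]
    have h2 := Fld.jac' F hq h0 (h1.trans_le (min_le_right _ _))
    rw [← h2]
    have h3 : S.nshift t f = RS.rot (-(Real.pi / 2)) (S.Φ t (f.1, f.2.2, -f.2.1)) := by
      unfold RS.nshift RS.rot
      simp
    rw [h3]
    exact hiso _ (S.Φ_FB hq t) _)
  simp only [S.nshift_zero, S.Φ_zero] at e2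
  rw [S.cj_zero hq, S.sj_zero] at e2
  have hK : S.K (f.1, f.2.2, -f.2.1) = S.K f := by
    have := S.K_rot (f := f) (Real.pi / 2)
    unfold RS.rot at this
    simpa using this
  rw [hK] at e2
  have hj : jf v (f.1, f.2.2, -f.2.1) = -⟪v f.1, f.2.1⟫_ℝ := by
    unfold jf; simp
  rw [hj] at e2
  linarith

/-- (4) -/
lemma m_deriv0 (F : Fld L v a)
    (hiso : ∀ f ∈ S.FB, ∀ θ : ℝ, bf L v (RS.rot θ f) = bf L v f) {V : E → E} {f : E × E × E}
    (hf : f ∈ S.FB) (h : Ext S v V f.1) :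
    HasDerivAt (fun t => mdef S v (S.Φ t f)) 0 0 := by
  have d0 : HasFDerivAt (fderiv ℝ V) (fderiv ℝ (fderiv ℝ V) f.1) ((fun t => (S.Φ t f).1) 0) := by
    simp only [S.Φ_zero]; exact h.diff2
  have d1 : HasDerivAt (fun t => fderiv ℝ V (S.Φ t f).1)
      (fderiv ℝ (fderiv ℝ V) f.1 f.2.1) 0 := d0.comp_hasDerivAt (0 : ℝ) (pos0 hf)
  have d2 : HasDerivAt (fun t => ⟪fderiv ℝ V (S.Φ t f).1 (S.Φ t f).2.2, (S.Φ t f).2.2⟫_ℝ) _ 0 :=
    (d1.clm_apply (nor0 hf)).inner ℝ (nor0 hf)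
  have d3 : HasDerivAt (fun t => mdef S v (S.Φ t f)) _ 0 := d2.congr_of_eventuallyEq (by
    filter_upwards [(tendsto_pos hf).eventually h.ev] with t ht
    rw [m_eq F (S.Φ_FB hf t) ht, ← D_struct F hiso (S.Φ_FB hf t) ht])
  refine d3.congr_deriv ?_
  simp only [S.Φ_zero]
  have k1 := eq_n F hiso hf h
  have hP1 : S.P f.1 (S.B f.1 f.2.2 f.2.2) = 0 := S.P_B hf.1 hf.2.2.1 hf.2.2.1
  have hP2 : S.P f.1 (S.B f.1 f.2.1 f.2.2) = 0 := S.P_B hf.1 hf.2.1 hf.2.2.1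
  have k2 := normal_part F hf h hP1
  have k3 : ⟪fderiv ℝ V f.1 f.2.2, S.B f.1 f.2.1 f.2.2⟫_ℝ =
      ⟪S.B f.1 f.2.2 (v f.1), S.B f.1 f.2.1 f.2.2⟫_ℝ :=
    normal_part F (S.quarter f hf) (V := V) h hP2
  have k4 := S.frame_expand hf (ξ := v f.1) (F.tv _ hf.1)
  have hsy := h.symm f.2.1 f.2.2
  have k5 : S.B f.1 f.2.1 (v f.1) = ⟪v f.1, f.2.1⟫_ℝ • S.B f.1 f.2.1 f.2.1 +
      ⟪v f.1, f.2.2⟫_ℝ • S.B f.1 f.2.1 f.2.2 := by
    conv_lhs => rw [k4]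
    rw [map_add, map_smul, map_smul]
  have k6 : S.B f.1 f.2.2 (v f.1) = ⟪v f.1, f.2.1⟫_ℝ • S.B f.1 f.2.1 f.2.2 +
      ⟪v f.1, f.2.2⟫_ℝ • S.B f.1 f.2.2 f.2.2 := by
    conv_lhs => rw [k4]
    rw [map_add, map_smul, map_smul, S.B_symm f.1 f.2.2 f.2.1]
  rw [k5, inner_add_left, real_inner_smul_left, real_inner_smul_left] at k2
  rw [k6, inner_add_left, real_inner_smul_left, real_inner_smul_left] at k3
  rw [S.B_symm f.1 f.2.2 f.2.1] at k1
  have hK : S.K f = ⟪S.B f.1 f.2.1 f.2.1, S.B f.1 f.2.2 f.2.2⟫_ℝ -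
    ⟪S.B f.1 f.2.1 f.2.2, S.B f.1 f.2.1 f.2.2⟫_ℝ := rfl
  rw [hsy]
  have hc : ⟪S.B f.1 f.2.2 f.2.2, S.B f.1 f.2.1 f.2.2⟫_ℝ =
    ⟪S.B f.1 f.2.1 f.2.2, S.B f.1 f.2.2 f.2.2⟫_ℝ := real_inner_comm _ _
  rw [hc] at k3
  rw [k3]
  rw [k2, hK] at k1
  linarith

/-- TASK K4b: smooth isotropic solutions are Killing fields. -/
theorem killing {S : RS E} {L : LE S} {v a : E → E} (F : Fld L v a)
    (hiso : ∀ f ∈ S.FB, ∀ θ : ℝ, bf L v (RS.rot θ f) = bf L v f)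
    (hsm : ∀ y0 ∈ S.S, ∃ V : E → E, ContDiffAt ℝ ∞ V y0 ∧ ∀ᶠ y in 𝓝 y0, y ∈ S.S → V y = v y) :
    ∀ f ∈ S.FB, ∀ t : ℝ, ⟪v (S.Φ t f).1, (S.Φ t f).2.1⟫_ℝ = ⟪v f.1, f.2.1⟫_ℝ := by
  intro f hf
  have hext : ∀ y ∈ S.S, ∃ V, Ext S v V y := by
    intro y hy
    obtain ⟨V, h1, h2⟩ := hsm y hy
    exact ⟨V, h1.of_le (WithTop.coe_le_coe.2 (le_top : (3:ℕ∞) ≤ ⊤)), h2⟩
  have hshift : ∀ (g : E × E × E → ℝ) (s A : ℝ),
      HasDerivAt (fun t => g (S.Φ t (S.Φ s f))) A 0 → HasDerivAt (fun t => g (S.Φ t f)) A s := by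
    intro g s A h
    have h1 : HasDerivAt (fun t : ℝ => t - s) 1 s := (hasDerivAt_id s).sub_const s
    have h2 : HasDerivAt (fun t => g (S.Φ t (S.Φ s f))) A ((fun t : ℝ => t - s) s) := by
      simpa using h
    have h3 := HasDerivAt.comp (h := fun t : ℝ => t - s)
      (h₂ := fun t => g (S.Φ t (S.Φ s f))) s h2 h1
    rw [mul_one] at h3
    refine h3.congr_of_eventuallyEq (Eventually.of_forall fun t => ?_)
    show g (S.Φ t f) = g (S.Φ (t - s) (S.Φ s f))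
    rw [← S.Φ_add, sub_add_cancel]
  have hm : ∀ s, mdef S v (S.Φ s f) = mdef S v f := by
    intro s
    have h1 : ∀ s, HasDerivAt (fun t => mdef S v (S.Φ t f)) 0 s := by
      intro s
      obtain ⟨V, hV⟩ := hext _ (S.Φ_FB hf s).1
      exact hshift (mdef S v) s 0 (m_deriv0 F hiso (S.Φ_FB hf s) hV)
    have h2 := is_const_of_deriv_eq_zero (f := fun t => mdef S v (S.Φ t f))
      (fun t => (h1 t).differentiableAt) (fun t => (h1 t).deriv) s 0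
    simp only [S.Φ_zero] at h2
    exact h2
  set μ := mdef S v f with hμ
  have he : ∀ s, HasDerivAt (fun t => ef v (S.Φ t f)) μ s := by
    intro s
    obtain ⟨V, hV⟩ := hext _ (S.Φ_FB hf s).1
    have h1 := ef_deriv F (S.Φ_FB hf s) hV
    rw [← m_eq F (S.Φ_FB hf s) hV, hm s] at h1
    exact hshift (ef v) s μ h1
  have hlin : ∀ t, ef v (S.Φ t f) = ef v f + μ * t := by
    intro t
    have h1 : ∀ s, HasDerivAt (fun t => ef v (S.Φ t f) - μ * t) 0 s := by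
      intro s
      have h2 : HasDerivAt (fun t : ℝ => μ * t) μ s := by
        simpa using (hasDerivAt_id s).const_mul μ
      have h3 := (he s).sub h2
      rw [sub_self] at h3
      exact h3
    have h2 := is_const_of_deriv_eq_zero (f := fun t => ef v (S.Φ t f) - μ * t)
      (fun t => (h1 t).differentiableAt) (fun t => (h1 t).deriv) t 0
    simp only [S.Φ_zero, mul_zero, sub_zero] at h2
    linarith
  obtain ⟨C, hC⟩ := F.bd
  have hbd : ∀ t, |ef v (S.Φ t f)| ≤ C := by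
    intro t
    have hF := S.Φ_FB hf t
    unfold ef
    have := abs_real_inner_le_norm (v (S.Φ t f).1) (S.Φ t f).2.1
    rw [hF.2.2.2.1, mul_one] at this
    exact this.trans (hC _ hF.1).1
  have hμ0 : μ = 0 := by
    by_contra hne
    have h1 := hbd 0
    have h2 := hbd ((2 * C + 1) / μ)
    rw [hlin] at h1 h2
    rw [mul_zero, add_zero] at h1
    rw [mul_div_cancel₀ _ hne] at h2
    rw [abs_le] at h1 h2
    linarith [h1.1, h1.2, h2.1, h2.2]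
  intro t
  have := hlin t
  rw [hμ0, zero_mul, add_zero] at this
  exact this

end Pool.Agent.H864R3.K4b
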