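import Mathlib

set_option autoImplicit false
set_option linter.unusedVariables false

open Set Metric Filter Topology
open scoped ContDiff InnerProductSpace

namespace Pool.Agent.H864R3

/-- `v` is a tangent vector of `S` at `x`: the velocity at time `0` of a smooth curve lying in `S` -/
def TanVec {E : Type} [NormedAddCommGroup E] [InnerProductSpace ℝ E] (S : Set E) (x v : E) : Prop :=
  ∃ c : ℝ → E, ContDiff ℝ ∞ c ∧ c 0 = x ∧ (∀ᶠ t in 𝓝 (0:ℝ), c t ∈ S) ∧ HasDerivAt c v 0

/-- `c` is, on the interval `I`, a unit speed geodesic of the surface `S` (with the induced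
metric): it lies in `S` and its acceleration is normal to `S`. -/
structure IsGeod {E : Type} [NormedAddCommGroup E] [InnerProductSpace ℝ E] (S : Set E)
    (c : ℝ → E) (I : Set ℝ) : Prop where
  smooth : ContDiff ℝ ∞ c
  mem : ∀ t ∈ I, c t ∈ S
  unit : ∀ t ∈ I, ‖deriv c t‖ = 1
  geod : ∀ t ∈ I, ∀ v, TanVec S (c t) v → ⟪deriv (deriv c) t, v⟫_ℝ = 0

/-- a stationary net in `S`: a finite graph with vertex set `V` and edge set `A` (loops and
multiple edges allowed), every edge mapped to a geodesic segment, valence at least three (loops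
count twice), and balance of the outgoing unit tangent vectors at every vertex -/
structure StatNet {E : Type} [NormedAddCommGroup E] [InnerProductSpace ℝ E] (S : Set E) where
  V : Type
  A : Type
  [fV : Fintype V]
  [fA : Fintype A]
  [dV : DecidableEq V]
  src : A → V
  tgt : A → V
  pos : V → E
  len : A → ℝ
  γ : A → ℝ → E
  len_pos : ∀ a, 0 < len a
  geod : ∀ a, IsGeod S (γ a) (Icc 0 (len a))
  start : ∀ a, γ a 0 = pos (src a)
  stop : ∀ a, γ a (len a) = pos (tgt a)
  valence : ∀ v, 3 ≤ (Finset.univ.filter fun a => src a = v).card +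
    (Finset.univ.filter fun a => tgt a = v).card
  balance : ∀ v, ∑ a ∈ Finset.univ.filter (fun a => src a = v), deriv (γ a) 0 +
    ∑ a ∈ Finset.univ.filter (fun a => tgt a = v), (- deriv (γ a) (len a)) = 0

/-- the image of a net: the union of its edges -/
def StatNet.image {E : Type} [NormedAddCommGroup E] [InnerProductSpace ℝ E] {S : Set E}
    (G : StatNet S) : Set E := ⋃ a, G.γ a '' Icc 0 (G.len a)

/-- `c` is a simple closed geodesic of `S` with period `T` -/
def IsSimpleClosedGeod {E : Type} [NormedAddCommGroup E] [InnerProductSpace ℝ E] (S : Set E)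
    (c : ℝ → E) (T : ℝ) : Prop :=
  0 < T ∧ IsGeod S c univ ∧ (∀ t, c (t + T) = c t) ∧ InjOn c (Ico 0 T)

/-- the image of the net is not a union of finitely many pairwise disjoint simple closed
geodesics -/
def StatNet.Nontrivial {E : Type} [NormedAddCommGroup E] [InnerProductSpace ℝ E] {S : Set E}
    (G : StatNet S) : Prop :=
  ¬ ∃ (k : ℕ) (c : Fin k → ℝ → E) (T : Fin k → ℝ), (∀ i, IsSimpleClosedGeod S (c i) (T i)) ∧
    (∀ i j, i ≠ j → Disjoint (range (c i)) (range (c j))) ∧ G.image = ⋃ i, range (c i)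

/-- compact regular surfaces of class `C^∞` in a Euclidean space (classical definition by local
parametrisations: `X` is an injective immersion of an open set of the plane whose inverse is
continuous and whose image is `S ∩ V`) -/
def IsSurface {n : ℕ} (S : Set (EuclideanSpace ℝ (Fin n))) : Prop :=
  ∀ p ∈ S, ∃ (V : Set (EuclideanSpace ℝ (Fin n))) (W : Set (EuclideanSpace ℝ (Fin 2)))
    (X : EuclideanSpace ℝ (Fin 2) → EuclideanSpace ℝ (Fin n))
    (Y : EuclideanSpace ℝ (Fin n) → EuclideanSpace ℝ (Fin 2)),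
    IsOpen V ∧ p ∈ V ∧ IsOpen W ∧ ContDiffOn ℝ ∞ X W ∧
    (∀ u ∈ W, Function.Injective (fderiv ℝ X u)) ∧ X '' W = S ∩ V ∧
    (∀ u ∈ W, Y (X u) = u) ∧ ContinuousOn Y (S ∩ V)

end Pool.Agent.H864R3
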