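import Pool.Agent.H864R3.Defs
import Pool.Agent.H864R3.NetDefs

set_option autoImplicit false
set_option linter.unusedVariables false
set_option linter.unusedSectionVars false

open Set Metric Filter Topology
open scoped ContDiff InnerProductSpace NNReal Manifold

namespace Pool.Agent.H864R3.T1

variable {E F : Type} [NormedAddCommGroup E] [InnerProductSpace ℝ E] [FiniteDimensional ℝ E]
  [NormedAddCommGroup F] [InnerProductSpace ℝ F] [FiniteDimensional ℝ F]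

/-- adjoint of the derivative of the parametrisation -/
noncomputable def ad (X : F → E) (u : F) : E →L[ℝ] F :=
  ContinuousLinearMap.adjoint (fderiv ℝ X u)

noncomputable def adE : (F →L[ℝ] E) →L[ℝ] (E →L[ℝ] F) :=
  ((ContinuousLinearMap.adjoint : (F →L[ℝ] E) ≃ₗᵢ⋆[ℝ] (E →L[ℝ] F)).toContinuousLinearEquiv :
    (F →L[ℝ] E) →L⋆[ℝ] (E →L[ℝ] F))

lemma adE_apply (A : F →L[ℝ] E) : adE A = ContinuousLinearMap.adjoint A := rfl

lemma fderiv_contDiffOn {X : F → E} {Wd : Set F} (hW : IsOpen Wd) (hX : ContDiffOn ℝ ∞ X Wd) :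
    ContDiffOn ℝ ∞ (fderiv ℝ X) Wd :=
  hX.fderiv_of_isOpen hW (by simp)

lemma ad_contDiffOn {X : F → E} {Wd : Set F} (hW : IsOpen Wd) (hX : ContDiffOn ℝ ∞ X Wd) :
    ContDiffOn ℝ ∞ (ad X) Wd := by
  have : ad X = fun u => adE (fderiv ℝ X u) := rfl
  rw [this]
  exact adE.contDiff.comp_contDiffOn (fderiv_contDiffOn hW hX)

/-- the defining function of the critical points of the distance -/
noncomputable def G (X : F → E) (q : E × F) : F := ad X q.2 (q.1 - X q.2)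

noncomputable def Psi (X : F → E) (q : E × F) : E × F := (q.1, G X q)

lemma Psi_contDiffOn {X : F → E} {Wd : Set F} (hW : IsOpen Wd) (hX : ContDiffOn ℝ ∞ X Wd) :
    ContDiffOn ℝ ∞ (Psi X) (univ ×ˢ Wd) := by
  have hm : MapsTo (fun q : E × F => q.2) (univ ×ˢ Wd) Wd := fun q hq => hq.2
  have h1 : ContDiffOn ℝ ∞ (fun q : E × F => ad X q.2) (univ ×ˢ Wd) :=
    (ad_contDiffOn hW hX).comp contDiff_snd.contDiffOn hm
  have h2 : ContDiffOn ℝ ∞ (fun q : E × F => q.1 - X q.2) (univ ×ˢ Wd) :=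
    contDiff_fst.contDiffOn.sub (hX.comp contDiff_snd.contDiffOn hm)
  exact contDiff_fst.contDiffOn.prodMk (h1.clm_apply h2)

/-- the derivative of `Psi` at a point of the surface -/
noncomputable def dPsi (A : F →L[ℝ] E) : E × F →L[ℝ] E × F :=
  (ContinuousLinearMap.fst ℝ E F).prod
    ((ContinuousLinearMap.adjoint A).comp
      (ContinuousLinearMap.fst ℝ E F - A.comp (ContinuousLinearMap.snd ℝ E F)))

lemma adA_inj {A : F →L[ℝ] E} (hA : Function.Injective A) {k : F}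
    (hk : ContinuousLinearMap.adjoint A (A k) = 0) : k = 0 := by
  have h1 : ⟪ContinuousLinearMap.adjoint A (A k), k⟫_ℝ = 0 := by rw [hk, inner_zero_left]
  rw [ContinuousLinearMap.adjoint_inner_left, inner_self_eq_zero] at h1
  exact hA (by rw [h1, map_zero])

lemma dPsi_inj {A : F →L[ℝ] E} (hA : Function.Injective A) : Function.Injective (dPsi A) := by
  rw [injective_iff_map_eq_zero]
  rintro ⟨h, k⟩ hq
  have h1 : h = 0 := congrArg Prod.fst hq
  have h2 : ContinuousLinearMap.adjoint A (h - A k) = 0 := congrArg Prod.snd hq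
  subst h1
  rw [zero_sub, map_neg, neg_eq_zero] at h2
  rw [adA_inj hA h2]
  rfl

/-- `dPsi A` as an equivalence -/
noncomputable def ePsi (A : F →L[ℝ] E) (hA : Function.Injective A) : (E × F) ≃L[ℝ] (E × F) :=
  (LinearEquiv.ofInjectiveEndo (dPsi A).toLinearMap (dPsi_inj hA)).toContinuousLinearEquiv

lemma ePsi_coe (A : F →L[ℝ] E) (hA : Function.Injective A) :
    ((ePsi A hA : (E × F) ≃L[ℝ] (E × F)) : E × F →L[ℝ] E × F) = dPsi A := by
  exact ContinuousLinearMap.ext fun q => rfl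

lemma hasFDerivAt_Psi {X : F → E} {Wd : Set F} (hW : IsOpen Wd) (hX : ContDiffOn ℝ ∞ X Wd)
    {u0 : F} (hu0 : u0 ∈ Wd) :
    HasFDerivAt (Psi X) (dPsi (fderiv ℝ X u0)) (X u0, u0) := by
  have hXd : HasFDerivAt X (fderiv ℝ X u0) u0 :=
    ((hX.contDiffAt (hW.mem_nhds hu0)).differentiableAt (by simp)).hasFDerivAt
  have had : DifferentiableAt ℝ (ad X) u0 :=
    ((ad_contDiffOn hW hX).contDiffAt (hW.mem_nhds hu0)).differentiableAt (by simp)
  have h1 : HasFDerivAt (fun q : E × F => ad X q.2)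
      ((fderiv ℝ (ad X) u0).comp (ContinuousLinearMap.snd ℝ E F)) (X u0, u0) :=
    HasFDerivAt.comp (X u0, u0) (g := ad X) (f := fun q : E × F => q.2)
      had.hasFDerivAt hasFDerivAt_snd
  have h2 : HasFDerivAt (fun q : E × F => q.1 - X q.2)
      (ContinuousLinearMap.fst ℝ E F -
        (fderiv ℝ X u0).comp (ContinuousLinearMap.snd ℝ E F)) (X u0, u0) :=
    HasFDerivAt.fun_sub hasFDerivAt_fst
      (HasFDerivAt.comp (X u0, u0) (g := X) (f := fun q : E × F => q.2) hXd hasFDerivAt_snd)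
  have h3 := h1.clm_apply h2
  have h4 := (hasFDerivAt_fst (𝕜 := ℝ) (E := E) (F := F) (p := (X u0, u0))).prodMk h3
  refine h4.congr_fderiv ?_
  ext q <;> simp [dPsi, ad]

lemma local_proj {X : F → E} {Wd : Set F} (hW : IsOpen Wd) (hX : ContDiffOn ℝ ∞ X Wd) {u0 : F}
    (hu0 : u0 ∈ Wd) (hinj : Function.Injective (fderiv ℝ X u0)) :
    ∃ (υ : E → F) (N : Set E) (T : Set (E × F)), IsOpen N ∧ X u0 ∈ N ∧ IsOpen T ∧
      (X u0, u0) ∈ T ∧ ContDiffOn ℝ ∞ υ N ∧ υ (X u0) = u0 ∧ (∀ y ∈ N, υ y ∈ Wd) ∧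
      (∀ y ∈ N, G X (y, υ y) = 0) ∧ (∀ q ∈ T, G X q = 0 → q.2 = υ q.1) := by
  have hop : IsOpen ((univ : Set E) ×ˢ Wd) := isOpen_univ.prod hW
  have hq0 : (X u0, u0) ∈ (univ : Set E) ×ˢ Wd := ⟨mem_univ _, hu0⟩
  have hPs := Psi_contDiffOn (E := E) hW hX
  have hPa : ContDiffAt ℝ ∞ (Psi X) (X u0, u0) := hPs.contDiffAt (hop.mem_nhds hq0)
  have hd : HasFDerivAt (Psi X)
      ((ePsi (fderiv ℝ X u0) hinj : (E × F) ≃L[ℝ] (E × F)) : E × F →L[ℝ] E × F) (X u0, u0) := by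
    rw [ePsi_coe]; exact hasFDerivAt_Psi hW hX hu0
  have hn0 : (∞ : WithTop ℕ∞) ≠ 0 := by simp
  set Θ := hPa.toOpenPartialHomeomorph (Psi X) hd hn0 with hΘ
  have hΘc : (Θ : E × F → E × F) = Psi X := rfl
  have hsrc : (X u0, u0) ∈ Θ.source := hPa.mem_toOpenPartialHomeomorph_source hd hn0
  have hcont : ContinuousOn (fderiv ℝ (Psi X)) ((univ : Set E) ×ˢ Wd) :=
    hPs.continuousOn_fderiv_of_isOpen hop (by simp)
  have hT1 : IsOpen (((univ : Set E) ×ˢ Wd) ∩ (fderiv ℝ (Psi X)) ⁻¹'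
      (range ((↑) : ((E × F) ≃L[ℝ] (E × F)) → E × F →L[ℝ] E × F))) :=
    hcont.isOpen_inter_preimage hop ContinuousLinearEquiv.isOpen
  set T := (((univ : Set E) ×ˢ Wd) ∩ (fderiv ℝ (Psi X)) ⁻¹'
      (range ((↑) : ((E × F) ≃L[ℝ] (E × F)) → E × F →L[ℝ] E × F))) ∩ Θ.source with hT
  have hTo : IsOpen T := hT1.inter Θ.open_source
  have hT0 : (X u0, u0) ∈ T := ⟨⟨hq0, ⟨ePsi (fderiv ℝ X u0) hinj, hd.fderiv.symm⟩⟩, hsrc⟩
  have hN1 : IsOpen (Θ.target ∩ Θ.symm ⁻¹' T) := Θ.symm.isOpen_inter_preimage hTo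
  set N : Set E := (fun y => ((y, (0 : F)) : E × F)) ⁻¹' (Θ.target ∩ Θ.symm ⁻¹' T) with hN
  have hNo : IsOpen N := hN1.preimage (continuous_id.prodMk continuous_const)
  have hG0 : G X (X u0, u0) = 0 := by simp [G]
  have hsym0 : Θ.symm (X u0, 0) = (X u0, u0) := by
    have h1 : Θ (X u0, u0) = (X u0, 0) := by
      rw [hΘc]
      simp only [Psi, hG0]
    rw [← h1, Θ.left_inv hsrc]
  have hN0 : X u0 ∈ N := by
    refine ⟨?_, ?_⟩
    · have h1 : Θ (X u0, u0) = (X u0, 0) := by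
        rw [hΘc]
        simp only [Psi, hG0]
      show (X u0, (0 : F)) ∈ Θ.target
      rw [← h1]
      exact Θ.map_source hsrc
    · show Θ.symm (X u0, 0) ∈ T
      rw [hsym0]
      exact hT0
  refine ⟨fun y => (Θ.symm (y, 0)).2, N, T, hNo, hN0, hTo, hT0, ?_, ?_, ?_, ?_, ?_⟩
  · intro y hy
    obtain ⟨hy1, hy2⟩ := hy
    obtain ⟨⟨hy3, ⟨e, he⟩⟩, hy4⟩ := hy2
    have h1 : ContDiffAt ℝ ∞ (Psi X) (Θ.symm (y, 0)) := hPs.contDiffAt (hop.mem_nhds hy3)
    have h2 : HasFDerivAt (Psi X) (e : E × F →L[ℝ] E × F) (Θ.symm (y, 0)) := by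
      rw [he]
      exact (h1.differentiableAt (by simp)).hasFDerivAt
    have h3 : ContDiffAt ℝ ∞ Θ.symm (y, 0) := Θ.contDiffAt_symm hy1 h2 h1
    have h4 : ContDiffAt ℝ ∞ (fun y : E => Θ.symm (y, 0)) y :=
      ContDiffAt.comp y (g := Θ.symm) (f := fun y : E => ((y, (0 : F)) : E × F)) h3
        (contDiffAt_id.prodMk contDiffAt_const)
    exact h4.snd.contDiffWithinAt
  · show (Θ.symm (X u0, 0)).2 = u0
    rw [hsym0]
  · intro y hy
    exact hy.2.1.1.2
  · intro y hy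
    have h1 : Θ (Θ.symm (y, 0)) = (y, 0) := Θ.right_inv hy.1
    rw [hΘc] at h1
    have h2 : (Θ.symm (y, 0)).1 = y := congrArg Prod.fst h1
    have h3 : G X (Θ.symm (y, 0)) = 0 := congrArg Prod.snd h1
    have h4 : Θ.symm (y, 0) = (y, (Θ.symm (y, 0)).2) := by
      ext1
      · exact h2
      · rfl
    rw [h4] at h3
    exact h3
  · intro q hq hG
    have h1 : Θ.symm (Θ q) = q := Θ.left_inv hq.2
    have h2 : Θ q = (q.1, 0) := by
      rw [hΘc]
      simp only [Psi, hG]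
    rw [h2] at h1
    show q.2 = (Θ.symm (q.1, 0)).2
    rw [h1]

lemma deriv_facts {X : F → E} {Wd : Set F} (hW : IsOpen Wd) (hX : ContDiffOn ℝ ∞ X Wd) {u0 : F}
    (hu0 : u0 ∈ Wd) (hinj : Function.Injective (fderiv ℝ X u0)) {υ : E → F} {N : Set E}
    (hN : IsOpen N) (hpN : X u0 ∈ N) (hυ : ContDiffOn ℝ ∞ υ N) (hυ0 : υ (X u0) = u0)
    (hG : ∀ y ∈ N, G X (y, υ y) = 0) :
    (∀ a b, ⟪fderiv ℝ (fun y => X (υ y)) (X u0) a, b⟫_ℝ =
      ⟪a, fderiv ℝ (fun y => X (υ y)) (X u0) b⟫_ℝ) ∧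
    Module.finrank ℝ (LinearMap.range (fderiv ℝ (fun y => X (υ y)) (X u0)).toLinearMap) =
      Module.finrank ℝ F := by
  set A := fderiv ℝ X u0 with hA
  have hXd : HasFDerivAt X A (υ (X u0)) := by
    rw [hυ0]
    exact ((hX.contDiffAt (hW.mem_nhds hu0)).differentiableAt (by simp)).hasFDerivAt
  have hυd : HasFDerivAt υ (fderiv ℝ υ (X u0)) (X u0) :=
    ((hυ.contDiffAt (hN.mem_nhds hpN)).differentiableAt (by simp)).hasFDerivAt
  set D := fderiv ℝ υ (X u0) with hD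
  have hcomp : HasFDerivAt (fun y => X (υ y)) (A.comp D) (X u0) := hXd.comp (X u0) hυd
  have had : DifferentiableAt ℝ (ad X) (υ (X u0)) := by
    rw [hυ0]
    exact ((ad_contDiffOn hW hX).contDiffAt (hW.mem_nhds hu0)).differentiableAt (by simp)
  have h1 : HasFDerivAt (fun y => ad X (υ y)) ((fderiv ℝ (ad X) (υ (X u0))).comp D) (X u0) :=
    had.hasFDerivAt.comp (X u0) hυd
  have h2 : HasFDerivAt (fun y => y - X (υ y)) (ContinuousLinearMap.id ℝ E - A.comp D) (X u0) :=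
    (hasFDerivAt_id (X u0)).fun_sub hcomp
  have h3 := h1.clm_apply h2
  have h4 : HasFDerivAt (fun y => G X (y, υ y)) (0 : E →L[ℝ] F) (X u0) := by
    refine (hasFDerivAt_const (0 : F) (X u0)).congr_of_eventuallyEq ?_
    filter_upwards [hN.mem_nhds hpN] with y hy
    exact hG y hy
  have h5 := h3.unique h4
  have h6 : ∀ h, ContinuousLinearMap.adjoint A (h - A (D h)) = 0 := by
    intro h
    have := congrArg (fun L : E →L[ℝ] F => L h) h5
    simp only [hυ0] at this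
    simpa [ad] using this
  rw [hcomp.fderiv]
  have h7 : ∀ a b, ⟪A (D a), b - A (D b)⟫_ℝ = 0 := by
    intro a b
    rw [← ContinuousLinearMap.adjoint_inner_right, h6, inner_zero_right]
  constructor
  · intro a b
    have e1 := h7 a b
    have e2 := h7 b a
    rw [inner_sub_right] at e1 e2
    have e3 : ⟪A (D b), A (D a)⟫_ℝ = ⟪A (D a), A (D b)⟫_ℝ := real_inner_comm _ _
    show ⟪A (D a), b⟫_ℝ = ⟪a, A (D b)⟫_ℝ
    rw [real_inner_comm (A (D b)) a]
    linarith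
  · have hr : LinearMap.range (A.comp D).toLinearMap = LinearMap.range A.toLinearMap := by
      apply le_antisymm
      · rintro _ ⟨x, rfl⟩
        exact ⟨D x, rfl⟩
      · rintro _ ⟨k, rfl⟩
        refine ⟨A k, ?_⟩
        show A (D (A k)) = A k
        have e1 := h6 (A k)
        rw [← map_sub] at e1
        have e2 := adA_inj hinj e1
        rw [sub_eq_zero] at e2
        rw [← e2]
    rw [hr]
    exact LinearMap.finrank_range_of_inj hinj

/-- at a nearest point the defining function vanishes -/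
lemma G_min {X : F → E} {Wd : Set F} (hW : IsOpen Wd) (hX : ContDiffOn ℝ ∞ X Wd) {u : F}
    (hu : u ∈ Wd) {y : E} (hmin : ∀ v ∈ Wd, ‖y - X u‖ ≤ ‖y - X v‖) : G X (y, u) = 0 := by
  have hXd : HasFDerivAt X (fderiv ℝ X u) u :=
    ((hX.contDiffAt (hW.mem_nhds hu)).differentiableAt (by simp)).hasFDerivAt
  have h2 : HasFDerivAt (fun v => y - X v) (-fderiv ℝ X u) u := hXd.const_sub y
  have h3 := h2.norm_sq
  have hloc : IsLocalMin (fun v => ‖y - X v‖ ^ 2) u := by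
    filter_upwards [hW.mem_nhds hu] with v hv
    exact pow_le_pow_left₀ (norm_nonneg _) (hmin v hv) 2
  have h4 := hloc.hasFDerivAt_eq_zero h3
  have h5 : ∀ k, ⟪y - X u, fderiv ℝ X u k⟫_ℝ = 0 := by
    intro k
    have := congrArg (fun L : F →L[ℝ] ℝ => L k) h4
    simp at this
    rw [inner_sub_left]
    linarith
  have h6 : ⟪G X (y, u), G X (y, u)⟫_ℝ = 0 := by
    have : G X (y, u) = ContinuousLinearMap.adjoint (fderiv ℝ X u) (y - X u) := rfl
    rw [this, ContinuousLinearMap.adjoint_inner_left]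
    exact h5 _
  exact inner_self_eq_zero.mp h6

/-- the local statement -/
lemma loc {n : ℕ} {S : Set (EuclideanSpace ℝ (Fin n))} (hS : IsSurface S)
    {p : EuclideanSpace ℝ (Fin n)} (hp : p ∈ S) :
    ∃ (ψ : EuclideanSpace ℝ (Fin n) → EuclideanSpace ℝ (Fin n))
      (N : Set (EuclideanSpace ℝ (Fin n))), IsOpen N ∧ p ∈ N ∧ ContDiffOn ℝ ∞ ψ N ∧
      (∀ y ∈ N, ∀ q ∈ S, (∀ s ∈ S, ‖y - q‖ ≤ ‖y - s‖) → q = ψ y) ∧
      (∀ a b, ⟪fderiv ℝ ψ p a, b⟫_ℝ = ⟪a, fderiv ℝ ψ p b⟫_ℝ) ∧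
      Module.finrank ℝ (LinearMap.range (fderiv ℝ ψ p).toLinearMap) = 2 := by
  obtain ⟨V, Wd, X, Y, hV, hpV, hW, hX, hinj, himg, hYX, hYc⟩ := hS p hp
  have hp1 : p ∈ X '' Wd := by rw [himg]; exact ⟨hp, hpV⟩
  obtain ⟨u0, hu0, rfl⟩ := hp1
  obtain ⟨υ, N, T, hN, hpN, hT, hpT, hυ, hυ0, hυW, hG, huniq⟩ :=
    local_proj hW hX hu0 (hinj u0 hu0)
  obtain ⟨hsym, hrank⟩ := deriv_facts hW hX hu0 (hinj u0 hu0) hN hpN hυ hυ0 hG
  -- the neighbourhood where nearest points are covered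
  have hYt : Tendsto Y (𝓝[S ∩ V] (X u0)) (𝓝 u0) := by
    have := hYc (X u0) ⟨hp, hpV⟩
    unfold ContinuousWithinAt at this
    rwa [hYX u0 hu0] at this
  have h1 : ∀ᶠ q : EuclideanSpace ℝ (Fin n) × EuclideanSpace ℝ (Fin n) in
      𝓝 (X u0) ×ˢ 𝓝[S ∩ V] (X u0), (q.1, Y q.2) ∈ T := by
    have : Tendsto (fun q : EuclideanSpace ℝ (Fin n) × EuclideanSpace ℝ (Fin n) => (q.1, Y q.2))
        (𝓝 (X u0) ×ˢ 𝓝[S ∩ V] (X u0)) (𝓝 (X u0, u0)) := by
      rw [nhds_prod_eq]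
      exact tendsto_id.prodMap hYt
    exact this (hT.mem_nhds hpT)
  rw [eventually_prod_iff] at h1
  obtain ⟨pa, hpa, pb, hpb, hab⟩ := h1
  have h2 : ∀ᶠ q in 𝓝 (X u0), q ∈ V ∧ (q ∈ S ∩ V → pb q) :=
    (hV.eventually_mem hpV).and (eventually_nhdsWithin_iff.mp hpb)
  obtain ⟨δ, hδ, hδ2⟩ := Metric.eventually_nhds_iff.mp (h2.and hpa)
  refine ⟨fun y => X (υ y), N ∩ ball (X u0) (δ / 2), hN.inter isOpen_ball,
    ⟨hpN, mem_ball_self (by positivity)⟩, ?_, ?_, hsym, ?_⟩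
  · have : ContDiffOn ℝ ∞ (fun y => X (υ y)) N := hX.comp hυ hυW
    exact this.mono inter_subset_left
  · rintro y ⟨hy, hyb⟩ q hq hmin
    rw [mem_ball, dist_eq_norm] at hyb
    have h3 : ‖y - q‖ < δ / 2 := (hmin (X u0) hp).trans_lt hyb
    have h4 : dist q (X u0) < δ := by
      rw [dist_eq_norm]
      calc ‖q - X u0‖ = ‖(y - X u0) - (y - q)‖ := by congr 1; abel
        _ ≤ ‖y - X u0‖ + ‖y - q‖ := norm_sub_le _ _
        _ < δ := by linarith
    have h5 : dist y (X u0) < δ := by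
      rw [dist_eq_norm]; linarith
    obtain ⟨⟨hqV, hqpb⟩, -⟩ := hδ2 h4
    obtain ⟨-, hypa⟩ := hδ2 h5
    have hTq : (y, Y q) ∈ T := hab hypa (hqpb ⟨hq, hqV⟩)
    have hq1 : q ∈ X '' Wd := by rw [himg]; exact ⟨hq, hqV⟩
    obtain ⟨u, hu, rfl⟩ := hq1
    rw [hYX u hu] at hTq
    have hGu : G X (y, u) = 0 := G_min hW hX hu (fun v hv => hmin _ (by
      have : X v ∈ X '' Wd := ⟨v, hv, rfl⟩
      rw [himg] at this
      exact this.1))
    have := huniq (y, u) hTq hGu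
    simp only at this
    show X u = X (υ y)
    rw [← this]
  · rw [hrank]
    simp

/-- TASK T1 (tubular neighbourhood / nearest point retraction). -/
theorem tube {n : ℕ} (S : Set (EuclideanSpace ℝ (Fin n))) (hc : IsCompact S) (hS : IsSurface S) :
    ∃ R : RS (EuclideanSpace ℝ (Fin n)), R.S = S := by
  classical
  rcases S.eq_empty_or_nonempty with rfl | hne
  · refine ⟨⟨∅, ∅, id, isCompact_empty, isOpen_empty, subset_rfl, contDiff_id, ?_, ?_, ?_, ?_⟩,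
      rfl⟩ <;> simp
  -- nearest points
  have hnear : ∀ y : EuclideanSpace ℝ (Fin n), ∃ q ∈ S, ∀ s ∈ S, ‖y - q‖ ≤ ‖y - s‖ := by
    intro y
    obtain ⟨q, hq, hmin⟩ := hc.exists_isMinOn hne
      (f := fun s => ‖y - s‖) (by fun_prop)
    exact ⟨q, hq, fun s hs => hmin hs⟩
  choose np hnpS hnpmin using hnear
  choose! ψ N hN hpN hψ hψn hsym hrank using fun (p : EuclideanSpace ℝ (Fin n)) (hp : p ∈ S) =>
    loc hS hp
  have hnpψ : ∀ p ∈ S, ∀ y ∈ N p, np y = ψ p y := fun p hp y hy =>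
    hψn p hp y hy (np y) (hnpS y) (hnpmin y)
  have hV0 : IsOpen (⋃ p ∈ S, N p) := isOpen_biUnion fun p hp => hN p hp
  have hSV0 : S ⊆ ⋃ p ∈ S, N p := fun p hp => mem_biUnion hp (hpN p hp)
  have hnp : ∀ y ∈ ⋃ p ∈ S, N p, ContDiffAt ℝ ∞ np y := by
    intro y hy
    rw [mem_iUnion₂] at hy
    obtain ⟨p, hp, hy⟩ := hy
    refine ((hψ p hp).contDiffAt ((hN p hp).mem_nhds hy)).congr_of_eventuallyEq ?_
    filter_upwards [(hN p hp).mem_nhds hy] with z hz
    exact hnpψ p hp z hz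
  obtain ⟨K, hK, hSK, hKV⟩ := exists_compact_between hc hV0 hSV0
  obtain ⟨χ, c1, c2, c3⟩ := exists_contMDiffMap_one_nhds_of_subset_interior
    (I := 𝓘(ℝ, EuclideanSpace ℝ (Fin n))) (n := ⊤) hc.isClosed hSK
  have hχs : ContDiff ℝ ∞ χ := χ.contMDiff.contDiff
  have hts : tsupport χ ⊆ K := by
    apply closure_minimal _ hK.isClosed
    intro w hw
    by_contra hn
    exact hw (c2 w hn)
  have hone : ∀ x ∈ S, ∀ᶠ y in 𝓝 x, χ y = 1 := mem_nhdsSet_iff_forall.1 c1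
  let π : EuclideanSpace ℝ (Fin n) → EuclideanSpace ℝ (Fin n) := fun y => χ y • np y
  have hπs : ContDiff ℝ ∞ π := by
    rw [contDiff_iff_contDiffAt]
    intro y
    by_cases hy : y ∈ ⋃ p ∈ S, N p
    · exact hχs.contDiffAt.smul (hnp y hy)
    · have hy2 : y ∉ tsupport χ := fun h => hy (hKV (hts h))
      have h1 : ∀ᶠ z in 𝓝 y, χ z = 0 := by
        have := (isClosed_tsupport χ).isOpen_compl.mem_nhds hy2
        filter_upwards [this] with z hz
        exact image_eq_zero_of_notMem_tsupport hz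
      refine (contDiffAt_const (c := (0 : EuclideanSpace ℝ (Fin n)))).congr_of_eventuallyEq ?_
      filter_upwards [h1] with z hz
      simp only [π, hz, zero_smul]
  have hπev : ∀ x ∈ S, π =ᶠ[𝓝 x] ψ x := by
    intro x hx
    filter_upwards [hone x hx, (hN x hx).mem_nhds (hpN x hx)] with y hy hy2
    simp only [π, hy, one_smul]
    exact hnpψ x hx y hy2
  refine ⟨⟨S, interior {y | χ y = 1}, π, hc, isOpen_interior, ?_, hπs, ?_, ?_, ?_, ?_⟩, rfl⟩
  · intro x hx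
    exact mem_interior_iff_mem_nhds.mpr (hone x hx)
  · intro y hy
    have hy' : y ∈ {y | χ y = 1} := interior_subset (s := {y | χ y = 1}) hy
    have h1 : χ y = 1 := hy'
    simp only [π, h1, one_smul]
    exact hnpS y
  · intro x hx
    have h1 : χ x = 1 := (hone x hx).self_of_nhds
    simp only [π, h1, one_smul]
    have h2 := hnpmin x x hx
    rw [sub_self, norm_zero] at h2
    have h3 : x - np x = 0 := norm_le_zero_iff.mp h2
    exact (sub_eq_zero.mp h3).symm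
  · intro x hx a b
    rw [(hπev x hx).fderiv_eq]
    exact hsym x hx a b
  · intro x hx
    rw [(hπev x hx).fderiv_eq]
    exact hrank x hx

end Pool.Agent.H864R3.T1
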