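import Mathlib

set_option autoImplicit false

open Filter Topology

namespace Pool.Agent.H864R3.T2

/-- TASK T2 (linear algebra: stresses with the smallest kernel are dense). -/
theorem stress_perturb {T F : Type} [AddCommGroup T] [Module ℝ T]
    [FiniteDimensional ℝ T] [NormedAddCommGroup F] [NormedSpace ℝ F]
    (b : F →ₗ[ℝ] (T →ₗ[ℝ] T →ₗ[ℝ] ℝ)) (hsym : ∀ s x y, b s x y = b s y x) (K : Submodule ℝ T)
    (hK : ∀ s, ∀ x ∈ K, ∀ y, b s x y = 0) (hsep : ∀ v, v ∉ K → ∃ s, b s v v ≠ 0) (s0 : F) (ε : ℝ)
    (hε : 0 < ε) : ∃ s, ‖s - s0‖ < ε ∧ ∀ x, (∀ y, b s x y = 0) → x ∈ K := by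
  classical
  let e := (Module.finBasis ℝ (T →ₗ[ℝ] ℝ)).equivFun
  let β : F → (T →ₗ[ℝ] (Fin (Module.finrank ℝ (T →ₗ[ℝ] ℝ)) → ℝ)) := fun s => e.toLinearMap ∘ₗ b s
  have hβ : ∀ s x, β s x = e (b s x) := fun _ _ => rfl
  let m : F → ℕ := fun s => Module.finrank ℝ T - Module.finrank ℝ (LinearMap.range (β s))
  have hne : (Metric.ball s0 ε).Nonempty := ⟨s0, Metric.mem_ball_self hε⟩
  let s : F := Function.argminOn m (Metric.ball s0 ε) hne
  have hs : s ∈ Metric.ball s0 ε := Function.argminOn_mem m (Metric.ball s0 ε) hne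
  have hmin : ∀ s' ∈ Metric.ball s0 ε, m s ≤ m s' := fun s' hs' =>
    Function.argminOn_le m (Metric.ball s0 ε) hs'
  refine ⟨s, by simpa [Metric.mem_ball, dist_eq_norm] using hs, ?_⟩
  intro v hv
  by_contra hvK
  obtain ⟨s1, hγ⟩ := hsep v hvK
  -- basis of the range
  set r := Module.finrank ℝ (LinearMap.range (β s)) with hr
  let B := Module.finBasis ℝ (LinearMap.range (β s))
  have hWm : ∀ i, ∃ y, β s y = (B i : Fin (Module.finrank ℝ (T →ₗ[ℝ] ℝ)) → ℝ) :=
    fun i => LinearMap.mem_range.1 (B i).2
  choose w hw using hWm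
  -- the family
  let u : ℝ → (Option (Fin r)) → (Fin (Module.finrank ℝ (T →ₗ[ℝ] ℝ)) → ℝ) := fun t o =>
    match o with
    | some i => β (s + t • s1) (w i)
    | none => β s1 v
  have hu0s : ∀ i, u 0 (some i) = B i := by
    intro i
    simp [u, hw i]
  have hu0 : LinearIndependent ℝ (u 0) := by
    rw [Fintype.linearIndependent_iff]
    intro g hg
    rw [Fintype.sum_option] at hg
    have hgn : g none = 0 := by
      have h0 : g none • b s1 v + ∑ i, g (some i) • b s (w i) = 0 := by
        apply e.injective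
        rw [map_add, map_smul, map_sum, map_zero]
        simp only [map_smul]
        simpa [u, hβ] using hg
      have h1 := congrArg (fun φ : T →ₗ[ℝ] ℝ => φ v) h0
      simp only [LinearMap.add_apply, LinearMap.smul_apply, LinearMap.sum_apply,
        LinearMap.zero_apply, smul_eq_mul] at h1
      have h2 : ∀ i, b s (w i) v = 0 := by
        intro i
        rw [hsym, hv]
      simp only [h2, mul_zero, Finset.sum_const_zero, add_zero] at h1
      rcases mul_eq_zero.1 h1 with h | h
      · exact h
      · exact absurd h hγ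
    have hli := B.linearIndependent
    rw [Fintype.linearIndependent_iff] at hli
    have hgs := hli (fun i => g (some i)) (by
      apply Subtype.ext
      rw [hgn, zero_smul, zero_add] at hg
      simp only [hu0s] at hg
      simpa using hg)
    intro o
    cases o with
    | none => exact hgn
    | some i => exact hgs i
  -- openness
  have hopen : IsOpen {f : Option (Fin r) → (Fin (Module.finrank ℝ (T →ₗ[ℝ] ℝ)) → ℝ) |
      LinearIndependent ℝ f} := isOpen_setOfPred_linearIndependent
  have hcont : Continuous u := by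
    apply continuous_pi
    intro o
    cases o with
    | none =>
      have : (fun t => u t none) = fun _ => β s1 v := rfl
      rw [this]
      exact continuous_const
    | some i =>
      have : (fun t => u t (some i)) = fun t => e (b s (w i)) + t • e (b s1 (w i)) := by
        funext t
        simp [u, hβ]
      rw [this]
      fun_prop
  have hev : ∀ᶠ t in 𝓝 (0 : ℝ), LinearIndependent ℝ (u t) :=
    hcont.continuousAt.eventually (hopen.mem_nhds hu0)
  have hball : ∀ᶠ t in 𝓝 (0 : ℝ), s + t • s1 ∈ Metric.ball s0 ε := by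
    have hc : Continuous fun t : ℝ => s + t • s1 := by fun_prop
    have : (fun t : ℝ => s + t • s1) 0 ∈ Metric.ball s0 ε := by simpa using hs
    exact hc.continuousAt.eventually (Metric.isOpen_ball.mem_nhds this)
  have hne0 : ∃ᶠ t in 𝓝 (0 : ℝ), t ≠ 0 := by
    have h1 : ∀ᶠ t in 𝓝[≠] (0 : ℝ), t ≠ 0 := eventually_mem_nhdsWithin
    exact h1.frequently.filter_mono nhdsWithin_le_nhds
  obtain ⟨t, ht0, hut, htb⟩ := (hne0.and_eventually (hev.and hball)).exists
  -- independent vectors in the range of b (s + t s1)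
  have hbv : b s v = 0 := by
    ext y
    simpa using hv y
  have hmem : ∀ o, u t o ∈ LinearMap.range (β (s + t • s1)) := by
    intro o
    cases o with
    | some i => exact LinearMap.mem_range_self _ _
    | none =>
      refine ⟨t⁻¹ • v, ?_⟩
      change β (s + t • s1) (t⁻¹ • v) = β s1 v
      simp only [hβ, map_smul, map_add, LinearMap.add_apply, LinearMap.smul_apply, hbv, zero_add,
        smul_smul, inv_mul_cancel₀ ht0, one_smul]
  let u' : Option (Fin r) → LinearMap.range (β (s + t • s1)) := fun o => ⟨u t o, hmem o⟩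
  have hu' : LinearIndependent ℝ u' := by
    apply LinearIndependent.of_comp (LinearMap.range (β (s + t • s1))).subtype
    exact hut
  have hcard := hu'.fintype_card_le_finrank
  rw [Fintype.card_option, Fintype.card_fin] at hcard
  have h5 := hmin _ htb
  have h6 : Module.finrank ℝ (LinearMap.range (β (s + t • s1))) ≤ Module.finrank ℝ T :=
    LinearMap.finrank_range_le _
  simp only [m] at h5
  rw [← hr] at h5
  omega

/-- TASK T2b (duality). -/
theorem duality {A : Type} [AddCommGroup A] [Module ℝ A] {n : Type} [Fintype n]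
    (R : A →ₗ[ℝ] (n → ℝ)) (g : n → ℝ)
    (h : ∀ s : n → ℝ, (∀ a, ∑ e, s e * R a e = 0) → ∑ e, s e * g e = 0) : ∃ a, R a = g := by
  classical
  by_contra hg
  have hg' : g ∉ LinearMap.range R := fun h' => hg (LinearMap.mem_range.1 h')
  obtain ⟨φ, hφg, hφ⟩ := Submodule.exists_le_ker_of_notMem hg'
  have hrep : ∀ x : n → ℝ, φ x = ∑ e, φ (Pi.single e 1) * x e := by
    intro x
    have hx : x = ∑ e, x e • (Pi.single e 1 : n → ℝ) := by
      funext j
      simp [Finset.sum_apply, Pi.single_apply]
    conv_lhs => rw [hx]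
    rw [map_sum]
    exact Finset.sum_congr rfl fun e _ => by rw [map_smul, smul_eq_mul, mul_comm]
  apply hφg
  rw [hrep]
  apply h
  intro a
  rw [← hrep]
  exact LinearMap.mem_ker.1 (hφ (LinearMap.mem_range_self R a))

end Pool.Agent.H864R3.T2
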