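import Pool.Agent.H864R3.Defs

set_option autoImplicit false
set_option linter.unusedVariables false
set_option linter.unusedSectionVars false

open Set Metric Filter Topology
open scoped ContDiff InnerProductSpace NNReal

namespace Pool.Agent.H864R3.T3

/-- inverse function theorem along a compact set on which the map is injective -/
lemma inv_on {F : Type} [NormedAddCommGroup F] [NormedSpace ℝ F] [FiniteDimensional ℝ F]
    (Ξ : F → F) (hΞ : ContDiff ℝ ∞ Ξ) (K : Set F) (hK : IsCompact K) (inj : InjOn Ξ K)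
    (hinv : ∀ q ∈ K, ∀ v, fderiv ℝ Ξ q v = 0 → v = 0) (N : Set F) (hN : IsOpen N)
    (hKN : K ⊆ N) : ∃ T ⊆ N, IsOpen T ∧ K ⊆ T ∧ InjOn Ξ T ∧ IsOpen (Ξ '' T) ∧
      ∃ g : F → F, (∀ q ∈ T, g (Ξ q) = q) ∧ ContDiffOn ℝ ∞ g (Ξ '' T) := by
  have hcomp : CompleteSpace F := FiniteDimensional.complete ℝ F
  have hd : ∀ q, HasFDerivAt Ξ (fderiv ℝ Ξ q) q := fun q =>
    (hΞ.differentiable (by simp) q).hasFDerivAt
  -- units
  have hfc : Continuous (fderiv ℝ Ξ) := hΞ.continuous_fderiv (by simp)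
  have hUo : IsOpen {q : F | IsUnit (fderiv ℝ Ξ q)} := Units.isOpen.preimage hfc
  have hequiv : ∀ q, IsUnit (fderiv ℝ Ξ q) → ∃ e : F ≃L[ℝ] F, (e : F →L[ℝ] F) = fderiv ℝ Ξ q := by
    intro q hq
    obtain ⟨u, hu⟩ := hq
    exact ⟨ContinuousLinearEquiv.unitsEquiv ℝ F u, by rw [← hu]; rfl⟩
  have hKU : K ⊆ {q : F | IsUnit (fderiv ℝ Ξ q)} := by
    intro q hq
    have hi : Function.Injective (fderiv ℝ Ξ q).toLinearMap := by
      rw [← LinearMap.ker_eq_bot, LinearMap.ker_eq_bot']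
      exact fun v hv => hinv q hq v hv
    let e : F ≃L[ℝ] F := (LinearEquiv.ofInjectiveEndo _ hi).toContinuousLinearEquiv
    have he : (e : F →L[ℝ] F) = fderiv ℝ Ξ q := by
      ext v; rfl
    show IsUnit (fderiv ℝ Ξ q)
    rw [← he]
    exact ⟨(ContinuousLinearEquiv.unitsEquiv ℝ F).symm e, rfl⟩
  have hcd : ∀ q, ContDiffAt ℝ ∞ Ξ q := fun q => hΞ.contDiffAt
  have hn : (∞ : WithTop ℕ∞) ≠ 0 := by simp
  -- local injectivity
  obtain ⟨t, hto, hKt, hti⟩ := inj.exists_isOpen_superset hK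
    (fun q _ => hΞ.continuous.continuousAt) (by
      intro q hq
      obtain ⟨e, he⟩ := hequiv q (hKU hq)
      have hd' : HasFDerivAt Ξ (e : F →L[ℝ] F) q := by rw [he]; exact hd q
      refine ⟨((hcd q).toOpenPartialHomeomorph Ξ hd' hn).source,
        ((hcd q).toOpenPartialHomeomorph Ξ hd' hn).open_source.mem_nhds
          ((hcd q).mem_toOpenPartialHomeomorph_source hd' hn), ?_⟩
      exact ((hcd q).toOpenPartialHomeomorph Ξ hd' hn).injOn)
  refine ⟨t ∩ {q : F | IsUnit (fderiv ℝ Ξ q)} ∩ N, inter_subset_right,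
    (hto.inter hUo).inter hN, fun q hq => ⟨⟨hKt hq, hKU hq⟩, hKN hq⟩,
    hti.mono (fun q hq => hq.1.1), ?_, ?_⟩
  · rw [isOpen_iff_mem_nhds]
    rintro _ ⟨q, hq, rfl⟩
    obtain ⟨e, he⟩ := hequiv q hq.1.2
    have hd' : HasFDerivAt Ξ (e : F →L[ℝ] F) q := by rw [he]; exact hd q
    have hs := (hcd q).hasStrictFDerivAt' hd' hn
    have h1 := hs.map_nhds_eq_of_equiv
    rw [← h1]
    exact image_mem_map (((hto.inter hUo).inter hN).mem_nhds hq)
  · set T := t ∩ {q : F | IsUnit (fderiv ℝ Ξ q)} ∩ N with hT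
    have hTo : IsOpen T := (hto.inter hUo).inter hN
    have hTi : InjOn Ξ T := hti.mono (fun q hq => hq.1.1)
    have hg : ∀ q ∈ T, Function.invFunOn Ξ T (Ξ q) = q := fun q hq =>
      hTi.leftInvOn_invFunOn hq
    refine ⟨Function.invFunOn Ξ T, hg, ?_⟩
    rintro _ ⟨q, hq, rfl⟩
    obtain ⟨e, he⟩ := hequiv q hq.1.2
    have hd' : HasFDerivAt Ξ (e : F →L[ℝ] F) q := by rw [he]; exact hd q
    have h2 := (hcd q).to_localInverse hd' hn
    have h3 := ((hcd q).hasStrictFDerivAt' hd' hn).localInverse_unique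
      (g := Function.invFunOn Ξ T) (by
        filter_upwards [hTo.mem_nhds hq] with x hx using hg x hx)
    exact (h2.congr_of_eventuallyEq h3).contDiffWithinAt

variable {E : Type} [NormedAddCommGroup E] [InnerProductSpace ℝ E] [FiniteDimensional ℝ E]

/-- exponential map -/
noncomputable def Ex (S : RS E) (q : E × E) : E := (S.Φ 1 (q.1, q.2, 0)).1

/-- extension to a map defined on the whole space -/
noncomputable def G (S : RS E) (q : E × E) : E :=
  Ex S (S.π q.1, S.P (S.π q.1) q.2) + q.2 - S.P (S.π q.1) q.2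

noncomputable def Xi (S : RS E) (q : E × E) : E × E := (q.1, G S q)

lemma Ex_smooth (S : RS E) : ContDiff ℝ ∞ (Ex S) := by
  unfold Ex
  have h1 : ContDiff ℝ ∞ (fun q : E × E => ((1 : ℝ), ((q.1, q.2, (0 : E)) : E × E × E))) :=
    contDiff_const.prodMk (contDiff_fst.prodMk (contDiff_snd.prodMk contDiff_const))
  exact contDiff_fst.comp (S.Φ_smooth.comp h1)

lemma G_smooth (S : RS E) : ContDiff ℝ ∞ (G S) := by
  unfold G
  have h0 : ContDiff ℝ ∞ (fun q : E × E => S.π q.1) := S.smooth.comp contDiff_fst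
  have h1 : ContDiff ℝ ∞ (fun q : E × E => S.P (S.π q.1)) := S.P_smooth.comp h0
  have h2 : ContDiff ℝ ∞ (fun q : E × E => S.P (S.π q.1) q.2) := h1.clm_apply contDiff_snd
  have h3 : ContDiff ℝ ∞ (fun q : E × E => Ex S (S.π q.1, S.P (S.π q.1) q.2)) :=
    (Ex_smooth S).comp (h0.prodMk h2)
  exact (h3.add contDiff_snd).sub h2

lemma Xi_smooth (S : RS E) : ContDiff ℝ ∞ (Xi S) := contDiff_fst.prodMk (G_smooth S)

lemma G_eq {S : RS E} {x : E} (hx : x ∈ S.S) (w : E) :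
    G S (x, w) = Ex S (x, S.P x w) + w - S.P x w := by
  unfold G
  simp only [S.hπS x hx]

lemma Ex_scale {S : RS E} {x v : E} (hx : x ∈ S.S) (hv : S.P x v = v) (hv2 : ‖v‖ ≤ 2) {τ : ℝ}
    (hτ : |τ| ≤ 1) : Ex S (x, τ • v) = (S.Φ τ (x, v, 0)).1 := by
  have hM : ((x, v, 0) : E × E × E) ∈ S.M 2 := ⟨hx, hv, by simp, hv2, by simp⟩
  have := S.Φ_scale hM (l := τ) (m := 0) hτ (by simp) 1
  simp only [smul_zero, mul_one] at this
  unfold Ex
  rw [this]

lemma Ex_zero {S : RS E} {x : E} (hx : x ∈ S.S) : Ex S (x, 0) = x := by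
  have := Ex_scale (S := S) (x := x) (v := 0) hx (by simp) (by simp) (τ := 0) (by simp)
  rw [smul_zero] at this
  rw [this, S.Φ_zero]

lemma P_norm_le (S : RS E) {x : E} (hx : x ∈ S.S) (w : E) : ‖S.P x w‖ ≤ ‖w‖ := by
  have h1 : ⟪S.P x w, S.P x w⟫_ℝ = ⟪w, S.P x w⟫_ℝ := by
    rw [S.inner_P hx, S.PP hx]
  rw [real_inner_self_eq_norm_sq] at h1
  have h2 := real_inner_le_norm w (S.P x w)
  rcases eq_or_lt_of_le (norm_nonneg (S.P x w)) with h | h
  · rw [← h]; exact norm_nonneg _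
  · nlinarith

lemma fderiv_G {S : RS E} {x : E} (hx : x ∈ S.S) (k : E) :
    fderiv ℝ (G S) (x, 0) (0, k) = k := by
  have key : ∀ k : E, ‖k‖ ≤ 2 → fderiv ℝ (G S) (x, 0) (0, k) = k := by
    intro k hk
    have hd : HasFDerivAt (G S) (fderiv ℝ (G S) (x, 0)) (x, 0) :=
      ((G_smooth S).differentiable (by simp) _).hasFDerivAt
    have h1 : HasDerivAt (fun τ : ℝ => ((x, τ • k) : E × E)) (0, k) 0 := by
      have a1 : HasDerivAt (fun τ : ℝ => τ • k) k 0 := by
        simpa using (hasDerivAt_id (0:ℝ)).smul_const k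
      exact (hasDerivAt_const 0 x).prodMk a1
    have hd' : HasFDerivAt (G S) (fderiv ℝ (G S) (x, 0)) ((fun τ : ℝ => ((x, τ • k) : E × E)) 0) := by
      simpa using hd
    have h2 := hd'.comp_hasDerivAt 0 h1
    have hPk : ‖S.P x k‖ ≤ 2 := (P_norm_le S hx k).trans hk
    have hM : ((x, S.P x k, 0) : E × E × E) ∈ S.M 2 := ⟨hx, S.PP hx k, by simp, hPk, by simp⟩
    have h3 : HasDerivAt (fun τ : ℝ => (S.Φ τ (x, S.P x k, 0)).1 + τ • k - τ • S.P x k) k 0 := by
      have a0 := S.pos_deriv hM 0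
      rw [S.Φ_zero] at a0
      have a1 : HasDerivAt (fun τ : ℝ => τ • k) k 0 := by
        simpa using (hasDerivAt_id (0:ℝ)).smul_const k
      have a2 : HasDerivAt (fun τ : ℝ => τ • S.P x k) (S.P x k) 0 := by
        simpa using (hasDerivAt_id (0:ℝ)).smul_const (S.P x k)
      refine ((a0.add a1).sub a2).congr_deriv ?_
      simp
    have h4 : (G S ∘ fun τ : ℝ => ((x, τ • k) : E × E)) =ᶠ[𝓝 0]
        (fun τ : ℝ => (S.Φ τ (x, S.P x k, 0)).1 + τ • k - τ • S.P x k) := by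
      have : Icc (-1:ℝ) 1 ∈ 𝓝 (0:ℝ) := Icc_mem_nhds (by norm_num) (by norm_num)
      filter_upwards [this] with τ hτ
      show G S (x, τ • k) = _
      rw [G_eq hx, map_smul, Ex_scale hx (S.PP hx k) hPk (abs_le.2 ⟨hτ.1, hτ.2⟩)]
    exact h2.unique (h3.congr_of_eventuallyEq h4)
  have hc : (0:ℝ) < ‖k‖ + 1 := by positivity
  have h1 := key ((‖k‖ + 1)⁻¹ • k) (by
    rw [norm_smul, norm_inv, Real.norm_eq_abs, abs_of_pos hc, inv_mul_le_iff₀ hc]
    linarith [norm_nonneg k])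
  have h2 : ((0 : E), (‖k‖ + 1)⁻¹ • k) = (‖k‖ + 1)⁻¹ • ((0 : E), k) := by
    rw [Prod.smul_mk, smul_zero]
  rw [h2, map_smul] at h1
  exact smul_right_injective E (inv_ne_zero hc.ne') h1

lemma fderiv_Xi {S : RS E} {x : E} (hx : x ∈ S.S) (v : E × E)
    (hv : fderiv ℝ (Xi S) (x, 0) v = 0) : v = 0 := by
  have hd : HasFDerivAt (G S) (fderiv ℝ (G S) (x, 0)) (x, 0) :=
    ((G_smooth S).differentiable (by simp) _).hasFDerivAt
  have h1 : HasFDerivAt (Xi S) ((ContinuousLinearMap.fst ℝ E E).prod (fderiv ℝ (G S) (x, 0)))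
      (x, 0) := hasFDerivAt_fst.prodMk hd
  rw [h1.fderiv] at hv
  obtain ⟨h, k⟩ := v
  have hh : h = 0 := congrArg Prod.fst hv
  have hk : fderiv ℝ (G S) (x, 0) (h, k) = 0 := congrArg Prod.snd hv
  rw [hh, fderiv_G hx] at hk
  rw [hh, hk]; rfl

lemma exists_eps (S : RS E) : ∃ ε > 0, ∀ x ∈ S.S, ∀ z, ‖z - x‖ < ε → ‖S.P z - S.P x‖ ≤ 1/2 := by
  have h := S.cpt.uniformContinuousAt_of_continuousAt S.P (fun a _ => S.P_cont.continuousAt)
    (Metric.dist_mem_uniformity (show (0:ℝ) < 1/2 by norm_num))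
  rw [Metric.mem_uniformity_dist] at h
  obtain ⟨ε, hε, h⟩ := h
  refine ⟨ε, hε, fun x hx z hz => ?_⟩
  have := h (a := x) (b := z) (by rw [dist_comm, dist_eq_norm]; exact hz) hx
  have h2 : dist (S.P x) (S.P z) < 1/2 := this
  rw [dist_comm, dist_eq_norm] at h2
  exact h2.le

/-- two points of the surface near `x` whose difference is normal at `x` are equal -/
lemma eq_of_near (S : RS E) {ε : ℝ} (hε : ∀ x ∈ S.S, ∀ z, ‖z - x‖ < ε → ‖S.P z - S.P x‖ ≤ 1/2)
    {x y y' : E} (hx : x ∈ S.S) (hy : y ∈ S.S) (hy' : y' ∈ S.S) (h1 : ‖y - x‖ < ε)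
    (h2 : ‖y' - x‖ < ε) (h3 : S.P x (y - y') = 0) : y = y' := by
  have h4 : ∀ z ∈ ball x ε, HasFDerivWithinAt (fun z => S.π z - S.P x z) (S.P z - S.P x)
      (ball x ε) z := fun z _ =>
    ((S.hasFDerivAt_π z).sub (S.P x).hasFDerivAt).hasFDerivWithinAt
  have h5 : ∀ z ∈ ball x ε, ‖S.P z - S.P x‖ ≤ 1/2 := fun z hz =>
    hε x hx z (by rw [← dist_eq_norm]; exact hz)
  have h6 := (convex_ball x ε).norm_image_sub_le_of_norm_hasFDerivWithin_le h4 h5
    (x := y') (y := y) (by rw [mem_ball, dist_eq_norm]; exact h2)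
    (by rw [mem_ball, dist_eq_norm]; exact h1)
  have h7 : (S.π y - S.P x y) - (S.π y' - S.P x y') = y - y' := by
    rw [S.hπS y hy, S.hπS y' hy']
    have : S.P x y - S.P x y' = 0 := by rw [← map_sub]; exact h3
    have h8 : S.P x y = S.P x y' := sub_eq_zero.1 this
    rw [h8]; abel
  simp only [h7] at h6
  have h9 : ‖y - y'‖ ≤ 0 := by linarith [norm_nonneg (y - y')]
  exact sub_eq_zero.1 (norm_le_zero_iff.1 h9)

theorem exists_LE (S : RS E) : Nonempty (LE S) := by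
  obtain ⟨ε, hε0, hε⟩ := exists_eps S
  obtain ⟨r0, hr0, hshort⟩ := S.exists_short
  set ε1 : ℝ := min 1 ε with hε1
  have hε1p : 0 < ε1 := lt_min one_pos hε0
  set K : Set (E × E) := (fun x => (x, (0 : E))) '' S.S with hK
  have hKc : IsCompact K := S.cpt.image (continuous_id.prodMk continuous_const)
  have hKinj : InjOn (Xi S) K := by
    rintro _ ⟨x, hx, rfl⟩ _ ⟨y, hy, rfl⟩ h
    have := congrArg Prod.fst h
    have h1 : x = y := this
    rw [h1]
  have hNo : IsOpen {q : E × E | ‖q.2‖ < ε1} :=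
    isOpen_lt (continuous_norm.comp continuous_snd) continuous_const
  have hKN : K ⊆ {q : E × E | ‖q.2‖ < ε1} := by
    rintro _ ⟨x, hx, rfl⟩
    show ‖(0:E)‖ < ε1
    rw [norm_zero]; exact hε1p
  obtain ⟨T, hTN, hTo, hKT, hTinj, hOo, g, hg, hgs⟩ := inv_on (Xi S) (Xi_smooth S) K hKc hKinj
    (by rintro _ ⟨x, hx, rfl⟩ v hv; exact fderiv_Xi hx v hv) _ hNo hKN
  obtain ⟨δ, hδ, hδT⟩ := hKc.exists_thickening_subset_open hTo hKT
  have hTmem : ∀ x ∈ S.S, ∀ w : E, ‖w‖ < δ → (x, w) ∈ T := by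
    intro x hx w hw
    apply hδT
    rw [mem_thickening_iff]
    refine ⟨(x, 0), ⟨x, hx, rfl⟩, ?_⟩
    rw [Prod.dist_eq, dist_self, dist_zero_right]
    exact max_lt hδ hw
  -- the diagonal
  set D : Set (E × E) := (fun x => (x, x)) '' S.S with hD
  have hDc : IsCompact D := S.cpt.image (continuous_id.prodMk continuous_id)
  have hDO : D ⊆ Xi S '' T := by
    rintro _ ⟨x, hx, rfl⟩
    refine ⟨(x, 0), hKT ⟨x, hx, rfl⟩, ?_⟩
    show ((x, G S (x, 0)) : E × E) = (x, x)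
    rw [G_eq hx, map_zero, Ex_zero hx, add_zero, sub_zero]
  obtain ⟨ρ0, hρ0, hρO⟩ := hDc.exists_thickening_subset_open hOo hDO
  set ρ : ℝ := min ρ0 ε with hρ
  have hρp : 0 < ρ := lt_min hρ0 hε0
  set r : ℝ := min (min δ r0) (min (ρ / 2) (1 / 2)) with hr
  have hrp : 0 < r := lt_min (lt_min hδ hr0) (lt_min (by positivity) (by norm_num))
  have hrδ : r ≤ δ := (min_le_left _ _).trans (min_le_left _ _)
  have hrr0 : r ≤ r0 := (min_le_left _ _).trans (min_le_right _ _)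
  have hrρ : r ≤ ρ / 2 := (min_le_right _ _).trans (min_le_left _ _)
  have hr2 : r ≤ 1 / 2 := (min_le_right _ _).trans (min_le_right _ _)
  have hOmem : ∀ x ∈ S.S, ∀ y ∈ S.S, ‖x - y‖ < ρ → (x, y) ∈ Xi S '' T := by
    intro x hx y hy h
    apply hρO
    rw [mem_thickening_iff]
    refine ⟨(x, x), ⟨x, hx, rfl⟩, ?_⟩
    rw [Prod.dist_eq, dist_self, dist_comm, dist_eq_norm]
    exact max_lt hρ0 (h.trans_le (min_le_left _ _))
  -- main facts on `W`
  have main : ∀ x ∈ S.S, ∀ y ∈ S.S, ‖x - y‖ < ρ → S.P x (g (x, y)).2 = (g (x, y)).2 ∧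
      ‖(g (x, y)).2‖ ≤ 1 ∧ Ex S (x, (g (x, y)).2) = y := by
    intro x hx y hy h
    obtain ⟨⟨x', w⟩, hq, hqe⟩ := hOmem x hx y hy h
    have e1 : x' = x := congrArg Prod.fst hqe
    have e2 : G S (x', w) = y := congrArg Prod.snd hqe
    subst e1
    have e3 : g (x', y) = (x', w) := by rw [← hqe]; exact hg _ hq
    have hw1 : ‖w‖ < ε1 := hTN hq
    rw [e3]
    simp only
    rw [G_eq hx] at e2
    set y' := Ex S (x', S.P x' w) with hy'
    have hPw : ‖S.P x' w‖ ≤ ‖w‖ := P_norm_le S hx w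
    have hw2 : ‖w‖ < 1 := hw1.trans_le (min_le_left _ _)
    have hw3 : ‖w‖ < ε := hw1.trans_le (min_le_right _ _)
    have hM : ((x', S.P x' w, 0) : E × E × E) ∈ S.M 2 :=
      ⟨hx, S.PP hx w, by simp, by
        show ‖S.P x' w‖ ≤ 2
        linarith, by simp⟩
    have hy'S : y' ∈ S.S := (S.Φ_M le_rfl hM 1).1
    have hy'd : ‖y' - x'‖ < ε := by
      have := S.norm_pos_sub_le hM (R := ‖S.P x' w‖) le_rfl 1
      rw [abs_one, mul_one] at this
      exact (this.trans hPw).trans_lt hw3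
    have hyd : ‖y - x'‖ < ε := by
      rw [norm_sub_rev]; exact h.trans_le (min_le_right _ _)
    have hP0 : S.P x' (y - y') = 0 := by
      have : y - y' = w - S.P x' w := by rw [← e2]; abel
      rw [this, map_sub, S.PP hx, sub_self]
    have heq : y = y' := eq_of_near S hε hx hy hy'S hyd hy'd hP0
    have hww : S.P x' w = w := by
      have : y' + w - S.P x' w = y' := by rw [e2, heq]
      have h2 : w - S.P x' w = 0 := by
        have h3 : y' + (w - S.P x' w) = y' + 0 := by rw [add_zero, ← add_sub_assoc]; exact this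
        exact add_left_cancel h3
      exact (sub_eq_zero.1 h2).symm
    refine ⟨hww, hw2.le, ?_⟩
    rw [heq, hy', hww]
  refine ⟨{ W := fun p => (g p).2, ρ := ρ, r := r, O := Xi S '' T, r_pos := hrp,
            r_lt := by linarith, r_le := hr2, O_open := hOo, O_mem := hOmem,
            smooth := contDiff_snd.comp_contDiffOn hgs,
            tan := fun x hx y hy h => (main x hx y hy h).1,
            small := fun x hx y hy h => (main x hx y hy h).2.1,
            exp := fun x hx y hy h => (main x hx y hy h).2.2,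
            geo := ?_,
            short := fun f hf t ht => hshort f hf t (ht.trans hrr0) }⟩
  intro f hf t ht0 htr
  have hT : (f.1, t • f.2.1) ∈ T := hTmem _ hf.1 _ (by
    rw [norm_smul, hf.2.2.2.1, mul_one, Real.norm_eq_abs, abs_of_nonneg ht0]
    exact htr.trans_le hrδ)
  have h1 : Xi S (f.1, t • f.2.1) = (f.1, (S.Φ t f).1) := by
    show ((f.1, G S (f.1, t • f.2.1)) : E × E) = _
    have hP : S.P f.1 (t • f.2.1) = t • f.2.1 := by rw [map_smul, hf.2.1]
    rw [G_eq hf.1, hP, add_sub_cancel_right]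
    have h2 := S.Φ_scale (S.FB_sub_M hf one_le_two) (l := t) (m := 0)
      (by rw [abs_of_nonneg ht0]; linarith) (by simp) 1
    rw [zero_smul, mul_one] at h2
    unfold Ex
    simp only
    rw [h2]
  show (g (f.1, (S.Φ t f).1)).2 = t • f.2.1
  rw [← h1, hg _ hT]

end Pool.Agent.H864R3.T3
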