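import Pool.Agent.H864R3.Defs

set_option autoImplicit false
set_option linter.unusedVariables false

open Set Metric Filter Topology
open scoped ContDiff InnerProductSpace NNReal

namespace Pool.Agent.H864R3.T4

variable {E : Type} [NormedAddCommGroup E] [InnerProductSpace ℝ E] [FiniteDimensional ℝ E]

/-- the common computation: a differentiable family of frames along the short geodesics -/
theorem core {S : RS E} (L : LE S) {x y : ℝ → E} {ξ η : E} (hx : HasDerivAt x ξ 0)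
    (hy : HasDerivAt y η 0) (hxS : ∀ᶠ τ in 𝓝 (0:ℝ), x τ ∈ S.S) (hyS : ∀ᶠ τ in 𝓝 (0:ℝ), y τ ∈ S.S)
    (hd : ‖x 0 - y 0‖ < L.ρ) (hne : x 0 ≠ y 0) {n0 : E}
    (hf : ((x 0, L.u (x 0, y 0), n0) : E × E × E) ∈ S.FB) :
    ∃ (V : E × E × E) (l' : ℝ), S.Adm (x 0, L.u (x 0, y 0), n0) V ∧ V.1 = ξ ∧
      HasDerivAt (fun τ => L.u (x τ, y τ)) V.2.1 0 ∧
      HasDerivAt (fun τ => L.len (x τ, y τ)) l' 0 ∧
      η = l' • L.w (x 0, y 0) + (S.J (L.len (x 0, y 0)) (x 0, L.u (x 0, y 0), n0) V).1 ∧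
      HasDerivAt (fun τ => L.w (x τ, y τ)) (l' • S.B (y 0) (L.w (x 0, y 0)) (L.w (x 0, y 0)) +
        (S.J (L.len (x 0, y 0)) (x 0, L.u (x 0, y 0), n0) V).2.1) 0 := by
  have hx0 : x 0 ∈ S.S := hxS.self_of_nhds
  have hy0 : y 0 ∈ S.S := hyS.self_of_nhds
  have hW0 : 0 < ‖L.W (x 0, y 0)‖ := L.W_ne hx0 hy0 hd hne
  have hWne : L.W (x 0, y 0) ≠ 0 := norm_pos_iff.1 hW0
  -- differentiability of `W`
  have hWd : DifferentiableAt ℝ L.W (x 0, y 0) :=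
    (L.smooth.contDiffAt (L.O_open.mem_nhds (L.O_mem _ hx0 _ hy0 hd))).differentiableAt (by simp)
  have hxy : HasDerivAt (fun τ => (x τ, y τ)) (ξ, η) 0 := hx.prodMk hy
  have hWc : DifferentiableAt ℝ (fun τ => L.W (x τ, y τ)) 0 :=
    DifferentiableAt.comp (g := L.W) (f := fun τ => (x τ, y τ)) (0:ℝ) hWd hxy.differentiableAt
  have hlen : DifferentiableAt ℝ (fun τ => L.len (x τ, y τ)) 0 := hWc.norm ℝ hWne
  have hu : DifferentiableAt ℝ (fun τ => L.u (x τ, y τ)) 0 := by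
    have h1 : DifferentiableAt ℝ (fun τ => ‖L.W (x τ, y τ)‖⁻¹) 0 := hlen.inv hW0.ne'
    exact h1.smul hWc
  -- the third vector
  set m : ℝ → E := fun τ => S.P (x τ) n0 - ⟪S.P (x τ) n0, L.u (x τ, y τ)⟫_ℝ • L.u (x τ, y τ) with hm
  have hPx : DifferentiableAt ℝ (fun τ => S.P (x τ) n0) 0 := by
    have h1 : HasDerivAt (fun τ => S.P (x τ)) (S.B (x 0) ξ) 0 :=
      (S.hasFDerivAt_P (x 0)).comp_hasDerivAt 0 hx
    exact (h1.clm_apply (hasDerivAt_const 0 n0)).differentiableAt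
  have hmd : DifferentiableAt ℝ m 0 := hPx.sub ((hPx.inner ℝ hu).smul hu)
  obtain ⟨f1, f2, f3, f4, f5, f6⟩ := id hf
  simp only at f1 f2 f3 f4 f5 f6
  have hm0 : m 0 = n0 := by
    simp only [hm]
    rw [f3, real_inner_comm, f6, zero_smul, sub_zero]
  have hm0ne : m 0 ≠ 0 := by
    rw [hm0, ← norm_pos_iff, f5]
    exact one_pos
  set n : ℝ → E := fun τ => ‖m τ‖⁻¹ • m τ with hn
  have hn0 : n 0 = n0 := by
    simp only [hn]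
    rw [hm0, f5, inv_one, one_smul]
  have hnd : DifferentiableAt ℝ n 0 := by
    have h1 : DifferentiableAt ℝ (fun τ => ‖m τ‖) 0 := hmd.norm ℝ hm0ne
    have h2 : DifferentiableAt ℝ (fun τ => ‖m τ‖⁻¹) 0 := h1.inv (norm_pos_iff.2 hm0ne).ne'
    exact h2.smul hmd
  -- eventual properties
  have hcx : ContinuousAt x 0 := hx.continuousAt
  have hcy : ContinuousAt y 0 := hy.continuousAt
  have e1 : ∀ᶠ τ in 𝓝 (0:ℝ), ‖x τ - y τ‖ < L.ρ := by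
    have : ContinuousAt (fun τ => ‖x τ - y τ‖) 0 := (hcx.sub hcy).norm
    exact this.eventually (gt_mem_nhds hd)
  have e2 : ∀ᶠ τ in 𝓝 (0:ℝ), x τ ≠ y τ := by
    have : ContinuousAt (fun τ => x τ - y τ) 0 := hcx.sub hcy
    have h := this.eventually_ne (sub_ne_zero.2 hne)
    filter_upwards [h] with τ hτ
    exact sub_ne_zero.1 hτ
  have e3 : ∀ᶠ τ in 𝓝 (0:ℝ), m τ ≠ 0 := hmd.continuousAt.eventually_ne hm0ne
  have hFB : ∀ᶠ τ in 𝓝 (0:ℝ), ((x τ, L.u (x τ, y τ), n τ) : E × E × E) ∈ S.FB := by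
    filter_upwards [hxS, hyS, e1, e2, e3] with τ a1 a2 a3 a4 a5
    have b1 := L.u_tan a1 a2 a3
    have b2 := L.u_norm a1 a2 a3 a4
    have b3 : S.P (x τ) (m τ) = m τ := by
      simp only [hm]
      rw [map_sub, map_smul, b1, S.PP a1]
    have b4 : ⟪L.u (x τ, y τ), m τ⟫_ℝ = 0 := by
      simp only [hm]
      rw [inner_sub_right, real_inner_smul_right, real_inner_self_eq_norm_sq, b2, real_inner_comm]
      ring
    refine ⟨a1, b1, ?_, b2, ?_, ?_⟩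
    · show S.P (x τ) (‖m τ‖⁻¹ • m τ) = ‖m τ‖⁻¹ • m τ
      rw [map_smul, b3]
    · show ‖‖m τ‖⁻¹ • m τ‖ = 1
      rw [norm_smul, norm_inv, norm_norm, inv_mul_cancel₀ (norm_ne_zero_iff.2 a5)]
    · show ⟪L.u (x τ, y τ), ‖m τ‖⁻¹ • m τ⟫_ℝ = 0
      rw [real_inner_smul_right, b4, mul_zero]
  have hΦ : ∀ᶠ τ in 𝓝 (0:ℝ), (S.Φ (L.len (x τ, y τ)) (x τ, L.u (x τ, y τ), n τ)).1 = y τ ∧
      (S.Φ (L.len (x τ, y τ)) (x τ, L.u (x τ, y τ), n τ)).2.1 = L.w (x τ, y τ) := by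
    filter_upwards [hxS, hyS, e1, e2, hFB] with τ a1 a2 a3 a4 a5
    exact L.Φ_frame a1 a2 a3 a4 a5
  -- the velocity
  set g : ℝ → E × E × E := fun τ => (x τ, L.u (x τ, y τ), n τ) with hg
  have hg0 : g 0 = (x 0, L.u (x 0, y 0), n0) := by
    simp only [hg, hn0]
  have hgd : HasDerivAt g (ξ, deriv (fun τ => L.u (x τ, y τ)) 0, deriv n 0) 0 :=
    hx.prodMk (hu.hasDerivAt.prodMk hnd.hasDerivAt)
  have hA : S.Adm (x 0, L.u (x 0, y 0), n0) (ξ, deriv (fun τ => L.u (x τ, y τ)) 0, deriv n 0) :=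
    ⟨g, hgd, hg0, hFB⟩
  have hkey := S.Φ_comp_deriv (g := g) (r := fun τ => L.len (x τ, y τ)) hgd hlen.hasDerivAt
  rw [hg0] at hkey
  have hM : S.Φ (L.len (x 0, y 0)) (x 0, L.u (x 0, y 0), n0) ∈ S.M 2 :=
    S.Φ_M le_rfl (S.FB_sub_M hf one_le_two) _
  obtain ⟨p1, p2⟩ := L.Φ_frame hx0 hy0 hd hne hf
  rw [S.X_eq hM] at hkey
  have k1 : HasDerivAt (fun τ => (S.Φ (L.len (x τ, y τ)) (g τ)).1) _ 0 :=
    (ContinuousLinearMap.fst ℝ E (E × E)).hasFDerivAt.comp_hasDerivAt 0 hkey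
  have k2 : HasDerivAt (fun τ => (S.Φ (L.len (x τ, y τ)) (g τ)).2.1) _ 0 :=
    ((ContinuousLinearMap.fst ℝ E E).comp
      (ContinuousLinearMap.snd ℝ E (E × E))).hasFDerivAt.comp_hasDerivAt 0 hkey
  have k3 : HasDerivAt (fun τ => (S.Φ (L.len (x τ, y τ)) (g τ)).1) η 0 :=
    hy.congr_of_eventuallyEq (hΦ.mono fun τ hτ => hτ.1)
  have k4 := k3.unique k1
  refine ⟨_, _, hA, rfl, hu.hasDerivAt, hlen.hasDerivAt, ?_, ?_⟩
  · rw [k4]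
    show deriv (fun τ => L.len (x τ, y τ)) 0 •
      (S.Φ (L.len (x 0, y 0)) (x 0, L.u (x 0, y 0), n0)).2.1 + _ = _
    rw [p2]
  · have k5 := k2.congr_of_eventuallyEq
      (show (fun τ => L.w (x τ, y τ)) =ᶠ[𝓝 0] fun τ => (S.Φ (L.len (x τ, y τ)) (g τ)).2.1 from
        hΦ.mono fun τ hτ => hτ.2.symm)
    refine k5.congr_deriv ?_
    show deriv (fun τ => L.len (x τ, y τ)) 0 •
      (S.B (S.Φ (L.len (x 0, y 0)) (x 0, L.u (x 0, y 0), n0)).1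
        (S.Φ (L.len (x 0, y 0)) (x 0, L.u (x 0, y 0), n0)).2.1
        (S.Φ (L.len (x 0, y 0)) (x 0, L.u (x 0, y 0), n0)).2.1) + _ = _
    rw [p1, p2]

/-- TASK T4a (first variation of length). -/
theorem first_variation {S : RS E} (L : LE S) {x y : ℝ → E} {ξ η : E} (hx : HasDerivAt x ξ 0)
    (hy : HasDerivAt y η 0) (hxS : ∀ᶠ τ in 𝓝 (0:ℝ), x τ ∈ S.S) (hyS : ∀ᶠ τ in 𝓝 (0:ℝ), y τ ∈ S.S)
    (hd : ‖x 0 - y 0‖ < L.ρ) (hne : x 0 ≠ y 0) :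
    HasDerivAt (fun τ => L.len (x τ, y τ))
      (⟪η, L.w (x 0, y 0)⟫_ℝ - ⟪ξ, L.u (x 0, y 0)⟫_ℝ) 0 := by
  have hx0 : x 0 ∈ S.S := hxS.self_of_nhds
  have hy0 : y 0 ∈ S.S := hyS.self_of_nhds
  obtain ⟨n0, hf⟩ := L.exists_frame hx0 hy0 hd hne
  obtain ⟨V, l', hA, hV, h1, h2, h3, h4⟩ := core L hx hy hxS hyS hd hne hf
  obtain ⟨p1, p2⟩ := L.Φ_frame hx0 hy0 hd hne hf
  refine h2.congr_deriv ?_
  have hw : ‖L.w (x 0, y 0)‖ = 1 := by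
    rw [← p2]
    exact (S.Φ_FB hf _).2.2.2.1
  have ht := hA.tang (L.len (x 0, y 0))
  rw [p2, hV] at ht
  have : ⟪η, L.w (x 0, y 0)⟫_ℝ = l' + ⟪ξ, L.u (x 0, y 0)⟫_ℝ := by
    rw [h3, inner_add_left, real_inner_smul_left, real_inner_self_eq_norm_sq, hw, ht]
    ring
  rw [this]
  ring

/-- TASK T4b (variation of the end directions). -/
theorem second_variation {S : RS E} (L : LE S) {x y : ℝ → E} {ξ η : E} (hx : HasDerivAt x ξ 0)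
    (hy : HasDerivAt y η 0) (hxS : ∀ᶠ τ in 𝓝 (0:ℝ), x τ ∈ S.S) (hyS : ∀ᶠ τ in 𝓝 (0:ℝ), y τ ∈ S.S)
    (hE : L.Edge (x 0) (y 0)) {f : E × E × E} (hf : f ∈ S.FB) (hf1 : f.1 = x 0)
    (hf2 : f.2.1 = L.u (x 0, y 0)) {l : ℝ} (hl : l = L.len (x 0, y 0)) :
    HasDerivAt (fun τ => L.u (x τ, y τ)) (S.B (x 0) ξ (L.u (x 0, y 0)) +
      ((⟪η, (S.Φ l f).2.2⟫_ℝ - S.cj f l * ⟪ξ, f.2.2⟫_ℝ) / S.sj f l) • f.2.2) 0 ∧
    HasDerivAt (fun τ => L.w (x τ, y τ)) (S.B (y 0) η (L.w (x 0, y 0)) +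
      ((S.sj' f l * ⟪η, (S.Φ l f).2.2⟫_ℝ - ⟪ξ, f.2.2⟫_ℝ) / S.sj f l) • (S.Φ l f).2.2) 0 := by
  obtain ⟨a, b, n0⟩ := f
  simp only at hf1 hf2
  subst hf1 hf2 hl
  obtain ⟨hx0, hy0, hne, hd, hr⟩ := hE
  obtain ⟨V, l', hA, hV, h1, h2, h3, h4⟩ := core L hx hy hxS hyS hd hne hf
  obtain ⟨p1, p2⟩ := L.Φ_frame hx0 hy0 hd hne hf
  have hlpos : 0 < L.len (x 0, y 0) := L.W_ne hx0 hy0 hd hne
  have hsj : 0 < S.sj (x 0, L.u (x 0, y 0), n0) (L.len (x 0, y 0)) :=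
    L.sj_pos hf hlpos (le_of_lt hr)
  set l := L.len (x 0, y 0) with hl
  set f : E × E × E := (x 0, L.u (x 0, y 0), n0) with hfdef
  have hFl := S.Φ_FB hf l
  have hAl := hA.flow l
  obtain ⟨q1, q2⟩ := hA.formula l
  have hwr := S.wronsk hf l
  have hmw : ⟪L.w (x 0, y 0), (S.Φ l f).2.2⟫_ℝ = 0 := by
    rw [← p2]
    exact hFl.2.2.2.2.2
  have e1 : ⟪η, (S.Φ l f).2.2⟫_ℝ = ⟪ξ, n0⟫_ℝ * S.cj f l + ⟪V.2.1, n0⟫_ℝ * S.sj f l := by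
    rw [h3, inner_add_left, real_inner_smul_left, hmw, mul_zero, zero_add, q1, hV]
  have e2 : (⟪η, (S.Φ l f).2.2⟫_ℝ - S.cj f l * ⟪ξ, n0⟫_ℝ) / S.sj f l = ⟪V.2.1, n0⟫_ℝ := by
    rw [e1]
    field_simp
    ring
  have e3 : (S.sj' f l * ⟪η, (S.Φ l f).2.2⟫_ℝ - ⟪ξ, n0⟫_ℝ) / S.sj f l =
      ⟪ξ, n0⟫_ℝ * S.cj' f l + ⟪V.2.1, n0⟫_ℝ * S.sj' f l := by
    rw [div_eq_iff hsj.ne', e1]
    linear_combination ⟪ξ, n0⟫_ℝ * hwr
  constructor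
  · refine h1.congr_deriv ?_
    rw [e2]
    have c2 := hA.c2
    have hP : S.P f.1 (S.P f.1 V.2.1) = S.P f.1 V.2.1 := S.PP hf.1 _
    have hex := S.frame_expand hf hP
    have i1 : ⟪S.P f.1 V.2.1, f.2.1⟫_ℝ = 0 := by
      rw [S.inner_P hf.1, hf.2.1]
      exact hA.c4
    have i2 : ⟪S.P f.1 V.2.1, f.2.2⟫_ℝ = ⟪V.2.1, n0⟫_ℝ := by
      rw [S.inner_P hf.1, hf.2.2.1]
    rw [i1, i2, zero_smul, zero_add] at hex
    rw [hex, hV] at c2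
    exact c2
  · refine h4.congr_deriv ?_
    rw [e3]
    have c2 := hAl.c2
    have hP : S.P (S.Φ l f).1 (S.P (S.Φ l f).1 (S.J l f V).2.1) =
        S.P (S.Φ l f).1 (S.J l f V).2.1 := S.PP hFl.1 _
    have hex := S.frame_expand hFl hP
    have i1 : ⟪S.P (S.Φ l f).1 (S.J l f V).2.1, (S.Φ l f).2.1⟫_ℝ = 0 := by
      rw [S.inner_P hFl.1, hFl.2.1]
      exact hAl.c4
    have i2 : ⟪S.P (S.Φ l f).1 (S.J l f V).2.1, (S.Φ l f).2.2⟫_ℝ =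
        ⟪ξ, n0⟫_ℝ * S.cj' f l + ⟪V.2.1, n0⟫_ℝ * S.sj' f l := by
      rw [S.inner_P hFl.1, hFl.2.2.1, q2, hV]
    rw [i1, i2, zero_smul, zero_add] at hex
    rw [hex, p1, p2] at c2
    rw [c2]
    have hB : S.B (y 0) η (L.w (x 0, y 0)) = l' • S.B (y 0) (L.w (x 0, y 0)) (L.w (x 0, y 0)) +
        S.B (y 0) (S.J l f V).1 (L.w (x 0, y 0)) := by
      conv_lhs => rw [h3]
      rw [map_add, map_smul, add_apply, smul_apply]
    rw [hB]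
    abel

end Pool.Agent.H864R3.T4
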