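import Pool.Agent.H864R3.Defs

/-! # T5: minimal configurations (helper501) -/

set_option autoImplicit false
set_option linter.unusedVariables false
set_option linter.unusedSectionVars false

open Set Metric Filter Topology
open scoped ContDiff InnerProductSpace NNReal

namespace Pool.Agent.H864R3.T5

/-! ### the repulsive profile -/

/-- `max(x,0)^(k+2)` -/
noncomputable def pw (k : ℕ) (x : ℝ) : ℝ := (max x 0) ^ (k + 2)

lemma pw_nonneg (k : ℕ) (x : ℝ) : 0 ≤ pw k x := pow_nonneg (le_max_right _ _) _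

lemma pw_cont (k : ℕ) : Continuous (pw k) := by unfold pw; fun_prop

lemma pw_mono (k : ℕ) : Monotone (pw k) := fun x y h =>
  pow_le_pow_left₀ (le_max_right _ _) (max_le_max h le_rfl) _

lemma pw_deriv (k : ℕ) (x : ℝ) : HasDerivAt (pw k) ((k + 2) * (max x 0) ^ (k + 1)) x := by
  rcases lt_trichotomy x 0 with h | h | h
  · have h1 : (fun _ : ℝ => (0 : ℝ)) =ᶠ[𝓝 x] pw k := by
      filter_upwards [Iio_mem_nhds h] with y hy
      unfold pw
      rw [max_eq_right (le_of_lt hy), zero_pow (by omega)]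
    have h2 : ((k : ℝ) + 2) * (max x 0) ^ (k + 1) = 0 := by
      rw [max_eq_right h.le, zero_pow (by omega), mul_zero]
    rw [h2]
    exact (hasDerivAt_const x (0 : ℝ)).congr_of_eventuallyEq h1.symm
  · subst h
    have h2 : ((k : ℝ) + 2) * (max (0 : ℝ) 0) ^ (k + 1) = 0 := by
      rw [max_self, zero_pow (by omega), mul_zero]
    rw [h2]
    have h3 : (fun x : ℝ => pw k x - pw k 0) =O[𝓝 0] fun x => x ^ 2 := by
      refine Asymptotics.IsBigO.of_bound 1 ?_
      filter_upwards [Ioo_mem_nhds (show (-1 : ℝ) < 0 by norm_num) (show (0 : ℝ) < 1 by norm_num)]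
        with y hy
      have h0 : pw k 0 = 0 := by
        unfold pw
        rw [max_self, zero_pow (by omega)]
      rw [h0, sub_zero, one_mul, Real.norm_of_nonneg (pw_nonneg k y), Real.norm_of_nonneg (sq_nonneg y)]
      unfold pw
      rcases le_total y 0 with hy0 | hy0
      · rw [max_eq_right hy0, zero_pow (by omega)]
        positivity
      · rw [max_eq_left hy0, pow_add]
        have : y ^ k ≤ 1 := pow_le_one₀ hy0 hy.2.le
        have h5 : 0 ≤ y ^ 2 := sq_nonneg y
        nlinarith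
    rw [hasDerivAt_iff_isLittleO]
    simp only [smul_zero, sub_zero]
    refine h3.trans_isLittleO ?_
    have := Asymptotics.isLittleO_pow_id (𝕜 := ℝ) (n := 2) (by norm_num)
    exact this
  · have h1 : (fun y : ℝ => y ^ (k + 2)) =ᶠ[𝓝 x] pw k := by
      filter_upwards [Ioi_mem_nhds h] with y hy
      unfold pw
      rw [max_eq_left (le_of_lt hy)]
    have h2 : HasDerivAt (fun y : ℝ => y ^ (k + 2)) ((k + 2) * (max x 0) ^ (k + 1)) x := by
      have h7 := hasDerivAt_pow (k + 2) x
      rw [max_eq_left h.le]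
      have h9 : ((k + 2 : ℕ) : ℝ) = k + 2 := by push_cast; ring
      rw [h9] at h7
      exact h7
    exact h2.congr_of_eventuallyEq h1.symm

/-- the profile -/
noncomputable def q (k : ℕ) (r l : ℝ) : ℝ := pw k (r / l - 1)

/-- minus its derivative -/
noncomputable def q' (k : ℕ) (r l : ℝ) : ℝ := (k + 2) * (max (r / l - 1) 0) ^ (k + 1) * (r / l ^ 2)

lemma q_nonneg (k : ℕ) (r l : ℝ) : 0 ≤ q k r l := pw_nonneg _ _

lemma q_deriv (k : ℕ) (r : ℝ) {l : ℝ} (hl : 0 < l) : HasDerivAt (q k r) (-(q' k r l)) l := by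
  have h1 : HasDerivAt (fun l : ℝ => r / l - 1) (-(r / l ^ 2)) l := by
    have h0 := ((hasDerivAt_inv hl.ne').const_mul r).sub_const 1
    have h2 : r * -(l ^ 2)⁻¹ = -(r / l ^ 2) := by rw [div_eq_mul_inv]; ring
    rw [h2] at h0
    exact h0
  have h2 := (pw_deriv k (r / l - 1)).comp l h1
  have h3 : HasDerivAt (q k r) (((k : ℝ) + 2) * (max (r / l - 1) 0) ^ (k + 1) * -(r / l ^ 2)) l := h2
  convert h3 using 1
  unfold q'
  ring

lemma q'_nonneg (k : ℕ) {r l : ℝ} (hr : 0 < r) : 0 ≤ q' k r l := by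
  unfold q'
  have : 0 ≤ max (r / l - 1) 0 := le_max_right _ _
  positivity

lemma q'_pos (k : ℕ) {r l : ℝ} (hr : 0 < r) (hl : 0 < l) : 0 < q' k r l ↔ l < r := by
  constructor
  · intro h
    by_contra hc
    push Not at hc
    have h1 : r / l - 1 ≤ 0 := by
      rw [sub_nonpos, div_le_one hl]
      exact hc
    unfold q' at h
    rw [max_eq_right h1, zero_pow (by omega)] at h
    simp at h
  · intro h
    have h1 : 0 < r / l - 1 := by
      rw [sub_pos, one_lt_div hl]
      exact h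
    unfold q'
    rw [max_eq_left h1.le]
    positivity

lemma q_anti (k : ℕ) {r l l' : ℝ} (hr : 0 < r) (hl : 0 < l) (h : l ≤ l') : q k r l' ≤ q k r l := by
  apply pw_mono
  have : r / l' ≤ r / l := div_le_div_of_nonneg_left hr.le hl h
  linarith

lemma q_zero (k : ℕ) {r l : ℝ} (hr : 0 < r) (h : r ≤ l) : q k r l = 0 := by
  unfold q pw
  have hl : 0 < l := hr.trans_le h
  have h1 : r / l - 1 ≤ 0 := by
    rw [sub_nonpos, div_le_one hl]
    exact h
  rw [max_eq_right h1, zero_pow (by omega)]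

/-- doubling estimate -/
lemma q_half (k : ℕ) {r ε : ℝ} (hε : 0 < ε) (h : ε < r) :
    2 ^ k * q k r ε < q k r (ε / 2) := by
  have hr : 0 < r := hε.trans h
  have h1 : 0 < r / ε - 1 := by
    rw [sub_pos, one_lt_div hε]
    exact h
  have h2 : r / (ε / 2) - 1 = 2 * (r / ε - 1) + 1 := by
    field_simp
    ring
  unfold q pw
  rw [h2, max_eq_left h1.le, max_eq_left (by positivity)]
  have h3 : (2 * (r / ε - 1)) ^ (k + 2) ≤ (2 * (r / ε - 1) + 1) ^ (k + 2) :=
    pow_le_pow_left₀ (by positivity) (by linarith) _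
  have h4 : (2 : ℝ) ^ k * (r / ε - 1) ^ (k + 2) < (2 * (r / ε - 1)) ^ (k + 2) := by
    rw [mul_pow]
    have h5 : (2 : ℝ) ^ k < 2 ^ (k + 2) := pow_lt_pow_right₀ (by norm_num) (by omega)
    have h6 : 0 < (r / ε - 1) ^ (k + 2) := by positivity
    exact mul_lt_mul_of_pos_right h5 h6
  linarith

/-- blow-up -/
lemma q_blow (k : ℕ) {r A : ℝ} (hr : 0 < r) (hA : 0 ≤ A) : A < q k r (r / (A + 2)) := by
  unfold q pw
  have h1 : r / (r / (A + 2)) = A + 2 := by
    field_simp
  rw [h1]
  have h2 : A + 2 - 1 = A + 1 := by ring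
  rw [h2, max_eq_left (by linarith)]
  calc A < A + 1 := by linarith
    _ = (A + 1) ^ 1 := (pow_one _).symm
    _ ≤ (A + 1) ^ (k + 2) := pow_le_pow_right₀ (by linarith) (by omega)

variable {E : Type} [NormedAddCommGroup E] [InnerProductSpace ℝ E] [FiniteDimensional ℝ E]
  {S : RS E} (L : LE S)

/-! ### pair energy -/

/-- pair energy -/
noncomputable def en (k : ℕ) (x y : E) : ℝ :=
  open Classical in if ‖x - y‖ < L.ρ then q k L.r (L.len (x, y)) else 0

variable {L}

lemma en_nonneg (k : ℕ) (x y : E) : 0 ≤ en L k x y := by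
  unfold en
  split_ifs
  · exact q_nonneg _ _ _
  · exact le_rfl

lemma en_zero {k : ℕ} {x y : E} (hx : x ∈ S.S) (hy : y ∈ S.S) (h : L.r ≤ ‖x - y‖) :
    en L k x y = 0 := by
  unfold en
  split_ifs with h1
  · exact q_zero k L.r_pos (h.trans (L.norm_sub_le hx hy h1))
  · rfl

lemma en_le {k : ℕ} {x y : E} (hx : x ∈ S.S) (hy : y ∈ S.S) {ε : ℝ} (hε : 0 < ε)
    (h : ε ≤ ‖x - y‖) : en L k x y ≤ q k L.r ε := by
  unfold en
  split_ifs with h1
  · exact q_anti k L.r_pos hε (h.trans (L.norm_sub_le hx hy h1))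
  · exact q_nonneg _ _ _

lemma en_ge {k : ℕ} {x y : E} (hx : x ∈ S.S) (hy : y ∈ S.S) (hne : x ≠ y) (hd : ‖x - y‖ < L.ρ)
    {η : ℝ} (h : L.len (x, y) ≤ η) : q k L.r η ≤ en L k x y := by
  unfold en
  rw [if_pos hd]
  exact q_anti k L.r_pos (L.W_ne hx hy hd hne) h

lemma W_contAt {p : E × E} (hp : p ∈ L.O) : ContinuousAt L.W p :=
  (L.smooth.continuousOn).continuousAt (L.O_open.mem_nhds hp)

lemma en_cont (k : ℕ) : ContinuousOn (fun p : E × E => en L k p.1 p.2)
    {p | p.1 ∈ S.S ∧ p.2 ∈ S.S ∧ p.1 ≠ p.2} := by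
  rintro ⟨x, y⟩ ⟨hx, hy, hne⟩
  simp only at hx hy hne
  by_cases hd : ‖x - y‖ < L.ρ
  · have h1 : ContinuousAt (fun p : E × E => q k L.r (L.len p)) (x, y) := by
      have h2 : ContinuousAt L.len (x, y) := (W_contAt (L.O_mem x hx y hy hd)).norm
      have h3 : ContinuousAt (q k L.r) (L.len (x, y)) := (q_deriv k L.r (L.W_ne hx hy hd hne)).continuousAt
      exact ContinuousAt.comp (x := (x, y)) (g := q k L.r) (f := L.len) h3 h2
    have h4 : (fun p : E × E => q k L.r (L.len p)) =ᶠ[𝓝 (x, y)] fun p : E × E => en L k p.1 p.2 := by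
      have h5 : ∀ᶠ p : E × E in 𝓝 (x, y), ‖p.1 - p.2‖ < L.ρ := by
        have : Continuous fun p : E × E => ‖p.1 - p.2‖ := by fun_prop
        exact this.continuousAt.eventually (gt_mem_nhds hd)
      filter_upwards [h5] with p hp
      unfold en
      rw [if_pos hp]
    exact (h1.congr h4).continuousWithinAt
  · have hd' : L.r < ‖x - y‖ := L.r_lt.trans_le (not_lt.1 hd)
    have h0 : en L k x y = 0 := en_zero hx hy hd'.le
    have h1 : (fun p : E × E => en L k p.1 p.2) =ᶠ[𝓝[{p | p.1 ∈ S.S ∧ p.2 ∈ S.S ∧ p.1 ≠ p.2}] (x, y)]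
        fun _ => (0 : ℝ) := by
      have h5 : ∀ᶠ p : E × E in 𝓝 (x, y), L.r < ‖p.1 - p.2‖ := by
        have : Continuous fun p : E × E => ‖p.1 - p.2‖ := by fun_prop
        exact this.continuousAt.eventually (lt_mem_nhds hd')
      filter_upwards [h5.filter_mono nhdsWithin_le_nhds, self_mem_nhdsWithin] with p hp hp2
      exact en_zero hp2.1 hp2.2.1 (le_of_lt hp)
    exact (continuousWithinAt_const (b := (0 : ℝ))).congr_of_eventuallyEq h1 h0

/-- uniform smallness of `W` near the diagonal -/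
lemma W_small {η : ℝ} (hη : 0 < η) : ∃ δ > 0, ∀ x ∈ S.S, ∀ y ∈ S.S, ‖x - y‖ < δ →
    ‖x - y‖ < L.ρ ∧ L.len (x, y) ≤ η := by
  set K : Set (E × E) := (fun x : E => (x, x)) '' S.S with hK
  have hKc : IsCompact K := S.cpt.image (by fun_prop)
  have hW : ContinuousOn (fun p => ‖L.W p‖) L.O := L.smooth.continuousOn.norm
  have hopen : IsOpen (L.O ∩ (fun p => ‖L.W p‖) ⁻¹' Iio η) := hW.isOpen_inter_preimage L.O_open isOpen_Iio
  have hKsub : K ⊆ L.O ∩ (fun p => ‖L.W p‖) ⁻¹' Iio η := by
    rintro _ ⟨x, hx, rfl⟩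
    refine ⟨L.O_mem x hx x hx (by rw [sub_self, norm_zero]; exact L.ρ_pos), ?_⟩
    simp only [mem_preimage, mem_Iio]
    rw [L.W_self hx, norm_zero]
    exact hη
  obtain ⟨δ, hδ, hsub⟩ := hKc.exists_thickening_subset_open hopen hKsub
  refine ⟨min δ L.ρ, lt_min hδ L.ρ_pos, fun x hx y hy hxy => ?_⟩
  refine ⟨hxy.trans_le (min_le_right _ _), ?_⟩
  have h1 : (x, y) ∈ thickening δ K := by
    rw [mem_thickening_iff]
    refine ⟨(x, x), ⟨x, hx, rfl⟩, ?_⟩
    rw [Prod.dist_eq, dist_self, max_lt_iff]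
    refine ⟨hδ, ?_⟩
    rw [dist_comm, dist_eq_norm]
    exact hxy.trans_le (min_le_left _ _)
  exact le_of_lt (hsub h1).2

lemma S_infinite (L : LE S) (hne : S.S.Nonempty) : S.S.Infinite := by
  obtain ⟨x, hx⟩ := hne
  obtain ⟨w, n, hf⟩ := S.exists_frame' hx
  have h1 : InjOn (fun t : ℝ => (S.Φ t (x, w, n)).1) (Ioo 0 L.r) := by
    intro t ht t' ht' h
    have h2 := (L.edge_of_frame hf ht.1 ht.2).2.1
    have h3 := (L.edge_of_frame hf ht'.1 ht'.2).2.1
    simp only at h h2 h3
    rw [h, h3] at h2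
    exact h2.symm
  have h4 : ((fun t : ℝ => (S.Φ t (x, w, n)).1) '' Ioo 0 L.r).Infinite :=
    (Ioo_infinite L.r_pos).image h1
  refine h4.mono ?_
  rintro _ ⟨t, ht, rfl⟩
  exact (S.Φ_FB hf t).1


/-! ### energy of a configuration -/

/-- total energy -/
noncomputable def Et (L : LE S) (k : ℕ) {N : ℕ} (X : Fin N → E) : ℝ :=
  ∑ i, ∑ j, if i = j then 0 else en L k (X i) (X j)

lemma Et_nonneg (k : ℕ) {N : ℕ} (X : Fin N → E) : 0 ≤ Et L k X := by
  unfold Et
  refine Finset.sum_nonneg fun i _ => Finset.sum_nonneg fun j _ => ?_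
  split_ifs
  · exact le_rfl
  · exact en_nonneg _ _ _

lemma le_Et (k : ℕ) {N : ℕ} (X : Fin N → E) {i j : Fin N} (h : i ≠ j) :
    en L k (X i) (X j) ≤ Et L k X := by
  unfold Et
  have h1 : ∀ i j : Fin N, 0 ≤ (if i = j then 0 else en L k (X i) (X j)) := by
    intro i j
    split_ifs
    · exact le_rfl
    · exact en_nonneg _ _ _
  calc en L k (X i) (X j) = if i = j then 0 else en L k (X i) (X j) := by rw [if_neg h]
    _ ≤ ∑ j, if i = j then 0 else en L k (X i) (X j) :=
        Finset.single_le_sum (f := fun j => if i = j then 0 else en L k (X i) (X j))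
          (fun j _ => h1 i j) (Finset.mem_univ j)
    _ ≤ _ := Finset.single_le_sum (f := fun i => ∑ j, if i = j then 0 else en L k (X i) (X j))
          (fun i _ => Finset.sum_nonneg fun j _ => h1 i j) (Finset.mem_univ i)

lemma exists_min (k : ℕ) {N : ℕ} (X1 : Fin N → E) (h1 : ∀ i, X1 i ∈ S.S)
    (h2 : Function.Injective X1) : ∃ X0 : Fin N → E, (∀ i, X0 i ∈ S.S) ∧ Function.Injective X0 ∧
      ∀ X : Fin N → E, (∀ i, X i ∈ S.S) → Function.Injective X → Et L k X0 ≤ Et L k X := by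
  classical
  obtain ⟨δ, hδ, hW⟩ := W_small (L := L) (η := L.r / (Et L k X1 + 2)) (by
    have := Et_nonneg (L := L) k X1
    have := L.r_pos
    positivity)
  -- minimal distance of X1
  obtain ⟨d, hd, hdδ, hdX⟩ : ∃ d > 0, d ≤ δ ∧ ∀ i j, i ≠ j → d ≤ ‖X1 i - X1 j‖ := by
    by_cases hN : (Finset.univ.filter (fun p : Fin N × Fin N => p.1 ≠ p.2)).Nonempty
    · obtain ⟨p, hp, hmin⟩ := Finset.exists_min_image _ (fun p : Fin N × Fin N =>
        ‖X1 p.1 - X1 p.2‖) hN
      rw [Finset.mem_filter] at hp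
      refine ⟨min δ ‖X1 p.1 - X1 p.2‖, lt_min hδ (norm_pos_iff.2 (sub_ne_zero.2 fun h =>
        hp.2 (h2 h))), min_le_left _ _, fun i j hij => (min_le_right _ _).trans ?_⟩
      exact hmin (i, j) (Finset.mem_filter.2 ⟨Finset.mem_univ _, hij⟩)
    · refine ⟨δ, hδ, le_rfl, fun i j hij => absurd ?_ hN⟩
      exact ⟨(i, j), Finset.mem_filter.2 ⟨Finset.mem_univ _, hij⟩⟩
  set C : Set (Fin N → E) := {X | (∀ i, X i ∈ S.S) ∧ ∀ i j, i ≠ j → d ≤ ‖X i - X j‖} with hC
  have hCc : IsCompact C := by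
    have h3 : C = (Set.univ.pi fun _ : Fin N => S.S) ∩
        ⋂ i : Fin N, ⋂ j : Fin N, {X : Fin N → E | i ≠ j → d ≤ ‖X i - X j‖} := by
      ext X
      simp [hC]
    rw [h3]
    refine (isCompact_univ_pi fun _ => S.cpt).inter_right ?_
    refine isClosed_iInter fun i => isClosed_iInter fun j => ?_
    by_cases hij : i = j
    · have : {X : Fin N → E | i ≠ j → d ≤ ‖X i - X j‖} = Set.univ := by
        ext X
        simp [hij]
      rw [this]
      exact isClosed_univ
    · have : {X : Fin N → E | i ≠ j → d ≤ ‖X i - X j‖} = {X : Fin N → E | d ≤ ‖X i - X j‖} := by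
        ext X
        simp [hij]
      rw [this]
      exact isClosed_le continuous_const (by fun_prop)
  have hX1C : X1 ∈ C := ⟨h1, hdX⟩
  have hCinj : ∀ X ∈ C, Function.Injective X := by
    intro X hX i j hij
    by_contra hne
    have := hX.2 i j hne
    rw [hij, sub_self, norm_zero] at this
    linarith
  have hcont : ContinuousOn (Et L k) C := by
    unfold Et
    refine continuousOn_finsetSum _ fun i _ => continuousOn_finsetSum _ fun j _ => ?_
    by_cases hij : i = j
    · simp only [hij, if_true]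
      exact continuousOn_const
    · simp only [hij, if_false]
      have h4 := (en_cont (L := L) k).comp (f := fun X : Fin N → E => (X i, X j)) (s := C)
        (by fun_prop) (fun X hX => ⟨hX.1 i, hX.1 j, fun h => hij (hCinj X hX h)⟩)
      exact h4
  obtain ⟨X0, hX0, hmin⟩ := hCc.exists_isMinOn ⟨X1, hX1C⟩ hcont
  refine ⟨X0, hX0.1, hCinj X0 hX0, fun X hX hXi => ?_⟩
  by_cases hXC : X ∈ C
  · exact hmin hXC
  · have h5 : ∃ i j, i ≠ j ∧ ‖X i - X j‖ < d := by
      by_contra hcon
      push Not at hcon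
      exact hXC ⟨hX, hcon⟩
    obtain ⟨i, j, hij, hlt⟩ := h5
    obtain ⟨h6, h7⟩ := hW _ (hX i) _ (hX j) (hlt.trans_le hdδ)
    have h8 := en_ge (k := k) (hX i) (hX j) (fun h => hij (hXi h)) h6 h7
    have h9 := q_blow k L.r_pos (Et_nonneg (L := L) k X1)
    have h10 := le_Et (L := L) k X hij
    have h11 : Et L k X0 ≤ Et L k X1 := hmin hX1C
    linarith

/-- energy after replacing one point -/
lemma Et_update (k : ℕ) {N : ℕ} (X : Fin N → E) (i : Fin N) (z : E) :
    Et L k (Function.update X i z) = (∑ a, ∑ b, if a = b ∨ a = i ∨ b = i then 0 else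
      en L k (X a) (X b)) + ∑ j, (if j = i then 0 else en L k z (X j) + en L k (X j) z) := by
  classical
  unfold Et
  have h1 : ∀ a b : Fin N, (if a = b then 0 else en L k (Function.update X i z a)
      (Function.update X i z b)) = (if a = b ∨ a = i ∨ b = i then 0 else en L k (X a) (X b)) +
      ((if a = i then (if b = i then 0 else en L k z (X b)) else 0) +
       (if b = i then (if a = i then 0 else en L k (X a) z) else 0)) := by
    intro a b
    by_cases ha : a = i
    · subst ha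
      by_cases hb : b = a
      · subst hb
        simp
      · simp [hb, Ne.symm hb]
    · by_cases hb : b = i
      · subst hb
        simp [ha]
      · simp [ha, hb]
  simp_rw [h1, Finset.sum_add_distrib]
  congr 1
  have h2 : ∑ a : Fin N, ∑ b : Fin N, (if a = i then (if b = i then 0 else en L k z (X b)) else 0) =
      ∑ j, (if j = i then 0 else en L k z (X j)) := by
    rw [Finset.sum_eq_single i]
    · simp
    · intro a _ ha
      simp [ha]
    · intro h
      exact absurd (Finset.mem_univ _) h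
  have h3 : ∑ a : Fin N, ∑ b : Fin N, (if b = i then (if a = i then 0 else en L k (X a) z) else 0) =
      ∑ j, (if j = i then 0 else en L k (X j) z) := by
    refine Finset.sum_congr rfl fun a _ => ?_
    rw [Finset.sum_eq_single i]
    · simp
    · intro b _ hb
      simp [hb]
    · intro h
      exact absurd (Finset.mem_univ _) h
  rw [h2, h3, ← Finset.sum_add_distrib]
  refine Finset.sum_congr rfl fun j _ => ?_
  split_ifs
  · simp
  · rfl

lemma Et_split (k : ℕ) {N : ℕ} (X : Fin N → E) (i : Fin N) :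
    Et L k X = (∑ a, ∑ b, if a = b ∨ a = i ∨ b = i then 0 else
      en L k (X a) (X b)) + ∑ j, (if j = i then 0 else en L k (X i) (X j) + en L k (X j) (X i)) := by
  have := Et_update (L := L) k X i (X i)
  rwa [Function.update_eq_self] at this

/-- fineness of minimal configurations -/
lemma fine {k N : ℕ} {X0 : Fin N → E} (h0 : ∀ i, X0 i ∈ S.S) (hinj : Function.Injective X0)
    (hmin : ∀ X : Fin N → E, (∀ i, X i ∈ S.S) → Function.Injective X → Et L k X0 ≤ Et L k X)
    {ε : ℝ} (hε : 0 < ε) (hεr : ε < L.r) (hN : 2 * N ≤ 2 ^ k)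
    (hpair : ∃ i j, i ≠ j ∧ ‖X0 i - X0 j‖ < L.ρ ∧ L.len (X0 i, X0 j) ≤ ε / 2) :
    ∀ z ∈ S.S, ∃ i, ‖z - X0 i‖ < ε := by
  classical
  intro z hz
  by_contra hcon
  push Not at hcon
  obtain ⟨i, j, hij, hd, hlen⟩ := hpair
  have hne : X0 i ≠ X0 j := fun h => hij (hinj h)
  have h1 := hmin (Function.update X0 i z) (by
    intro a
    by_cases ha : a = i
    · subst ha
      rw [Function.update_self]
      exact hz
    · rw [Function.update_of_ne ha]
      exact h0 a) (by
    intro a b hab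
    by_cases ha : a = i
    · by_cases hb : b = i
      · rw [ha, hb]
      · rw [ha, Function.update_self, Function.update_of_ne hb] at hab
        have := hcon b
        rw [hab, sub_self, norm_zero] at this
        linarith
    · by_cases hb : b = i
      · rw [hb, Function.update_self, Function.update_of_ne ha] at hab
        have := hcon a
        rw [← hab, sub_self, norm_zero] at this
        linarith
      · rw [Function.update_of_ne ha, Function.update_of_ne hb] at hab
        exact hinj hab)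
  rw [Et_update, Et_split k X0 i] at h1
  have h2 : ∑ a, (if a = i then 0 else en L k (X0 i) (X0 a) + en L k (X0 a) (X0 i)) ≤
      ∑ a, (if a = i then 0 else en L k z (X0 a) + en L k (X0 a) z) := by linarith
  have h3 : ∑ a, (if a = i then 0 else en L k z (X0 a) + en L k (X0 a) z) ≤
      ∑ a : Fin N, (2 * q k L.r ε) := by
    refine Finset.sum_le_sum fun a _ => ?_
    split_ifs
    · have := q_nonneg k L.r ε
      linarith
    · have h4 := en_le (L := L) (k := k) hz (h0 a) hε (hcon a)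
      have h5 := en_le (L := L) (k := k) (h0 a) hz hε (by rw [norm_sub_rev]; exact hcon a)
      linarith
  rw [Finset.sum_const, Finset.card_univ, Fintype.card_fin, nsmul_eq_mul] at h3
  have h4 : q k L.r (ε / 2) ≤ ∑ a, (if a = i then 0 else en L k (X0 i) (X0 a) +
      en L k (X0 a) (X0 i)) := by
    have h5 := Finset.single_le_sum (f := fun a => if a = i then 0 else en L k (X0 i) (X0 a) +
      en L k (X0 a) (X0 i)) (fun a _ => by
        split_ifs
        · exact le_rfl
        · exact add_nonneg (en_nonneg _ _ _) (en_nonneg _ _ _)) (Finset.mem_univ j)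
    simp only [hij.symm, if_false] at h5
    have h6 := en_ge (k := k) (h0 i) (h0 j) hne hd hlen
    have h7 := en_nonneg (L := L) k (X0 j) (X0 i)
    linarith
  have h8 := q_half k hε hεr
  have h9 : (2 * (N : ℝ)) ≤ 2 ^ k := by exact_mod_cast hN
  have h10 := q_nonneg k L.r ε
  have h11 := mul_le_mul_of_nonneg_right h9 h10
  linarith


/-! ### first order condition -/

/-- stress of a pair -/
noncomputable def sv (L : LE S) (k : ℕ) (x y : E) : ℝ :=
  open Classical in if ‖x - y‖ < L.ρ then q' k L.r (L.len (x, y)) else 0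

/-- the first variation formula (task T4) as a hypothesis -/
def FV (L : LE S) : Prop := ∀ (x y : ℝ → E) (ξ η : E), HasDerivAt x ξ 0 → HasDerivAt y η 0 →
    (∀ᶠ τ in 𝓝 (0:ℝ), x τ ∈ S.S) → (∀ᶠ τ in 𝓝 (0:ℝ), y τ ∈ S.S) →
    ‖x 0 - y 0‖ < L.ρ → x 0 ≠ y 0 →
    HasDerivAt (fun τ => L.len (x τ, y τ))
      (⟪η, L.w (x 0, y 0)⟫_ℝ - ⟪ξ, L.u (x 0, y 0)⟫_ℝ) 0

lemma en_deriv (hfv : FV L) (k : ℕ) {x y : ℝ → E} {ξ η : E} (hx : HasDerivAt x ξ 0)
    (hy : HasDerivAt y η 0) (hxS : ∀ᶠ τ in 𝓝 (0:ℝ), x τ ∈ S.S)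
    (hyS : ∀ᶠ τ in 𝓝 (0:ℝ), y τ ∈ S.S) (hne : x 0 ≠ y 0) :
    HasDerivAt (fun τ => en L k (x τ) (y τ))
      (sv L k (x 0) (y 0) * (⟪ξ, L.u (x 0, y 0)⟫_ℝ - ⟪η, L.w (x 0, y 0)⟫_ℝ)) 0 := by
  have hx0 : x 0 ∈ S.S := hxS.self_of_nhds
  have hy0 : y 0 ∈ S.S := hyS.self_of_nhds
  have hcont : ContinuousAt (fun τ => ‖x τ - y τ‖) 0 :=
    (hx.continuousAt.sub hy.continuousAt).norm
  by_cases hd : ‖x 0 - y 0‖ < L.ρ
  · have h1 := hfv x y ξ η hx hy hxS hyS hd hne
    have h2 := (q_deriv k L.r (l := L.len (x 0, y 0)) (L.W_ne hx0 hy0 hd hne)).comp (0 : ℝ) h1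
    have h3 : sv L k (x 0) (y 0) * (⟪ξ, L.u (x 0, y 0)⟫_ℝ - ⟪η, L.w (x 0, y 0)⟫_ℝ) =
        -(q' k L.r (L.len (x 0, y 0))) * (⟪η, L.w (x 0, y 0)⟫_ℝ - ⟪ξ, L.u (x 0, y 0)⟫_ℝ) := by
      unfold sv
      rw [if_pos hd]
      ring
    rw [h3]
    refine HasDerivAt.congr_of_eventuallyEq h2 ?_
    filter_upwards [hcont.eventually (gt_mem_nhds hd)] with τ hτ
    unfold en
    rw [if_pos hτ]
    rfl
  · have hd' : L.r < ‖x 0 - y 0‖ := L.r_lt.trans_le (not_lt.1 hd)
    have h3 : sv L k (x 0) (y 0) * (⟪ξ, L.u (x 0, y 0)⟫_ℝ - ⟪η, L.w (x 0, y 0)⟫_ℝ) = 0 := by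
      unfold sv
      rw [if_neg hd, zero_mul]
    rw [h3]
    refine (hasDerivAt_const (0 : ℝ) (0 : ℝ)).congr_of_eventuallyEq ?_
    filter_upwards [hcont.eventually (lt_mem_nhds hd'), hxS, hyS] with τ hτ h1 h2
    exact en_zero h1 h2 (le_of_lt hτ)

lemma first_order (hfv : FV L) {k N : ℕ} {X0 : Fin N → E} (h0 : ∀ i, X0 i ∈ S.S)
    (hinj : Function.Injective X0)
    (hmin : ∀ X : Fin N → E, (∀ i, X i ∈ S.S) → Function.Injective X → Et L k X0 ≤ Et L k X)
    (i : Fin N) {ξ : E} (hξ : S.P (X0 i) ξ = ξ) :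
    ∑ j, (if j = i then 0 else sv L k (X0 i) (X0 j) * ⟪ξ, L.u (X0 i, X0 j)⟫_ℝ -
      sv L k (X0 j) (X0 i) * ⟪ξ, L.w (X0 j, X0 i)⟫_ℝ) = 0 := by
  classical
  set x : ℝ → E := fun τ => S.π (X0 i + τ • ξ) with hxdef
  have hx00 : x 0 = X0 i := by
    simp only [hxdef, zero_smul, add_zero]
    exact S.hπS _ (h0 i)
  have hx : HasDerivAt x ξ 0 := by
    have h1 : HasDerivAt (fun τ : ℝ => X0 i + τ • ξ) ξ 0 := by
      have := ((hasDerivAt_id (0 : ℝ)).smul_const ξ).const_add (X0 i)
      simpa using this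
    have h2 : HasFDerivAt S.π (S.P (X0 i)) (X0 i + (0 : ℝ) • ξ) := by
      rw [zero_smul, add_zero]
      exact S.hasFDerivAt_π _
    have h3 := h2.comp_hasDerivAt (0 : ℝ) h1
    rw [hξ] at h3
    exact h3
  have hxS : ∀ᶠ τ in 𝓝 (0:ℝ), x τ ∈ S.S := by
    have h1 : ContinuousAt (fun τ : ℝ => X0 i + τ • ξ) 0 := by fun_prop
    have h2 : ∀ᶠ τ in 𝓝 (0:ℝ), X0 i + τ • ξ ∈ S.U := by
      apply h1.eventually
      have h9 : (fun τ : ℝ => X0 i + τ • ξ) 0 = X0 i := by simp
      rw [h9]
      exact S.hU.mem_nhds (S.hSU (h0 i))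
    filter_upwards [h2] with τ hτ
    exact S.hπU _ hτ
  have hxne : ∀ᶠ τ in 𝓝 (0:ℝ), ∀ j, j ≠ i → x τ ≠ X0 j := by
    rw [Filter.eventually_all]
    intro j
    by_cases hj : j = i
    · filter_upwards with τ h
      exact absurd hj h
    · have : x 0 ≠ X0 j := by
        rw [hx00]
        exact fun h => hj (hinj h).symm
      filter_upwards [hx.continuousAt.eventually_ne this] with τ hτ _
      exact hτ
  -- derivative of the energy
  have hF : HasDerivAt (fun τ => Et L k (Function.update X0 i (x τ)))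
      (∑ j, (if j = i then 0 else sv L k (X0 i) (X0 j) * ⟪ξ, L.u (X0 i, X0 j)⟫_ℝ -
      sv L k (X0 j) (X0 i) * ⟪ξ, L.w (X0 j, X0 i)⟫_ℝ)) 0 := by
    simp_rw [Et_update]
    refine HasDerivAt.const_add _ ?_
    refine HasDerivAt.fun_sum fun j _ => ?_
    by_cases hj : j = i
    · simp only [hj, if_true]
      exact hasDerivAt_const _ _
    · simp only [hj, if_false]
      have hne : x 0 ≠ X0 j := by
        rw [hx00]
        exact fun h => hj (hinj h).symm
      have h1 := en_deriv hfv k hx (hasDerivAt_const (0 : ℝ) (X0 j)) hxS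
        (Filter.Eventually.of_forall fun _ => h0 j) hne
      have h2 := en_deriv hfv k (hasDerivAt_const (0 : ℝ) (X0 j)) hx
        (Filter.Eventually.of_forall fun _ => h0 j) hxS hne.symm
      have h3 : HasDerivAt (fun τ => en L k (x τ) (X0 j) + en L k (X0 j) (x τ))
        (sv L k (x 0) (X0 j) * (⟪ξ, L.u (x 0, X0 j)⟫_ℝ - ⟪(0 : E), L.w (x 0, X0 j)⟫_ℝ) +
        sv L k (X0 j) (x 0) * (⟪(0 : E), L.u (X0 j, x 0)⟫_ℝ - ⟪ξ, L.w (X0 j, x 0)⟫_ℝ)) 0 := h1.add h2
      have h4 : sv L k (x 0) (X0 j) * (⟪ξ, L.u (x 0, X0 j)⟫_ℝ - ⟪(0 : E), L.w (x 0, X0 j)⟫_ℝ) +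
        sv L k (X0 j) (x 0) * (⟪(0 : E), L.u (X0 j, x 0)⟫_ℝ - ⟪ξ, L.w (X0 j, x 0)⟫_ℝ) =
        sv L k (X0 i) (X0 j) * ⟪ξ, L.u (X0 i, X0 j)⟫_ℝ -
          sv L k (X0 j) (X0 i) * ⟪ξ, L.w (X0 j, X0 i)⟫_ℝ := by
        rw [hx00, inner_zero_left, inner_zero_left]
        ring
      rw [h4] at h3
      exact h3
  have hloc : IsLocalMin (fun τ => Et L k (Function.update X0 i (x τ))) 0 := by
    filter_upwards [hxS, hxne] with τ h1 h2
    rw [hx00, Function.update_eq_self]
    apply hmin
    · intro a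
      by_cases ha : a = i
      · subst ha
        rw [Function.update_self]
        exact h1
      · rw [Function.update_of_ne ha]
        exact h0 a
    · intro a b hab
      by_cases ha : a = i
      · by_cases hb : b = i
        · rw [ha, hb]
        · rw [ha, Function.update_self, Function.update_of_ne hb] at hab
          exact absurd hab (h2 b hb)
      · by_cases hb : b = i
        · rw [hb, Function.update_self, Function.update_of_ne ha] at hab
          exact absurd hab.symm (h2 a ha)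
        · rw [Function.update_of_ne ha, Function.update_of_ne hb] at hab
          exact hinj hab
  exact hloc.hasDerivAt_eq_zero hF

lemma w_tan {x y : E} (hx : x ∈ S.S) (hy : y ∈ S.S) (h : ‖x - y‖ < L.ρ) (hne : x ≠ y) :
    S.P y (L.w (x, y)) = L.w (x, y) := by
  obtain ⟨n, hn⟩ := L.exists_frame hx hy h hne
  have h1 := L.Φ_frame hx hy h hne hn
  have h2 := (S.Φ_FB hn (L.len (x, y))).2.1
  rw [h1.1, h1.2] at h2
  exact h2

/-- TASK T5 (minimal configurations: fine, with a positive equilibrium stress). -/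
theorem min_conf (L : LE S) (hfv : FV L) (hne : S.S.Nonempty) (ε : ℝ) (hε : 0 < ε) :
    ∃ (N : ℕ) (X : Fin N → E) (s : Fin N → Fin N → ℝ), StressConf L N X s ∧
      ∀ z ∈ S.S, ∃ i, ‖z - X i‖ < ε := by
  classical
  set ε' := min ε (L.r / 2) with hε'
  have hr := L.r_pos
  have hε'0 : 0 < ε' := lt_min hε (by positivity)
  have hε'r : ε' < L.r := (min_le_right _ _).trans_lt (by linarith)
  obtain ⟨δ, hδ, hW⟩ := W_small (L := L) (η := ε' / 2) (by positivity)
  obtain ⟨t, hts, htf, htc⟩ := S.cpt.finite_cover_balls (show 0 < δ / 2 by positivity)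
  set T := htf.toFinset with hT
  set N := T.card + 1 with hN
  have hinf := S_infinite L hne
  set e := hinf.natEmbedding with he
  obtain ⟨X, hX, hinj, hmin⟩ := exists_min (L := L) (N + 1) (N := N)
    (fun i => ((e i : S.S) : E)) (fun i => (e i).2) (by
      intro i j h
      exact Fin.ext (e.injective (Subtype.ext h)))
  have h2N : 2 * N ≤ 2 ^ (N + 1) := by
    have := (Nat.lt_two_pow_self (n := N)).le
    rw [pow_succ]
    omega
  -- pigeonhole
  have hpair : ∃ i j, i ≠ j ∧ ‖X i - X j‖ < L.ρ ∧ L.len (X i, X j) ≤ ε' / 2 := by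
    have h1 : ∀ i, ∃ c ∈ T, X i ∈ ball c (δ / 2) := by
      intro i
      have := htc (hX i)
      simp only [mem_iUnion] at this
      obtain ⟨c, hc, hc2⟩ := this
      exact ⟨c, htf.mem_toFinset.2 hc, hc2⟩
    choose c hc hc2 using h1
    obtain ⟨i, -, j, -, hij, hcij⟩ := Finset.exists_ne_map_eq_of_card_lt_of_maps_to
      (s := (Finset.univ : Finset (Fin N))) (t := T) (by
        rw [Finset.card_univ, Fintype.card_fin]
        omega) (f := c) (fun i _ => hc i)
    have h3 : ‖X i - X j‖ < δ := by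
      rw [← dist_eq_norm]
      have h4 := hc2 i
      have h5 := hc2 j
      rw [← hcij] at h5
      rw [mem_ball] at h4 h5
      calc dist (X i) (X j) ≤ dist (X i) (c i) + dist (c i) (X j) := dist_triangle _ _ _
        _ < δ / 2 + δ / 2 := by
            rw [dist_comm (c i) (X j)]
            exact add_lt_add h4 h5
        _ = δ := by ring
    obtain ⟨h6, h7⟩ := hW _ (hX i) _ (hX j) h3
    exact ⟨i, j, hij, h6, h7⟩
  have hfine := fine hX hinj hmin hε'0 hε'r h2N hpair
  refine ⟨N, X, fun i j => if i = j then 0 else sv L (N + 1) (X i) (X j), ⟨hX, hinj, ?_, ?_, ?_⟩, ?_⟩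
  · intro i j
    split_ifs
    · exact le_rfl
    · unfold sv
      split_ifs
      · exact q'_nonneg _ hr
      · exact le_rfl
  · intro i j
    by_cases hij : i = j
    · subst hij
      simp only [if_true, lt_irrefl, false_iff]
      intro h
      exact h.2.2.1 rfl
    · simp only [hij, if_false]
      have hne' : X i ≠ X j := fun h => hij (hinj h)
      unfold sv
      constructor
      · intro h
        split_ifs at h with h1
        · exact ⟨hX i, hX j, hne', h1, (q'_pos _ hr (L.W_ne (hX i) (hX j) h1 hne')).1 h⟩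
        · exact absurd h (lt_irrefl _)
      · intro h
        rw [if_pos h.2.2.2.1]
        exact (q'_pos _ hr (L.W_ne (hX i) (hX j) h.2.2.2.1 hne')).2 h.2.2.2.2
  · intro i
    set v : E := ∑ j, (if i = j then 0 else sv L (N + 1) (X i) (X j)) • L.u (X i, X j) -
      ∑ j, (if j = i then 0 else sv L (N + 1) (X j) (X i)) • L.w (X j, X i) with hv
    have hPv : S.P (X i) v = v := by
      rw [hv, map_sub, map_sum, map_sum]
      congr 1
      · refine Finset.sum_congr rfl fun j _ => ?_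
        rw [map_smul]
        by_cases hij : i = j
        · simp [hij]
        · by_cases hd : ‖X i - X j‖ < L.ρ
          · rw [L.u_tan (hX i) (hX j) hd]
          · simp [hij, sv, hd]
      · refine Finset.sum_congr rfl fun j _ => ?_
        rw [map_smul]
        by_cases hij : j = i
        · simp [hij]
        · by_cases hd : ‖X j - X i‖ < L.ρ
          · rw [w_tan (hX j) (hX i) hd (fun h => hij (hinj h))]
          · simp [hij, sv, hd]
    have h1 := first_order hfv hX hinj hmin i hPv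
    have h2 : ⟪v, v⟫_ℝ = 0 := by
      rw [← h1]
      conv_lhs => rw [hv]
      rw [← hv, inner_sub_left, sum_inner, sum_inner, ← Finset.sum_sub_distrib]
      refine Finset.sum_congr rfl fun j _ => ?_
      rw [real_inner_smul_left, real_inner_smul_left]
      by_cases hij : j = i
      · simp [hij]
      · rw [if_neg (Ne.symm hij), if_neg hij, if_neg hij, real_inner_comm, real_inner_comm v]
    rw [inner_self_eq_zero] at h2
    rw [hv] at h2
    exact sub_eq_zero.1 h2
  · intro z hz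
    obtain ⟨i, hi⟩ := hfine z hz
    exact ⟨i, hi.trans_le (min_le_left _ _)⟩

end Pool.Agent.H864R3.T5
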