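import Pool.Agent.H864R3.Defs

set_option autoImplicit false
set_option linter.unusedVariables false
set_option linter.unusedSectionVars false

open Set Metric Filter Topology
open scoped ContDiff InnerProductSpace NNReal

namespace Pool.Agent.H864R3.T6

variable {E : Type} [NormedAddCommGroup E] [InnerProductSpace ℝ E] [FiniteDimensional ℝ E]

lemma exists_lim {X : Type} [TopologicalSpace X] {K : Set X} (hK : IsCompact K)
    (U : Ultrafilter ℕ) {s : ℕ → X} (hs : ∀ᶠ m in (U : Filter ℕ), s m ∈ K) :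
    ∃ x ∈ K, Tendsto s (U : Filter ℕ) (𝓝 x) := by
  obtain ⟨x, hx, h⟩ := hK.ultrafilter_le_nhds (U.map s)
    (by rw [Ultrafilter.coe_map]; exact le_principal_iff.2 hs)
  exact ⟨x, hx, h⟩

/-- passing to the limit in the equation, frames given -/
lemma eqn_lim0 {S : RS E} (L : LE S) (U : Ultrafilter ℕ) {v0 a0 v1 a1 : ℕ → E}
    {G : ℕ → E × E × E} {s : ℕ → ℝ} {f : E × E × E} {t : ℝ} {V0 A0 V1 A1 : E}
    (hG : Tendsto G (U : Filter ℕ) (𝓝 f)) (hs : Tendsto s (U : Filter ℕ) (𝓝 t))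
    (hv0 : Tendsto v0 (U : Filter ℕ) (𝓝 V0)) (ha0 : Tendsto a0 (U : Filter ℕ) (𝓝 A0))
    (hv1 : Tendsto v1 (U : Filter ℕ) (𝓝 V1)) (ha1 : Tendsto a1 (U : Filter ℕ) (𝓝 A1))
    (he : ∀ᶠ m in (U : Filter ℕ), S.eqn (G m) (s m) (v0 m) (a0 m) (v1 m) (a1 m)) :
    S.eqn f t V0 A0 V1 A1 := by
  have hft : Tendsto (fun m => (G m, s m)) (U : Filter ℕ) (𝓝 (f, t)) := hG.prodMk_nhds hs
  have c1 : Tendsto (fun m => S.sj' (G m) (s m)) (U : Filter ℕ) (𝓝 (S.sj' f t)) :=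
    (S.sj'_cont.tendsto (f, t)).comp hft
  have c2 : Tendsto (fun m => S.cj (G m) (s m)) (U : Filter ℕ) (𝓝 (S.cj f t)) :=
    (S.cj_cont.tendsto (f, t)).comp hft
  have c3 : Tendsto (fun m => S.sj (G m) (s m)) (U : Filter ℕ) (𝓝 (S.sj f t)) :=
    (S.sj_cont.tendsto (f, t)).comp hft
  have c4 : Tendsto (fun m => S.Φ (s m) (G m)) (U : Filter ℕ) (𝓝 (S.Φ t f)) :=
    (S.Φ_cont.tendsto (t, f)).comp (hs.prodMk_nhds hG)
  have g21 : Tendsto (fun m => (G m).2.1) (U : Filter ℕ) (𝓝 f.2.1) := hG.snd_nhds.fst_nhds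
  have g22 : Tendsto (fun m => (G m).2.2) (U : Filter ℕ) (𝓝 f.2.2) := hG.snd_nhds.snd_nhds
  have p21 : Tendsto (fun m => (S.Φ (s m) (G m)).2.1) (U : Filter ℕ) (𝓝 (S.Φ t f).2.1) :=
    c4.snd_nhds.fst_nhds
  have p22 : Tendsto (fun m => (S.Φ (s m) (G m)).2.2) (U : Filter ℕ) (𝓝 (S.Φ t f).2.2) :=
    c4.snd_nhds.snd_nhds
  have lhs := ((c1.mul ((hv1.inner (𝕜 := ℝ) p22).pow 2)).sub
    (((hv0.inner (𝕜 := ℝ) g22).const_mul 2).mul (hv1.inner (𝕜 := ℝ) p22))).add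
    (c2.mul ((hv0.inner (𝕜 := ℝ) g22).pow 2))
  have rhs := c3.mul ((ha0.inner (𝕜 := ℝ) g21).sub (ha1.inner (𝕜 := ℝ) p21))
  unfold RS.eqn
  refine tendsto_nhds_unique lhs (rhs.congr' ?_)
  filter_upwards [he] with m hm
  unfold RS.eqn at hm
  exact hm.symm

/-- flip of a frame -/
lemma flip_FB {S : RS E} {f : E × E × E} (hf : f ∈ S.FB) :
    ((f.1, f.2.1, -f.2.2) : E × E × E) ∈ S.FB := by
  obtain ⟨h1, h2, h3, h4, h5, h6⟩ := hf
  refine ⟨h1, h2, ?_, h4, ?_, ?_⟩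
  · show S.P f.1 (-f.2.2) = -f.2.2
    rw [map_neg, h3]
  · show ‖-f.2.2‖ = 1
    rw [norm_neg, h5]
  · show ⟪f.2.1, -f.2.2⟫_ℝ = 0
    rw [inner_neg_right, h6, neg_zero]

/-- the second vector of a frame is unique up to sign -/
lemma frame_unique {S : RS E} {f g : E × E × E} (hf : f ∈ S.FB) (hg : g ∈ S.FB)
    (h1 : g.1 = f.1) (h2 : g.2.1 = f.2.1) : g.2.2 = f.2.2 ∨ g.2.2 = -f.2.2 := by
  have hg3 : S.P f.1 g.2.2 = g.2.2 := by rw [← h1]; exact hg.2.2.1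
  have h3 := S.frame_expand hf hg3
  have h4 : ⟪g.2.2, f.2.1⟫_ℝ = 0 := by rw [← h2, real_inner_comm]; exact hg.2.2.2.2.2
  rw [h4, zero_smul, zero_add] at h3
  have h5 : ‖⟪g.2.2, f.2.2⟫_ℝ • f.2.2‖ = 1 := by rw [← h3]; exact hg.2.2.2.2.1
  rw [norm_smul, hf.2.2.2.2.1, mul_one, Real.norm_eq_abs] at h5
  rcases (abs_eq zero_le_one).1 h5 with h6 | h6
  · left; rw [h6, one_smul] at h3; exact h3
  · right; rw [h6, neg_one_smul] at h3; exact h3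

/-- passing to the limit in the equation -/
lemma eqn_lim {S : RS E} (L : LE S) (U : Ultrafilter ℕ) {x y v0 a0 v1 a1 : ℕ → E}
    {f : E × E × E} (hf : f ∈ S.FB) {t : ℝ} (h0 : 0 < t) (h1 : t < L.r) {V0 A0 V1 A1 : E}
    (hxS : ∀ᶠ m in (U : Filter ℕ), x m ∈ S.S) (hyS : ∀ᶠ m in (U : Filter ℕ), y m ∈ S.S)
    (hx : Tendsto x (U : Filter ℕ) (𝓝 f.1)) (hy : Tendsto y (U : Filter ℕ) (𝓝 (S.Φ t f).1))
    (hv0 : Tendsto v0 (U : Filter ℕ) (𝓝 V0)) (ha0 : Tendsto a0 (U : Filter ℕ) (𝓝 A0))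
    (hv1 : Tendsto v1 (U : Filter ℕ) (𝓝 V1)) (ha1 : Tendsto a1 (U : Filter ℕ) (𝓝 A1))
    (he : ∀ᶠ m in (U : Filter ℕ), ∀ g ∈ S.FB, ∀ s : ℝ, 0 < s → s < L.r → g.1 = x m →
      (S.Φ s g).1 = y m → S.eqn g s (v0 m) (a0 m) (v1 m) (a1 m)) :
    S.eqn f t V0 A0 V1 A1 := by
  obtain ⟨hE, hlen, hu, hw⟩ := L.edge_of_frame hf h0 h1
  set y0 := (S.Φ t f).1 with hy0
  have hO : (f.1, y0) ∈ L.O := L.O_mem _ hE.1 _ hE.2.1 hE.2.2.2.1
  have hWc : ContinuousAt L.W (f.1, y0) := L.smooth.continuousOn.continuousAt (L.O_open.mem_nhds hO)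
  have hxy : Tendsto (fun m => (x m, y m)) (U : Filter ℕ) (𝓝 (f.1, y0)) := hx.prodMk_nhds hy
  have hW : Tendsto (fun m => L.W (x m, y m)) (U : Filter ℕ) (𝓝 (L.W (f.1, y0))) :=
    hWc.tendsto.comp hxy
  have hlen' : Tendsto (fun m => L.len (x m, y m)) (U : Filter ℕ) (𝓝 t) := by
    have := hW.norm
    rw [← hlen]; exact this
  have hpos : ∀ᶠ m in (U : Filter ℕ), 0 < L.len (x m, y m) := hlen'.eventually (lt_mem_nhds h0)
  have hlt : ∀ᶠ m in (U : Filter ℕ), L.len (x m, y m) < L.r := hlen'.eventually (gt_mem_nhds h1)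
  have hdist : ∀ᶠ m in (U : Filter ℕ), ‖x m - y m‖ < L.ρ :=
    ((hx.sub hy).norm).eventually (gt_mem_nhds hE.2.2.2.1)
  have hEm : ∀ᶠ m in (U : Filter ℕ), L.Edge (x m) (y m) := by
    filter_upwards [hxS, hyS, hpos, hlt, hdist] with m m1 m2 m3 m4 m5
    refine ⟨m1, m2, fun he => ?_, m5, m4⟩
    unfold LE.len at m3
    rw [← he, L.W_self m1, norm_zero] at m3
    exact lt_irrefl _ m3
  have hWne : ‖L.W (f.1, y0)‖ ≠ 0 := by
    have : ‖L.W (f.1, y0)‖ = t := hlen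
    rw [this]; exact h0.ne'
  have huT : Tendsto (fun m => L.u (x m, y m)) (U : Filter ℕ) (𝓝 f.2.1) := by
    rw [← hu]
    exact (hW.norm.inv₀ hWne).smul hW
  -- the general step
  have key : ∀ G : ℕ → E × E × E, Tendsto G (U : Filter ℕ) (𝓝 f) →
      (∀ᶠ m in (U : Filter ℕ), G m ∈ S.FB ∧ (G m).1 = x m ∧ (G m).2.1 = L.u (x m, y m)) →
      S.eqn f t V0 A0 V1 A1 := by
    intro G hG hGm
    refine eqn_lim0 L U hG hlen' hv0 ha0 hv1 ha1 ?_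
    filter_upwards [hGm, hEm, hpos, hlt, he] with m m1 m2 m3 m4 m5
    obtain ⟨k1, k2, k3⟩ := m1
    refine m5 (G m) k1 _ m3 m4 k2 ?_
    have hGe : G m = (x m, L.u (x m, y m), (G m).2.2) := Prod.ext k2 (Prod.ext k3 rfl)
    have hF : (x m, L.u (x m, y m), (G m).2.2) ∈ S.FB := by rw [← hGe]; exact k1
    have := (L.Φ_frame m2.1 m2.2.1 m2.2.2.2.1 m2.2.2.1 hF).1
    rw [← hGe] at this
    exact this
  have hfr : ∀ᶠ m in (U : Filter ℕ), L.fr (x m, y m) ∈ S.FB ∧ (L.fr (x m, y m)).1 = x m ∧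
      (L.fr (x m, y m)).2.1 = L.u (x m, y m) := by
    filter_upwards [hEm] with m hm
    exact LE.fr_spec hm
  obtain ⟨g0, hg0, hgt⟩ := exists_lim S.FB_compact U (s := fun m => L.fr (x m, y m))
    (hfr.mono fun m hm => hm.1)
  have e1 : g0.1 = f.1 := by
    refine tendsto_nhds_unique hgt.fst_nhds (hx.congr' ?_)
    filter_upwards [hfr] with m hm
    exact hm.2.1.symm
  have e2 : g0.2.1 = f.2.1 := by
    refine tendsto_nhds_unique hgt.snd_nhds.fst_nhds (huT.congr' ?_)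
    filter_upwards [hfr] with m hm
    exact hm.2.2.symm
  rcases frame_unique hf hg0 e1 e2 with e3 | e3
  · refine key (fun m => L.fr (x m, y m)) ?_ hfr
    have : g0 = f := Prod.ext e1 (Prod.ext e2 e3)
    rw [← this]; exact hgt
  · refine key (fun m => ((L.fr (x m, y m)).1, (L.fr (x m, y m)).2.1, -(L.fr (x m, y m)).2.2)) ?_ ?_
    · have : f = (g0.1, g0.2.1, -g0.2.2) := Prod.ext e1.symm (Prod.ext e2.symm (by
        show f.2.2 = -g0.2.2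
        rw [e3, neg_neg]))
      rw [this]
      exact hgt.fst_nhds.prodMk_nhds (hgt.snd_nhds.fst_nhds.prodMk_nhds hgt.snd_nhds.snd_nhds.neg)
    · filter_upwards [hfr] with m hm
      exact ⟨flip_FB hm.1, hm.2.1, hm.2.2⟩

/-- the hypothesis on discrete pairs -/
def Dis {S : RS E} (L : LE S) (Q : Finset E) (v a : E → E) : Prop :=
  (∀ x ∈ Q, S.P x (v x) = v x) ∧ (∀ x ∈ Q, S.P x (a x) = a x) ∧
    ∀ f ∈ S.FB, ∀ t : ℝ, 0 < t → t < L.r → f.1 ∈ Q → (S.Φ t f).1 ∈ Q →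
      S.eqn f t (v f.1) (a f.1) (v (S.Φ t f).1) (a (S.Φ t f).1)

/-- limit of pairs of discrete fields -/
lemma limit_pair {S : RS E} (L : LE S)
    (hK : ∀ v a : E → E, (∀ x ∈ S.S, S.P x (v x) = v x) → (∀ x ∈ S.S, S.P x (a x) = a x) →
      (∃ C, ∀ x ∈ S.S, ‖v x‖ ≤ C ∧ ‖a x‖ ≤ C) →
      (∀ f ∈ S.FB, ∀ t : ℝ, 0 < t → t < L.r →
        S.eqn f t (v f.1) (a f.1) (v (S.Φ t f).1) (a (S.Φ t f).1)) →
      ContinuousOn v S.S ∧ ContinuousOn a S.S ∧ v ∈ L.KF)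
    (hU : ∀ v a : E → E, (∀ x ∈ S.S, S.P x (v x) = v x) → (∀ x ∈ S.S, S.P x (a x) = a x) →
      (∃ C, ∀ x ∈ S.S, ‖v x‖ ≤ C ∧ ‖a x‖ ≤ C) →
      (∀ f ∈ S.FB, ∀ t : ℝ, 0 < t → t < L.r →
        S.eqn f t (v f.1) (a f.1) (v (S.Φ t f).1) (a (S.Φ t f).1)) →
      ∀ z ∈ S.S, ∀ v' a' : E, S.P z v' = v' → S.P z a' = a' →
      (∀ f ∈ S.FB, f.1 = z → ∀ t : ℝ, 0 < t → t < L.r →
        S.eqn f t v' a' (v (S.Φ t f).1) (a (S.Φ t f).1)) → v' = v z ∧ a' = a z)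
    (U : Ultrafilter ℕ) (hUle : (U : Filter ℕ) ≤ atTop)
    (Q : ℕ → Finset E) (hQ : ∀ m, ∀ x ∈ Q m, x ∈ S.S)
    (hd : ∀ m : ℕ, ∀ z ∈ S.S, ∃ x ∈ Q m, ‖z - x‖ < 1 / ((m : ℝ) + 1))
    (v a : ℕ → E → E) (C : ℝ)
    (hb : ∀ᶠ m in (U : Filter ℕ), ∀ x ∈ Q m, ‖v m x‖ ≤ C ∧ ‖a m x‖ ≤ C)
    (he : ∀ m, Dis L (Q m) (v m) (a m)) :
    ∃ V A : E → E, V ∈ L.KF ∧ ContinuousOn A S.S ∧ (∀ x ∈ S.S, S.P x (A x) = A x) ∧
      (∀ f ∈ S.FB, ∀ t : ℝ, 0 < t → t < L.r →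
        S.eqn f t (V f.1) (A f.1) (V (S.Φ t f).1) (A (S.Φ t f).1)) ∧
      (∀ x ∈ S.S, ∃ q : ℕ → E, (∀ m, q m ∈ Q m) ∧
        Tendsto (fun m => v m (q m)) (U : Filter ℕ) (𝓝 (V x))) ∧
      ∀ ε > 0, ∀ᶠ m in (U : Filter ℕ), ∀ x ∈ Q m, ‖v m x - V x‖ < ε ∧ ‖a m x - A x‖ < ε := by
  classical
  -- limits along sequences
  have hlim : ∀ (z : ℕ → E), (∀ᶠ m in (U : Filter ℕ), z m ∈ Q m) → ∃ V A : E, ‖V‖ ≤ C ∧ ‖A‖ ≤ C ∧
      Tendsto (fun m => v m (z m)) (U : Filter ℕ) (𝓝 V) ∧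
      Tendsto (fun m => a m (z m)) (U : Filter ℕ) (𝓝 A) := by
    intro z hz
    obtain ⟨V, hV, hVt⟩ := exists_lim (isCompact_closedBall (0:E) C) U
      (s := fun m => v m (z m)) (by
        filter_upwards [hz, hb] with m m1 m2
        rw [mem_closedBall_zero_iff]
        exact (m2 _ m1).1)
    obtain ⟨A, hA, hAt⟩ := exists_lim (isCompact_closedBall (0:E) C) U
      (s := fun m => a m (z m)) (by
        filter_upwards [hz, hb] with m m1 m2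
        rw [mem_closedBall_zero_iff]
        exact (m2 _ m1).2)
    rw [mem_closedBall_zero_iff] at hV hA
    exact ⟨V, A, hV, hA, hVt, hAt⟩
  -- tangency passes to the limit
  have htan : ∀ (z w : ℕ → E) (z0 w0 : E), Tendsto z (U : Filter ℕ) (𝓝 z0) →
      Tendsto w (U : Filter ℕ) (𝓝 w0) → (∀ᶠ m in (U : Filter ℕ), S.P (z m) (w m) = w m) →
      S.P z0 w0 = w0 := by
    intro z w z0 w0 hz hw h
    have hc : Continuous (fun p : E × E => S.P p.1 p.2) :=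
      (S.P_cont.comp continuous_fst).clm_apply continuous_snd
    have h1 : Tendsto (fun m => S.P (z m) (w m)) (U : Filter ℕ) (𝓝 (S.P z0 w0)) :=
      (hc.tendsto (z0, w0)).comp (hz.prodMk_nhds hw)
    exact tendsto_nhds_unique h1 (hw.congr' (h.mono fun m hm => hm.symm))
  choose! q hq1 hq2 using hd
  have hqt : ∀ x ∈ S.S, Tendsto (fun m => q m x) (U : Filter ℕ) (𝓝 x) := by
    intro x hx
    have h1 : Tendsto (fun m : ℕ => q m x) atTop (𝓝 x) := by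
      rw [tendsto_iff_norm_sub_tendsto_zero]
      refine squeeze_zero (fun m => norm_nonneg _) (fun m => ?_) tendsto_one_div_add_atTop_nhds_zero_nat
      rw [norm_sub_rev]
      exact (hq2 m x hx).le
    exact h1.mono_left hUle
  have hex : ∀ x : E, ∃ VA : E × E, x ∈ S.S → (‖VA.1‖ ≤ C ∧ ‖VA.2‖ ≤ C ∧
      Tendsto (fun m => v m (q m x)) (U : Filter ℕ) (𝓝 VA.1) ∧
      Tendsto (fun m => a m (q m x)) (U : Filter ℕ) (𝓝 VA.2)) := by
    intro x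
    by_cases hx : x ∈ S.S
    · obtain ⟨V, A, h1, h2, h3, h4⟩ := hlim (fun m => q m x)
        (Eventually.of_forall fun m => hq1 m x hx)
      exact ⟨(V, A), fun _ => ⟨h1, h2, h3, h4⟩⟩
    · exact ⟨(0, 0), fun h => absurd h hx⟩
  choose VA hVA using hex
  set V : E → E := fun x => (VA x).1 with hVdef
  set A : E → E := fun x => (VA x).2 with hAdef
  have hVP : ∀ x ∈ S.S, S.P x (V x) = V x := by
    intro x hx
    refine htan (fun m => q m x) (fun m => v m (q m x)) x (V x) (hqt x hx) (hVA x hx).2.2.1 ?_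
    exact Eventually.of_forall fun m => (he m).1 _ (hq1 m x hx)
  have hAP : ∀ x ∈ S.S, S.P x (A x) = A x := by
    intro x hx
    refine htan (fun m => q m x) (fun m => a m (q m x)) x (A x) (hqt x hx) (hVA x hx).2.2.2 ?_
    exact Eventually.of_forall fun m => (he m).2.1 _ (hq1 m x hx)
  have hbd : ∃ C, ∀ x ∈ S.S, ‖V x‖ ≤ C ∧ ‖A x‖ ≤ C :=
    ⟨C, fun x hx => ⟨(hVA x hx).1, (hVA x hx).2.1⟩⟩
  -- general equation
  have hgen : ∀ (z : ℕ → E) (z0 V' A' : E), (∀ᶠ m in (U : Filter ℕ), z m ∈ Q m) →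
      Tendsto z (U : Filter ℕ) (𝓝 z0) →
      Tendsto (fun m => v m (z m)) (U : Filter ℕ) (𝓝 V') →
      Tendsto (fun m => a m (z m)) (U : Filter ℕ) (𝓝 A') →
      ∀ f ∈ S.FB, f.1 = z0 → ∀ t : ℝ, 0 < t → t < L.r →
        S.eqn f t V' A' (V (S.Φ t f).1) (A (S.Φ t f).1) := by
    intro z z0 V' A' hz hzt hV' hA' f hf hf1 t h0 h1
    have hy : (S.Φ t f).1 ∈ S.S := (S.Φ_FB hf t).1
    refine eqn_lim L U (x := z) (y := fun m => q m (S.Φ t f).1) hf h0 h1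
      (hz.mono fun m hm => hQ m _ hm) (Eventually.of_forall fun m => hQ m _ (hq1 m _ hy))
      (by rw [hf1]; exact hzt) (hqt _ hy) hV' hA' (hVA _ hy).2.2.1 (hVA _ hy).2.2.2 ?_
    filter_upwards [hz] with m hm
    intro g hg s h2 h3 h4 h5
    have := (he m).2.2 g hg s h2 h3 (by rw [h4]; exact hm) (by rw [h5]; exact hq1 m _ hy)
    rw [h4, h5] at this
    exact this
  have heq : ∀ f ∈ S.FB, ∀ t : ℝ, 0 < t → t < L.r →
      S.eqn f t (V f.1) (A f.1) (V (S.Φ t f).1) (A (S.Φ t f).1) := by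
    intro f hf t h0 h1
    exact hgen (fun m => q m f.1) f.1 (V f.1) (A f.1)
      (Eventually.of_forall fun m => hq1 m _ hf.1) (hqt _ hf.1) (hVA _ hf.1).2.2.1
      (hVA _ hf.1).2.2.2 f hf rfl t h0 h1
  obtain ⟨hVc, hAc, hVK⟩ := hK V A hVP hAP hbd heq
  refine ⟨V, A, hVK, hAc, hAP, heq, fun x hx => ⟨fun m => q m x, fun m => hq1 m x hx,
    (hVA x hx).2.2.1⟩, fun ε hε => ?_⟩
  -- uniform convergence
  by_contra hcon
  have hcon' : ∀ᶠ m in (U : Filter ℕ), ¬ ∀ x ∈ Q m, ‖v m x - V x‖ < ε ∧ ‖a m x - A x‖ < ε := by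
    rw [Ultrafilter.eventually_not]; exact hcon
  have hch : ∀ m, ∃ z : E, (¬ ∀ x ∈ Q m, ‖v m x - V x‖ < ε ∧ ‖a m x - A x‖ < ε) →
      z ∈ Q m ∧ ¬ (‖v m z - V z‖ < ε ∧ ‖a m z - A z‖ < ε) := by
    intro m
    by_cases h : ∀ x ∈ Q m, ‖v m x - V x‖ < ε ∧ ‖a m x - A x‖ < ε
    · exact ⟨0, fun h' => absurd h h'⟩
    · have h' := h
      push Not at h'
      obtain ⟨z, hz, hz2⟩ := h'
      refine ⟨z, fun _ => ⟨hz, fun hh => ?_⟩⟩
      exact absurd hh.2 (not_lt.2 (hz2 hh.1))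
  choose z hz using hch
  have hzQ : ∀ᶠ m in (U : Filter ℕ), z m ∈ Q m := hcon'.mono fun m hm => (hz m hm).1
  obtain ⟨z0, hz0, hzt⟩ := exists_lim S.cpt U (s := z) (hzQ.mono fun m hm => hQ m _ hm)
  obtain ⟨V', A', _, _, hV', hA'⟩ := hlim z hzQ
  have hV'P : S.P z0 V' = V' := htan z _ z0 V' hzt hV' (hzQ.mono fun m hm => (he m).1 _ hm)
  have hA'P : S.P z0 A' = A' := htan z _ z0 A' hzt hA' (hzQ.mono fun m hm => (he m).2.1 _ hm)
  obtain ⟨k1, k2⟩ := hU V A hVP hAP hbd heq z0 hz0 V' A' hV'P hA'P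
    (hgen z z0 V' A' hzQ hzt hV' hA')
  have hzW : Tendsto z (U : Filter ℕ) (𝓝[S.S] z0) :=
    tendsto_nhdsWithin_iff.2 ⟨hzt, hzQ.mono fun m hm => hQ m _ hm⟩
  have hVz : Tendsto (fun m => V (z m)) (U : Filter ℕ) (𝓝 (V z0)) := (hVc z0 hz0).tendsto.comp hzW
  have hAz : Tendsto (fun m => A (z m)) (U : Filter ℕ) (𝓝 (A z0)) := (hAc z0 hz0).tendsto.comp hzW
  have d1 : Tendsto (fun m => ‖v m (z m) - V (z m)‖) (U : Filter ℕ) (𝓝 0) := by
    have := (hV'.sub hVz).norm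
    rwa [k1, sub_self, norm_zero] at this
  have d2 : Tendsto (fun m => ‖a m (z m) - A (z m)‖) (U : Filter ℕ) (𝓝 0) := by
    have := (hA'.sub hAz).norm
    rwa [k2, sub_self, norm_zero] at this
  have hfin : ∀ᶠ m in (U : Filter ℕ), False := by
    filter_upwards [hcon', d1.eventually (gt_mem_nhds hε), d2.eventually (gt_mem_nhds hε)]
      with m m1 m2 m3
    exact (hz m m1).2 ⟨m2, m3⟩
  exact (hfin.exists).elim fun _ h => h

/-- weak Killing fields form a subspace -/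
def KFs {S : RS E} (L : LE S) : Submodule ℝ (E → E) where
  carrier := L.KF
  zero_mem' := by
    refine ⟨continuousOn_const, fun x _ => map_zero _, fun f _ t _ _ => ?_⟩
    show ⟪(0 : E), (S.Φ t f).2.1⟫_ℝ = ⟪(0 : E), f.2.1⟫_ℝ
    rw [inner_zero_left, inner_zero_left]
  add_mem' := by
    rintro a b ⟨a1, a2, a3⟩ ⟨b1, b2, b3⟩
    refine ⟨a1.add b1, fun x hx => ?_, fun f hf t h0 h1 => ?_⟩
    · show S.P x (a x + b x) = a x + b x
      rw [map_add, a2 x hx, b2 x hx]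
    · show ⟪a (S.Φ t f).1 + b (S.Φ t f).1, (S.Φ t f).2.1⟫_ℝ = ⟪a f.1 + b f.1, f.2.1⟫_ℝ
      rw [inner_add_left, inner_add_left, a3 f hf t h0 h1, b3 f hf t h0 h1]
  smul_mem' := by
    rintro c a ⟨a1, a2, a3⟩
    refine ⟨continuousOn_const.smul a1, fun x hx => ?_, fun f hf t h0 h1 => ?_⟩
    · show S.P x (c • a x) = c • a x
      rw [map_smul, a2 x hx]
    · show ⟪c • a (S.Φ t f).1, (S.Φ t f).2.1⟫_ℝ = ⟪c • a f.1, f.2.1⟫_ℝ
      rw [real_inner_smul_left, real_inner_smul_left, a3 f hf t h0 h1]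

/-- the maximum norm over a finite set -/
noncomputable def N (Q : Finset E) (u : E → E) : ℝ := ‖(fun x : Q => u x)‖

lemma N_nonneg (Q : Finset E) (u : E → E) : 0 ≤ N Q u := norm_nonneg _

lemma le_N {Q : Finset E} (u : E → E) {x : E} (hx : x ∈ Q) : ‖u x‖ ≤ N Q u :=
  norm_le_pi_norm (fun x : Q => u x) ⟨x, hx⟩

lemma N_le {Q : Finset E} {u : E → E} {C : ℝ} (hC : 0 ≤ C) (h : ∀ x ∈ Q, ‖u x‖ ≤ C) : N Q u ≤ C :=
  (pi_norm_le_iff_of_nonneg hC).2 fun x => h x.1 x.2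

/-- restriction to a finite set -/
def res (Q : Finset E) : (E → E) →ₗ[ℝ] (Q → E) where
  toFun u := fun x => u x
  map_add' _ _ := rfl
  map_smul' _ _ := rfl

lemma N_eq (Q : Finset E) (u : E → E) : N Q u = ‖res Q u‖ := rfl

lemma N_smul (Q : Finset E) (c : ℝ) (u : E → E) : N Q (c • u) = |c| * N Q u := by
  rw [N_eq, N_eq, map_smul, norm_smul, Real.norm_eq_abs]

lemma near_best (Q : Finset E) (F : Submodule ℝ (E → E)) (a : E → E) {δ : ℝ} (hδ : 0 < δ) :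
    ∃ κ ∈ F, ∀ κ' ∈ F, N Q (a - κ) ≤ δ + N Q (a - κ') := by
  have hne : ((F.map (res Q) : Submodule ℝ (Q → E)) : Set (Q → E)).Nonempty := ⟨0, Submodule.zero_mem _⟩
  obtain ⟨k, hk, hk2⟩ := (Metric.infDist_lt_iff hne (x := res Q a)
    (r := infDist (res Q a) (F.map (res Q) : Submodule ℝ (Q → E)) + δ)).1 (by linarith)
  obtain ⟨κ, hκ, rfl⟩ := Submodule.mem_map.1 hk
  refine ⟨κ, hκ, fun κ' hκ' => ?_⟩
  have h1 : infDist (res Q a) (F.map (res Q) : Submodule ℝ (Q → E)) ≤ dist (res Q a) (res Q κ') :=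
    Metric.infDist_le_dist_of_mem (Submodule.mem_map.2 ⟨κ', hκ', rfl⟩)
  rw [N_eq, N_eq, map_sub, map_sub, ← dist_eq_norm, ← dist_eq_norm]
  linarith

lemma normalise (Q : Finset E) (F : Submodule ℝ (E → E)) (v : E → E)
    (hv : ¬ ∃ κ ∈ F, ∀ x ∈ Q, v x = κ x) :
    ∃ κ ∈ F, ∃ c : ℝ, N Q (c • (v - κ)) ≤ 2 ∧ ∀ κ' ∈ F, 1 ≤ N Q (c • (v - κ) - κ') := by
  set K : Submodule ℝ (Q → E) := F.map (res Q) with hK
  have hne : (K : Set (Q → E)).Nonempty := ⟨0, Submodule.zero_mem _⟩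
  have hcl : IsClosed (K : Set (Q → E)) := K.closed_of_finiteDimensional
  have hnot : res Q v ∉ (K : Set (Q → E)) := by
    intro h
    obtain ⟨κ, hκ, h2⟩ := Submodule.mem_map.1 h
    apply hv
    refine ⟨κ, hκ, fun x hx => ?_⟩
    exact (congrFun h2 ⟨x, hx⟩).symm
  have hpos : 0 < infDist (res Q v) K := (hcl.notMem_iff_infDist_pos hne).1 hnot
  set d := infDist (res Q v) K with hd
  obtain ⟨k, hk, hk2⟩ := (Metric.infDist_lt_iff hne (x := res Q v) (r := 2 * d)).1 (by linarith)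
  obtain ⟨κ, hκ, rfl⟩ := Submodule.mem_map.1 hk
  refine ⟨κ, hκ, d⁻¹, ?_, fun κ' hκ' => ?_⟩
  · rw [N_smul, abs_of_pos (inv_pos.2 hpos), N_eq, map_sub, ← dist_eq_norm]
    rw [inv_mul_le_iff₀ hpos]
    linarith
  · have h1 : d ≤ dist (res Q v) (res Q (κ + d • κ')) :=
      Metric.infDist_le_dist_of_mem (Submodule.mem_map.2 ⟨κ + d • κ', F.add_mem hκ (F.smul_mem _ hκ'), rfl⟩)
    have h2 : d⁻¹ • (v - κ) - κ' = d⁻¹ • (v - (κ + d • κ')) := by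
      rw [sub_add_eq_sub_sub, smul_sub d⁻¹ (v - κ), smul_smul, inv_mul_cancel₀ hpos.ne', one_smul]
    rw [h2, N_smul, abs_of_pos (inv_pos.2 hpos), N_eq, map_sub, ← dist_eq_norm]
    rw [le_inv_mul_iff₀ hpos]
    linarith

/-- scaling of the equation -/
lemma eqn_scale {S : RS E} {f : E × E × E} {t : ℝ} {v0 a0 v1 a1 : E}
    (h : S.eqn f t v0 a0 v1 a1) (c : ℝ) :
    S.eqn f t (c • v0) (c ^ 2 • a0) (c • v1) (c ^ 2 • a1) := by
  unfold RS.eqn at h ⊢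
  simp only [real_inner_smul_left]
  linear_combination c ^ 2 * h

theorem compactness {S : RS E} (L : LE S)
    (hK : ∀ v a : E → E, (∀ x ∈ S.S, S.P x (v x) = v x) → (∀ x ∈ S.S, S.P x (a x) = a x) →
      (∃ C, ∀ x ∈ S.S, ‖v x‖ ≤ C ∧ ‖a x‖ ≤ C) →
      (∀ f ∈ S.FB, ∀ t : ℝ, 0 < t → t < L.r →
        S.eqn f t (v f.1) (a f.1) (v (S.Φ t f).1) (a (S.Φ t f).1)) →
      ContinuousOn v S.S ∧ ContinuousOn a S.S ∧ v ∈ L.KF)
    (hU : ∀ v a : E → E, (∀ x ∈ S.S, S.P x (v x) = v x) → (∀ x ∈ S.S, S.P x (a x) = a x) →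
      (∃ C, ∀ x ∈ S.S, ‖v x‖ ≤ C ∧ ‖a x‖ ≤ C) →
      (∀ f ∈ S.FB, ∀ t : ℝ, 0 < t → t < L.r →
        S.eqn f t (v f.1) (a f.1) (v (S.Φ t f).1) (a (S.Φ t f).1)) →
      ∀ z ∈ S.S, ∀ v' a' : E, S.P z v' = v' → S.P z a' = a' →
      (∀ f ∈ S.FB, f.1 = z → ∀ t : ℝ, 0 < t → t < L.r →
        S.eqn f t v' a' (v (S.Φ t f).1) (a (S.Φ t f).1)) → v' = v z ∧ a' = a z) :
    ∃ ε > 0, ∀ Q : Finset E, (∀ x ∈ Q, x ∈ S.S) → (∀ z ∈ S.S, ∃ x ∈ Q, ‖z - x‖ < ε) →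
      ∀ 𝒱 : Set (E → E),
        (∀ v ∈ 𝒱, (∀ x ∈ Q, S.P x (v x) = v x) ∧ ∃ a : E → E, (∀ x ∈ Q, S.P x (a x) = a x) ∧
          ∀ f ∈ S.FB, ∀ t : ℝ, 0 < t → t < L.r → f.1 ∈ Q → (S.Φ t f).1 ∈ Q →
            S.eqn f t (v f.1) (a f.1) (v (S.Φ t f).1) (a (S.Φ t f).1)) →
        (∀ v ∈ 𝒱, ∀ κ ∈ L.KF, ∀ c : ℝ, (fun x => c • (v x - κ x)) ∈ 𝒱) →
        ∀ v ∈ 𝒱, ∃ κ ∈ L.KF, ∀ x ∈ Q, v x = κ x := by
  classical
  by_contra hcon
  -- normalised counterexamples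
  have hex : ∀ m : ℕ, ∃ (Q : Finset E) (w b : E → E), (∀ x ∈ Q, x ∈ S.S) ∧
      (∀ z ∈ S.S, ∃ x ∈ Q, ‖z - x‖ < 1 / ((m : ℝ) + 1)) ∧ Dis L Q w b ∧ N Q w ≤ 2 ∧
      (∀ κ ∈ KFs L, 1 ≤ N Q (w - κ)) ∧ (∀ κ ∈ KFs L, N Q b ≤ 1 + N Q (b - κ)) := by
    intro m
    by_contra hno
    apply hcon
    refine ⟨1 / ((m : ℝ) + 1), by positivity, fun Q hQ hd 𝒱 h1 h2 v hv => ?_⟩
    by_contra hnot
    apply hno
    obtain ⟨κ, hκ, c, k1, k2⟩ := normalise Q (KFs L) v hnot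
    have hw : c • (v - κ) ∈ 𝒱 := h2 v hv κ hκ c
    obtain ⟨w1, a, w2, w3⟩ := h1 _ hw
    obtain ⟨μ, hμ, hμ2⟩ := near_best Q (KFs L) a zero_lt_one
    refine ⟨Q, c • (v - κ), a - μ, hQ, hd, ⟨w1, ?_, ?_⟩, k1, k2, ?_⟩
    · intro x hx
      show S.P x (a x - μ x) = a x - μ x
      rw [map_sub, w2 x hx, hμ.2.1 x (hQ x hx)]
    · intro f hf t h0 ht hx hy
      have h3 := w3 f hf t h0 ht hx hy
      have h4 := hμ.2.2 f hf t h0 ht
      unfold RS.eqn at h3 ⊢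
      rw [h3]
      simp only [Pi.sub_apply, inner_sub_left]
      rw [h4]
      ring
    · intro κ' hκ'
      have := hμ2 (μ + κ') ((KFs L).add_mem hμ hκ')
      rwa [sub_add_eq_sub_sub] at this
  choose Q w b hQ hd hdis hw1 hw2 hb using hex
  set U : Ultrafilter ℕ := hyperfilter ℕ with hUdef
  have hUle : (U : Filter ℕ) ≤ atTop := Nat.hyperfilter_le_atTop
  by_cases hcase : ∃ C, ∀ᶠ m in (U : Filter ℕ), N (Q m) (b m) ≤ C
  · obtain ⟨C, hC⟩ := hcase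
    obtain ⟨V, A, hV, _, _, _, _, hunif⟩ := limit_pair L hK hU U hUle Q hQ hd w b (max 2 C)
      (hC.mono fun m hm x hx => ⟨(le_N _ hx).trans ((hw1 m).trans (le_max_left _ _)),
        (le_N _ hx).trans (hm.trans (le_max_right _ _))⟩) hdis
    obtain ⟨m, hm⟩ := (hunif (1/2) (by norm_num)).exists
    have h1 := hw2 m V hV
    have h2 : N (Q m) (w m - V) ≤ 1/2 := N_le (by norm_num) fun x hx => (hm x hx).1.le
    linarith
  · have hcase' : ∀ C, ∀ᶠ m in (U : Filter ℕ), C < N (Q m) (b m) := by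
      intro C
      by_contra h
      apply hcase
      refine ⟨C, ?_⟩
      have h2 : ∀ᶠ m in (U : Filter ℕ), ¬ C < N (Q m) (b m) := by
        rw [Ultrafilter.eventually_not]; exact h
      exact h2.mono fun m hm => not_lt.1 hm
    set c : ℕ → ℝ := fun m => (Real.sqrt (N (Q m) (b m)))⁻¹ with hc
    have hc2 : ∀ m, c m ^ 2 = (N (Q m) (b m))⁻¹ := by
      intro m
      rw [hc]
      simp only
      rw [inv_pow, Real.sq_sqrt (N_nonneg _ _)]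
    have hc0 : ∀ m, 0 ≤ c m := fun m => inv_nonneg.2 (Real.sqrt_nonneg _)
    obtain ⟨V, A, hV, hAc, hAP, heq, hVlim, hunif⟩ := limit_pair L hK hU U hUle Q hQ hd
      (fun m => c m • w m) (fun m => c m ^ 2 • b m) 2
      (by
        filter_upwards [hcase' 1] with m hm x hx
        have hcm : c m ≤ 1 := by
          have : 1 ≤ Real.sqrt (N (Q m) (b m)) := by
            rw [Real.one_le_sqrt]; exact hm.le
          exact inv_le_one_of_one_le₀ this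
        constructor
        · show ‖c m • w m x‖ ≤ 2
          rw [norm_smul, Real.norm_eq_abs, abs_of_nonneg (hc0 m)]
          have := (le_N (w m) hx).trans (hw1 m)
          nlinarith [norm_nonneg (w m x), hc0 m]
        · show ‖c m ^ 2 • b m x‖ ≤ 2
          rw [norm_smul, hc2, Real.norm_eq_abs, abs_of_nonneg (inv_nonneg.2 (N_nonneg _ _))]
          rw [inv_mul_le_iff₀ (by linarith)]
          have := le_N (b m) hx
          nlinarith [N_nonneg (Q m) (b m)])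
      (fun m => ⟨fun x hx => by
          show S.P x (c m • w m x) = c m • w m x
          rw [map_smul, (hdis m).1 x hx], fun x hx => by
          show S.P x (c m ^ 2 • b m x) = c m ^ 2 • b m x
          rw [map_smul, (hdis m).2.1 x hx], fun f hf t h0 h1 hx hy =>
          eqn_scale ((hdis m).2.2 f hf t h0 h1 hx hy) (c m)⟩)
    -- the limit of the first component vanishes
    have hctend : Tendsto c (U : Filter ℕ) (𝓝 0) := by
      have h1 : Tendsto (fun m => N (Q m) (b m)) (U : Filter ℕ) atTop :=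
        tendsto_atTop.2 fun C => (hcase' C).mono fun m hm => hm.le
      exact (Real.tendsto_sqrt_atTop.comp h1).inv_tendsto_atTop
    have hV0 : ∀ x ∈ S.S, V x = 0 := by
      intro x hx
      obtain ⟨q, hq1, hq2⟩ := hVlim x hx
      refine tendsto_nhds_unique hq2 ?_
      rw [tendsto_zero_iff_norm_tendsto_zero]
      refine squeeze_zero (g := fun m => c m * 2) (fun m => norm_nonneg _) (fun m => ?_) ?_
      · show ‖c m • w m (q m)‖ ≤ c m * 2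
        rw [norm_smul, Real.norm_eq_abs, abs_of_nonneg (hc0 m)]
        exact mul_le_mul_of_nonneg_left ((le_N (w m) (hq1 m)).trans (hw1 m)) (hc0 m)
      · simpa using hctend.mul_const 2
    have hA : A ∈ KFs L := by
      refine ⟨hAc, hAP, fun f hf t h0 h1 => ?_⟩
      have h2 := heq f hf t h0 h1
      unfold RS.eqn at h2
      rw [hV0 _ hf.1, hV0 _ (S.Φ_FB hf t).1] at h2
      simp only [inner_zero_left] at h2
      have h3 : S.sj f t * (⟪A f.1, f.2.1⟫_ℝ - ⟪A (S.Φ t f).1, (S.Φ t f).2.1⟫_ℝ) = 0 := by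
        rw [← h2]; ring
      rcases mul_eq_zero.1 h3 with h4 | h4
      · exact absurd h4 (L.sj_pos hf h0 h1.le).ne'
      · linarith
    obtain ⟨m, hm1, hm2⟩ := ((hunif (1/4) (by norm_num)).and (hcase' 2)).exists
    set a := N (Q m) (b m) with ha
    have hapos : 0 < a := by linarith
    have h1 := hb m (a • A) ((KFs L).smul_mem _ hA)
    have h2 : N (Q m) (b m - a • A) ≤ a * (1/4) := by
      refine N_le (by positivity) fun x hx => ?_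
      have h3 := (hm1 x hx).2
      have h4 : (b m - a • A) x = a • ((c m ^ 2 • b m) x - A x) := by
        show b m x - a • A x = a • (c m ^ 2 • b m x - A x)
        rw [hc2, smul_sub, smul_smul, ← ha, mul_inv_cancel₀ hapos.ne', one_smul]
      rw [h4, norm_smul, Real.norm_eq_abs, abs_of_pos hapos]
      exact mul_le_mul_of_nonneg_left h3.le hapos.le
    rw [← ha] at h1
    linarith

end Pool.Agent.H864R3.T6
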