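import Pool.Agent.H864R3.Defs
import Pool.Agent.H864R3.T2
import Pool.Agent.H864R3.T4

/-! TASK T7 (helper541): perturbation of a configuration with a positive equilibrium stress to
integer multiplicities (implicit function theorem modulo Killing fields). -/

set_option autoImplicit false
set_option linter.unusedVariables false
set_option linter.unusedSectionVars false

open Set Metric Filter Topology
open scoped ContDiff InnerProductSpace NNReal

namespace Pool.Agent.H864R3.T7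

variable {E : Type} [NormedAddCommGroup E] [InnerProductSpace ℝ E] [FiniteDimensional ℝ E]
variable {S : RS E} {L : LE S} {N : ℕ}

lemma w_tan {x y : E} (h : L.Edge x y) : S.P y (L.w (x, y)) = L.w (x, y) := by
  obtain ⟨n, hf, h0, h1, h2, h3⟩ := h.frame
  have := (S.Φ_FB hf (L.len (x, y))).2.1
  rw [h2, h3] at this
  exact this

lemma KF_edge {κ : E → E} (hκ : κ ∈ L.KF) {x y : E} (h : L.Edge x y) :
    ⟪κ y, L.w (x, y)⟫_ℝ = ⟪κ x, L.u (x, y)⟫_ℝ := by
  obtain ⟨n, hf, h0, h1, h2, h3⟩ := h.frame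
  have := hκ.2.2 _ hf _ h0 h1
  rw [h2, h3] at this
  exact this

lemma O_mem {x y : E} (h : L.Edge x y) : (x, y) ∈ L.O := L.O_mem x h.1 y h.2.1 h.2.2.2.1

lemma W_smoothAt {x y : E} (h : L.Edge x y) : ContDiffAt ℝ ∞ L.W (x, y) :=
  (L.smooth _ (O_mem h)).contDiffAt (L.O_open.mem_nhds (O_mem h))

lemma W_ne {x y : E} (h : L.Edge x y) : L.W (x, y) ≠ 0 := by
  have := L.W_ne h.1 h.2.1 h.2.2.2.1 h.2.2.1
  exact norm_pos_iff.1 this

lemma u_smoothAt {x y : E} (h : L.Edge x y) : ContDiffAt ℝ ∞ L.u (x, y) := by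
  have h1 := W_smoothAt h
  have h2 : ContDiffAt ℝ ∞ (fun p => ‖L.W p‖⁻¹) (x, y) :=
    (h1.norm ℝ (W_ne h)).inv (norm_ne_zero_iff.2 (W_ne h))
  exact h2.smul h1

lemma w_smoothAt {x y : E} (h : L.Edge x y) : ContDiffAt ℝ ∞ L.w (x, y) := by
  have h1 := W_smoothAt h
  have h2 : ContDiffAt ℝ ∞ (fun p => ‖L.W p‖⁻¹) (x, y) :=
    (h1.norm ℝ (W_ne h)).inv (norm_ne_zero_iff.2 (W_ne h))
  have h3 : ContDiffAt ℝ ∞ (fun p : E × E => ((1 : ℝ), ((p.1, L.W p, (0 : E)) : E × E × E))) (x, y) :=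
    contDiffAt_const.prodMk (contDiffAt_fst.prodMk (h1.prodMk contDiffAt_const))
  have h4 : ContDiffAt ℝ ∞ (fun q : ℝ × (E × E × E) => (S.Φ q.1 q.2).2.1)
      ((1 : ℝ), ((x, L.W (x, y), (0 : E)) : E × E × E)) :=
    (contDiff_fst.comp (contDiff_snd.comp S.Φ_smooth)).contDiffAt
  have h5 : ContDiffAt ℝ ∞ ((fun q : ℝ × (E × E × E) => (S.Φ q.1 q.2).2.1) ∘
      (fun p : E × E => ((1 : ℝ), ((p.1, L.W p, (0 : E)) : E × E × E)))) (x, y) :=
    ContDiffAt.comp (x, y) h4 h3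
  have h5 : ContDiffAt ℝ ∞ L.om (x, y) := h5
  exact h2.smul h5

/-- edges are stable -/
lemma Edge_ev {α : Type} {l : Filter α} {a b : α → E} {x y : E} (h : L.Edge x y)
    (ha : Tendsto a l (𝓝 x)) (hb : Tendsto b l (𝓝 y)) (haS : ∀ᶠ t in l, a t ∈ S.S)
    (hbS : ∀ᶠ t in l, b t ∈ S.S) : ∀ᶠ t in l, L.Edge (a t) (b t) := by
  have hW : Tendsto (fun t => L.W (a t, b t)) l (𝓝 (L.W (x, y))) :=
    (W_smoothAt h).continuousAt.tendsto.comp (ha.prodMk_nhds hb)
  have e1 : ∀ᶠ t in l, a t ≠ b t := by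
    have := (ha.prodMk_nhds hb).eventually
      (isOpen_ne_fun (continuous_fst (X := E) (Y := E)) continuous_snd |>.mem_nhds h.2.2.1)
    exact this
  have e2 : ∀ᶠ t in l, ‖a t - b t‖ < L.ρ :=
    ((ha.sub hb).norm).eventually (gt_mem_nhds h.2.2.2.1)
  have e3 : ∀ᶠ t in l, ‖L.W (a t, b t)‖ < L.r := hW.norm.eventually (gt_mem_nhds h.2.2.2.2)
  filter_upwards [haS, hbS, e1, e2, e3] with t h1 h2 h3 h4 h5
  exact ⟨h1, h2, h3, h4, h5⟩

/-- force of a stress on a configuration -/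
noncomputable def FF (L : LE S) (s : Fin N → Fin N → ℝ) (Y : Fin N → E) (i : Fin N) : E :=
  ∑ j, s i j • L.u (Y i, Y j) - ∑ j, s j i • L.w (Y j, Y i)

lemma FF_KF {s : Fin N → Fin N → ℝ} {Y : Fin N → E} (hs : ∀ i j, s i j ≠ 0 → L.Edge (Y i) (Y j))
    {κ : E → E} (hκ : κ ∈ L.KF) : ∑ i, ⟪FF L s Y i, κ (Y i)⟫_ℝ = 0 := by
  unfold FF
  simp_rw [inner_sub_left, sum_inner, real_inner_smul_left]
  rw [Finset.sum_sub_distrib]
  rw [Finset.sum_comm (f := fun i j => s j i * ⟪L.w (Y j, Y i), κ (Y i)⟫_ℝ)]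
  rw [sub_eq_zero]
  refine Finset.sum_congr rfl fun i _ => Finset.sum_congr rfl fun j _ => ?_
  by_cases h : s i j = 0
  · rw [h]; simp
  · have := KF_edge hκ (hs i j h)
    rw [real_inner_comm (κ (Y i)) (L.u (Y i, Y j)), real_inner_comm (κ (Y j)) (L.w (Y i, Y j)), this]

lemma FF_tan {s : Fin N → Fin N → ℝ} {Y : Fin N → E} (hs : ∀ i j, s i j ≠ 0 → L.Edge (Y i) (Y j))
    (i : Fin N) : S.P (Y i) (FF L s Y i) = FF L s Y i := by
  unfold FF
  rw [map_sub, map_sum, map_sum]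
  congr 1
  · refine Finset.sum_congr rfl fun j _ => ?_
    rw [map_smul]
    by_cases h : s i j = 0
    · rw [h, zero_smul, zero_smul]
    · have he := hs i j h
      rw [L.u_tan he.1 he.2.1 he.2.2.2.1]
  · refine Finset.sum_congr rfl fun j _ => ?_
    rw [map_smul]
    by_cases h : s j i = 0
    · rw [h, zero_smul, zero_smul]
    · rw [w_tan (hs j i h)]

lemma FF_add (s s' : Fin N → Fin N → ℝ) (Y : Fin N → E) (i : Fin N) :
    FF L (s + s') Y i = FF L s Y i + FF L s' Y i := by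
  unfold FF
  simp only [Pi.add_apply, add_smul, Finset.sum_add_distrib]
  abel

lemma FF_smul (c : ℝ) (s : Fin N → Fin N → ℝ) (Y : Fin N → E) (i : Fin N) :
    FF L (c • s) Y i = c • FF L s Y i := by
  unfold FF
  simp only [Pi.smul_apply, smul_eq_mul, mul_smul, ← Finset.smul_sum]
  rw [smul_sub]

/-- derivative of the force along a motion of the configuration -/
lemma FF_deriv {X : Fin N → E} {s : Fin N → Fin N → ℝ} (hs : ∀ i j, s i j ≠ 0 → L.Edge (X i) (X j))
    {c : Fin N → ℝ → E} {ξ : Fin N → E} (hc : ∀ i, HasDerivAt (c i) (ξ i) 0)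
    (hξ : ∀ i, S.P (X i) (ξ i) = ξ i)
    (hc0 : ∀ i, c i 0 = X i) (hcS : ∀ i, ∀ᶠ τ in 𝓝 (0 : ℝ), c i τ ∈ S.S) :
    ∃ D : Fin N → E, (∀ i, HasDerivAt (fun τ => FF L s (fun i => c i τ) i) (D i) 0) ∧
      ∀ v' : Fin N → E, (∀ i, S.P (X i) (v' i) = v' i) →
        ∑ i, ⟪D i, v' i⟫_ℝ = - L.bs X s ξ v' := by
  set f : Fin N → Fin N → E × E × E := fun i j => L.fr (X i, X j) with hf
  set l : Fin N → Fin N → ℝ := fun i j => L.len (X i, X j) with hl
  set a : Fin N → Fin N → ℝ := fun i j =>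
    (⟪ξ j, (S.Φ (l i j) (f i j)).2.2⟫_ℝ - S.cj (f i j) (l i j) * ⟪ξ i, (f i j).2.2⟫_ℝ) /
      S.sj (f i j) (l i j) with ha
  set b : Fin N → Fin N → ℝ := fun i j =>
    (S.sj' (f i j) (l i j) * ⟪ξ j, (S.Φ (l i j) (f i j)).2.2⟫_ℝ - ⟪ξ i, (f i j).2.2⟫_ℝ) /
      S.sj (f i j) (l i j) with hb
  set U : Fin N → Fin N → E := fun i j => S.B (X i) (ξ i) (L.u (X i, X j)) +
    a i j • (f i j).2.2 with hU
  set V : Fin N → Fin N → E := fun i j => S.B (X j) (ξ j) (L.w (X i, X j)) +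
    b i j • (S.Φ (l i j) (f i j)).2.2 with hV
  have key : ∀ i j, L.Edge (X i) (X j) →
      HasDerivAt (fun τ => L.u (c i τ, c j τ)) (U i j) 0 ∧
      HasDerivAt (fun τ => L.w (c i τ, c j τ)) (V i j) 0 := by
    intro i j he
    obtain ⟨f1, f2, f3⟩ := LE.fr_spec he
    have := T4.second_variation L (hc i) (hc j) (hcS i) (hcS j)
      (by rw [hc0 i, hc0 j]; exact he) f1 (by rw [hc0 i]; exact f2)
      (by rw [hc0 i, hc0 j]; exact f3) (l := l i j) (by rw [hc0 i, hc0 j])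
    rw [hc0 i, hc0 j] at this
    exact this
  refine ⟨fun i => ∑ j, s i j • U i j - ∑ j, s j i • V j i, ?_, ?_⟩
  · intro i
    unfold FF
    apply HasDerivAt.sub
    · apply HasDerivAt.fun_sum
      intro j _
      by_cases h : s i j = 0
      · simp only [h, zero_smul]
        exact hasDerivAt_const _ _
      · exact (key i j (hs i j h)).1.const_smul (s i j)
    · apply HasDerivAt.fun_sum
      intro j _
      by_cases h : s j i = 0
      · simp only [h, zero_smul]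
        exact hasDerivAt_const _ _
      · exact (key j i (hs j i h)).2.const_smul (s j i)
  · intro v' hv'
    simp_rw [inner_sub_left, sum_inner, real_inner_smul_left]
    rw [Finset.sum_sub_distrib]
    rw [Finset.sum_comm (f := fun i j => s j i * ⟪V j i, v' i⟫_ℝ)]
    unfold LE.bs
    rw [← Finset.sum_sub_distrib, ← Finset.sum_neg_distrib]
    refine Finset.sum_congr rfl fun i _ => ?_
    rw [← Finset.sum_sub_distrib, ← Finset.sum_neg_distrib]
    refine Finset.sum_congr rfl fun j _ => ?_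
    by_cases h : s i j = 0
    · rw [h]; simp
    have he := hs i j h
    obtain ⟨f1, f2, f3⟩ := LE.fr_spec he
    have hut : S.P (X i) (L.u (X i, X j)) = L.u (X i, X j) := L.u_tan he.1 he.2.1 he.2.2.2.1
    have hwt := w_tan he
    have h1 : ⟪U i j, v' i⟫_ℝ = a i j * ⟪v' i, (f i j).2.2⟫_ℝ := by
      rw [hU]
      simp only
      rw [inner_add_left, S.inner_B he.1 (hξ i) hut (hv' i), zero_add, real_inner_smul_left,
        real_inner_comm]
    have h2 : ⟪V i j, v' j⟫_ℝ = b i j * ⟪v' j, (S.Φ (l i j) (f i j)).2.2⟫_ℝ := by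
      rw [hV]
      simp only
      rw [inner_add_left, S.inner_B he.2.1 (hξ j) hwt (hv' j), zero_add, real_inner_smul_left,
        real_inner_comm]
    rw [h1, h2]
    have h3 : L.bil (X i, X j) (ξ i) (ξ j) (v' i) (v' j) =
        b i j * ⟪v' j, (S.Φ (l i j) (f i j)).2.2⟫_ℝ - a i j * ⟪v' i, (f i j).2.2⟫_ℝ := by
      unfold LE.bil
      rw [ha, hb]
      show (S.sj' (f i j) (l i j) * _ * _ - _ * _ - _ * _ + S.cj (f i j) (l i j) * _ * _) /
        S.sj (f i j) (l i j) = _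
      ring
    rw [h3]
    ring

lemma bil_add_left (p : E × E) (a b a' b' c d : E) :
    L.bil p (a + a') (b + b') c d = L.bil p a b c d + L.bil p a' b' c d := by
  unfold LE.bil; simp only [inner_add_left]; ring
lemma bil_smul_left (p : E × E) (t : ℝ) (a b c d : E) :
    L.bil p (t • a) (t • b) c d = t * L.bil p a b c d := by
  unfold LE.bil; simp only [real_inner_smul_left]; ring
lemma bil_symm (p : E × E) (a b c d : E) : L.bil p a b c d = L.bil p c d a b := by
  unfold LE.bil; ring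

lemma bs_add_left (X : Fin N → E) (s : Fin N → Fin N → ℝ) (v v' w : Fin N → E) :
    L.bs X s (v + v') w = L.bs X s v w + L.bs X s v' w := by
  unfold LE.bs
  simp only [Pi.add_apply, bil_add_left, mul_add, Finset.sum_add_distrib]
lemma bs_smul_left (X : Fin N → E) (s : Fin N → Fin N → ℝ) (t : ℝ) (v w : Fin N → E) :
    L.bs X s (t • v) w = t * L.bs X s v w := by
  unfold LE.bs
  simp only [Pi.smul_apply, bil_smul_left, Finset.mul_sum]
  refine Finset.sum_congr rfl fun i _ => Finset.sum_congr rfl fun j _ => ?_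
  ring
lemma bs_symm (X : Fin N → E) (s : Fin N → Fin N → ℝ) (v w : Fin N → E) :
    L.bs X s v w = L.bs X s w v := by
  unfold LE.bs
  refine Finset.sum_congr rfl fun i _ => Finset.sum_congr rfl fun j _ => ?_
  rw [bil_symm]
lemma bs_add_right (X : Fin N → E) (s : Fin N → Fin N → ℝ) (v w w' : Fin N → E) :
    L.bs X s v (w + w') = L.bs X s v w + L.bs X s v w' := by
  rw [bs_symm, bs_add_left, bs_symm, bs_symm X s w']
lemma bs_smul_right (X : Fin N → E) (s : Fin N → Fin N → ℝ) (t : ℝ) (v w : Fin N → E) :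
    L.bs X s v (t • w) = t * L.bs X s v w := by
  rw [bs_symm, bs_smul_left, bs_symm]
lemma bs_add_stress (X : Fin N → E) (s s' : Fin N → Fin N → ℝ) (v w : Fin N → E) :
    L.bs X (s + s') v w = L.bs X s v w + L.bs X s' v w := by
  unfold LE.bs
  simp only [Pi.add_apply, add_mul, Finset.sum_add_distrib]
lemma bs_smul_stress (X : Fin N → E) (t : ℝ) (s : Fin N → Fin N → ℝ) (v w : Fin N → E) :
    L.bs X (t • s) v w = t * L.bs X s v w := by
  unfold LE.bs
  simp only [Pi.smul_apply, smul_eq_mul, Finset.mul_sum]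
  refine Finset.sum_congr rfl fun i _ => Finset.sum_congr rfl fun j _ => ?_
  ring

lemma Bal_iff {X : Fin N → E} {s : Fin N → Fin N → ℝ} : L.Bal X s ↔
    (∀ i j, ¬ L.Edge (X i) (X j) → s i j = 0) ∧ ∀ i, FF L s X i = 0 := by
  unfold LE.Bal FF
  simp only [sub_eq_zero]

/-- equilibrium stresses as a subspace -/
def SS (L : LE S) (X : Fin N → E) : Submodule ℝ (Fin N → Fin N → ℝ) where
  carrier := {s | L.Bal X s}
  add_mem' := by
    intro a b ha hb
    rw [mem_ofPred_eq, Bal_iff] at *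
    refine ⟨fun i j h => ?_, fun i => ?_⟩
    · simp [ha.1 i j h, hb.1 i j h]
    · rw [FF_add, ha.2 i, hb.2 i, add_zero]
  zero_mem' := by
    rw [mem_ofPred_eq, Bal_iff]
    refine ⟨fun i j h => rfl, fun i => ?_⟩
    unfold FF; simp
  smul_mem' := by
    intro c a ha
    rw [mem_ofPred_eq, Bal_iff] at *
    refine ⟨fun i j h => ?_, fun i => ?_⟩
    · simp [ha.1 i j h]
    · rw [FF_smul, ha.2 i, smul_zero]

/-- infinitesimal motions coming from Killing fields, as a subspace -/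
def KX (L : LE S) (X : Fin N → E) : Submodule ℝ (Fin N → E) where
  carrier := {v | ∃ κ ∈ L.KF, ∀ i, v i = κ (X i)}
  add_mem' := by
    rintro a b ⟨κ, hκ, ha⟩ ⟨κ', hκ', hb⟩
    refine ⟨fun x => κ x + κ' x, ⟨hκ.1.add hκ'.1, fun x hx => ?_, fun f hf t h0 h1 => ?_⟩,
      fun i => by rw [Pi.add_apply, ha, hb]⟩
    · simp only; rw [map_add, hκ.2.1 x hx, hκ'.2.1 x hx]
    · simp only; rw [inner_add_left, inner_add_left, hκ.2.2 f hf t h0 h1, hκ'.2.2 f hf t h0 h1]
  zero_mem' := by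
    refine ⟨fun _ => 0, ⟨continuousOn_const, fun x hx => map_zero _, fun f hf t h0 h1 => ?_⟩,
      fun i => rfl⟩
    simp
  smul_mem' := by
    rintro c a ⟨κ, hκ, ha⟩
    refine ⟨fun x => c • κ x, ⟨hκ.1.const_smul c, fun x hx => ?_, fun f hf t h0 h1 => ?_⟩,
      fun i => by rw [Pi.smul_apply, ha]⟩
    · simp only; rw [map_smul, hκ.2.1 x hx]
    · simp only; rw [real_inner_smul_left, real_inner_smul_left, hκ.2.2 f hf t h0 h1]

/-- projection of a tuple to the tangent planes -/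
noncomputable def pr (S : RS E) (X : Fin N → E) : (Fin N → E) →ₗ[ℝ] (Fin N → E) where
  toFun v := fun i => S.P (X i) (v i)
  map_add' := by intro a b; ext i; simp
  map_smul' := by intro c a; ext i; simp

lemma KX_pr {X : Fin N → E} (hX : ∀ i, X i ∈ S.S) {v : Fin N → E} (hv : v ∈ KX L X) :
    ∀ i, S.P (X i) (v i) = v i := by
  obtain ⟨κ, hκ, h⟩ := hv
  intro i
  rw [h i, hκ.2.1 _ (hX i)]

/-- moved configuration -/
noncomputable def Yz (S : RS E) (X z : Fin N → E) (i : Fin N) : E := S.π (X i + z i)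

lemma Yz_zero {X : Fin N → E} (hX : ∀ i, X i ∈ S.S) : Yz S X 0 = X := by
  funext i
  unfold Yz
  rw [Pi.zero_apply, add_zero, S.hπS _ (hX i)]

lemma Yz_tendsto {X : Fin N → E} (hX : ∀ i, X i ∈ S.S) (i : Fin N) :
    Tendsto (fun z => Yz S X z i) (𝓝 0) (𝓝 (X i)) := by
  have h : Continuous (fun z : Fin N → E => Yz S X z i) :=
    S.π_cont.comp (continuous_const.add (continuous_apply i))
  have := h.tendsto 0
  simp only [Yz_zero hX] at this
  exact this

lemma Yz_mem {X : Fin N → E} (hX : ∀ i, X i ∈ S.S) :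
    ∀ᶠ z in 𝓝 (0 : Fin N → E), ∀ i, Yz S X z i ∈ S.S := by
  rw [eventually_all]
  intro i
  have h : Continuous (fun z : Fin N → E => X i + z i) := continuous_const.add (continuous_apply i)
  have h2 := h.tendsto 0
  simp only [Pi.zero_apply, add_zero] at h2
  filter_upwards [h2.eventually (S.hU.mem_nhds (S.hSU (hX i)))] with z hz
  exact S.hπU _ hz

lemma smul_tendsto (v : Fin N → E) : Tendsto (fun τ : ℝ => τ • v) (𝓝 0) (𝓝 0) := by
  have : Continuous (fun τ : ℝ => τ • v) := continuous_id.smul continuous_const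
  have h := this.tendsto 0
  simpa using h

lemma Yz_deriv {X : Fin N → E} (hX : ∀ i, X i ∈ S.S) (v : Fin N → E) (i : Fin N) :
    HasDerivAt (fun τ : ℝ => Yz S X (τ • v) i) (S.P (X i) (v i)) 0 := by
  unfold Yz
  have h1 : HasDerivAt (fun τ : ℝ => X i + τ • v i) (v i) 0 := by
    have := ((hasDerivAt_id (0 : ℝ)).smul_const (v i)).const_add (X i)
    simpa using this
  have h2 : HasFDerivAt S.π (S.P (X i)) (X i + (0 : ℝ) • v i) := by
    rw [zero_smul, add_zero]; exact S.hasFDerivAt_π (X i)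
  have h3 := h2.comp_hasDerivAt (0 : ℝ) h1
  exact h3

/-- derivative of the force along the straight motion `τ • v` -/
lemma FF_deriv_line {X : Fin N → E} (hX : ∀ i, X i ∈ S.S) {s : Fin N → Fin N → ℝ}
    (hs : ∀ i j, s i j ≠ 0 → L.Edge (X i) (X j)) (v : Fin N → E) :
    ∃ D : Fin N → E, (∀ i, HasDerivAt (fun τ : ℝ => FF L s (Yz S X (τ • v)) i) (D i) 0) ∧
      ∀ v' : Fin N → E, (∀ i, S.P (X i) (v' i) = v' i) →
        ∑ i, ⟪D i, v' i⟫_ℝ = - L.bs X s (pr S X v) v' := by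
  have h1 := FF_deriv hs (c := fun i τ => Yz S X (τ • v) i) (ξ := pr S X v)
    (fun i => Yz_deriv hX v i) (fun i => S.PP (hX i) _) (fun i => by
      simp only [zero_smul]; rw [Yz_zero hX]) (fun i => by
      have := (smul_tendsto v).eventually (Yz_mem hX)
      filter_upwards [this] with τ hτ
      exact hτ i)
  exact h1

/-- Killing fields are in the kernel of all equilibrium stresses -/
lemma bs_KX {X : Fin N → E} (hX : ∀ i, X i ∈ S.S) {s : Fin N → Fin N → ℝ} (hs : L.Bal X s)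
    {κ : Fin N → E} (hκ : κ ∈ KX L X) (v : Fin N → E) : L.bs X s (pr S X v) κ = 0 := by
  have hs' := Bal_iff.1 hs
  have hse : ∀ i j, s i j ≠ 0 → L.Edge (X i) (X j) := by
    intro i j h
    by_contra hc
    exact h (hs'.1 i j hc)
  have hκt := KX_pr hX hκ
  obtain ⟨D, hD, hD2⟩ := FF_deriv_line hX hse v
  have h1 := hD2 κ hκt
  obtain ⟨K, hK, hKX⟩ := hκ
  have hev : ∀ᶠ z in 𝓝 (0 : Fin N → E), ∀ i j, s i j ≠ 0 → L.Edge (Yz S X z i) (Yz S X z j) := by
    rw [eventually_all]; intro i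
    rw [eventually_all]; intro j
    by_cases h : s i j = 0
    · exact Eventually.of_forall fun z hz => absurd h hz
    · have := Edge_ev (hse i j h) (Yz_tendsto hX i) (Yz_tendsto hX j)
        ((Yz_mem hX).mono fun z hz => hz i) ((Yz_mem hX).mono fun z hz => hz j)
      exact this.mono fun z hz _ => hz
  have h2 : ∀ᶠ τ in 𝓝[≠] (0 : ℝ), ∑ i, ⟪slope (fun τ : ℝ => FF L s (Yz S X (τ • v)) i) 0 τ,
      K (Yz S X (τ • v) i)⟫_ℝ = 0 := by
    have h3 : ∀ᶠ τ in 𝓝[≠] (0 : ℝ), ∀ i j, s i j ≠ 0 →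
        L.Edge (Yz S X (τ • v) i) (Yz S X (τ • v) j) :=
      ((smul_tendsto v).mono_left nhdsWithin_le_nhds).eventually hev
    filter_upwards [h3] with τ hτ
    have h4 : ∀ i, FF L s (Yz S X ((0 : ℝ) • v)) i = 0 := by
      intro i
      rw [zero_smul, Yz_zero hX]; exact hs'.2 i
    have h5 := FF_KF (Y := Yz S X (τ • v)) hτ hK
    simp only [slope, vsub_eq_sub, h4, sub_zero]
    simp_rw [real_inner_smul_left]
    rw [← Finset.mul_sum, h5, mul_zero]
  have h6 : Tendsto (fun τ : ℝ => ∑ i, ⟪slope (fun τ : ℝ => FF L s (Yz S X (τ • v)) i) 0 τ,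
      K (Yz S X (τ • v) i)⟫_ℝ) (𝓝[≠] 0) (𝓝 (∑ i, ⟪D i, K (X i)⟫_ℝ)) := by
    apply tendsto_finsetSum
    intro i _
    apply Tendsto.inner
    · exact hasDerivAt_iff_tendsto_slope.1 (hD i)
    · have h7 : Tendsto (fun τ : ℝ => Yz S X (τ • v) i) (𝓝[≠] 0) (𝓝[S.S] (X i)) := by
        rw [tendsto_nhdsWithin_iff]
        refine ⟨((Yz_tendsto hX i).comp (smul_tendsto v)).mono_left nhdsWithin_le_nhds, ?_⟩
        have h9 : Tendsto (fun τ : ℝ => τ • v) (𝓝[≠] 0) (𝓝 0) :=
          (smul_tendsto v).mono_left nhdsWithin_le_nhds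
        exact (h9.eventually (Yz_mem hX)).mono fun τ hτ => hτ i
      exact (hK.1 (X i) (hX i)).tendsto.comp h7
  have h8 : ∑ i, ⟪D i, K (X i)⟫_ℝ = 0 := by
    have := h6.congr' h2
    exact tendsto_nhds_unique this tendsto_const_nhds
  simp_rw [← hKX] at h8
  rw [h8] at h1
  linarith

/-- the stress form as a family of bilinear maps on all tuples -/
noncomputable def bmap (L : LE S) (X : Fin N → E) :
    (SS L X) →ₗ[ℝ] ((Fin N → E) →ₗ[ℝ] (Fin N → E) →ₗ[ℝ] ℝ) where
  toFun s := LinearMap.mk₂ ℝ (fun v w => L.bs X s.1 (pr S X v) (pr S X w))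
    (fun a b c => by rw [map_add, bs_add_left])
    (fun t a c => by rw [map_smul, bs_smul_left, smul_eq_mul])
    (fun a b c => by rw [map_add, bs_add_right])
    (fun t a c => by rw [map_smul, bs_smul_right, smul_eq_mul])
  map_add' := by
    intro s s'
    exact LinearMap.ext fun v => LinearMap.ext fun w => bs_add_stress X s.1 s'.1 _ _
  map_smul' := by
    intro t s
    exact LinearMap.ext fun v => LinearMap.ext fun w => bs_smul_stress X t s.1 _ _

lemma bmap_apply (X : Fin N → E) (s : SS L X) (v w : Fin N → E) :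
    bmap L X s v w = L.bs X s.1 (pr S X v) (pr S X w) := rfl

/-- a stress with the smallest kernel, close to the given one -/
lemma exists_sbar {X : Fin N → E} {s : Fin N → Fin N → ℝ} (h : StressConf L N X s)
    (hker : ∀ v : Fin N → E, (∀ i, S.P (X i) (v i) = v i) →
      (∀ s', L.Bal X s' → L.bs X s' v v = 0) → ∃ κ ∈ L.KF, ∀ i, v i = κ (X i)) :
    ∃ t : Fin N → Fin N → ℝ, L.Bal X t ∧ (∀ i j, L.Edge (X i) (X j) → 0 < t i j) ∧
      ∀ v : Fin N → E, (∀ i, S.P (X i) (v i) = v i) →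
        (∀ w, (∀ i, S.P (X i) (w i) = w i) → L.bs X t v w = 0) → v ∈ KX L X := by
  have hX := h.mem
  have hbal : L.Bal X s := by
    refine ⟨fun i j hn => ?_, h.bal⟩
    have h1 := h.nonneg i j
    have h2 : ¬ 0 < s i j := fun h3 => hn ((h.pos i j).1 h3)
    linarith
  obtain ⟨δ, hδ, hδ2⟩ : ∃ δ : ℝ, 0 < δ ∧ ∀ i j, L.Edge (X i) (X j) → δ < s i j := by
    have h1 : ∀ᶠ δ in 𝓝[>] (0 : ℝ), ∀ i j, L.Edge (X i) (X j) → δ < s i j := by
      rw [eventually_all]; intro i
      rw [eventually_all]; intro j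
      by_cases he : L.Edge (X i) (X j)
      · have := (h.pos i j).2 he
        exact (eventually_nhdsWithin_of_eventually_nhds (gt_mem_nhds this)).mono fun δ hδ _ => hδ
      · exact Eventually.of_forall fun δ h' => absurd h' he
    obtain ⟨δ, h2, h3⟩ := (h1.and self_mem_nhdsWithin).exists
    exact ⟨δ, h3, h2⟩
  obtain ⟨t, ht1, ht2⟩ := T2.stress_perturb (bmap L X)
    (fun s v w => by rw [bmap_apply, bmap_apply, bs_symm])
    ((KX L X).comap (pr S X))
    (fun s' v hv w => by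
      rw [bmap_apply, bs_symm]
      exact bs_KX hX s'.2 hv w)
    (fun v hv => by
      by_contra hcon
      push Not at hcon
      apply hv
      rw [Submodule.mem_comap]
      exact hker (pr S X v) (fun i => S.PP (hX i) _) fun s' hs' => hcon ⟨s', hs'⟩)
    ⟨s, hbal⟩ δ hδ
  refine ⟨t.1, t.2, fun i j he => ?_, fun v hv hv2 => ?_⟩
  · have h1 : ‖t.1 - s‖ < δ := ht1
    have h2 : ‖(t.1 - s) i j‖ ≤ ‖t.1 - s‖ := (norm_le_pi_norm ((t.1 - s) i) j).trans
      (norm_le_pi_norm (t.1 - s) i)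
    have h3 := hδ2 i j he
    rw [Pi.sub_apply, Pi.sub_apply, Real.norm_eq_abs] at h2
    have := abs_le.1 h2
    linarith [this.1]
  · have h1 := ht2 v fun w => by
      rw [bmap_apply]
      have : pr S X v = v := funext hv
      rw [this]
      exact hv2 _ fun i => S.PP (hX i) _
    rw [Submodule.mem_comap] at h1
    have : pr S X v = v := funext hv
    rwa [this] at h1

/-- a finite orthonormal type basis of the space of Killing motions -/
lemma exists_basis (K : Submodule ℝ (Fin N → E)) : ∃ (m : ℕ) (e : Fin m → Fin N → E),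
    (∀ a, e a ∈ K) ∧ ∀ k ∈ K, k = ∑ a, (∑ j, ⟪k j, e a j⟫_ℝ) • e a := by
  classical
  set T : PiLp 2 (fun _ : Fin N => E) ≃ₗ[ℝ] (Fin N → E) := WithLp.linearEquiv 2 ℝ (Fin N → E) with hT
  set K' : Submodule ℝ (PiLp 2 (fun _ : Fin N => E)) := K.comap T.toLinearMap with hK'
  set b := stdOrthonormalBasis ℝ K' with hb
  refine ⟨Module.finrank ℝ K', fun a => T (b a : PiLp 2 (fun _ : Fin N => E)), fun a => (b a).2,
    fun k hk => ?_⟩
  have hk' : T.symm k ∈ K' := by
    rw [hK', Submodule.mem_comap]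
    simpa using hk
  have h1 := b.sum_repr' ⟨T.symm k, hk'⟩
  have h2 := congrArg (fun z : K' => T (z : PiLp 2 (fun _ : Fin N => E))) h1
  simp only [Submodule.coe_sum, Submodule.coe_smul, map_sum, map_smul, LinearEquiv.apply_symm_apply]
    at h2
  refine h2.symm.trans (Finset.sum_congr rfl fun a _ => ?_)
  congr 1
  rw [Submodule.coe_inner, PiLp.inner_apply]
  refine Finset.sum_congr rfl fun j _ => ?_
  rw [real_inner_comm]
  rfl

/-- orthogonal projection to the Killing motions -/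
noncomputable def Pk {m : ℕ} (e : Fin m → Fin N → E) (z : Fin N → E) : Fin N → E :=
  ∑ a, (∑ j, ⟪z j, e a j⟫_ℝ) • e a

lemma Pk_smul {m : ℕ} (e : Fin m → Fin N → E) (τ : ℝ) (z : Fin N → E) :
    Pk e (τ • z) = τ • Pk e z := by
  unfold Pk
  simp only [Pi.smul_apply, real_inner_smul_left, ← Finset.mul_sum, mul_smul, Finset.smul_sum]

lemma Pk_mem {m : ℕ} {e : Fin m → Fin N → E} {K : Submodule ℝ (Fin N → E)} (he : ∀ a, e a ∈ K)
    (z : Fin N → E) : Pk e z ∈ K :=
  Submodule.sum_mem _ fun a _ => Submodule.smul_mem _ _ (he a)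

lemma Pk_apply {m : ℕ} (e : Fin m → Fin N → E) (z : Fin N → E) (i : Fin N) :
    Pk e z i = ∑ a, (∑ j, ⟪z j, e a j⟫_ℝ) • e a i := by
  unfold Pk
  rw [Finset.sum_apply]
  rfl

open Classical in
/-- stress cut off to the edges of `X` -/
noncomputable def ed (L : LE S) (X : Fin N → E) (s : Fin N → Fin N → ℝ) : Fin N → Fin N → ℝ :=
  fun i j => if L.Edge (X i) (X j) then s i j else 0

lemma ed_eq {X : Fin N → E} {s : Fin N → Fin N → ℝ}
    (hs : ∀ i j, ¬ L.Edge (X i) (X j) → s i j = 0) : ed L X s = s := by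
  funext i j
  unfold ed
  split_ifs with h
  · rfl
  · exact (hs i j h).symm

lemma ed_ne {X : Fin N → E} {s : Fin N → Fin N → ℝ} {i j : Fin N} (h : ed L X s i j ≠ 0) :
    L.Edge (X i) (X j) := by
  unfold ed at h
  by_contra hc
  rw [if_neg hc] at h
  exact h rfl

/-- the equation of the perturbed balanced configuration -/
noncomputable def Psi (L : LE S) (X : Fin N → E) {m : ℕ} (e : Fin m → Fin N → E)
    (q : (Fin N → E) × (Fin N → Fin N → ℝ)) : Fin N → E :=
  fun i => S.P (X i) (FF L (ed L X q.2) (Yz S X q.1) i) + Pk e q.1 i +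
    (q.1 i - S.P (X i) (q.1 i))

lemma Psi_smooth {X : Fin N → E} (hX : ∀ i, X i ∈ S.S) {m : ℕ} (e : Fin m → Fin N → E)
    (t : Fin N → Fin N → ℝ) : ContDiffAt ℝ ∞ (Psi L X e) (0, t) := by
  classical
  rw [contDiffAt_pi]
  intro i
  unfold Psi
  have hz : ∀ i, ContDiffAt ℝ ∞ (fun q : (Fin N → E) × (Fin N → Fin N → ℝ) => q.1 i) (0, t) :=
    fun i => ((contDiff_apply ℝ E i).comp contDiff_fst).contDiffAt
  have hY : ∀ i, ContDiffAt ℝ ∞
      (fun q : (Fin N → E) × (Fin N → Fin N → ℝ) => Yz S X q.1 i) (0, t) := by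
    intro i
    unfold Yz
    exact ContDiffAt.comp (0, t) S.smooth.contDiffAt (contDiffAt_const.add (hz i))
  have hs : ∀ i j, ContDiffAt ℝ ∞
      (fun q : (Fin N → E) × (Fin N → Fin N → ℝ) => q.2 i j) (0, t) :=
    fun i j => ((contDiff_apply_apply ℝ ℝ i j).comp contDiff_snd).contDiffAt
  have hYY : ∀ i j, ContDiffAt ℝ ∞
      (fun q : (Fin N → E) × (Fin N → Fin N → ℝ) => (Yz S X q.1 i, Yz S X q.1 j)) (0, t) :=
    fun i j => (hY i).prodMk (hY j)
  have hu : ∀ i j, L.Edge (X i) (X j) → ContDiffAt ℝ ∞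
      (fun q : (Fin N → E) × (Fin N → Fin N → ℝ) => L.u (Yz S X q.1 i, Yz S X q.1 j)) (0, t) := by
    intro i j he
    have h1 : ContDiffAt ℝ ∞ L.u (Yz S X 0 i, Yz S X 0 j) := by
      rw [Yz_zero hX]; exact u_smoothAt he
    exact ContDiffAt.comp ((0 : Fin N → E), t) h1 (hYY i j)
  have hw : ∀ i j, L.Edge (X i) (X j) → ContDiffAt ℝ ∞
      (fun q : (Fin N → E) × (Fin N → Fin N → ℝ) => L.w (Yz S X q.1 i, Yz S X q.1 j)) (0, t) := by
    intro i j he
    have h1 : ContDiffAt ℝ ∞ L.w (Yz S X 0 i, Yz S X 0 j) := by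
      rw [Yz_zero hX]; exact w_smoothAt he
    exact ContDiffAt.comp ((0 : Fin N → E), t) h1 (hYY i j)
  have hF : ContDiffAt ℝ ∞ (fun q : (Fin N → E) × (Fin N → Fin N → ℝ) =>
      FF L (ed L X q.2) (Yz S X q.1) i) (0, t) := by
    unfold FF
    apply ContDiffAt.sub
    · apply ContDiffAt.sum
      intro j _
      by_cases he : L.Edge (X i) (X j)
      · simp only [ed, if_pos he]
        exact (hs i j).smul (hu i j he)
      · simp only [ed, if_neg he, zero_smul]
        exact contDiffAt_const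
    · apply ContDiffAt.sum
      intro j _
      by_cases he : L.Edge (X j) (X i)
      · simp only [ed, if_pos he]
        exact (hs j i).smul (hw j i he)
      · simp only [ed, if_neg he, zero_smul]
        exact contDiffAt_const
  have hK : ContDiffAt ℝ ∞ (fun q : (Fin N → E) × (Fin N → Fin N → ℝ) => Pk e q.1 i) (0, t) := by
    simp only [Pk_apply]
    apply ContDiffAt.sum
    intro a _
    refine ContDiffAt.smul ?_ contDiffAt_const
    apply ContDiffAt.sum
    intro j _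
    exact (hz j).inner ℝ contDiffAt_const
  have hP : ∀ g : (Fin N → E) × (Fin N → Fin N → ℝ) → E, ContDiffAt ℝ ∞ g (0, t) →
      ContDiffAt ℝ ∞ (fun q => S.P (X i) (g q)) (0, t) := fun g hg =>
    ContDiffAt.comp ((0 : Fin N → E), t) (S.P (X i)).contDiff.contDiffAt hg
  exact ((hP _ hF).add hK).add ((hz i).sub (hP _ (hz i)))

lemma Psi_zero {X : Fin N → E} (hX : ∀ i, X i ∈ S.S) {m : ℕ} (e : Fin m → Fin N → E)
    {t : Fin N → Fin N → ℝ} (ht : L.Bal X t) : Psi L X e (0, t) = 0 := by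
  have ht' := Bal_iff.1 ht
  funext i
  unfold Psi
  simp only
  rw [ed_eq ht'.1, Yz_zero hX, ht'.2 i, map_zero, Pi.zero_apply, map_zero]
  have : Pk e (0 : Fin N → E) = 0 := by
    have := Pk_smul e 0 (0 : Fin N → E)
    simpa using this
  rw [this]
  simp

lemma Psi_deriv {X : Fin N → E} (hX : ∀ i, X i ∈ S.S) {m : ℕ} (e : Fin m → Fin N → E)
    {t : Fin N → Fin N → ℝ} (ht : ∀ i j, ¬ L.Edge (X i) (X j) → t i j = 0) (v : Fin N → E) :
    ∃ D : Fin N → E, (∀ i, HasDerivAt (fun τ : ℝ => Psi L X e (τ • v, t) i)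
      (S.P (X i) (D i) + Pk e v i + (v i - S.P (X i) (v i))) 0) ∧
      ∀ v' : Fin N → E, (∀ i, S.P (X i) (v' i) = v' i) →
        ∑ i, ⟪D i, v' i⟫_ℝ = - L.bs X t (pr S X v) v' := by
  have hse : ∀ i j, t i j ≠ 0 → L.Edge (X i) (X j) := by
    intro i j h
    by_contra hc
    exact h (ht i j hc)
  obtain ⟨D, hD, hD2⟩ := FF_deriv_line hX hse v
  refine ⟨D, fun i => ?_, hD2⟩
  unfold Psi
  simp only [ed_eq ht, Pk_smul, Pi.smul_apply]
  have h0 : ∀ w : E, HasDerivAt (fun τ : ℝ => τ • w) w 0 := fun w => by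
    simpa using (hasDerivAt_id (0 : ℝ)).smul_const w
  have h1 : HasDerivAt (fun τ : ℝ => S.P (X i) (FF L t (Yz S X (τ • v)) i)) (S.P (X i) (D i)) 0 :=
    (S.P (X i)).hasFDerivAt.comp_hasDerivAt 0 (hD i)
  have h2 : HasDerivAt (fun τ : ℝ => S.P (X i) (τ • v i)) (S.P (X i) (v i)) 0 :=
    (S.P (X i)).hasFDerivAt.comp_hasDerivAt 0 (h0 (v i))
  exact (h1.add (h0 (Pk e v i))).add ((h0 (v i)).sub h2)

/-- implicit function theorem for `Psi` -/
lemma ift {X : Fin N → E} (hX : ∀ i, X i ∈ S.S) {t : Fin N → Fin N → ℝ} (htb : L.Bal X t)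
    (htk : ∀ v : Fin N → E, (∀ i, S.P (X i) (v i) = v i) →
        (∀ w, (∀ i, S.P (X i) (w i) = w i) → L.bs X t v w = 0) → v ∈ KX L X)
    {m : ℕ} {e : Fin m → Fin N → E} (he : ∀ a, e a ∈ KX L X)
    (he2 : ∀ k ∈ KX L X, k = Pk e k) {p : (Fin N → E) → Prop} (hp : ∀ᶠ z in 𝓝 0, p z) :
    ∀ᶠ s in 𝓝 t, ∃ z, p z ∧ Psi L X e (z, s) = 0 := by
  have ht' := Bal_iff.1 htb
  have hsm : ContDiffAt ℝ ∞ (Psi L X e) (0, t) := Psi_smooth hX e t
  set G : (Fin N → E) × (Fin N → Fin N → ℝ) → (Fin N → E) × (Fin N → Fin N → ℝ) :=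
    fun q => (Psi L X e q, q.2) with hG
  have hGs : ContDiffAt ℝ ∞ G (0, t) := hsm.prodMk contDiffAt_snd
  have hst : HasStrictFDerivAt G (fderiv ℝ G (0, t)) (0, t) := hGs.hasStrictFDerivAt (by simp)
  set G' := fderiv ℝ G (0, t) with hG'
  have hinj : Function.Injective G' := by
    rw [injective_iff_map_eq_zero]
    rintro ⟨v, r⟩ hv
    -- second component
    have h1 : HasFDerivAt (Prod.snd ∘ G)
        ((ContinuousLinearMap.snd ℝ (Fin N → E) (Fin N → Fin N → ℝ)).comp G') (0, t) :=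
      HasFDerivAt.comp ((0 : Fin N → E), t) (hasFDerivAt_snd (p := G (0, t))) hst.hasFDerivAt
    have h1' : HasFDerivAt (fun q : (Fin N → E) × (Fin N → Fin N → ℝ) => q.2)
        ((ContinuousLinearMap.snd ℝ (Fin N → E) (Fin N → Fin N → ℝ)).comp G') (0, t) := h1
    have h2 := h1'.unique hasFDerivAt_snd
    have h3 : r = 0 := by
      have := congrArg (fun M : ((Fin N → E) × (Fin N → Fin N → ℝ)) →L[ℝ] (Fin N → Fin N → ℝ) =>
        M (v, r)) h2
      simp only [ContinuousLinearMap.comp_apply, hv] at this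
      simpa using this.symm
    subst h3
    -- first component
    obtain ⟨D, hD, hD2⟩ := Psi_deriv (L := L) hX e ht'.1 v
    have h4 : HasDerivAt (fun τ : ℝ => ((τ • v, t) : (Fin N → E) × (Fin N → Fin N → ℝ)))
        (v, 0) 0 := by
      have h5 : HasDerivAt (fun τ : ℝ => τ • v) v 0 := by
        simpa using (hasDerivAt_id (0 : ℝ)).smul_const v
      exact h5.prodMk (hasDerivAt_const _ _)
    have h6 : HasDerivAt (fun τ : ℝ => G (τ • v, t)) (G' (v, 0)) 0 := by
      have h7 : HasFDerivAt G G' ((0 : ℝ) • v, t) := by rw [zero_smul]; exact hst.hasFDerivAt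
      exact h7.comp_hasDerivAt (0 : ℝ) h4
    rw [hv] at h6
    have h8 : ∀ i, S.P (X i) (D i) + Pk e v i + (v i - S.P (X i) (v i)) = 0 := by
      intro i
      have h9 : HasDerivAt (fun τ : ℝ => Psi L X e (τ • v, t) i) 0 0 := by
        have h10 : HasDerivAt (fun τ : ℝ => Psi L X e (τ • v, t)) 0 0 := by
          have h11 := (ContinuousLinearMap.fst ℝ (Fin N → E)
            (Fin N → Fin N → ℝ)).hasFDerivAt.comp_hasDerivAt (0 : ℝ) h6
          rw [map_zero] at h11
          exact h11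
        exact (hasDerivAt_pi.1 h10) i
      exact (hD i).unique h9
    have hPk : ∀ i, S.P (X i) (Pk e v i) = Pk e v i := KX_pr hX (Pk_mem he v)
    have hvt : ∀ i, S.P (X i) (v i) = v i := by
      intro i
      have h9 := congrArg (S.P (X i)) (h8 i)
      rw [map_add, map_add, map_sub, S.PP (hX i), S.PP (hX i), hPk i, sub_self, add_zero,
        map_zero] at h9
      have h10 := h8 i
      rw [h9, zero_add] at h10
      exact (sub_eq_zero.1 h10).symm
    have h9 : ∀ i, S.P (X i) (D i) + Pk e v i = 0 := by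
      intro i
      have := h8 i
      rwa [hvt i, sub_self, add_zero] at this
    have hprv : pr S X v = v := funext hvt
    have h10 : ∀ w : Fin N → E, (∀ i, S.P (X i) (w i) = w i) →
        L.bs X t v w = ∑ i, ⟪Pk e v i, w i⟫_ℝ := by
      intro w hw
      have h11 := hD2 w hw
      rw [hprv] at h11
      have h12 : ∀ i, ⟪D i, w i⟫_ℝ = - ⟪Pk e v i, w i⟫_ℝ := by
        intro i
        have h13 : ⟪S.P (X i) (D i), w i⟫_ℝ = ⟪D i, w i⟫_ℝ := by
          rw [S.inner_P (hX i), hw i]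
        rw [← h13, ← inner_neg_left]
        congr 1
        exact eq_neg_of_add_eq_zero_left (h9 i)
      simp_rw [h12] at h11
      rw [Finset.sum_neg_distrib] at h11
      linarith
    have h11 : Pk e v = 0 := by
      have h12 := h10 (Pk e v) hPk
      have h13 := bs_KX hX htb (Pk_mem he v) v
      rw [hprv] at h13
      rw [h13] at h12
      have h14 : ∀ i ∈ Finset.univ, ⟪Pk e v i, Pk e v i⟫_ℝ = 0 := by
        apply (Finset.sum_eq_zero_iff_of_nonneg fun i _ => real_inner_self_nonneg).1 h12.symm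
      funext i
      exact inner_self_eq_zero.1 (h14 i (Finset.mem_univ i))
    have h12 : v ∈ KX L X := by
      apply htk v hvt
      intro w hw
      rw [h10 w hw, h11]
      simp
    have h13 := he2 v h12
    rw [h13, h11]
    rfl
  have hsurj : Function.Surjective G' := by
    have := (LinearMap.injective_iff_surjective (f := G'.toLinearMap)).1 hinj
    exact this
  have hmap := hst.map_nhds_eq_of_surj (LinearMap.range_eq_top.2 hsurj)
  have hG0 : G (0, t) = (0, t) := by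
    rw [hG]
    simp only
    rw [Psi_zero hX e htb]
  rw [hG0] at hmap
  have h1 : {q : (Fin N → E) × (Fin N → Fin N → ℝ) | p q.1} ∈ 𝓝 ((0 : Fin N → E), t) :=
    (continuous_fst.tendsto ((0 : Fin N → E), t)).eventually hp
  have h2 := image_mem_map (m := G) h1
  rw [hmap] at h2
  have h3 : Tendsto (fun s : Fin N → Fin N → ℝ => ((0 : Fin N → E), s)) (𝓝 t) (𝓝 (0, t)) :=
    (continuous_const.prodMk continuous_id).tendsto t
  filter_upwards [h3.eventually h2] with s hs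
  obtain ⟨⟨z, r⟩, hq1, hq2⟩ := hs
  rw [hG] at hq2
  simp only [Prod.mk.injEq] at hq2
  obtain ⟨h5, h6⟩ := hq2
  subst h6
  exact ⟨z, hq1, h5⟩

/-- the perturbed configuration is balanced -/
lemma FF_zero {X : Fin N → E} (hX : ∀ i, X i ∈ S.S) {m : ℕ} {e : Fin m → Fin N → E}
    (he : ∀ a, e a ∈ KX L X) (he2 : ∀ k ∈ KX L X, k = Pk e k) {κ : Fin m → E → E}
    (hκ : ∀ a, κ a ∈ L.KF) (hκ2 : ∀ a j, e a j = κ a (X j)) {z : Fin N → E}
    {s : Fin N → Fin N → ℝ} (hz : Psi L X e (z, s) = 0)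
    (hE : ∀ i j, L.Edge (X i) (X j) → L.Edge (Yz S X z i) (Yz S X z j))
    (hη : ∑ i, ‖S.P (Yz S X z i) - S.P (X i)‖ +
      ∑ a, (∑ j, ‖κ a (X j) - κ a (Yz S X z j)‖) * ‖e a‖ < 1) :
    FF L (ed L X s) (Yz S X z) = 0 := by
  set Y := Yz S X z with hY
  set F := FF L (ed L X s) Y with hF
  have hE' : ∀ i j, ed L X s i j ≠ 0 → L.Edge (Y i) (Y j) := fun i j h => hE i j (ed_ne h)
  have hPk : ∀ i, S.P (X i) (Pk e z i) = Pk e z i := KX_pr hX (Pk_mem he z)
  have h1 : ∀ i, S.P (X i) (F i) = - Pk e z i := by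
    intro i
    have h2 := congrFun hz i
    unfold Psi at h2
    simp only [Pi.zero_apply] at h2
    have h9 := congrArg (S.P (X i)) h2
    rw [map_add, map_add, map_sub, S.PP (hX i), S.PP (hX i), hPk i, sub_self, add_zero,
      map_zero] at h9
    exact eq_neg_of_add_eq_zero_left h9
  have h2 : pr S X F ∈ KX L X := by
    have : pr S X F = - Pk e z := funext h1
    rw [this]
    exact Submodule.neg_mem _ (Pk_mem he z)
  have h3 : ∀ i, S.P (X i) (F i) = ∑ a, (∑ j, ⟪F j, κ a (X j) - κ a (Y j)⟫_ℝ) • e a i := by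
    intro i
    have h4 := congrFun (he2 _ h2) i
    rw [Pk_apply] at h4
    have h5 : pr S X F i = S.P (X i) (F i) := rfl
    rw [h5] at h4
    rw [h4]
    refine Finset.sum_congr rfl fun a _ => ?_
    congr 1
    have h6 := FF_KF hE' (hκ a)
    simp_rw [inner_sub_right]
    rw [Finset.sum_sub_distrib, h6, sub_zero]
    refine Finset.sum_congr rfl fun j _ => ?_
    have h7 : pr S X F j = S.P (X j) (F j) := rfl
    rw [h7, S.inner_P (hX j), KX_pr hX (he a) j, hκ2 a j]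
  have h4 : ∀ i, ‖F i‖ ≤ (∑ i, ‖S.P (Y i) - S.P (X i)‖ +
      ∑ a, (∑ j, ‖κ a (X j) - κ a (Y j)‖) * ‖e a‖) * ‖F‖ := by
    intro i
    have h5 : F i = (S.P (Y i) - S.P (X i)) (F i) + S.P (X i) (F i) := by
      rw [sub_apply, sub_add_cancel, FF_tan hE' i]
    have h6 : ‖(S.P (Y i) - S.P (X i)) (F i)‖ ≤ (∑ i, ‖S.P (Y i) - S.P (X i)‖) * ‖F‖ := by
      calc _ ≤ ‖S.P (Y i) - S.P (X i)‖ * ‖F i‖ := ContinuousLinearMap.le_opNorm _ _
        _ ≤ _ := by
          apply mul_le_mul _ (norm_le_pi_norm F i) (norm_nonneg _)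
            (Finset.sum_nonneg fun i _ => norm_nonneg _)
          exact Finset.single_le_sum (f := fun i => ‖S.P (Y i) - S.P (X i)‖)
            (fun i _ => norm_nonneg _) (Finset.mem_univ i)
    have h7 : ‖S.P (X i) (F i)‖ ≤ (∑ a, (∑ j, ‖κ a (X j) - κ a (Y j)‖) * ‖e a‖) * ‖F‖ := by
      rw [h3 i, Finset.sum_mul]
      refine (norm_sum_le _ _).trans (Finset.sum_le_sum fun a _ => ?_)
      rw [norm_smul]
      have h8 : ‖∑ j, ⟪F j, κ a (X j) - κ a (Y j)⟫_ℝ‖ ≤ ‖F‖ * ∑ j, ‖κ a (X j) - κ a (Y j)‖ := by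
        rw [Finset.mul_sum]
        refine (norm_sum_le _ _).trans (Finset.sum_le_sum fun j _ => ?_)
        exact (norm_inner_le_norm _ _).trans
          (mul_le_mul_of_nonneg_right (norm_le_pi_norm F j) (norm_nonneg _))
      calc _ ≤ (‖F‖ * ∑ j, ‖κ a (X j) - κ a (Y j)‖) * ‖e a‖ :=
            mul_le_mul h8 (norm_le_pi_norm (e a) i) (norm_nonneg _) (by positivity)
        _ = _ := by ring
    rw [h5, add_mul]
    exact (norm_add_le _ _).trans (add_le_add h6 h7)
  set η := ∑ i, ‖S.P (Y i) - S.P (X i)‖ +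
      ∑ a, (∑ j, ‖κ a (X j) - κ a (Y j)‖) * ‖e a‖ with hηd
  have hη0 : 0 ≤ η := by positivity
  have h5 : ‖F‖ ≤ η * ‖F‖ := (pi_norm_le_iff_of_nonneg (by positivity)).2 h4
  have h6 : ‖F‖ = 0 := by
    by_contra hne
    have h7 : 0 < ‖F‖ := lt_of_le_of_ne (norm_nonneg _) (Ne.symm hne)
    nlinarith
  exact norm_eq_zero.1 h6

/-- rational points near a matrix -/
lemma exists_rat {t : Fin N → Fin N → ℝ} {U : Set (Fin N → Fin N → ℝ)} (hU : U ∈ 𝓝 t) :
    ∃ q : Fin N → Fin N → ℚ, (fun i j => (q i j : ℝ)) ∈ U := by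
  obtain ⟨δ, hδ, hb⟩ := Metric.mem_nhds_iff.1 hU
  have h1 : ∀ i j, ∃ q : ℚ, dist (q : ℝ) (t i j) < δ := by
    intro i j
    obtain ⟨q, h1, h2⟩ := exists_rat_btwn (show t i j < t i j + δ by linarith)
    refine ⟨q, ?_⟩
    rw [Real.dist_eq, abs_lt]
    constructor <;> linarith
  choose q hq using h1
  refine ⟨q, hb ?_⟩
  rw [mem_ball, dist_pi_lt_iff hδ]
  intro i
  rw [dist_pi_lt_iff hδ]
  exact hq i

/-- common denominators -/
lemma exists_den (q : Fin N → Fin N → ℚ) : ∃ D : ℕ, 0 < D ∧ ∀ i j, 0 < q i j →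
    ∃ m : ℕ, 0 < m ∧ (m : ℝ) = (D : ℝ) * (q i j : ℝ) := by
  refine ⟨∏ i, ∏ j, (q i j).den, Finset.prod_pos fun i _ => Finset.prod_pos fun j _ =>
    (q i j).den_pos, fun i j hq => ?_⟩
  have h1 : (q i j).den ∣ ∏ i, ∏ j, (q i j).den :=
    (Finset.dvd_prod_of_mem (fun j => (q i j).den) (Finset.mem_univ j)).trans
      (Finset.dvd_prod_of_mem (fun i => ∏ j, (q i j).den) (Finset.mem_univ i))
  obtain ⟨c, hc⟩ := h1
  have hD : 0 < ∏ i, ∏ j, (q i j).den := Finset.prod_pos fun i _ => Finset.prod_pos fun j _ =>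
    (q i j).den_pos
  have hc0 : 0 < c := by
    rcases Nat.eq_zero_or_pos c with h | h
    · rw [h, mul_zero] at hc; omega
    · exact h
  have hn : 0 < (q i j).num := Rat.num_pos.2 hq
  refine ⟨c * (q i j).num.toNat, Nat.mul_pos hc0 (by omega), ?_⟩
  rw [hc]
  push_cast
  have h2 : (((q i j).num.toNat : ℕ) : ℝ) = ((q i j).num : ℝ) := by
    have : (((q i j).num.toNat : ℕ) : ℤ) = (q i j).num := Int.toNat_of_nonneg hn.le
    exact_mod_cast this
  have h3 : ((q i j : ℚ) : ℝ) * ((q i j).den : ℝ) = ((q i j).num : ℝ) := by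
    exact_mod_cast Rat.mul_den_eq_num (q i j)
  rw [h2, ← h3]
  ring

/-- TASK T7: perturbation to integer multiplicities. -/
theorem perturb {S : RS E} (L : LE S) {N : ℕ} {X : Fin N → E} {s : Fin N → Fin N → ℝ}
    (h : StressConf L N X s)
    (hker : ∀ v : Fin N → E, (∀ i, S.P (X i) (v i) = v i) →
      (∀ s', L.Bal X s' → L.bs X s' v v = 0) → ∃ κ ∈ L.KF, ∀ i, v i = κ (X i))
    (ε : ℝ) (hε : 0 < ε) :
    ∃ (X' : Fin N → E) (m : Fin N → Fin N → ℕ), (∀ i, X' i ∈ S.S) ∧ (∀ i, ‖X' i - X i‖ < ε) ∧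
      Function.Injective X' ∧ (∀ i j, 0 < m i j ↔ L.Edge (X i) (X j)) ∧
      (∀ i j, 0 < m i j → L.Edge (X' i) (X' j)) ∧
      ∀ i, ∑ j, (m i j : ℝ) • L.u (X' i, X' j) = ∑ j, (m j i : ℝ) • L.w (X' j, X' i) := by
  classical
  have hX := h.mem
  obtain ⟨t, ht1, ht2, ht3⟩ := exists_sbar h hker
  obtain ⟨m, e, he, he2⟩ := exists_basis (KX L X)
  have he2' : ∀ k ∈ KX L X, k = Pk e k := he2
  have he' : ∀ a, ∃ κ ∈ L.KF, ∀ i, e a i = κ (X i) := he
  choose κ hκ hκ2 using he'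
  set η : (Fin N → E) → ℝ := fun z => ∑ i, ‖S.P (Yz S X z i) - S.P (X i)‖ +
      ∑ a, (∑ j, ‖κ a (X j) - κ a (Yz S X z j)‖) * ‖e a‖ with hη
  have hηt : Tendsto η (𝓝 0) (𝓝 0) := by
    have h1 : ∀ i, Tendsto (fun z => ‖S.P (Yz S X z i) - S.P (X i)‖) (𝓝 0) (𝓝 0) := by
      intro i
      have h2 : Tendsto (fun z => S.P (Yz S X z i)) (𝓝 0) (𝓝 (S.P (X i))) :=
        (S.P_cont.tendsto (X i)).comp (Yz_tendsto hX i)
      have h3 := (h2.sub_const (S.P (X i))).norm
      rwa [sub_self, norm_zero] at h3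
    have h2 : ∀ a j, Tendsto (fun z => ‖κ a (X j) - κ a (Yz S X z j)‖) (𝓝 0) (𝓝 0) := by
      intro a j
      have h3 : Tendsto (fun z : Fin N → E => Yz S X z j) (𝓝 0) (𝓝[S.S] (X j)) := by
        rw [tendsto_nhdsWithin_iff]
        exact ⟨Yz_tendsto hX j, (Yz_mem hX).mono fun z hz => hz j⟩
      have h4 : Tendsto (fun z => κ a (Yz S X z j)) (𝓝 0) (𝓝 (κ a (X j))) :=
        ((hκ a).1 (X j) (hX j)).tendsto.comp h3
      have h5 := (h4.const_sub (κ a (X j))).norm
      rwa [sub_self, norm_zero] at h5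
    have h3 : Tendsto (fun z => ∑ i, ‖S.P (Yz S X z i) - S.P (X i)‖) (𝓝 0)
        (𝓝 (∑ i : Fin N, (0 : ℝ))) := tendsto_finsetSum _ fun i _ => h1 i
    have h4 : Tendsto (fun z => ∑ a, (∑ j, ‖κ a (X j) - κ a (Yz S X z j)‖) * ‖e a‖) (𝓝 0)
        (𝓝 (∑ a, (∑ j : Fin N, (0 : ℝ)) * ‖e a‖)) :=
      tendsto_finsetSum _ fun a _ => (tendsto_finsetSum _ fun j _ => h2 a j).mul_const _
    have h5 := h3.add h4
    simpa using h5
  have hp : ∀ᶠ z in 𝓝 (0 : Fin N → E), (∀ i, Yz S X z i ∈ S.S) ∧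
      (∀ i, ‖Yz S X z i - X i‖ < ε) ∧ (∀ i j, i ≠ j → Yz S X z i ≠ Yz S X z j) ∧
      (∀ i j, L.Edge (X i) (X j) → L.Edge (Yz S X z i) (Yz S X z j)) ∧ η z < 1 := by
    have e1 := Yz_mem (S := S) hX
    have e2 : ∀ᶠ z in 𝓝 (0 : Fin N → E), ∀ i, ‖Yz S X z i - X i‖ < ε := by
      rw [eventually_all]; intro i
      have h2 := ((Yz_tendsto hX i).sub_const (X i)).norm
      rw [sub_self, norm_zero] at h2
      exact h2.eventually (gt_mem_nhds hε)
    have e3 : ∀ᶠ z in 𝓝 (0 : Fin N → E), ∀ i j, i ≠ j → Yz S X z i ≠ Yz S X z j := by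
      rw [eventually_all]; intro i
      rw [eventually_all]; intro j
      by_cases hij : i = j
      · exact Eventually.of_forall fun z hz => absurd hij hz
      · have hne : X i ≠ X j := fun h' => hij (h.inj h')
        have := ((Yz_tendsto hX i).prodMk_nhds (Yz_tendsto hX j)).eventually
          (isOpen_ne_fun (continuous_fst (X := E) (Y := E)) continuous_snd |>.mem_nhds hne)
        exact this.mono fun z hz _ => hz
    have e4 : ∀ᶠ z in 𝓝 (0 : Fin N → E), ∀ i j, L.Edge (X i) (X j) →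
        L.Edge (Yz S X z i) (Yz S X z j) := by
      rw [eventually_all]; intro i
      rw [eventually_all]; intro j
      by_cases he : L.Edge (X i) (X j)
      · have := Edge_ev he (Yz_tendsto hX i) (Yz_tendsto hX j)
          (e1.mono fun z hz => hz i) (e1.mono fun z hz => hz j)
        exact this.mono fun z hz _ => hz
      · exact Eventually.of_forall fun z hz => absurd hz he
    have e5 : ∀ᶠ z in 𝓝 (0 : Fin N → E), η z < 1 := hηt.eventually (gt_mem_nhds one_pos)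
    filter_upwards [e1, e2, e3, e4, e5] with z h1 h2 h3 h4 h5
    exact ⟨h1, h2, h3, h4, h5⟩
  have hI := ift hX ht1 ht3 he he2' hp
  have hpos : ∀ᶠ r in 𝓝 t, ∀ i j, L.Edge (X i) (X j) → 0 < r i j := by
    rw [eventually_all]; intro i
    rw [eventually_all]; intro j
    by_cases hE : L.Edge (X i) (X j)
    · have h1 : Tendsto (fun r : Fin N → Fin N → ℝ => r i j) (𝓝 t) (𝓝 (t i j)) :=
        ((continuous_apply j).comp (continuous_apply i)).tendsto t
      exact (h1.eventually (lt_mem_nhds (ht2 i j hE))).mono fun r hr _ => hr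
    · exact Eventually.of_forall fun r hr => absurd hr hE
  obtain ⟨q, hq1, hq2⟩ := exists_rat (hI.and hpos)
  obtain ⟨z, ⟨hz1, hz2, hz3, hz4, hz5⟩, hz6⟩ := hq1
  obtain ⟨D, hD, hD2⟩ := exists_den q
  have hFF := FF_zero hX he he2' hκ hκ2 hz6 hz4 hz5
  have hm : ∀ i j, ∃ m : ℕ, (0 < m ↔ L.Edge (X i) (X j)) ∧
      (m : ℝ) = D * ed L X (fun i j => (q i j : ℝ)) i j := by
    intro i j
    by_cases hE : L.Edge (X i) (X j)
    · have h1 : (0 : ℝ) < (q i j : ℝ) := hq2 i j hE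
      obtain ⟨m, hm1, hm2⟩ := hD2 i j (by exact_mod_cast h1)
      refine ⟨m, ⟨fun _ => hE, fun _ => hm1⟩, ?_⟩
      rw [hm2]
      simp only [ed, if_pos hE]
    · refine ⟨0, ⟨fun h0 => absurd h0 (lt_irrefl _), fun h0 => absurd h0 hE⟩, ?_⟩
      simp only [ed, if_neg hE]
      simp
  choose μ hμ1 hμ2 using hm
  refine ⟨Yz S X z, μ, hz1, hz2, ?_, hμ1, ?_, ?_⟩
  · intro i j hij
    by_contra hne
    exact hz3 i j hne hij
  · intro i j hij
    exact hz4 i j ((hμ1 i j).1 hij)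
  · intro i
    have h1 := congrFun hFF i
    unfold FF at h1
    rw [Pi.zero_apply, sub_eq_zero] at h1
    simp only [hμ2, mul_smul, ← Finset.smul_sum]
    rw [h1]

end Pool.Agent.H864R3.T7
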