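import Pool.Agent.H864R3.Defs
import Pool.Agent.H864R3.NetDefs

set_option autoImplicit false
set_option linter.unusedVariables false

open Set Metric Filter Topology
open scoped ContDiff InnerProductSpace NNReal

namespace Pool.Agent.H864R3.T8

variable {E : Type} [NormedAddCommGroup E] [InnerProductSpace ℝ E] [FiniteDimensional ℝ E]

/-- tangent vectors are fixed by the projection -/
lemma tan_P (S : RS E) {x v : E} (h : TanVec S.S x v) : S.P x v = v := by
  obtain ⟨c, hc, h0, hS, hd⟩ := h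
  have h1 : HasDerivAt (fun t => S.π (c t)) (S.P (c 0) v) 0 :=
    (S.hasFDerivAt_π (c 0)).comp_hasDerivAt 0 hd
  have h2 : (fun t => S.π (c t)) =ᶠ[𝓝 0] c := by
    filter_upwards [hS] with t ht
    exact S.hπS _ ht
  have h3 := (h1.congr_of_eventuallyEq h2.symm).unique hd
  rwa [h0] at h3

lemma deriv_pos (S : RS E) {f : E × E × E} (hf : f ∈ S.FB) :
    deriv (fun t => (S.Φ t f).1) = fun t => (S.Φ t f).2.1 := by
  ext t
  exact (S.pos_deriv (S.FB_sub_M hf one_le_two) t).deriv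

lemma geod_of_frame (S : RS E) {f : E × E × E} (hf : f ∈ S.FB) (I : Set ℝ) :
    IsGeod S.S (fun t => (S.Φ t f).1) I where
  smooth := by
    have h1 : ContDiff ℝ ∞ (fun t : ℝ => S.Φ t f) :=
      S.Φ_smooth.comp (contDiff_id.prodMk contDiff_const)
    exact contDiff_fst.comp h1
  mem t _ := (S.Φ_FB hf t).1
  unit t _ := by
    rw [deriv_pos S hf]
    exact (S.Φ_FB hf t).2.2.2.1
  geod t _ v hv := by
    have h1 := tan_P S hv
    have h2 : deriv (deriv (fun t => (S.Φ t f).1)) t =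
        S.B (S.Φ t f).1 (S.Φ t f).2.1 (S.Φ t f).2.1 := by
      rw [deriv_pos S hf]
      exact (S.vel_deriv (S.FB_sub_M hf one_le_two) t).deriv
    rw [h2]
    exact S.inner_B (S.Φ_FB hf t).1 (S.Φ_FB hf t).2.1 (S.Φ_FB hf t).2.1 h1

section
variable {S : RS E} {L : LE S}

/-- the geodesic of an edge -/
noncomputable def gam (L : LE S) (x y : E) (t : ℝ) : E := (S.Φ t (L.fr (x, y))).1

lemma fr_eq {x y : E} (h : L.Edge x y) : L.fr (x, y) = (x, L.u (x, y), (L.fr (x, y)).2.2) := by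
  obtain ⟨_, h2, h3⟩ := L.fr_spec h
  exact Prod.ext h2 (Prod.ext h3 rfl)

lemma fr_mem {x y : E} (h : L.Edge x y) : (x, L.u (x, y), (L.fr (x, y)).2.2) ∈ S.FB := by
  rw [← fr_eq h]; exact (L.fr_spec h).1

lemma gam_zero {x y : E} (h : L.Edge x y) : gam L x y 0 = x := by
  unfold gam
  rw [S.Φ_zero, fr_eq h]

lemma gam_len {x y : E} (h : L.Edge x y) : gam L x y (L.len (x, y)) = y := by
  obtain ⟨hx, hy, hne, hd, _⟩ := id h
  have := (L.Φ_frame hx hy hd hne (fr_mem h)).1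
  unfold gam
  rw [fr_eq h]
  exact this

lemma gam_deriv (x y : E) (h : L.Edge x y) (t : ℝ) :
    HasDerivAt (gam L x y) (S.Φ t (L.fr (x, y))).2.1 t :=
  S.pos_deriv (S.FB_sub_M (L.fr_spec h).1 one_le_two) t

lemma gam_deriv_zero {x y : E} (h : L.Edge x y) : HasDerivAt (gam L x y) (L.u (x, y)) 0 := by
  have := gam_deriv x y h 0
  rw [S.Φ_zero] at this
  rwa [(L.fr_spec h).2.2] at this

lemma gam_deriv_len {x y : E} (h : L.Edge x y) :
    deriv (gam L x y) (L.len (x, y)) = L.w (x, y) := by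
  obtain ⟨hx, hy, hne, hd, _⟩ := id h
  rw [(gam_deriv x y h _).deriv]
  have := (L.Φ_frame hx hy hd hne (fr_mem h)).2
  rw [← this, ← fr_eq h]

end

/-- points of a simple closed curve at parameter distance at most half the period are different -/
lemma inj_half {E : Type} {c : ℝ → E} {T : ℝ} (hT : 0 < T) (hp : ∀ t, c (t + T) = c t)
    (hi : InjOn c (Ico 0 T)) {s t : ℝ} (hst : |s - t| ≤ T / 2) (h : c s = c t) : s = t := by
  have hper : Function.Periodic c T := hp
  have key : ∀ a : ℝ, c (toIcoMod hT 0 a) = c a := by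
    intro a
    have := toIcoMod_add_toIcoDiv_zsmul hT 0 a
    conv_rhs => rw [← this]
    exact (hper.zsmul (toIcoDiv hT 0 a) _).symm
  have hmem : ∀ a : ℝ, toIcoMod hT 0 a ∈ Ico 0 T := by
    intro a
    have := toIcoMod_mem_Ico hT 0 a
    simpa using this
  have h1 : toIcoMod hT 0 s = toIcoMod hT 0 t := by
    apply hi (hmem s) (hmem t)
    rw [key, key, h]
  rw [toIcoMod_eq_toIcoMod] at h1
  obtain ⟨n, hn⟩ := h1
  rw [zsmul_eq_mul] at hn
  have h2 : |s - t| = |(n : ℝ)| * T := by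
    rw [abs_sub_comm, hn, abs_mul, abs_of_pos hT]
  rw [h2] at hst
  have h3 : |(n : ℝ)| < 1 := by
    by_contra hcon
    push Not at hcon
    nlinarith
  have h4 : n = 0 := by
    have : |n| < 1 := by exact_mod_cast h3
    exact Int.abs_lt_one_iff.1 this
  rw [h4] at hn
  simp at hn
  linarith

/-- shifting a parameter to the interval of length `T` around `t₀` -/
lemma exists_param {E : Type} {c : ℝ → E} {T : ℝ} (hT : 0 < T) (hp : ∀ t, c (t + T) = c t)
    (t₀ : ℝ) {y : E} (hy : y ∈ range c) : ∃ s ∈ Icc (t₀ - T / 2) (t₀ + T / 2), c s = y := by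
  have hper : Function.Periodic c T := hp
  obtain ⟨a, rfl⟩ := hy
  refine ⟨toIcoMod hT (t₀ - T / 2) a, ?_, ?_⟩
  · have := toIcoMod_mem_Ico hT (t₀ - T / 2) a
    exact ⟨this.1, by linarith [this.2]⟩
  · have := toIcoMod_add_toIcoDiv_zsmul hT (t₀ - T / 2) a
    conv_rhs => rw [← this]
    exact (hper.zsmul (toIcoDiv hT (t₀ - T / 2) a) _).symm

/-- a curve which stays in a simple closed curve is tangent to it -/
lemma tangent {c : ℝ → E} {T : ℝ} (hT : 0 < T) (hp : ∀ t, c (t + T) = c t)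
    (hi : InjOn c (Ico 0 T)) (hc : Continuous c) {t₀ : ℝ} {v u x : E} (hv : HasDerivAt c v t₀)
    (hv1 : ‖v‖ = 1) (hx : c t₀ = x) {γ : ℝ → E} (hu : HasDerivAt γ u 0) (hu1 : ‖u‖ = 1)
    (h0 : γ 0 = x) (hr : ∀ᶠ τ in 𝓝[>] (0:ℝ), γ τ ∈ range c) : u = v ∨ u = -v := by
  classical
  set l : Filter ℝ := 𝓝[>] (0:ℝ) with hl
  have hch : ∀ τ : ℝ, ∃ s : ℝ, γ τ ∈ range c → s ∈ Icc (t₀ - T / 2) (t₀ + T / 2) ∧ c s = γ τ := by
    intro τ
    by_cases h : γ τ ∈ range c
    · obtain ⟨s, h1, h2⟩ := exists_param hT hp t₀ h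
      exact ⟨s, fun _ => ⟨h1, h2⟩⟩
    · exact ⟨0, fun h' => absurd h' h⟩
  choose σ hσ using hch
  have hmem : ∀ᶠ τ in l, σ τ ∈ Icc (t₀ - T / 2) (t₀ + T / 2) := by
    filter_upwards [hr] with τ hτ using (hσ τ hτ).1
  have heq : ∀ᶠ τ in l, c (σ τ) = γ τ := by
    filter_upwards [hr] with τ hτ using (hσ τ hτ).2
  have hγ : Tendsto γ l (𝓝 x) := by
    have := hu.continuousAt.tendsto
    rw [h0] at this
    exact this.mono_left nhdsWithin_le_nhds
  have hlim : Tendsto σ l (𝓝 t₀) := by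
    refine isCompact_Icc.tendsto_nhds_of_unique_mapClusterPt hmem ?_
    intro s hs hcl
    rw [mapClusterPt_iff_ultrafilter] at hcl
    obtain ⟨U, hU, hUs⟩ := hcl
    have h1 : Tendsto (fun τ => c (σ τ)) U (𝓝 (c s)) := (hc.tendsto s).comp hUs
    have h2 : Tendsto (fun τ => c (σ τ)) U (𝓝 x) :=
      (hγ.mono_left hU).congr' (Filter.EventuallyEq.symm (hU heq))
    have h3 : c s = c t₀ := by rw [hx]; exact tendsto_nhds_unique h1 h2
    refine inj_half hT hp hi ?_ h3
    rw [abs_le]; constructor <;> linarith [hs.1, hs.2]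
  -- slopes
  have hpos : ∀ᶠ τ in l, (0:ℝ) < τ := eventually_mem_nhdsWithin
  have hsl : Tendsto (fun τ : ℝ => τ⁻¹ • (γ τ - x)) l (𝓝 u) := by
    have := (hasDerivAt_iff_tendsto_slope.1 hu).mono_left
      (nhdsWithin_mono (0:ℝ) (fun t (ht : 0 < t) => ht.ne') : 𝓝[>] (0:ℝ) ≤ 𝓝[≠] 0)
    refine this.congr fun τ => ?_
    rw [slope_def_module, sub_zero, h0]
  have hne : ∀ᶠ τ in l, σ τ ≠ t₀ := by
    have h1 : Tendsto (fun τ : ℝ => ‖τ⁻¹ • (γ τ - x)‖) l (𝓝 1) := by
      have := hsl.norm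
      rwa [hu1] at this
    have h2 : ∀ᶠ τ in l, (1:ℝ)/2 < ‖τ⁻¹ • (γ τ - x)‖ := h1.eventually_const_lt (by norm_num)
    filter_upwards [h2, heq] with τ h3 h4 h5
    rw [h5, hx] at h4
    rw [← h4, sub_self, smul_zero, norm_zero] at h3
    linarith
  have hcs : Tendsto (fun τ => (σ τ - t₀)⁻¹ • (c (σ τ) - x)) l (𝓝 v) := by
    have h1 : Tendsto σ l (𝓝[≠] t₀) := tendsto_nhdsWithin_iff.2 ⟨hlim, hne⟩
    have h2 := (hasDerivAt_iff_tendsto_slope.1 hv).comp h1
    refine h2.congr fun τ => ?_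
    rw [Function.comp_apply, slope_def_module, hx]
  have hrel : ∀ᶠ τ in l, τ⁻¹ • (γ τ - x) =
      ((σ τ - t₀) / τ) • ((σ τ - t₀)⁻¹ • (c (σ τ) - x)) := by
    filter_upwards [heq, hne, hpos] with τ h1 h2 h3
    rw [h1, smul_smul]
    congr 1
    have : σ τ - t₀ ≠ 0 := sub_ne_zero.2 h2
    field_simp
  have hin1 : Tendsto (fun τ : ℝ => ⟪τ⁻¹ • (γ τ - x), v⟫_ℝ) l (𝓝 ⟪u, v⟫_ℝ) :=
    hsl.inner tendsto_const_nhds
  have hin2 : Tendsto (fun τ => ⟪(σ τ - t₀)⁻¹ • (c (σ τ) - x), v⟫_ℝ) l (𝓝 1) := by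
    have := hcs.inner (𝕜 := ℝ) (tendsto_const_nhds (x := v))
    rwa [real_inner_self_eq_norm_sq, hv1, one_pow] at this
  have hρ : Tendsto (fun τ => (σ τ - t₀) / τ) l (𝓝 ⟪u, v⟫_ℝ) := by
    have h1 := hin1.div hin2 one_ne_zero
    rw [div_one] at h1
    refine h1.congr' ?_
    have h2 : ∀ᶠ τ in l, (1:ℝ)/2 < ⟪(σ τ - t₀)⁻¹ • (c (σ τ) - x), v⟫_ℝ :=
      hin2.eventually_const_lt (by norm_num)
    filter_upwards [hrel, h2] with τ h3 h4
    simp only [Pi.div_apply]
    rw [h3, real_inner_smul_left]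
    rw [mul_div_assoc, div_self (by linarith), mul_one]
  have hfin : Tendsto (fun τ : ℝ => τ⁻¹ • (γ τ - x)) l (𝓝 (⟪u, v⟫_ℝ • v)) :=
    (hρ.smul hcs).congr' (Filter.EventuallyEq.symm hrel)
  have hu' : u = ⟪u, v⟫_ℝ • v := tendsto_nhds_unique hsl hfin
  have hn : |⟪u, v⟫_ℝ| = 1 := by
    have := congrArg norm hu'
    rw [hu1, norm_smul, hv1, mul_one, Real.norm_eq_abs] at this
    exact this.symm
  rcases abs_eq (zero_le_one) |>.1 hn with h | h
  · left; rw [hu', h, one_smul]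
  · right; rw [hu', h, neg_smul, one_smul]

/-- the range of a periodic continuous curve is closed -/
lemma range_closed {c : ℝ → E} {T : ℝ} (hT : 0 < T) (hp : ∀ t, c (t + T) = c t)
    (hc : Continuous c) : IsClosed (range c) := by
  have h1 : range c = c '' Icc (0 - T / 2) (0 + T / 2) := by
    apply Subset.antisymm
    · intro y hy
      obtain ⟨s, hs, rfl⟩ := exists_param hT hp 0 hy
      exact ⟨s, hs, rfl⟩
    · exact image_subset_range _ _
  rw [h1]
  exact (isCompact_Icc.image hc).isClosed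

section net

variable {S : RS E} (L : LE S) {N : ℕ} (X : Fin N → E) (m : Fin N → Fin N → ℕ)

/-- the net of a configuration -/
noncomputable def net (hX : ∀ i, X i ∈ S.S)
    (hm : ∀ i j, 0 < m i j → L.Edge (X i) (X j))
    (hbal : ∀ i, ∑ j, (m i j : ℝ) • L.u (X i, X j) = ∑ j, (m j i : ℝ) • L.w (X j, X i))
    (hdir : ∀ i, ∃ j k, 0 < m i j ∧ 0 < m i k ∧ L.u (X i, X j) ≠ L.u (X i, X k) ∧
      L.u (X i, X j) ≠ - L.u (X i, X k)) : StatNet S.S where
  V := Fin N
  A := Σ p : Fin N × Fin N, Fin (m p.1 p.2)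
  src a := a.1.1
  tgt a := a.1.2
  pos := X
  len a := L.len (X a.1.1, X a.1.2)
  γ a := gam L (X a.1.1) (X a.1.2)
  len_pos a := by
    have h := hm a.1.1 a.1.2 (Fin.pos a.2)
    obtain ⟨n, _, h1, _⟩ := h.frame
    exact h1
  geod a := geod_of_frame S (L.fr_spec (hm a.1.1 a.1.2 (Fin.pos a.2))).1 _
  start a := gam_zero (hm a.1.1 a.1.2 (Fin.pos a.2))
  stop a := gam_len (hm a.1.1 a.1.2 (Fin.pos a.2))
  valence v := by
    have hs : (Finset.univ.filter fun a : Σ p : Fin N × Fin N, Fin (m p.1 p.2) => a.1.1 = v).card =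
        ∑ j, m v j := by
      rw [Finset.card_filter, Fintype.sum_sigma, Fintype.sum_prod_type, Finset.sum_comm]
      refine Finset.sum_congr rfl fun j _ => ?_
      rw [Finset.sum_eq_single v]
      · simp
      · intro b _ hb
        simp [hb]
      · intro h; exact absurd (Finset.mem_univ v) h
    have ht : (Finset.univ.filter fun a : Σ p : Fin N × Fin N, Fin (m p.1 p.2) => a.1.2 = v).card =
        ∑ i, m i v := by
      rw [Finset.card_filter, Fintype.sum_sigma, Fintype.sum_prod_type]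
      refine Finset.sum_congr rfl fun j _ => ?_
      rw [Finset.sum_eq_single v]
      · simp
      · intro b _ hb
        simp [hb]
      · intro h; exact absurd (Finset.mem_univ v) h
    rw [hs, ht]
    obtain ⟨j, k, hj, hk, hne, hne'⟩ := hdir v
    have hjk : j ≠ k := by rintro rfl; exact hne rfl
    by_contra hcon
    push Not at hcon
    have h2 : m v j + m v k + ∑ a ∈ (Finset.univ.erase j).erase k, m v a = ∑ a, m v a := by
      rw [← Finset.add_sum_erase _ _ (Finset.mem_univ j),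
        ← Finset.add_sum_erase (Finset.univ.erase j) (m v)
          (Finset.mem_erase.2 ⟨hjk.symm, Finset.mem_univ k⟩)]
      ring
    have e1 : m v j = 1 := by omega
    have e2 : m v k = 1 := by omega
    have e3 : ∑ a ∈ (Finset.univ.erase j).erase k, m v a = 0 := by omega
    have e4 : ∑ i, m i v = 0 := by omega
    rw [Finset.sum_eq_zero_iff] at e3 e4
    have hb := hbal v
    have hr : ∑ j, (m j v : ℝ) • L.w (X j, X v) = 0 :=
      Finset.sum_eq_zero fun i hi => by rw [e4 i hi, Nat.cast_zero, zero_smul]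
    rw [hr, ← Finset.add_sum_erase _ _ (Finset.mem_univ j),
        ← Finset.add_sum_erase (Finset.univ.erase j) _
          (Finset.mem_erase.2 ⟨hjk.symm, Finset.mem_univ k⟩), e1, e2,
        Finset.sum_eq_zero fun i hi => by rw [e3 i hi, Nat.cast_zero, zero_smul]] at hb
    simp only [Nat.cast_one, one_smul, add_zero] at hb
    exact hne' (eq_neg_of_add_eq_zero_left hb)
  balance v := by
    have hu : ∀ a : Σ p : Fin N × Fin N, Fin (m p.1 p.2),
        deriv (gam L (X a.1.1) (X a.1.2)) 0 = L.u (X a.1.1, X a.1.2) := fun a =>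
      (gam_deriv_zero (hm a.1.1 a.1.2 (Fin.pos a.2))).deriv
    have hw : ∀ a : Σ p : Fin N × Fin N, Fin (m p.1 p.2),
        deriv (gam L (X a.1.1) (X a.1.2)) (L.len (X a.1.1, X a.1.2)) =
          L.w (X a.1.1, X a.1.2) := fun a =>
      gam_deriv_len (hm a.1.1 a.1.2 (Fin.pos a.2))
    have hs : ∑ a ∈ Finset.univ.filter
        (fun a : Σ p : Fin N × Fin N, Fin (m p.1 p.2) => a.1.1 = v),
        deriv (gam L (X a.1.1) (X a.1.2)) 0 = ∑ j, (m v j : ℝ) • L.u (X v, X j) := by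
      rw [Finset.sum_filter]
      simp only [hu]
      rw [Fintype.sum_sigma, Fintype.sum_prod_type, Finset.sum_comm]
      refine Finset.sum_congr rfl fun j _ => ?_
      simp only [Finset.sum_const, Finset.card_univ, Fintype.card_fin]
      rw [Finset.sum_eq_single v]
      · simp [Nat.cast_smul_eq_nsmul]
      · intro b _ hb
        simp [hb]
      · intro h; exact absurd (Finset.mem_univ v) h
    have ht : ∑ a ∈ Finset.univ.filter
        (fun a : Σ p : Fin N × Fin N, Fin (m p.1 p.2) => a.1.2 = v),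
        (- deriv (gam L (X a.1.1) (X a.1.2)) (L.len (X a.1.1, X a.1.2))) =
          - ∑ i, (m i v : ℝ) • L.w (X i, X v) := by
      rw [Finset.sum_filter]
      simp only [hw]
      rw [Fintype.sum_sigma, Fintype.sum_prod_type, ← Finset.sum_neg_distrib]
      refine Finset.sum_congr rfl fun i _ => ?_
      simp only [Finset.sum_const, Finset.card_univ, Fintype.card_fin]
      rw [Finset.sum_eq_single v]
      · simp [Nat.cast_smul_eq_nsmul]
      · intro b _ hb
        simp [hb]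
      · intro h; exact absurd (Finset.mem_univ v) h
    rw [hs, ht, hbal v, add_neg_cancel]

end net

end Pool.Agent.H864R3.T8

namespace Pool.Agent.H864R3.T8

variable {E : Type} [NormedAddCommGroup E] [InnerProductSpace ℝ E] [FiniteDimensional ℝ E]

/-- TASK T8 (the net of a configuration with multiplicities). -/
theorem net_of_conf {S : RS E} (L : LE S) {N : ℕ} (X : Fin N → E) (m : Fin N → Fin N → ℕ)
    (hX : ∀ i, X i ∈ S.S) (hinj : Function.Injective X)
    (hm : ∀ i j, 0 < m i j → L.Edge (X i) (X j))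
    (hbal : ∀ i, ∑ j, (m i j : ℝ) • L.u (X i, X j) = ∑ j, (m j i : ℝ) • L.w (X j, X i))
    (hdir : ∀ i, ∃ j k, 0 < m i j ∧ 0 < m i k ∧ L.u (X i, X j) ≠ L.u (X i, X k) ∧
      L.u (X i, X j) ≠ - L.u (X i, X k)) (i0 : Fin N) :
    ∃ G : StatNet S.S, G.Nontrivial ∧ X i0 ∈ G.image := by
  set G := net L X m hX hm hbal hdir with hG
  obtain ⟨j, k, hj, hk, hne, hne'⟩ := hdir i0
  have hsub : ∀ b, 0 < m i0 b → ∀ t ∈ Icc 0 (L.len (X i0, X b)),
      gam L (X i0) (X b) t ∈ G.image := by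
    intro b hb t ht
    exact mem_iUnion.2 ⟨(⟨(i0, b), ⟨0, hb⟩⟩ : Σ p : Fin N × Fin N, Fin (m p.1 p.2)), t, ht, rfl⟩
  have hlen : ∀ b, 0 < m i0 b → 0 < L.len (X i0, X b) := by
    intro b hb
    obtain ⟨n, _, h1, _⟩ := (hm i0 b hb).frame
    exact h1
  have hx0 : X i0 ∈ G.image := by
    have := hsub j hj 0 ⟨le_rfl, (hlen j hj).le⟩
    rwa [gam_zero (hm i0 j hj)] at this
  refine ⟨G, ?_, hx0⟩
  rintro ⟨K, c, T, hc, hdis, him⟩
  rw [him, mem_iUnion] at hx0
  obtain ⟨a, t₀, ht₀⟩ := hx0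
  have hcl : IsClosed (⋃ b ∈ (Finset.univ.erase a : Finset (Fin K)), range (c b)) := by
    refine (Finset.finite_toSet _).isClosed_biUnion ?_
    intro b _
    exact range_closed (hc b).1 (hc b).2.2.1 (hc b).2.1.smooth.continuous
  have hxn : X i0 ∉ ⋃ b ∈ (Finset.univ.erase a : Finset (Fin K)), range (c b) := by
    intro h
    rw [mem_iUnion₂] at h
    obtain ⟨b, hb, hb'⟩ := h
    have hba : b ≠ a := (Finset.mem_erase.1 hb).1
    exact disjoint_left.1 (hdis b a hba) hb' ⟨t₀, ht₀⟩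
  have hvd : HasDerivAt (c a) (deriv (c a) t₀) t₀ :=
    ((hc a).2.1.smooth.differentiable (by simp) t₀).hasDerivAt
  have hv1 : ‖deriv (c a) t₀‖ = 1 := (hc a).2.1.unit t₀ (mem_univ _)
  have key : ∀ b, 0 < m i0 b → L.u (X i0, X b) = deriv (c a) t₀ ∨
      L.u (X i0, X b) = - deriv (c a) t₀ := by
    intro b hb
    have hE := hm i0 b hb
    have hd := gam_deriv_zero hE
    refine tangent (hc a).1 (hc a).2.2.1 (hc a).2.2.2 (hc a).2.1.smooth.continuous hvd hv1 ht₀
      hd (L.u_norm hE.1 hE.2.1 hE.2.2.2.1 hE.2.2.1) (gam_zero hE) ?_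
    have h1 : ∀ᶠ τ in 𝓝[>] (0:ℝ), gam L (X i0) (X b) τ ∉
        ⋃ b ∈ (Finset.univ.erase a : Finset (Fin K)), range (c b) := by
      have := hd.continuousAt.eventually (hcl.isOpen_compl.mem_nhds
        (by rw [gam_zero hE]; exact hxn))
      exact this.filter_mono nhdsWithin_le_nhds
    have h2 : ∀ᶠ τ in 𝓝[>] (0:ℝ), τ ∈ Ioo 0 (L.len (X i0, X b)) :=
      Ioo_mem_nhdsGT (hlen b hb)
    filter_upwards [h1, h2] with τ h3 h4
    have h5 := hsub b hb τ ⟨h4.1.le, h4.2.le⟩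
    rw [him, mem_iUnion] at h5
    obtain ⟨b', hb'⟩ := h5
    by_cases hba : b' = a
    · rwa [hba] at hb'
    · exact absurd (mem_iUnion₂.2 ⟨b', Finset.mem_erase.2 ⟨hba, Finset.mem_univ _⟩, hb'⟩) h3
  rcases key j hj with h1 | h1 <;> rcases key k hk with h2 | h2
  · exact hne (by rw [h1, h2])
  · exact hne' (by rw [h1, h2, neg_neg])
  · exact hne' (by rw [h1, h2])
  · exact hne (by rw [h1, h2])

end Pool.Agent.H864R3.T8
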