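import Pool.Agent.H864R3.K3c
import Pool.Agent.H864R3.K4a
import Pool.Agent.H864R3.K4b
import Pool.Agent.H864R3.T1
import Pool.Agent.H864R3.T2
import Pool.Agent.H864R3.T3
import Pool.Agent.H864R3.T4
import Pool.Agent.H864R3.T5
import Pool.Agent.H864R3.T6
import Pool.Agent.H864R3.T7
import Pool.Agent.H864R3.T8
import Pool.Agent.H965R2.GN_T9

set_option autoImplicit false
set_option linter.unusedVariables false
set_option linter.unusedSectionVars false

open Set Metric Filter Topology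
open scoped ContDiff InnerProductSpace NNReal

namespace Pool.Agent.H864R3

variable {E : Type} [NormedAddCommGroup E] [InnerProductSpace ℝ E] [FiniteDimensional ℝ E]

namespace RS

variable (S : RS E)

/-- reversal of the normal vector of a frame -/
def flip (f : E × E × E) : E × E × E := (f.1, f.2.1, -f.2.2)

lemma flip_FB {f : E × E × E} (hf : f ∈ S.FB) : flip f ∈ S.FB := by
  obtain ⟨h1, h2, h3, h4, h5, h6⟩ := hf
  refine ⟨h1, h2, ?_, h4, ?_, ?_⟩
  · show S.P f.1 (-f.2.2) = -f.2.2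
    rw [map_neg, h3]
  · show ‖-f.2.2‖ = 1
    rw [norm_neg, h5]
  · show ⟪f.2.1, -f.2.2⟫_ℝ = 0
    rw [inner_neg_right, h6, neg_zero]

lemma Φ_flip {f : E × E × E} (hf : f ∈ S.FB) (t : ℝ) : S.Φ t (flip f) = flip (S.Φ t f) := by
  have := S.Φ_scale (S.FB_sub_M hf one_le_two) (l := 1) (m := -1) (by simp) (by simp) t
  simp only [one_smul, neg_smul, one_mul] at this
  exact this

lemma K_flip (f : E × E × E) : S.K (flip f) = S.K f := by
  unfold K flip
  simp

lemma sj_flip {f : E × E × E} (hf : f ∈ S.FB) (t : ℝ) :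
    S.sj (flip f) t = S.sj f t ∧ S.sj' (flip f) t = S.sj' f t := by
  obtain ⟨κ, hκ0, hκ⟩ := S.K_bound
  have hf' := S.flip_FB hf
  have key := lin2_zero (j := fun t => S.sj (flip f) t - S.sj f t)
    (ψ := fun t => S.sj' (flip f) t - S.sj' f t) (k := fun t => S.K (S.Φ t f)) (κ := κ)
    (fun t => (S.sj_deriv hf' t).sub (S.sj_deriv hf t)) (fun t => ?_)
    (fun t => hκ _ (S.Φ_FB hf t)) (by simp [S.sj_zero]) (by simp [S.sj'_zero hf, S.sj'_zero hf']) t
  · exact ⟨sub_eq_zero.1 key.1, sub_eq_zero.1 key.2⟩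
  · have := (S.sj'_deriv hf' t).sub (S.sj'_deriv hf t)
    refine this.congr_deriv ?_
    rw [S.Φ_flip hf, S.K_flip]; ring

lemma cj_flip {f : E × E × E} (hf : f ∈ S.FB) (t : ℝ) :
    S.cj (flip f) t = S.cj f t ∧ S.cj' (flip f) t = S.cj' f t := by
  obtain ⟨κ, hκ0, hκ⟩ := S.K_bound
  have hf' := S.flip_FB hf
  have key := lin2_zero (j := fun t => S.cj (flip f) t - S.cj f t)
    (ψ := fun t => S.cj' (flip f) t - S.cj' f t) (k := fun t => S.K (S.Φ t f)) (κ := κ)
    (fun t => (S.cj_deriv hf' t).sub (S.cj_deriv hf t)) (fun t => ?_)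
    (fun t => hκ _ (S.Φ_FB hf t)) (by simp [S.cj_zero hf, S.cj_zero hf'])
    (by simp [S.cj'_zero hf, S.cj'_zero hf']) t
  · exact ⟨sub_eq_zero.1 key.1, sub_eq_zero.1 key.2⟩
  · have := (S.cj'_deriv hf' t).sub (S.cj'_deriv hf t)
    refine this.congr_deriv ?_
    rw [S.Φ_flip hf, S.K_flip]; ring

lemma eqn_flip {f : E × E × E} (hf : f ∈ S.FB) {t : ℝ} {v0 a0 v1 a1 : E}
    (h : S.eqn (flip f) t v0 a0 v1 a1) : S.eqn f t v0 a0 v1 a1 := by
  unfold eqn at *
  rw [(S.sj_flip hf t).1, (S.sj_flip hf t).2, (S.cj_flip hf t).1, S.Φ_flip hf] at h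
  unfold flip at h
  simp only [inner_neg_right] at h
  linear_combination h

/-- two frames with the same first two vectors agree up to a flip -/
lemma frame_unique {f g : E × E × E} (hf : f ∈ S.FB) (hg : g ∈ S.FB) (h1 : f.1 = g.1)
    (h2 : f.2.1 = g.2.1) : f = g ∨ f = flip g := by
  have h3 : S.P g.1 f.2.2 = f.2.2 := by rw [← h1]; exact hf.2.2.1
  have h4 := S.frame_expand hg h3
  have h5 : ⟪f.2.2, g.2.1⟫_ℝ = 0 := by rw [← h2, real_inner_comm]; exact hf.2.2.2.2.2
  rw [h5, zero_smul, zero_add] at h4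
  have h6 : ‖f.2.2‖ = |⟪f.2.2, g.2.2⟫_ℝ| := by
    conv_lhs => rw [h4]
    rw [norm_smul, hg.2.2.2.2.1, mul_one, Real.norm_eq_abs]
  rw [hf.2.2.2.2.1] at h6
  rcases eq_or_eq_neg_of_abs_eq h6.symm with h7 | h7
  · left
    rw [h7, one_smul] at h4
    exact Prod.ext h1 (Prod.ext h2 h4)
  · right
    rw [h7, neg_one_smul] at h4
    exact Prod.ext h1 (Prod.ext h2 h4)

end RS

/-- module K in the form needed for the compactness argument -/
theorem K_all {S : RS E} (L : LE S) (v a : E → E) (h1 : ∀ x ∈ S.S, S.P x (v x) = v x)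
    (h2 : ∀ x ∈ S.S, S.P x (a x) = a x) (h3 : ∃ C, ∀ x ∈ S.S, ‖v x‖ ≤ C ∧ ‖a x‖ ≤ C)
    (h4 : ∀ f ∈ S.FB, ∀ t : ℝ, 0 < t → t < L.r →
        S.eqn f t (v f.1) (a f.1) (v (S.Φ t f).1) (a (S.Φ t f).1)) :
    ContinuousOn v S.S ∧ ContinuousOn a S.S ∧ v ∈ L.KF := by
  have F : Fld L v a := ⟨h1, h2, h3, h4⟩
  refine ⟨F.cont.1, F.cont.2, F.cont.1, h1, fun f hf t _ _ => ?_⟩
  exact K4b.killing F (fun f hf θ => F.iso hf θ)
    (fun y0 hy0 => K4a.loc_smooth F (fun f hf θ => F.iso hf θ) y0 hy0) f hf t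

/-- duality for the equations of second order -/
lemma exists_a {S : RS E} (L : LE S) {N : ℕ} {X : Fin N → E} (hX : ∀ i, X i ∈ S.S)
    (v : Fin N → E) (h : ∀ s', L.Bal X s' → L.bs X s' v v = 0) :
    ∃ a : Fin N → E, (∀ i, S.P (X i) (a i) = a i) ∧ ∀ i j, L.Edge (X i) (X j) →
      ⟪a i, L.u (X i, X j)⟫_ℝ - ⟪a j, L.w (X i, X j)⟫_ℝ = L.bil (X i, X j) (v i) (v j) (v i) (v j) := by
  classical
  let R : (Fin N → E) →ₗ[ℝ] (Fin N × Fin N → ℝ) :=
    { toFun := fun a e => if L.Edge (X e.1) (X e.2) then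
        ⟪a e.1, L.u (X e.1, X e.2)⟫_ℝ - ⟪a e.2, L.w (X e.1, X e.2)⟫_ℝ else 0
      map_add' := by
        intro a b
        funext e
        simp only [Pi.add_apply, inner_add_left]
        split_ifs <;> ring
      map_smul' := by
        intro c a
        funext e
        simp only [Pi.smul_apply, real_inner_smul_left, RingHom.id_apply, smul_eq_mul]
        split_ifs <;> ring }
  have hR : ∀ a e, R a e = if L.Edge (X e.1) (X e.2) then
        ⟪a e.1, L.u (X e.1, X e.2)⟫_ℝ - ⟪a e.2, L.w (X e.1, X e.2)⟫_ℝ else 0 := fun a e => rfl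
  obtain ⟨a, ha⟩ := T2.duality R (fun e => if L.Edge (X e.1) (X e.2) then
    L.bil (X e.1, X e.2) (v e.1) (v e.2) (v e.1) (v e.2) else 0) (fun s hs => by
      set s' : Fin N → Fin N → ℝ := fun i j => if L.Edge (X i) (X j) then s (i, j) else 0 with hs'
      have hBal : L.Bal X s' := by
        refine ⟨fun i j hn => by rw [hs']; simp only; rw [if_neg hn], fun i => ?_⟩
        rw [← sub_eq_zero]
        refine ext_inner_left ℝ fun b => ?_
        rw [inner_zero_right]
        have h1 := hs (Pi.single i b)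
        rw [Fintype.sum_prod_type] at h1
        rw [inner_sub_right, inner_sum, inner_sum]
        have h2 : ∑ x, ∑ y, s (x, y) * R (Pi.single i b) (x, y) =
            ∑ x, ∑ y, (s' x y * ⟪(Pi.single i b : Fin N → E) x, L.u (X x, X y)⟫_ℝ -
              s' x y * ⟪(Pi.single i b : Fin N → E) y, L.w (X x, X y)⟫_ℝ) := by
          refine Finset.sum_congr rfl fun x _ => Finset.sum_congr rfl fun y _ => ?_
          rw [hR, hs']
          simp only
          split_ifs <;> ring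
        rw [h2] at h1
        simp only [Finset.sum_sub_distrib] at h1
        have h3 : ∑ x, ∑ y, s' x y * ⟪(Pi.single i b : Fin N → E) x, L.u (X x, X y)⟫_ℝ =
            ∑ y, s' i y * ⟪b, L.u (X i, X y)⟫_ℝ := by
          rw [Finset.sum_eq_single i]
          · simp
          · intro x _ hx
            simp [Pi.single_eq_of_ne hx]
          · simp
        have h4 : ∑ x, ∑ y, s' x y * ⟪(Pi.single i b : Fin N → E) y, L.w (X x, X y)⟫_ℝ =
            ∑ x, s' x i * ⟪b, L.w (X x, X i)⟫_ℝ := by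
          refine Finset.sum_congr rfl fun x _ => ?_
          rw [Finset.sum_eq_single i]
          · simp
          · intro y _ hy
            simp [Pi.single_eq_of_ne hy]
          · simp
        rw [h3, h4] at h1
        simp only [real_inner_smul_right]
        exact h1
      have h5 := h s' hBal
      refine Eq.trans ?_ h5
      rw [Fintype.sum_prod_type]
      unfold LE.bs
      refine Finset.sum_congr rfl fun x _ => Finset.sum_congr rfl fun y _ => ?_
      rw [hs']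
      simp only
      split_ifs <;> ring)
  refine ⟨fun i => S.P (X i) (a i), fun i => S.PP (hX i) _, fun i j hE => ?_⟩
  have h6 := congrFun ha (i, j)
  rw [hR] at h6
  simp only [hE, if_true] at h6
  rw [← h6, S.inner_P (hX i), S.inner_P (hX j), L.u_tan hE.1 hE.2.1 hE.2.2.2.1, T7.w_tan hE]

/-- fine configurations: the common kernel of the equilibrium stresses consists of Killing
fields -/
theorem kernel {S : RS E} (L : LE S) : ∃ ε > 0, ∀ (N : ℕ) (X : Fin N → E),
    (∀ i, X i ∈ S.S) → Function.Injective X → (∀ z ∈ S.S, ∃ i, ‖z - X i‖ < ε) →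
    ∀ v : Fin N → E, (∀ i, S.P (X i) (v i) = v i) →
      (∀ s', L.Bal X s' → L.bs X s' v v = 0) → ∃ κ ∈ L.KF, ∀ i, v i = κ (X i) := by
  classical
  obtain ⟨ε, hε, hcomp⟩ := T6.compactness L (fun v a h1 h2 h3 h4 => K_all L v a h1 h2 h3 h4)
    (fun v a h1 h2 h3 h4 z hz v' a' hv' ha' h =>
      Fld.uniq (⟨h1, h2, h3, h4⟩ : Fld L v a) hz hv' ha' h)
  refine ⟨ε, hε, fun N X hX hinj hfine v hv hvs => ?_⟩
  set Q : Finset E := Finset.univ.image X with hQ
  have hmemQ : ∀ x, x ∈ Q ↔ ∃ i, X i = x := by intro x; simp [hQ]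
  set 𝒱 : Set (E → E) := {V | (∀ i, S.P (X i) (V (X i)) = V (X i)) ∧
    ∀ s', L.Bal X s' → L.bs X s' (fun i => V (X i)) (fun i => V (X i)) = 0} with h𝒱
  set V0 : E → E := fun x => if h : ∃ i, X i = x then v h.choose else 0 with hV0
  have hV0X : ∀ i, V0 (X i) = v i := by
    intro i
    rw [hV0]
    simp only
    have : ∃ j, X j = X i := ⟨i, rfl⟩
    rw [dif_pos this]
    congr 1
    exact hinj this.choose_spec
  have hV0m : V0 ∈ 𝒱 := by
    refine ⟨fun i => by rw [hV0X]; exact hv i, fun s' hs' => ?_⟩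
    have : (fun i => V0 (X i)) = v := funext hV0X
    rw [this]
    exact hvs s' hs'
  have key0 := hcomp Q (fun x hx => by
      obtain ⟨i, rfl⟩ := (hmemQ x).1 hx
      exact hX i) (fun z hz => by
      obtain ⟨i, hi⟩ := hfine z hz
      exact ⟨X i, (hmemQ _).2 ⟨i, rfl⟩, hi⟩) 𝒱
  suffices hsuff : ∀ v ∈ 𝒱, ∃ κ ∈ L.KF, ∀ x ∈ Q, v x = κ x by
    obtain ⟨κ, hκ, hκ2⟩ := hsuff V0 hV0m
    refine ⟨κ, hκ, fun i => ?_⟩
    rw [← hV0X i]
    exact hκ2 _ ((hmemQ _).2 ⟨i, rfl⟩)
  refine key0 ?_ ?_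
  · intro V hV
    refine ⟨fun x hx => by
      obtain ⟨i, rfl⟩ := (hmemQ x).1 hx
      exact hV.1 i, ?_⟩
    obtain ⟨a, ha, hab⟩ := exists_a L hX (fun i => V (X i)) hV.2
    set A0 : E → E := fun x => if h : ∃ i, X i = x then a h.choose else 0 with hA0
    have hA0X : ∀ i, A0 (X i) = a i := by
      intro i
      rw [hA0]
      simp only
      have : ∃ j, X j = X i := ⟨i, rfl⟩
      rw [dif_pos this]
      congr 1
      exact hinj this.choose_spec
    refine ⟨A0, fun x hx => by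
      obtain ⟨i, rfl⟩ := (hmemQ x).1 hx
      rw [hA0X]; exact ha i, fun f hf t h0 h1 hx hy => ?_⟩
    obtain ⟨i, hi⟩ := (hmemQ _).1 hx
    obtain ⟨j, hj⟩ := (hmemQ _).1 hy
    obtain ⟨hE, hlen, hu, hw⟩ := L.edge_of_frame hf h0 h1
    rw [← hi, ← hj, hA0X, hA0X]
    rw [← hi, ← hj] at hE hlen hu hw
    obtain ⟨k1, k2, k3⟩ := L.fr_spec hE
    have key : S.eqn (L.fr (X i, X j)) t (V (X i)) (a i) (V (X j)) (a j) := by
      have hb := hab i j hE
      unfold LE.bil at hb
      have hΦ := L.Φ_frame hE.1 hE.2.1 hE.2.2.2.1 hE.2.2.1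
        (n := (L.fr (X i, X j)).2.2) (by
          have : (X i, L.u (X i, X j), (L.fr (X i, X j)).2.2) = L.fr (X i, X j) :=
            Prod.ext k2.symm (Prod.ext k3.symm rfl)
          rw [this]; exact k1)
      have hfr : (X i, L.u (X i, X j), (L.fr (X i, X j)).2.2) = L.fr (X i, X j) :=
        Prod.ext k2.symm (Prod.ext k3.symm rfl)
      rw [hfr] at hΦ
      rw [hlen] at hb hΦ
      have hs := L.sj_pos k1 h0 h1.le
      rw [eq_div_iff hs.ne'] at hb
      unfold RS.eqn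
      rw [k3, hΦ.2]
      linear_combination -hb
    rcases S.frame_unique hf k1 (hi.symm.trans k2.symm) (hu.symm.trans k3.symm) with h | h
    · rw [h]; exact key
    · have hff : L.fr (X i, X j) = RS.flip f := by
        rw [h]
        unfold RS.flip
        simp
      rw [hff] at key
      exact S.eqn_flip hf key
  · intro V hV κ hκ c
    refine ⟨fun i => ?_, fun s' hs' => ?_⟩
    · simp only
      rw [map_smul, map_sub, hV.1 i, hκ.2.1 _ (hX i)]
    · have e1 : (fun i => c • (V (X i) - κ (X i))) =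
          c • ((fun i => V (X i)) + (-1:ℝ) • fun i => κ (X i)) := by
        funext i
        simp only [Pi.smul_apply, Pi.add_apply]
        module
      show L.bs X s' (fun i => c • (V (X i) - κ (X i))) (fun i => c • (V (X i) - κ (X i))) = 0
      rw [e1]
      have hκm : (fun i => κ (X i)) ∈ T7.KX L X := ⟨κ, hκ, fun i => rfl⟩
      have hprV : T7.pr S X (fun i => V (X i)) = fun i => V (X i) := by
        funext i
        exact hV.1 i
      have hprκ : T7.pr S X (fun i => κ (X i)) = fun i => κ (X i) := by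
        funext i
        exact hκ.2.1 _ (hX i)
      have b1 := T7.bs_KX hX hs' hκm (fun i => V (X i))
      have b2 := T7.bs_KX hX hs' hκm (fun i => κ (X i))
      rw [hprV] at b1
      rw [hprκ] at b2
      have b3 : L.bs X s' (fun i => κ (X i)) (fun i => V (X i)) = 0 := by
        rw [T7.bs_symm]; exact b1
      simp only [T7.bs_smul_left, T7.bs_smul_right, T7.bs_add_left, T7.bs_add_right, b1, b2, b3,
        hV.2 s' hs']
      ring

/-- non-edges stay without short geodesics after a small perturbation -/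
lemma edges_near {S : RS E} (L : LE S) {N : ℕ} {X : Fin N → E} (hX : ∀ i, X i ∈ S.S)
    (hinj : Function.Injective X) : ∃ ε > 0, ∀ X' : Fin N → E, (∀ i, X' i ∈ S.S) →
      (∀ i, ‖X' i - X i‖ < ε) → ∀ i j, L.Edge (X' i) (X' j) → ‖L.W (X' i, X' j)‖ ≤ 3 / 4 * L.r →
      L.Edge (X i) (X j) := by
  have key : ∀ i j, ∀ᶠ X' : Fin N → E in 𝓝 X, (∀ i, X' i ∈ S.S) → L.Edge (X' i) (X' j) →
      ‖L.W (X' i, X' j)‖ ≤ 3 / 4 * L.r → L.Edge (X i) (X j) := by
    intro i j
    have hr := L.r_pos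
    rcases eq_or_ne i j with hij | hij
    · subst hij
      exact Eventually.of_forall fun X' _ h _ => absurd rfl h.2.2.1
    have hci : Tendsto (fun X' : Fin N → E => X' i) (𝓝 X) (𝓝 (X i)) :=
      (continuous_apply i).tendsto X
    have hcj : Tendsto (fun X' : Fin N → E => X' j) (𝓝 X) (𝓝 (X j)) :=
      (continuous_apply j).tendsto X
    rcases lt_or_ge ‖X i - X j‖ L.ρ with hd | hd
    · have hW : Tendsto (fun X' : Fin N → E => ‖L.W (X' i, X' j)‖) (𝓝 X)
          (𝓝 ‖L.W (X i, X j)‖) :=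
        ((L.W_contAt (hX i) (hX j) hd).tendsto.comp (hci.prodMk_nhds hcj)).norm
      rcases lt_or_ge ‖L.W (X i, X j)‖ L.r with hl | hl
      · exact Eventually.of_forall fun X' _ _ _ => ⟨hX i, hX j, hinj.ne hij, hd, hl⟩
      · have : ∀ᶠ X' : Fin N → E in 𝓝 X, 3 / 4 * L.r < ‖L.W (X' i, X' j)‖ :=
          hW.eventually (lt_mem_nhds (by linarith))
        filter_upwards [this] with X' h1 _ _ h2
        exact absurd h2 (not_le.2 h1)
    · have : ∀ᶠ X' : Fin N → E in 𝓝 X, L.r < ‖X' i - X' j‖ :=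
        (hci.sub hcj).norm.eventually (lt_mem_nhds (L.r_lt.trans_le hd))
      filter_upwards [this] with X' h1 h0 h2 h3
      have := L.norm_sub_le (h0 i) (h0 j) h2.2.2.2.1
      linarith
  have key2 : ∀ᶠ X' : Fin N → E in 𝓝 X, ∀ i j, (∀ i, X' i ∈ S.S) → L.Edge (X' i) (X' j) →
      ‖L.W (X' i, X' j)‖ ≤ 3 / 4 * L.r → L.Edge (X i) (X j) := by
    rw [eventually_all]
    intro i
    rw [eventually_all]
    exact key i
  obtain ⟨ε, hε, hball⟩ := Metric.eventually_nhds_iff_ball.1 key2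
  refine ⟨ε, hε, fun X' hX' hd i j hE hW => hball X' ?_ i j hX' hE hW⟩
  rw [mem_ball, dist_eq_norm, pi_norm_lt_iff hε]
  exact hd

/-- density of nontrivial stationary nets, for surfaces with a neighbourhood retraction -/
theorem density_RS (S : RS E) (U : Set E) (hU : IsOpen U) (hne : (S.S ∩ U).Nonempty) :
    ∃ G : StatNet S.S, G.Nontrivial ∧ (G.image ∩ U).Nonempty := by
  obtain ⟨L⟩ := T3.exists_LE S
  obtain ⟨z0, hz0, hz0U⟩ := hne
  obtain ⟨η, hη, hηU⟩ := Metric.isOpen_iff.1 hU z0 hz0U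
  obtain ⟨ε1, hε1, hker⟩ := kernel L
  obtain ⟨ε2, hε2, hdir⟩ := H965R2.GNT9.directions L
  set ε := min ε1 (min (ε2 / 2) (η / 2)) with hε
  have hεpos : 0 < ε := by rw [hε]; positivity
  have e1 : ε ≤ ε1 := min_le_left _ _
  have e2 : ε ≤ ε2 / 2 := (min_le_right _ _).trans (min_le_left _ _)
  have e3 : ε ≤ η / 2 := (min_le_right _ _).trans (min_le_right _ _)
  obtain ⟨N, X, s, hconf, hfine⟩ := T5.min_conf L
    (fun x y ξ η hx hy hxS hyS hd hne => T4.first_variation L hx hy hxS hyS hd hne)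
    ⟨z0, hz0⟩ ε hεpos
  obtain ⟨ε4, hε4, hnear⟩ := edges_near L hconf.mem hconf.inj
  have hk := hker N X hconf.mem hconf.inj (fun z hz => by
    obtain ⟨i, hi⟩ := hfine z hz
    exact ⟨i, hi.trans_le e1⟩)
  obtain ⟨X', m, m1, m2, m3, m4, m5, m6⟩ := T7.perturb L hconf hk (min ε4 ε) (lt_min hε4 hεpos)
  have hd' : ∀ i, ∃ j k, 0 < m i j ∧ 0 < m i k ∧ L.u (X' i, X' j) ≠ L.u (X' i, X' k) ∧
      L.u (X' i, X' j) ≠ - L.u (X' i, X' k) := by
    intro i
    obtain ⟨j, k, d1, d2, d3, d4, d5, d6⟩ := hdir N X' m1 (fun z hz => by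
      obtain ⟨i, hi⟩ := hfine z hz
      refine ⟨i, ?_⟩
      have h1 : ‖X' i - X i‖ < ε := (m2 i).trans_le (min_le_right _ _)
      calc ‖z - X' i‖ = ‖(z - X i) - (X' i - X i)‖ := by congr 1; abel
        _ ≤ ‖z - X i‖ + ‖X' i - X i‖ := norm_sub_le _ _
        _ < ε2 := by linarith) i
    refine ⟨j, k, (m4 i j).2 ?_, (m4 i k).2 ?_, d5, d6⟩
    · exact hnear X' m1 (fun i => (m2 i).trans_le (min_le_left _ _)) i j d1 d3
    · exact hnear X' m1 (fun i => (m2 i).trans_le (min_le_left _ _)) i k d2 d4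
  obtain ⟨i0, hi0⟩ := hfine z0 hz0
  obtain ⟨G, hG, hG2⟩ := T8.net_of_conf L X' m m1 m3 m5 m6 hd' i0
  refine ⟨G, hG, X' i0, hG2, hηU ?_⟩
  rw [mem_ball, dist_eq_norm]
  have h1 : ‖X' i0 - X i0‖ < ε := (m2 i0).trans_le (min_le_right _ _)
  calc ‖X' i0 - z0‖ = ‖(X' i0 - X i0) - (z0 - X i0)‖ := by congr 1; abel
    _ ≤ ‖X' i0 - X i0‖ + ‖z0 - X i0‖ := norm_sub_le _ _
    _ < η := by linarith

/-- density of nontrivial stationary nets on compact surfaces in a Euclidean space -/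
theorem density {n : ℕ} (S : Set (EuclideanSpace ℝ (Fin n))) (hc : IsCompact S)
    (hS : IsSurface S) (U : Set (EuclideanSpace ℝ (Fin n))) (hU : IsOpen U)
    (hne : (S ∩ U).Nonempty) :
    ∃ G : StatNet S, G.Nontrivial ∧ (G.image ∩ U).Nonempty := by
  obtain ⟨R, rfl⟩ := T1.tube S hc hS
  exact density_RS R U hU hne

end Pool.Agent.H864R3
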