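import Pool.Agent.H864R3.Defs
import Pool.Agent.H864R3.NetDefs

set_option autoImplicit false
set_option linter.unusedVariables false

open Set Metric Filter Topology
open scoped ContDiff InnerProductSpace NNReal

namespace Pool.Agent.H864R3.Stubs

variable {E : Type} [NormedAddCommGroup E] [InnerProductSpace ℝ E] [FiniteDimensional ℝ E]

/-- TASK T1 (tubular neighbourhood / nearest point retraction). -/
theorem tube {n : ℕ} (S : Set (EuclideanSpace ℝ (Fin n))) (hc : IsCompact S) (hS : IsSurface S) :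
    ∃ R : RS (EuclideanSpace ℝ (Fin n)), R.S = S := sorry

/-- TASK T2 (linear algebra: stresses with the smallest kernel are dense). -/
theorem stress_perturb {T F : Type} [AddCommGroup T] [Module ℝ T]
    [FiniteDimensional ℝ T] [NormedAddCommGroup F] [NormedSpace ℝ F]
    (b : F →ₗ[ℝ] (T →ₗ[ℝ] T →ₗ[ℝ] ℝ)) (hsym : ∀ s x y, b s x y = b s y x) (K : Submodule ℝ T)
    (hK : ∀ s, ∀ x ∈ K, ∀ y, b s x y = 0) (hsep : ∀ v, v ∉ K → ∃ s, b s v v ≠ 0) (s0 : F) (ε : ℝ)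
    (hε : 0 < ε) : ∃ s, ‖s - s0‖ < ε ∧ ∀ x, (∀ y, b s x y = 0) → x ∈ K := sorry

/-- TASK T2b (duality). -/
theorem duality {A : Type} [AddCommGroup A] [Module ℝ A] {n : Type} [Fintype n]
    (R : A →ₗ[ℝ] (n → ℝ)) (g : n → ℝ)
    (h : ∀ s : n → ℝ, (∀ a, ∑ e, s e * R a e = 0) → ∑ e, s e * g e = 0) : ∃ a, R a = g := sorry

/-- TASK T3 (the local exponential map is invertible). -/
theorem exists_LE (S : RS E) : Nonempty (LE S) := sorry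

/-- TASK T4a (first variation of length). -/
theorem first_variation {S : RS E} (L : LE S) {x y : ℝ → E} {ξ η : E} (hx : HasDerivAt x ξ 0)
    (hy : HasDerivAt y η 0) (hxS : ∀ᶠ τ in 𝓝 (0:ℝ), x τ ∈ S.S) (hyS : ∀ᶠ τ in 𝓝 (0:ℝ), y τ ∈ S.S)
    (hd : ‖x 0 - y 0‖ < L.ρ) (hne : x 0 ≠ y 0) :
    HasDerivAt (fun τ => L.len (x τ, y τ))
      (⟪η, L.w (x 0, y 0)⟫_ℝ - ⟪ξ, L.u (x 0, y 0)⟫_ℝ) 0 := sorry

/-- TASK T4b (variation of the end directions). -/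
theorem second_variation {S : RS E} (L : LE S) {x y : ℝ → E} {ξ η : E} (hx : HasDerivAt x ξ 0)
    (hy : HasDerivAt y η 0) (hxS : ∀ᶠ τ in 𝓝 (0:ℝ), x τ ∈ S.S) (hyS : ∀ᶠ τ in 𝓝 (0:ℝ), y τ ∈ S.S)
    (hE : L.Edge (x 0) (y 0)) {f : E × E × E} (hf : f ∈ S.FB) (hf1 : f.1 = x 0)
    (hf2 : f.2.1 = L.u (x 0, y 0)) {l : ℝ} (hl : l = L.len (x 0, y 0)) :
    HasDerivAt (fun τ => L.u (x τ, y τ)) (S.B (x 0) ξ (L.u (x 0, y 0)) +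
      ((⟪η, (S.Φ l f).2.2⟫_ℝ - S.cj f l * ⟪ξ, f.2.2⟫_ℝ) / S.sj f l) • f.2.2) 0 ∧
    HasDerivAt (fun τ => L.w (x τ, y τ)) (S.B (y 0) η (L.w (x 0, y 0)) +
      ((S.sj' f l * ⟪η, (S.Φ l f).2.2⟫_ℝ - ⟪ξ, f.2.2⟫_ℝ) / S.sj f l) • (S.Φ l f).2.2) 0 := sorry

/-- TASK T5 (minimal configurations: fine, with a positive equilibrium stress). -/
theorem min_conf {S : RS E} (L : LE S) (hne : S.S.Nonempty) (ε : ℝ) (hε : 0 < ε) :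
    ∃ (N : ℕ) (X : Fin N → E) (s : Fin N → Fin N → ℝ), StressConf L N X s ∧
      ∀ z ∈ S.S, ∃ i, ‖z - X i‖ < ε := sorry

/-- TASK T6 (compactness). `hK`, `hU` are proved elsewhere (module K). -/
theorem compactness {S : RS E} (L : LE S)
    (hK : ∀ v a : E → E, (∀ x ∈ S.S, S.P x (v x) = v x) → (∀ x ∈ S.S, S.P x (a x) = a x) →
      (∃ C, ∀ x ∈ S.S, ‖v x‖ ≤ C ∧ ‖a x‖ ≤ C) →
      (∀ f ∈ S.FB, ∀ t : ℝ, 0 < t → t < L.r →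
        S.eqn f t (v f.1) (a f.1) (v (S.Φ t f).1) (a (S.Φ t f).1)) →
      ContinuousOn v S.S ∧ ContinuousOn a S.S ∧ v ∈ L.KF)
    (hU : ∀ v a : E → E, (∀ x ∈ S.S, S.P x (v x) = v x) → (∀ x ∈ S.S, S.P x (a x) = a x) →
      (∃ C, ∀ x ∈ S.S, ‖v x‖ ≤ C ∧ ‖a x‖ ≤ C) →
      (∀ f ∈ S.FB, ∀ t : ℝ, 0 < t → t < L.r →
        S.eqn f t (v f.1) (a f.1) (v (S.Φ t f).1) (a (S.Φ t f).1)) →
      ∀ z ∈ S.S, ∀ v' a' : E, S.P z v' = v' → S.P z a' = a' →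
      (∀ f ∈ S.FB, f.1 = z → ∀ t : ℝ, 0 < t → t < L.r →
        S.eqn f t v' a' (v (S.Φ t f).1) (a (S.Φ t f).1)) → v' = v z ∧ a' = a z) :
    ∃ ε > 0, ∀ Q : Finset E, (∀ x ∈ Q, x ∈ S.S) → (∀ z ∈ S.S, ∃ x ∈ Q, ‖z - x‖ < ε) →
      ∀ 𝒱 : Set (E → E),
        (∀ v ∈ 𝒱, (∀ x ∈ Q, S.P x (v x) = v x) ∧ ∃ a : E → E, (∀ x ∈ Q, S.P x (a x) = a x) ∧
          ∀ f ∈ S.FB, ∀ t : ℝ, 0 < t → t < L.r → f.1 ∈ Q → (S.Φ t f).1 ∈ Q →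
            S.eqn f t (v f.1) (a f.1) (v (S.Φ t f).1) (a (S.Φ t f).1)) →
        (∀ v ∈ 𝒱, ∀ κ ∈ L.KF, ∀ c : ℝ, (fun x => c • (v x - κ x)) ∈ 𝒱) →
        ∀ v ∈ 𝒱, ∃ κ ∈ L.KF, ∀ x ∈ Q, v x = κ x := sorry

/-- TASK T7 (perturbation to integer multiplicities; implicit function theorem). -/
theorem perturb {S : RS E} (L : LE S) {N : ℕ} {X : Fin N → E} {s : Fin N → Fin N → ℝ}
    (h : StressConf L N X s)
    (hker : ∀ v : Fin N → E, (∀ i, S.P (X i) (v i) = v i) →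
      (∀ s', L.Bal X s' → L.bs X s' v v = 0) → ∃ κ ∈ L.KF, ∀ i, v i = κ (X i))
    (ε : ℝ) (hε : 0 < ε) :
    ∃ (X' : Fin N → E) (m : Fin N → Fin N → ℕ), (∀ i, X' i ∈ S.S) ∧ (∀ i, ‖X' i - X i‖ < ε) ∧
      Function.Injective X' ∧ (∀ i j, 0 < m i j ↔ L.Edge (X i) (X j)) ∧
      (∀ i j, 0 < m i j → L.Edge (X' i) (X' j)) ∧
      ∀ i, ∑ j, (m i j : ℝ) • L.u (X' i, X' j) = ∑ j, (m j i : ℝ) • L.w (X' j, X' i) := sorry

/-- TASK T8 (the net of a configuration with multiplicities). -/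
theorem net_of_conf {S : RS E} (L : LE S) {N : ℕ} (X : Fin N → E) (m : Fin N → Fin N → ℕ)
    (hX : ∀ i, X i ∈ S.S) (hinj : Function.Injective X)
    (hm : ∀ i j, 0 < m i j → L.Edge (X i) (X j))
    (hbal : ∀ i, ∑ j, (m i j : ℝ) • L.u (X i, X j) = ∑ j, (m j i : ℝ) • L.w (X j, X i))
    (hdir : ∀ i, ∃ j k, 0 < m i j ∧ 0 < m i k ∧ L.u (X i, X j) ≠ L.u (X i, X k) ∧
      L.u (X i, X j) ≠ - L.u (X i, X k)) (i0 : Fin N) :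
    ∃ G : StatNet S.S, G.Nontrivial ∧ X i0 ∈ G.image := sorry

/-- TASK T9 (fine configurations have edges in all directions). -/
theorem directions {S : RS E} (L : LE S) : ∃ ε > 0, ∀ (N : ℕ) (X : Fin N → E),
    (∀ i, X i ∈ S.S) → (∀ z ∈ S.S, ∃ i, ‖z - X i‖ < ε) → ∀ i, ∃ j k,
      L.Edge (X i) (X j) ∧ L.Edge (X i) (X k) ∧ ‖L.W (X i, X j)‖ ≤ 3 / 4 * L.r ∧
      ‖L.W (X i, X k)‖ ≤ 3 / 4 * L.r ∧
      L.u (X i, X j) ≠ L.u (X i, X k) ∧ L.u (X i, X j) ≠ - L.u (X i, X k) := sorry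

/-- TASK T10 (real analysis: the only functions). -/
theorem trig_const (β : ℝ → ℝ) (hc : Continuous β)
    (h1 : ∀ θ φ, β (θ + φ) + β (θ - φ) = 2 * Real.cos φ ^ 2 * β θ +
      2 * Real.sin φ ^ 2 * β (θ + Real.pi / 2))
    (h2 : ∀ θ φ, β (θ + φ) ^ 2 + β (θ - φ) ^ 2 = 2 * Real.cos φ ^ 2 * β θ ^ 2 +
      2 * Real.sin φ ^ 2 * β (θ + Real.pi / 2) ^ 2)
    (hper : ∀ θ, β (θ + Real.pi) = β θ) : ∀ θ θ', β θ = β θ' := sorry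

end Pool.Agent.H864R3.Stubs
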