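import Pool.Agent.H864R3.K2

set_option autoImplicit false
set_option linter.unusedVariables false

open Set Metric Filter Topology
open scoped ContDiff InnerProductSpace NNReal

namespace Pool.Agent.H864R3.Stubs

variable {E : Type} [NormedAddCommGroup E] [InnerProductSpace ℝ E] [FiniteDimensional ℝ E]

/-- TASK K4a: isotropic solutions are smooth. -/
theorem loc_smooth {S : RS E} {L : LE S} {v a : E → E} (F : Fld L v a)
    (hiso : ∀ f ∈ S.FB, ∀ θ : ℝ, bf L v (RS.rot θ f) = bf L v f) (y0 : E) (hy0 : y0 ∈ S.S) :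
    ∃ V : E → E, ContDiffAt ℝ ∞ V y0 ∧ ∀ᶠ y in 𝓝 y0, y ∈ S.S → V y = v y := sorry

/-- TASK K4b: smooth isotropic solutions are Killing fields. -/
theorem killing {S : RS E} {L : LE S} {v a : E → E} (F : Fld L v a)
    (hiso : ∀ f ∈ S.FB, ∀ θ : ℝ, bf L v (RS.rot θ f) = bf L v f)
    (hsm : ∀ y0 ∈ S.S, ∃ V : E → E, ContDiffAt ℝ ∞ V y0 ∧ ∀ᶠ y in 𝓝 y0, y ∈ S.S → V y = v y) :
    ∀ f ∈ S.FB, ∀ t : ℝ, ⟪v (S.Φ t f).1, (S.Φ t f).2.1⟫_ℝ = ⟪v f.1, f.2.1⟫_ℝ := sorry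

end Pool.Agent.H864R3.Stubs
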